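import Pool.Agent.H467R2.Aug.DefsC

/-!
# AEO: arithmetic for `D` even, `b` odd
-/

namespace H467Aug

open Finset

theorem aeo_term {D a b c e f m : ℕ} (hD : D = b + a) (hb : 1 ≤ b) (ha : 1 ≤ a)
    (h : c ≤ D → D ≤ e + f + m) :
    D ≤ D * (if D < c then 1 else 0) + (D * m + a * f + b * e) := by
  by_cases hc : D < c
  · rw [if_pos hc]
    omega
  · rw [if_neg hc]
    have h1 := h (not_lt.1 hc)
    rcases Nat.eq_zero_or_pos m with hm | hm
    · have h2 : f ≤ a * f := Nat.le_mul_of_pos_left f ha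
      have h3 : e ≤ b * e := Nat.le_mul_of_pos_left e hb
      omega
    · have h2 : D ≤ D * m := Nat.le_mul_of_pos_right D hm
      omega

theorem t_AEO : S_AEO := by
  intro n D b ι F c e f m i s t mS mT m0 m1 hb hD hDe hbo ⟨h1, h2, h3, h4, h5, h6⟩
  obtain ⟨a, ha⟩ : ∃ a, D = b + a := ⟨D - b, by omega⟩
  have hDb : D - b = a := by omega
  have hb1 : 1 ≤ b := hbo.pos
  have ha1 : 1 ≤ a := by omega
  rw [hDb] at h4
  obtain ⟨A, hA⟩ : ∃ A, A = (F.filter fun K => D < c K).card := ⟨_, rfl⟩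
  have k1 : D * F.card ≤ D * A + (D * ∑ K ∈ F, m K + a * ∑ K ∈ F, f K + b * ∑ K ∈ F, e K) := by
    have h := sum_le_sum fun K hK => aeo_term (c := c K) ha hb1 ha1 ((h1 K hK).2.2.1)
    rw [sum_const, smul_eq_mul, sum_add_distrib, sum_add_distrib, sum_add_distrib, ← mul_sum,
      ← mul_sum, ← mul_sum, ← mul_sum, ← card_filter, ← hA] at h
    rw [mul_comm D F.card]
    exact h
  have k2 : A * (D + 1) ≤ n := by
    calc A * (D + 1) = ∑ K ∈ F.filter (fun K => D < c K), (D + 1) := by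
          rw [sum_const, smul_eq_mul, hA]
      _ ≤ ∑ K ∈ F.filter (fun K => D < c K), c K := by
          refine sum_le_sum fun K hK => ?_
          exact (mem_filter.1 hK).2
      _ ≤ ∑ K ∈ F, c K := sum_le_sum_of_subset (filter_subset _ _)
      _ ≤ n := by omega
  have k3 : A ≤ n / (D + 1) := (Nat.le_div_iff_mul_le (by omega)).2 k2
  obtain ⟨X, hX⟩ : ∃ X, X = n / (D + 1) - (n / (D + 1) + n) % 2 := ⟨_, rfl⟩
  rw [← hX] at h3 h4
  have k4 : n / (D + 1) ≤ X + 1 := by omega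
  have k5 : X + 2 ≤ A := by
    have e3 := Nat.mul_le_mul_left a h3
    have e4 := Nat.mul_le_mul_left b h4
    have hD1 : 0 < D := by omega
    refine Nat.le_of_mul_le_mul_left (?_ : D * (X + 2) ≤ D * A) hD1
    have e5 : D * (X + 2) + (D * ∑ K ∈ F, m K + a * ∑ K ∈ F, f K + b * ∑ K ∈ F, e K) ≤
        D * F.card := by
      rw [ha]
      nlinarith [Nat.zero_le (a * mS), Nat.zero_le (a * mT), Nat.zero_le (a * m0),
        Nat.zero_le (b * mS), Nat.zero_le (b * m0)]
    omega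
  omega

end H467Aug
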