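import Pool.Agent.H467R2.Aug.DefsC

/-!
# AOE: arithmetic for `D` odd, `b` even
-/

namespace H467Aug

open Finset

theorem aoe_par {D b c e f m i : ℕ} (hD : Odd D) (hb : Even b) (h : e + f + m + 2 * i = D * c)
    (ho : Odd (b * c + f)) : f % 2 = 1 ∧ (e + m) % 2 = (c + 1) % 2 := by
  have h1 : Even (b * c) := hb.mul_right c
  have h2 : f % 2 = 1 := by
    rcases Nat.even_or_odd f with hf | hf
    · exact absurd (h1.add hf) (Nat.not_even_iff_odd.2 ho)
    · exact Nat.odd_iff.1 hf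
  refine ⟨h2, ?_⟩
  obtain ⟨k, rfl⟩ := hD
  have h3 : (2 * k + 1) * c = 2 * (k * c) + c := by ring
  rw [h3] at h
  omega

theorem t_AOE : S_AOE := by
  intro n D b ι F c e f m i s t mS mT m0 m1 hb hD hDo hbe ⟨h1, h2, h3, h4, h5, h6⟩
  obtain ⟨a, ha⟩ : ∃ a, D = b + a := ⟨D - b, by omega⟩
  have hDb : D - b = a := by omega
  have ha1 : 1 ≤ a := by omega
  rw [hDb] at h4
  obtain ⟨A, hA⟩ : ∃ A, A = (F.filter fun K => (e K = 0 ∧ m K = 0) ∧ D < c K).card := ⟨_, rfl⟩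
  obtain ⟨B, hB⟩ : ∃ B, B = (F.filter fun K => (e K = 0 ∧ m K = 0) ∧ ¬ D < c K).card := ⟨_, rfl⟩
  have k1 : F.card + (D - 1) * B ≤ ∑ K ∈ F, m K + ∑ K ∈ F, f K := by
    have h : ∑ K ∈ F, (1 + (D - 1) * (if (e K = 0 ∧ m K = 0) ∧ ¬ D < c K then 1 else 0)) ≤
        ∑ K ∈ F, (m K + f K) := by
      refine sum_le_sum fun K hK => ?_
      obtain ⟨a1, a2, a3, a4⟩ := h1 K hK
      obtain ⟨a5, a6⟩ := aoe_par hDo hbe a2 a4
      split_ifs with hc
      · have := a3 (not_lt.1 hc.2)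
        omega
      · omega
    rw [sum_add_distrib, sum_add_distrib, ← mul_sum, ← card_filter, ← hB, sum_const, smul_eq_mul,
      mul_one] at h
    exact h
  have k2 : F.card ≤ ∑ K ∈ F, m K + ∑ K ∈ F, e K + A + B := by
    have h : ∑ K ∈ F, 1 ≤ ∑ K ∈ F, (m K + e K +
        (if (e K = 0 ∧ m K = 0) ∧ D < c K then 1 else 0) +
        (if (e K = 0 ∧ m K = 0) ∧ ¬ D < c K then 1 else 0)) := by
      refine sum_le_sum fun K hK => ?_
      by_cases hem : e K = 0 ∧ m K = 0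
      · by_cases hc : D < c K
        · rw [if_pos ⟨hem, hc⟩]
          omega
        · rw [if_pos (⟨hem, hc⟩ : (e K = 0 ∧ m K = 0) ∧ ¬ D < c K)]
          omega
      · omega
    rw [sum_add_distrib, sum_add_distrib, sum_add_distrib, ← card_filter, ← card_filter, ← hA,
      ← hB, sum_const, smul_eq_mul, mul_one] at h
    exact h
  have k3 : A * (D + 2) ≤ ∑ K ∈ F, c K := by
    calc A * (D + 2) = ∑ K ∈ F.filter (fun K => (e K = 0 ∧ m K = 0) ∧ D < c K), (D + 2) := by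
          rw [sum_const, smul_eq_mul, hA]
      _ ≤ ∑ K ∈ F.filter (fun K => (e K = 0 ∧ m K = 0) ∧ D < c K), c K := by
          refine sum_le_sum fun K hK => ?_
          obtain ⟨hK, hem, hc⟩ := mem_filter.1 hK
          obtain ⟨a1, a2, a3, a4⟩ := h1 K hK
          obtain ⟨a5, a6⟩ := aoe_par hDo hbe a2 a4
          have := Nat.odd_iff.1 hDo
          omega
      _ ≤ ∑ K ∈ F, c K := sum_le_sum_of_subset (filter_subset _ _)
  obtain ⟨X, hX⟩ : ∃ X, X = gOE n D b := ⟨_, rfl⟩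
  obtain ⟨Y, hY⟩ : ∃ Y, Y = n % 2 := ⟨_, rfl⟩
  rw [← hX, ← hY] at h3 h4
  have hY1 : Y ≤ 1 := by omega
  obtain ⟨SM, hSM⟩ : ∃ x, x = ∑ K ∈ F, m K := ⟨_, rfl⟩
  obtain ⟨SF, hSF⟩ : ∃ x, x = ∑ K ∈ F, f K := ⟨_, rfl⟩
  obtain ⟨SE, hSE⟩ : ∃ x, x = ∑ K ∈ F, e K := ⟨_, rfl⟩
  obtain ⟨SC, hSC⟩ : ∃ x, x = ∑ K ∈ F, c K := ⟨_, rfl⟩
  rw [← hSM, ← hSF] at h3 k1
  rw [← hSM, ← hSE] at h4 k2
  rw [← hSC] at h2 k3
  have hD1 : (D - 1) * B = b * B + (a - 1) * B := by
    rw [← add_mul]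
    congr 1
    omega
  rw [hD1] at k1
  -- third clause
  have j3 : X + 2 + b * s + b * B ≤ b * t + Y := by
    have := Nat.zero_le ((a - 1) * B)
    omega
  -- fourth clause
  have j4 : X + 2 + a * t ≤ a * s + A + B + Y := by omega
  have hr : s + B + 1 ≤ t := by
    by_contra hcon
    have h7 : t ≤ s + B := by omega
    have h8 : b * t ≤ b * (s + B) := Nat.mul_le_mul_left b h7
    rw [mul_add] at h8
    omega
  obtain ⟨R, hR⟩ : ∃ R, t = s + B + 1 + R := ⟨t - (s + B + 1), by omega⟩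
  subst hR
  have l1 : X + 2 ≤ b * (R + 1) + Y := by
    have : b * (s + B + 1 + R) = b * s + b * B + b * (R + 1) := by ring
    omega
  have l2 : X + 2 + a * (R + 1) ≤ A + Y := by
    have h7 : a * (s + B + 1 + R) = a * s + a * B + a * (R + 1) := by ring
    have h8 : B ≤ a * B := Nat.le_mul_of_pos_left B ha1
    omega
  have l3 : A ≤ (n - (R + 1)) / (D + 2) := by
    rw [Nat.le_div_iff_mul_le (by omega)]
    omega
  have l4 : X + 2 + a * (R + 1) ≤ D * (R + 1) + Y := by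
    have : D * (R + 1) = b * (R + 1) + a * (R + 1) := by rw [ha]; ring
    omega
  have l5 := Finset.le_sup (f := fun t => qQ n D (t + 1) + n % 2 - (D - b) * (t + 1))
    (mem_range.2 (by omega : R < n))
  have l6 : (Finset.range n).sup (fun t => qQ n D (t + 1) + n % 2 - (D - b) * (t + 1)) = X := by
    rw [hX]
    rfl
  rw [l6] at l5
  simp only [hDb, ← hY] at l5
  have l7 : min ((n - (R + 1)) / (D + 2)) (D * (R + 1)) ≤ qQ n D (R + 1) + 1 := by
    unfold qQ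
    omega
  have l8 : X + 2 + a * (R + 1) ≤ min ((n - (R + 1)) / (D + 2)) (D * (R + 1)) + Y := by
    rw [← min_add_add_right, le_min_iff]
    constructor
    · omega
    · exact l4
  omega

end H467Aug
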