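import Pool.Agent.H467R2.Aug.DefsC

set_option autoImplicit false

namespace H467Aug

theorem aoo_fin (n D b Q s0 : ℕ) (h1 : 1 ≤ s0) (h2 : gOO n D b + 2 + b * s0 ≤ D * s0)
    (h3 : (Q + n % 2) * (D + 2) + s0 ≤ n) (h4 : gOO n D b + 2 + b * s0 ≤ Q) : False := by
  have h5 : Q + n % 2 ≤ (n - s0) / (D + 2) := by
    rw [Nat.le_div_iff_mul_le (by omega)]
    omega
  have h6 : Q ≤ pP n D s0 + 1 := by
    unfold pP
    omega
  have h7 : min (pP n D s0) (D * s0) - b * s0 ≤ gOO n D b :=
    Finset.le_sup (f := fun s => min (pP n D s) (D * s) - b * s) (Finset.mem_range.2 (by omega))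
  rcases le_total (pP n D s0) (D * s0) with h | h
  · rw [min_eq_left h] at h7
    omega
  · rw [min_eq_right h] at h7
    omega

theorem aoo_arith (X D b s t A B x y : ℕ) (hb : 1 ≤ b) (hbD : b < D)
    (h1 : X + 2 + b * s + x ≤ b * t + A + B)
    (h2 : X + 2 + (D - b) * t + (D - 1) * (B + y) ≤ (D - b) * s) :
    ∃ s0, s = t + B + y + s0 ∧ 1 ≤ s0 ∧ X + 2 + b * s0 ≤ D * s0 ∧
      X + 2 + x + y + b * s0 ≤ A := by
  obtain ⟨k, rfl⟩ : ∃ k, D = b + k := ⟨D - b, by omega⟩
  obtain ⟨b', rfl⟩ : ∃ b', b = b' + 1 := ⟨b - 1, by omega⟩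
  have e1 : b' + 1 + k - (b' + 1) = k := by omega
  have e2 : b' + 1 + k - 1 = b' + k := by omega
  rw [e1, e2] at h2
  have h3 : k * (t + B + y) < k * s := by
    have : k * (t + B + y) + b' * (B + y) = k * t + (b' + k) * (B + y) := by ring
    have h4 : 0 ≤ b' * (B + y) := Nat.zero_le _
    omega
  have h5 : t + B + y < s := lt_of_mul_lt_mul_left h3 (Nat.zero_le _)
  obtain ⟨s0, rfl⟩ : ∃ s0, s = t + B + y + s0 := ⟨s - (t + B + y), by omega⟩
  refine ⟨s0, rfl, by omega, ?_, ?_⟩
  · have : k * (t + B + y + s0) + b' * (B + y) = k * t + (b' + k) * (B + y) + k * s0 := by ring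
    have h6 : (b' + 1 + k) * s0 = (b' + 1) * s0 + k * s0 := by ring
    have h4 : 0 ≤ b' * (B + y) := Nat.zero_le _
    omega
  · have h6 : (b' + 1) * (t + B + y + s0) =
        (b' + 1) * t + (b' * B + b' * y) + B + y + (b' + 1) * s0 := by ring
    have h4 : 0 ≤ b' * B + b' * y := Nat.zero_le _
    omega

theorem t_AOO : S_AOO := by
  intro n D b ι F c e f m i s t mS mT m0 m1 hbD hDn hD hb hN
  obtain ⟨N1, N2, N3, N4, N5, N6⟩ := hN
  classical
  have hb1 : 1 ≤ b := by obtain ⟨k, hk⟩ := hb; omega
  have hpar : ∀ K ∈ F, (c K + f K) % 2 = 1 ∧ (e K + m K) % 2 = 1 := by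
    intro K hK
    obtain ⟨h1, h2, h3, h4⟩ := N1 K hK
    obtain ⟨k, hk⟩ := hb
    obtain ⟨l, hl⟩ := hD
    obtain ⟨r, hr⟩ := h4
    have e1 : b * c K = 2 * (k * c K) + c K := by rw [hk]; ring
    have e2 : D * c K = 2 * (l * c K) + c K := by rw [hl]; ring
    omega
  have hDodd : D % 2 = 1 := Nat.odd_iff.1 hD
  set a : ι → ℕ := fun K => if f K = 0 ∧ m K = 0 ∧ D < c K then 1 else 0 with ha
  set β : ι → ℕ := fun K => if f K = 0 ∧ m K = 0 ∧ c K ≤ D then 1 else 0 with hβ
  have S1 : ∀ δ : ι → ℕ, (∀ K ∈ F, 1 + δ K ≤ a K + β K + (m K + f K)) →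
      F.card + ∑ K ∈ F, δ K ≤ ∑ K ∈ F, a K + ∑ K ∈ F, β K + (∑ K ∈ F, m K + ∑ K ∈ F, f K) := by
    intro δ h
    have := Finset.sum_le_sum h
    simpa [Finset.sum_add_distrib] using this
  have S2 : ∀ δ : ι → ℕ, (∀ K ∈ F, 1 + (D - 1) * (β K + δ K) ≤ m K + e K) →
      F.card + (D - 1) * (∑ K ∈ F, β K + ∑ K ∈ F, δ K) ≤ ∑ K ∈ F, m K + ∑ K ∈ F, e K := by
    intro δ h
    have := Finset.sum_le_sum h
    simpa [Finset.sum_add_distrib, ← Finset.mul_sum] using this
  have S3 : ∀ δ : ι → ℕ, (∀ K ∈ F, (D + 2) * (a K + δ K) ≤ c K) →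
      (D + 2) * (∑ K ∈ F, a K + ∑ K ∈ F, δ K) ≤ ∑ K ∈ F, c K := by
    intro δ h
    have := Finset.sum_le_sum h
    simpa [Finset.sum_add_distrib, ← Finset.mul_sum] using this
  have P1 : ∀ K ∈ F, 1 ≤ a K + β K + (m K + f K) := by
    intro K hK
    by_cases h1 : f K = 0
    · by_cases h2 : m K = 0
      · rcases lt_or_ge D (c K) with h3 | h3
        · have : a K = 1 := by simp [ha, h1, h2, h3]
          omega
        · have : β K = 1 := by simp [hβ, h1, h2, h3]
          omega
      · omega
    · omega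
  have P2 : ∀ K ∈ F, 1 + (D - 1) * β K ≤ m K + e K := by
    intro K hK
    obtain ⟨h1, h2, h3, h4⟩ := N1 K hK
    obtain ⟨h5, h6⟩ := hpar K hK
    by_cases h : f K = 0 ∧ m K = 0 ∧ c K ≤ D
    · have : β K = 1 := by simp [hβ, h]
      rw [this]
      have := h3 h.2.2
      omega
    · have : β K = 0 := by simp only [hβ]; rw [if_neg h]
      rw [this]
      omega
  have P3 : ∀ K ∈ F, (D + 2) * a K ≤ c K := by
    intro K hK
    obtain ⟨h5, h6⟩ := hpar K hK
    by_cases h : f K = 0 ∧ m K = 0 ∧ D < c K
    · have : a K = 1 := by simp [ha, h]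
      rw [this]
      omega
    · have : a K = 0 := by simp only [ha]; rw [if_neg h]
      rw [this]
      omega
  have Z1 := S1 (fun _ => 0) (by intro K hK; have := P1 K hK; omega)
  have Z2 := S2 (fun _ => 0) (by intro K hK; have := P2 K hK; simpa using this)
  have Z3 := S3 (fun _ => 0) (by intro K hK; have := P3 K hK; simpa using this)
  simp only [Finset.sum_const_zero, add_zero] at Z1 Z2 Z3
  generalize hX : gOO n D b = X at N3 N4
  set A := ∑ K ∈ F, a K with hA
  set B := ∑ K ∈ F, β K with hB
  have hcom : ∀ y : ℕ, (D + 2) * (A + y) = (A + y) * (D + 2) := fun y => mul_comm _ _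
  have hcom0 : (D + 2) * A = A * (D + 2) := mul_comm _ _
  by_cases hn : n % 2 = 0
  · obtain ⟨s0, h1, h2, h3, h4⟩ := aoo_arith X D b s t A B 0 0 hb1 hbD (by omega) (by
      rw [add_zero]; omega)
    subst hX
    refine aoo_fin n D b A s0 h2 h3 ?_ (by omega)
    rw [hn, add_zero, ← hcom0]
    omega
  · have hn1 : n % 2 = 1 := by omega
    by_cases hc1 : 1 ≤ mS + mT + m0
    · obtain ⟨s0, h1, h2, h3, h4⟩ := aoo_arith X D b s t A B 1 0 hb1 hbD (by omega) (by
        rw [add_zero]; omega)
      subst hX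
      refine aoo_fin n D b (A - 1) s0 h2 h3 ?_ (by omega)
      have : A - 1 + n % 2 = A := by omega
      rw [this, ← hcom0]
      omega
    · have hm1 : m1 = 0 := by
        by_contra hne
        have := N6 (by omega)
        omega
      have hnD : (n * D) % 2 = 1 := by
        rw [Nat.mul_mod, hn1, hDodd]
      have hsm : ∑ K ∈ F, m K ≠ 0 := by
        intro h0
        rw [Nat.even_iff] at N5
        omega
      obtain ⟨K0, hK0, hmK0⟩ := Finset.exists_ne_zero_of_sum_ne_zero hsm
      have hδ : ∑ K ∈ F, (if K = K0 then 1 else 0) = 1 := by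
        rw [Finset.sum_ite_eq' F K0 (fun _ => 1), if_pos hK0]
      by_cases hc2 : 2 ≤ m K0 + f K0
      · have Y1 := S1 (fun K => if K = K0 then 1 else 0) (by
          intro K hK
          by_cases h : K = K0
          · subst h
            simp only [if_true]
            omega
          · simp only [if_neg h]
            have := P1 K hK
            omega)
        rw [hδ] at Y1
        obtain ⟨s0, h1, h2, h3, h4⟩ := aoo_arith X D b s t A B 1 0 hb1 hbD (by omega) (by
          rw [add_zero]; omega)
        subst hX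
        refine aoo_fin n D b (A - 1) s0 h2 h3 ?_ (by omega)
        have : A - 1 + n % 2 = A := by omega
        rw [this, ← hcom0]
        omega
      · have hm : m K0 = 1 := by omega
        have hf : f K0 = 0 := by omega
        obtain ⟨q1, q2, q3, q4⟩ := N1 K0 hK0
        obtain ⟨q5, q6⟩ := hpar K0 hK0
        have ha0 : a K0 = 0 := by simp [ha, hm]
        have hβ0 : β K0 = 0 := by simp [hβ, hm]
        rcases lt_or_ge D (c K0) with hc3 | hc3
        · have Y3 := S3 (fun K => if K = K0 then 1 else 0) (by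
            intro K hK
            by_cases h : K = K0
            · subst h
              simp only [if_true, ha0]
              omega
            · simp only [if_neg h]
              have := P3 K hK
              simpa using this)
          rw [hδ, hcom] at Y3
          obtain ⟨s0, h1, h2, h3, h4⟩ := aoo_arith X D b s t A B 0 0 hb1 hbD (by omega) (by
            rw [add_zero]; omega)
          subst hX
          refine aoo_fin n D b A s0 h2 h3 ?_ (by omega)
          rw [hn1]
          omega
        · have Y2 := S2 (fun K => if K = K0 then 1 else 0) (by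
            intro K hK
            by_cases h : K = K0
            · subst h
              have := q3 hc3
              simp only [if_true, hβ0]
              omega
            · simp only [if_neg h]
              have := P2 K hK
              simpa using this)
          rw [hδ] at Y2
          obtain ⟨s0, h1, h2, h3, h4⟩ := aoo_arith X D b s t A B 0 1 hb1 hbD (by omega) (by
            omega)
          subst hX
          refine aoo_fin n D b (A - 1) s0 h2 h3 ?_ (by omega)
          have : A - 1 + n % 2 = A := by omega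
          rw [this, ← hcom0]
          omega

end H467Aug
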