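import Pool.Agent.H467R2.Aug.DefsC

set_option autoImplicit false

namespace H467Aug

theorem t_ATT : S_ATT := by
  intro n D b hbD hDn hD hb hpos
  have hex : ∃ s, s < n + 1 ∧ min (pP n D s) (D * s) - b * s = gOO n D b := by
    obtain ⟨s, hs, h⟩ := Finset.exists_mem_eq_sup (Finset.range (n + 1)) ⟨0, by simp⟩
      (fun s => min (pP n D s) (D * s) - b * s)
    exact ⟨s, Finset.mem_range.1 hs, h.symm⟩
  have hle : ∀ s, s < n + 1 → min (pP n D s) (D * s) - b * s ≤ gOO n D b := fun s hs =>
    Finset.le_sup (f := fun s => min (pP n D s) (D * s) - b * s) (Finset.mem_range.2 hs)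
  classical
  obtain ⟨s, ⟨hsn, hs⟩, hmin⟩ : ∃ s, (s < n + 1 ∧ min (pP n D s) (D * s) - b * s = gOO n D b) ∧
      ∀ m < s, ¬ (m < n + 1 ∧ min (pP n D m) (D * m) - b * m = gOO n D b) :=
    ⟨Nat.find hex, Nat.find_spec hex, fun m hm => Nat.find_min hex hm⟩
  have hb1 : 1 ≤ b := by obtain ⟨k, hk⟩ := hb; omega
  have hs1 : 1 ≤ s := by
    rcases Nat.eq_zero_or_pos s with h | h
    · subst h
      simp at hs
      omega
    · exact h
  obtain ⟨r, rfl⟩ : ∃ r, s = r + 1 := ⟨s - 1, by omega⟩
  generalize hq : min (pP n D (r + 1)) (D * (r + 1)) = q at hs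
  have hq1 : q ≤ pP n D (r + 1) := by rw [← hq]; exact min_le_left _ _
  have hq2 : q ≤ D * (r + 1) := by rw [← hq]; exact min_le_right _ _
  have hq3 : q = pP n D (r + 1) ∨ q = D * (r + 1) := by
    rw [← hq]
    rcases le_total (pP n D (r + 1)) (D * (r + 1)) with h | h
    · left; exact min_eq_left h
    · right; exact min_eq_right h
  have hpos' : 0 < gOO n D b := hpos
  have hqb : gOO n D b + b * (r + 1) = q := by omega
  have hpar : (D * (r + 1) + (r + 1)) % 2 = 0 := by
    obtain ⟨k, hk⟩ := hD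
    have : D * (r + 1) + (r + 1) = 2 * (k * (r + 1) + (r + 1)) := by rw [hk]; ring
    omega
  have hA : ∀ s, pP n D s = ((n - s) / (D + 2) - n % 2) - (((n - s) / (D + 2) - n % 2) + s) % 2 :=
    fun s => rfl
  have hp1 := hA (r + 1)
  have hp2 := hA r
  have hmono : (n - (r + 1)) / (D + 2) ≤ (n - r) / (D + 2) := Nat.div_le_div_right (by omega)
  refine ⟨r + 1, q, hs1, ?_, hq2, ?_, ?_, hqb⟩
  · by_contra hcon
    rw [not_lt] at hcon
    have hDr : D * (r + 1) = D * r + D := by ring
    have hbr : b * (r + 1) = b * r + b := by ring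
    have h1 : q ≤ D * r := by omega
    have h2 : q ≤ pP n D r + 1 := by omega
    have h3 : q ≤ min (pP n D r) (D * r) + 1 := by
      rcases le_total (pP n D r) (D * r) with h | h
      · rw [min_eq_left h]; exact h2
      · rw [min_eq_right h]; omega
    have h4 := hle r (by omega)
    apply hmin r (by omega)
    refine ⟨by omega, ?_⟩
    omega
  · rcases hq3 with h | h
    · omega
    · omega
  · have h5 : q + n % 2 ≤ (n - (r + 1)) / (D + 2) := by omega
    rw [Nat.le_div_iff_mul_le (by omega)] at h5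
    omega

end H467Aug
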