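import Mathlib

/-!
# MP_30a809_co: worst case edge-connectivity augmentation of simple graphs

Definitions and the statements `S_X` of the independent tasks.
-/

set_option autoImplicit false

namespace H467Aug

/-! ### Definitions -/

/-- The edge-connectivity `λ(G)`: the least number of edges whose deletion leaves a disconnected
graph (and `0` if there is no such number, i.e. for the one-vertex graph). -/
noncomputable def lam {V : Type*} (G : SimpleGraph V) : ℕ :=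
  sInf {m | ∃ F : Finset (Sym2 V), (F : Set (Sym2 V)) ⊆ G.edgeSet ∧ F.card = m ∧
    ¬ (G.deleteEdges (F : Set (Sym2 V))).Connected}

/-- Every `k`-edge-connected graph of order `n` becomes `l`-edge-connected after adding at most
`e` suitable edges. -/
def Works (n k l e : ℕ) : Prop :=
  ∀ G : SimpleGraph (Fin n), k ≤ lam G →
    ∃ H : SimpleGraph (Fin n), G ≤ H ∧ l ≤ lam H ∧ (H.edgeSet \ G.edgeSet).ncard ≤ e

/-- the number of edges between `X` and its complement -/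
noncomputable def cut {V : Type} (G : SimpleGraph V) (X : Set V) : ℕ :=
  {p : V × V | G.Adj p.1 p.2 ∧ p.1 ∈ X ∧ p.2 ∉ X}.ncard

/-- the degree -/
noncomputable def dg {V : Type} (G : SimpleGraph V) (v : V) : ℕ := {w | G.Adj v w}.ncard

/-- the number of edges -/
noncomputable def ec {V : Type} (G : SimpleGraph V) : ℕ := G.edgeSet.ncard

/-- `k`-edge-connected, by cuts -/
def KC {V : Type} (G : SimpleGraph V) (k : ℕ) : Prop :=
  ∀ X : Set V, X.Nonempty → Xᶜ.Nonempty → k ≤ cut G X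

/-- `M` is a matching: all degrees are at most one -/
def Mat {V : Type} (M : SimpleGraph V) : Prop := ∀ u v w, M.Adj u v → M.Adj u w → v = w

/-- some edge of `F` crosses `X` -/
def Cov {V : Type} (F : SimpleGraph V) (X : Set V) : Prop := ∃ u v, F.Adj u v ∧ u ∈ X ∧ v ∉ X

/-- no common edges -/
def Dis {V : Type} (F G : SimpleGraph V) : Prop := ∀ u v, F.Adj u v → ¬ G.Adj u v

/-- `⌈nk/2⌉` -/
def cl (n k : ℕ) : ℕ := (n * k + 1) / 2

/-- `⌊nk/2⌋` -/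
def fl (n k : ℕ) : ℕ := n * k / 2

/-! ### Statements -/

/-- CUT: edge-connectivity by cuts. -/
def S_CUT : Prop := ∀ (n : ℕ), 2 ≤ n → ∀ (G : SimpleGraph (Fin n)) (k : ℕ), k ≤ lam G ↔ KC G k

/-- BAS: basic facts. -/
def S_BAS : Prop := ∀ (V : Type) [Fintype V] (G : SimpleGraph V),
  (∀ v, cut G {v} = dg G v) ∧ (∀ X, cut G Xᶜ = cut G X) ∧
  (∀ v, dg Gᶜ v + dg G v + 1 = Fintype.card V) ∧
  (∑ v, dg G v = 2 * ec G) ∧ (ec Gᶜ + ec G = Fintype.card V * (Fintype.card V - 1) / 2) ∧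
  (∀ H : SimpleGraph V, G ≤ H → ec G ≤ ec H ∧ (H.edgeSet \ G.edgeSet).ncard = ec H - ec G) ∧
  (∀ H : SimpleGraph V, ec (G ⊔ H) ≤ ec G + ec H) ∧
  (∀ H : SimpleGraph V, H ≤ G → ec (G \ H) + ec H = ec G) ∧
  (∀ F : SimpleGraph V, Dis F G → ∀ X, Cov F X → cut G X + 1 ≤ cut (G ⊔ F) X) ∧
  (∀ H : SimpleGraph V, G ≤ H → ∀ X, cut G X ≤ cut H X) ∧
  (Mat G → 2 * ec G ≤ Fintype.card V) ∧
  (Mat G → ∀ u, (∀ w, ¬ G.Adj u w) → 2 * ec G + 1 ≤ Fintype.card V) ∧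
  (∀ j, KC G j → 2 ≤ Fintype.card V → ∀ v, j ≤ dg G v)

/-- LEM3: three tight sets which separate four vertices in the three possible ways. -/
def S_LEM3 : Prop := ∀ (V : Type) [Fintype V] (G : SimpleGraph V) (j : ℕ) (X Y Z : Set V)
  (a b c d : V), 1 ≤ j → KC G j → cut G X = j → cut G Y = j → cut G Z = j →
  a ∈ X → b ∈ X → c ∉ X → d ∉ X → a ∈ Y → c ∈ Y → b ∉ Y → d ∉ Y →
  a ∈ Z → d ∈ Z → b ∉ Z → c ∉ Z → False

/-- SIZE: uncovered tight sets are large. -/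
def S_SIZE : Prop := ∀ (V : Type) [Fintype V] (G F : SimpleGraph V) (j : ℕ) (X : Set V),
  KC G j → Dis F G → X.Nonempty → Xᶜ.Nonempty → cut G X = j → ¬ Cov F X →
  (∀ v ∈ X, dg G v = j → ∃ w, F.Adj v w) → j + 2 ≤ X.ncard

/-- PAIRS: disjoint pairs inside `X`, each one an edge of the matching or two free vertices. -/
def S_PAIRS : Prop := ∀ (V : Type) [Fintype V] (M : SimpleGraph V) (X : Set V), Mat M →
  (∀ u v, M.Adj u v → u ∈ X → v ∈ X) →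
  ∃ P : Finset (V × V), X.ncard / 2 ≤ P.card ∧
    (∀ p ∈ P, p.1 ∈ X ∧ p.2 ∈ X ∧ p.1 ≠ p.2 ∧
      (M.Adj p.1 p.2 ∨ ((∀ w, ¬ M.Adj p.1 w) ∧ (∀ w, ¬ M.Adj p.2 w)))) ∧
    (∀ p ∈ P, ∀ q ∈ P, p ≠ q → p.1 ≠ q.1 ∧ p.1 ≠ q.2 ∧ p.2 ≠ q.1 ∧ p.2 ≠ q.2)

/-- GOOD: two pairs on the two sides of `X` without edges of `G` between them. -/
def S_GOOD : Prop := ∀ (V : Type) [Fintype V] (G M : SimpleGraph V) (j : ℕ) (X : Set V),
  2 ≤ j → Mat M → ¬ Cov M X → cut G X = j → j + 2 ≤ X.ncard → j + 2 ≤ Xᶜ.ncard →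
  ∃ a b c d, a ∈ X ∧ b ∈ X ∧ c ∉ X ∧ d ∉ X ∧ a ≠ b ∧ c ≠ d ∧
    (M.Adj a b ∨ ((∀ w, ¬ M.Adj a w) ∧ (∀ w, ¬ M.Adj b w))) ∧
    (M.Adj c d ∨ ((∀ w, ¬ M.Adj c w) ∧ (∀ w, ¬ M.Adj d w))) ∧
    ¬ G.Adj a c ∧ ¬ G.Adj a d ∧ ¬ G.Adj b c ∧ ¬ G.Adj b d

/-- SWAP: the exchange step. -/
def S_SWAP : Prop := ∀ (V : Type) [Fintype V] (G M E : SimpleGraph V) (j : ℕ) (X : Set V),
  2 ≤ j → KC G j → Mat M → Dis M G → Dis E G → cut G X = j → ¬ Cov (M ⊔ E) X →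
  j + 2 ≤ X.ncard → j + 2 ≤ Xᶜ.ncard →
  ∃ M' : SimpleGraph V, Mat M' ∧ Dis M' G ∧ Cov M' X ∧
    ∀ Y, cut G Y = j → Cov (M ⊔ E) Y → Cov (M' ⊔ E) Y

/-- LOOP: all tight sets can be covered. -/
def S_LOOP : Prop := ∀ (V : Type) [Fintype V] (G M E : SimpleGraph V) (j : ℕ),
  2 ≤ j → KC G j → Mat M → Dis M G → Dis E G →
  (∀ v, dg G v = j → ∃ w, (M ⊔ E).Adj v w) →
  ∃ M' : SimpleGraph V, Mat M' ∧ Dis M' G ∧
    ∀ X : Set V, X.Nonempty → Xᶜ.Nonempty → cut G X = j → Cov (M' ⊔ E) X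

/-- optimal matchings: they cover as many vertices of degree `D` as possible -/
def Opt {V : Type} (H : SimpleGraph V) (D : ℕ) (M : SimpleGraph V) : Prop :=
  Mat M ∧ M ≤ H ∧ ∀ M' : SimpleGraph V, Mat M' → M' ≤ H →
    {v | dg H v = D ∧ ∃ w, M'.Adj v w}.ncard ≤ {v | dg H v = D ∧ ∃ w, M.Adj v w}.ncard

/-- MCA: an optimal matching misses at most one vertex of degree `D`. -/
def S_MCA : Prop := ∀ (V : Type) [Fintype V] (H : SimpleGraph V) (D : ℕ) (M : SimpleGraph V)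
  (u v : V), (∀ v, dg H v ≤ D) → Fintype.card V ≤ 2 * D → Opt H D M → u ≠ v → dg H u = D →
  dg H v = D → (∀ w, ¬ M.Adj u w) → (∀ w, ¬ M.Adj v w) → False

/-- MCB: the neighbours of a missed vertex have degree `D` and can be missed. -/
def S_MCB : Prop := ∀ (V : Type) [Fintype V] (H : SimpleGraph V) (D : ℕ) (M : SimpleGraph V)
  (u x : V), (∀ v, dg H v ≤ D) → Fintype.card V ≤ 2 * D → Opt H D M → dg H u = D →
  (∀ w, ¬ M.Adj u w) → H.Adj u x →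
  dg H x = D ∧ ∃ M' : SimpleGraph V, Opt H D M' ∧ ∀ w, ¬ M'.Adj x w

/-- MC: a matching which covers the vertices of maximum degree `D ≥ n/2`. -/
def S_MC : Prop := ∀ (V : Type) [Fintype V] (H : SimpleGraph V) (D : ℕ),
  (∀ v, dg H v ≤ D) → Fintype.card V ≤ 2 * D →
  (∃ M : SimpleGraph V, Mat M ∧ M ≤ H ∧ ∀ v, dg H v = D → ∃ w, M.Adj v w) ∨
  (Even D ∧ Odd {v | dg H v = D}.ncard ∧ (∀ v w, dg H v = D → H.Adj v w → dg H w = D) ∧
    ∃ u, dg H u = D ∧ ∃ M : SimpleGraph V, Mat M ∧ M ≤ H ∧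
      (∀ v, dg H v = D → v ≠ u → ∃ w, M.Adj v w) ∧ (∀ w, ¬ M.Adj u w) ∧
      (∀ v w, M.Adj v w → dg H v = D))

/-- JOIN: a join has no large cuts of size at most `j`. -/
def S_JOIN : Prop := ∀ (V : Type) [Fintype V] (G : SimpleGraph V) (j : ℕ) (K X : Set V),
  (∀ v ∈ K, ∀ w, w ∉ K → G.Adj v w) → j + 1 ≤ K.ncard → Kᶜ.Nonempty →
  j + 2 ≤ X.ncard → j + 2 ≤ Xᶜ.ncard → j + 1 ≤ cut G X

/-- STEP: augmentation by one. -/
def S_STEP : Prop := ∀ (V : Type) [Fintype V] (G : SimpleGraph V) (j : ℕ), 2 ≤ j →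
  2 * j + 2 ≤ Fintype.card V → KC G j →
  ∃ H : SimpleGraph V, G ≤ H ∧ KC H (j + 1) ∧
    ec H + cl (Fintype.card V) j ≤ ec G + cl (Fintype.card V) (j + 1)

open scoped Classical in
/-- ORM: balanced orientations of multigraphs (with loops). -/
def S_ORM : Prop := ∀ (V : Type) (S : Multiset (Sym2 V)), ∃ E : Multiset (V × V),
  E.map (fun p => s(p.1, p.2)) = S ∧
  ∀ v : V, (E.map Prod.fst).count v ≤ (E.map Prod.snd).count v + 1 ∧
    (E.map Prod.snd).count v ≤ (E.map Prod.fst).count v + 1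

/-- ORI: balanced orientations. -/
def S_ORI : Prop := ∀ (V : Type) [Fintype V] (H : SimpleGraph V) (a : ℕ),
  (∀ v, dg H v ≤ 2 * a) → ∃ N : V → V → Prop, (∀ u v, N u v → H.Adj u v) ∧
    (∀ u v, H.Adj u v → N u v ∨ N v u) ∧ (∀ u v, ¬ (N u v ∧ N v u)) ∧
    (∀ u, {v | N u v}.ncard ≤ a) ∧ (∀ v, {u | N u v}.ncard ≤ a)

/-- BIP: a matching of a bipartite graph which covers all vertices of maximum degree. -/
def S_BIP : Prop := ∀ (V : Type) [Fintype V] (N : V → V → Prop) (a : ℕ), 1 ≤ a →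
  (∀ u, {v | N u v}.ncard ≤ a) → (∀ v, {u | N u v}.ncard ≤ a) →
  ∃ P : V → V → Prop, (∀ u v, P u v → N u v) ∧ (∀ u v w, P u v → P u w → v = w) ∧
    (∀ u v w, P u w → P v w → u = v) ∧ (∀ u, {v | N u v}.ncard = a → ∃ v, P u v) ∧
    (∀ v, {u | N u v}.ncard = a → ∃ u, P u v)

/-- PET: reduction of the maximum degree by two. -/
def S_PET : Prop := ∀ (V : Type) [Fintype V] (H : SimpleGraph V) (a : ℕ),
  (∀ v, dg H v ≤ 2 * (a + 1)) → ∃ H' : SimpleGraph V, H' ≤ H ∧ (∀ v, dg H' v ≤ 2 * a) ∧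
    ec H ≤ ec H' + Fintype.card V

/-- TONE: reduction of the maximum degree `D ≥ n/2` by one. -/
def S_TONE : Prop := ∀ (V : Type) [Fintype V] (H : SimpleGraph V) (D : ℕ), 1 ≤ D →
  (∀ v, dg H v ≤ D) → Fintype.card V ≤ 2 * D → ∃ H' : SimpleGraph V, H' ≤ H ∧
    (∀ v, dg H' v ≤ D - 1) ∧
    ec H + fl (Fintype.card V) (D - 1) ≤ ec H' + fl (Fintype.card V) D

/-- ODD: from odd maximum degree to odd maximum degree. -/
def S_ODD : Prop := ∀ (V : Type) [Fintype V] (H : SimpleGraph V) (a b : ℕ), b ≤ a →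
  (∀ v, dg H v ≤ 2 * a + 1) → Fintype.card V ≤ 2 * (2 * a + 1) →
  ∃ H' : SimpleGraph V, H' ≤ H ∧ (∀ v, dg H' v ≤ 2 * b + 1) ∧
    ec H ≤ ec H' + Fintype.card V * (a - b)

/-- RED: reduction of the maximum degree. -/
def S_RED : Prop := ∀ (V : Type) [Fintype V] (H : SimpleGraph V) (D b : ℕ), b ≤ D →
  (∀ v, dg H v ≤ D) →
  (Fintype.card V + 2 ≤ 2 * D ∨ (Even D ∧ Even b) ∨ (Fintype.card V ≤ 2 * D ∧ Odd D) ∨ b = 0) →
  ∃ H' : SimpleGraph V, H' ≤ H ∧ (∀ v, dg H' v ≤ b) ∧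
    ec H + fl (Fintype.card V) b ≤ ec H' + fl (Fintype.card V) D

/-- CHA: minimum degree at least `(n-1)/2`. -/
def S_CHA : Prop := ∀ (V : Type) [Fintype V] (G : SimpleGraph V) (l : ℕ), (∀ v, l ≤ dg G v) →
  Fintype.card V ≤ 2 * l + 1 → KC G l

/-- CYC: the cycle. -/
def S_CYC : Prop := ∀ n : ℕ, 3 ≤ n → ∃ G : SimpleGraph (Fin n), KC G 2 ∧ ec G ≤ n

/-- EX: `k`-edge-connected graphs with `⌈nk/2⌉` edges. -/
def S_EX : Prop := ∀ n k : ℕ, 2 ≤ k → k < n → ∃ G : SimpleGraph (Fin n), KC G k ∧ ec G ≤ cl n k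

/-- the parameters which are treated -/
def Par (n k l : ℕ) : Prop :=
  2 ≤ k ∧ k < l ∧ l < n ∧ (2 * k + 4 ≤ n ∨ 2 * l ≤ n ∨ (2 * k + 2 ≤ n ∧ Even (n - k)) ∨
    (Odd (n - k) ∧ Odd (n - l)) ∨ l + 1 = n)

/-- UP: the upper bound. -/
def S_UP : Prop := ∀ n k l : ℕ, Par n k l → ∀ G : SimpleGraph (Fin n), KC G k →
  ∃ H : SimpleGraph (Fin n), G ≤ H ∧ KC H l ∧ ec H + cl n k ≤ ec G + cl n l

/-- MAIN: the theorem. -/
def S_MAIN : Prop := ∀ n k l : ℕ, Par n k l →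
  IsLeast {e | Works n k l e} (cl n l - cl n k)

end H467Aug
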