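import Mathlib
import Pool.Agent.H467R2.Aug.Defs

/-! A matching covering the full rows and columns, through the theorem of Birkhoff. -/

set_option autoImplicit false

namespace H467Aug

open Classical in
theorem bip_row {V : Type} [Fintype V] (N : V → Prop) :
    (∑ v, if N v then (1 : ℝ) else 0) = (({v | N v}.ncard : ℕ) : ℝ) := by
  rw [Set.ncard_eq_toFinset_card', Set.toFinset_setOf, Finset.card_filter]
  push_cast
  rfl

open Classical in
theorem t_BIP : S_BIP := by
  intro V _ N a ha hr hc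
  have ha0 : (0 : ℝ) < (a : ℝ) := by exact_mod_cast ha
  let M : V → V → ℝ := fun u v => if N u v then (1 : ℝ) else 0
  have hM0 : ∀ u v, 0 ≤ M u v := by
    intro u v
    show (0 : ℝ) ≤ if N u v then (1 : ℝ) else 0
    split_ifs <;> norm_num
  let du : V → ℝ := fun u => (a : ℝ) - ∑ v, M u v
  let ev : V → ℝ := fun v => (a : ℝ) - ∑ u, M u v
  have hdu : ∀ u, 0 ≤ du u := by
    intro u
    show 0 ≤ (a : ℝ) - ∑ v, M u v
    have h1 : ∑ v, M u v = (({v | N u v}.ncard : ℕ) : ℝ) := bip_row (fun v => N u v)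
    rw [h1]
    have h2 : (({v | N u v}.ncard : ℕ) : ℝ) ≤ (a : ℝ) := by exact_mod_cast hr u
    linarith
  have hev : ∀ v, 0 ≤ ev v := by
    intro v
    show 0 ≤ (a : ℝ) - ∑ u, M u v
    have h1 : ∑ u, M u v = (({u | N u v}.ncard : ℕ) : ℝ) := bip_row (fun u => N u v)
    rw [h1]
    have h2 : (({u | N u v}.ncard : ℕ) : ℝ) ≤ (a : ℝ) := by exact_mod_cast hc v
    linarith
  let T : ℝ := ∑ u, du u
  have hT : ∑ v, ev v = T := by
    show ∑ v, ((a : ℝ) - ∑ u, M u v) = ∑ u, ((a : ℝ) - ∑ v, M u v)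
    rw [Finset.sum_sub_distrib, Finset.sum_sub_distrib, Finset.sum_comm]
  let A : Matrix V V ℝ := Matrix.of fun u v => (M u v + du u * ev v / T) / a
  have hT0 : 0 ≤ T := Finset.sum_nonneg (fun u _ => hdu u)
  have hA0 : ∀ u v, 0 ≤ A u v := by
    intro u v
    show 0 ≤ (M u v + du u * ev v / T) / a
    have h1 := hM0 u v
    have h2 := mul_nonneg (hdu u) (hev v)
    positivity
  have hrow : ∀ u, ∑ v, A u v = 1 := by
    intro u
    show ∑ v, (M u v + du u * ev v / T) / a = 1
    have h1 : ∑ v, (M u v + du u * ev v / T) / a =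
        (∑ v, M u v + du u * (∑ v, ev v) / T) / a := by
      rw [← Finset.sum_div, Finset.sum_add_distrib, ← Finset.sum_div, ← Finset.mul_sum]
    rw [h1, hT]
    have h2 : du u * T / T = du u := by
      by_cases h3 : T = 0
      · have h4 : ∀ x ∈ Finset.univ, du x = 0 :=
          (Finset.sum_eq_zero_iff_of_nonneg (fun x _ => hdu x)).1 h3
        rw [h4 u (Finset.mem_univ u)]
        simp
      · field_simp
    rw [h2]
    show (∑ v, M u v + ((a : ℝ) - ∑ v, M u v)) / a = 1
    rw [add_sub_cancel, div_self ha0.ne']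
  have hcol : ∀ v, ∑ u, A u v = 1 := by
    intro v
    show ∑ u, (M u v + du u * ev v / T) / a = 1
    have h1 : ∑ u, (M u v + du u * ev v / T) / a =
        (∑ u, M u v + (∑ u, du u) * ev v / T) / a := by
      rw [← Finset.sum_div, Finset.sum_add_distrib, ← Finset.sum_div, ← Finset.sum_mul]
    rw [h1]
    have h2 : (∑ u, du u) * ev v / T = ev v := by
      show T * ev v / T = ev v
      by_cases h3 : T = 0
      · have h4 : ∀ x ∈ Finset.univ, ev x = 0 :=
          (Finset.sum_eq_zero_iff_of_nonneg (fun x _ => hev x)).1 (hT.trans h3)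
        rw [h4 v (Finset.mem_univ v)]
        simp
      · field_simp
    rw [h2]
    show (∑ u, M u v + ((a : ℝ) - ∑ u, M u v)) / a = 1
    rw [add_sub_cancel, div_self ha0.ne']
  have hds : A ∈ doublyStochastic ℝ V := mem_doublyStochastic_iff_sum.2 ⟨hA0, hrow, hcol⟩
  obtain ⟨w, hw0, hw1, hwA⟩ := exists_eq_sum_perm_of_mem_doublyStochastic hds
  have hσ : ∃ σ : Equiv.Perm V, 0 < w σ := by
    by_contra h
    push Not at h
    have h1 : ∑ σ, w σ ≤ 0 := Finset.sum_nonpos (fun σ _ => h σ)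
    rw [hw1] at h1
    linarith
  obtain ⟨σ, hσ⟩ := hσ
  have hpos : ∀ u, 0 < A u (σ u) := by
    intro u
    rw [← hwA, Matrix.sum_apply]
    have h1 : (w σ • σ.permMatrix ℝ) u (σ u) = w σ := by
      rw [Matrix.smul_apply, smul_eq_mul]
      simp [Equiv.Perm.permMatrix, PEquiv.toMatrix_apply]
    have h2 : (w σ • σ.permMatrix ℝ) u (σ u) ≤
        ∑ τ : Equiv.Perm V, (w τ • τ.permMatrix ℝ) u (σ u) := by
      apply Finset.single_le_sum (f := fun τ : Equiv.Perm V => (w τ • τ.permMatrix ℝ) u (σ u))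
        _ (Finset.mem_univ σ)
      intro τ _
      rw [Matrix.smul_apply, smul_eq_mul]
      apply mul_nonneg (hw0 τ)
      simp only [Equiv.Perm.permMatrix, PEquiv.toMatrix_apply]
      split_ifs <;> norm_num
    rw [h1] at h2
    exact lt_of_lt_of_le hσ h2
  refine ⟨fun u v => N u v ∧ v = σ u, fun u v h => h.1, ?_, ?_, ?_, ?_⟩
  · intro u v x h1 h2
    rw [h1.2, h2.2]
  · intro u v x h1 h2
    exact σ.injective (h1.2.symm.trans h2.2)
  · intro u hu
    refine ⟨σ u, ?_, rfl⟩
    have h1 : du u = 0 := by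
      show (a : ℝ) - ∑ v, M u v = 0
      have h2 : ∑ v, M u v = (({v | N u v}.ncard : ℕ) : ℝ) := bip_row (fun v => N u v)
      rw [h2, hu, sub_self]
    have h3 : 0 < (M u (σ u) + du u * ev (σ u) / T) / a := hpos u
    rw [h1, zero_mul, zero_div, add_zero] at h3
    by_contra h4
    have h5 : M u (σ u) = 0 := if_neg h4
    rw [h5, zero_div] at h3
    exact lt_irrefl _ h3
  · intro v hv
    have hs : σ (σ.symm v) = v := σ.apply_symm_apply v
    refine ⟨σ.symm v, ?_, hs.symm⟩
    have h1 : ev v = 0 := by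
      show (a : ℝ) - ∑ u, M u v = 0
      have h2 : ∑ u, M u v = (({u | N u v}.ncard : ℕ) : ℝ) := bip_row (fun u => N u v)
      rw [h2, hv, sub_self]
    have h3 := hpos (σ.symm v)
    rw [hs] at h3
    have h3' : 0 < (M (σ.symm v) v + du (σ.symm v) * ev v / T) / a := h3
    rw [h1, mul_zero, zero_div, add_zero] at h3'
    by_contra h4
    have h5 : M (σ.symm v) v = 0 := if_neg h4
    rw [h5, zero_div] at h3'
    exact lt_irrefl _ h3'

end H467Aug
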