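import Pool.Agent.H467R2.Aug.Defs

/-! Task CHA: graphs with minimum degree at least `(n-1)/2`. -/

set_option autoImplicit false

namespace H467Aug

theorem cha_aux (V : Type) [Fintype V] (G : SimpleGraph V) (l : ℕ) (hd : ∀ v, l ≤ dg G v)
    (W : Set V) (h1 : 1 ≤ W.ncard) (h2 : W.ncard ≤ l) : l ≤ cut G W := by
  classical
  set S : Finset V := W.toFinset with hS
  have hWS : W.ncard = S.card := Set.ncard_eq_toFinset_card' W
  have hmS : ∀ v, v ∈ S ↔ v ∈ W := fun v => by rw [hS, Set.mem_toFinset]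
  set Q : Finset (V × V) := Finset.univ.filter
    (fun p : V × V => G.Adj p.1 p.2 ∧ p.1 ∈ W ∧ p.2 ∉ W) with hQ
  have hcut : cut G W = Q.card := by
    unfold cut
    rw [Set.ncard_eq_toFinset_card']
    congr 1
    ext p
    simp [hQ]
  have hfib : Q.card = ∑ v ∈ S, (Q.filter (fun p => p.1 = v)).card :=
    Finset.card_eq_sum_card_fiberwise (f := Prod.fst) (t := S) (by
      intro p hp
      have hp' : p ∈ Q := hp
      rw [hQ, Finset.mem_filter] at hp'
      exact (hmS _).2 hp'.2.2.1)
  have key : ∀ v ∈ S, l + 1 - S.card ≤ (Q.filter (fun p => p.1 = v)).card := by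
    intro v hv
    have e1 : dg G v = (Finset.univ.filter (fun w => G.Adj v w)).card := by
      unfold dg
      rw [Set.ncard_eq_toFinset_card']
      congr 1
      ext w
      simp
    have e2 : (Finset.univ.filter (fun w => G.Adj v w)) ⊆
        (S.erase v) ∪ (Q.filter (fun p => p.1 = v)).image Prod.snd := by
      intro w hw
      rw [Finset.mem_filter] at hw
      rw [Finset.mem_union]
      by_cases hwS : w ∈ S
      · left
        rw [Finset.mem_erase]
        exact ⟨fun h => G.ne_of_adj hw.2 h.symm, hwS⟩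
      · right
        rw [Finset.mem_image]
        refine ⟨(v, w), ?_, rfl⟩
        rw [Finset.mem_filter, hQ, Finset.mem_filter]
        exact ⟨⟨Finset.mem_univ _, hw.2, (hmS v).1 hv, fun h => hwS ((hmS w).2 h)⟩, rfl⟩
    have e3 := Finset.card_le_card e2
    have e4 := Finset.card_union_le (S.erase v) ((Q.filter (fun p => p.1 = v)).image Prod.snd)
    have e5 := Finset.card_image_le (s := Q.filter (fun p => p.1 = v)) (f := Prod.snd)
    have e6 := Finset.card_erase_of_mem hv
    have e7 := hd v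
    have e8 : 0 < S.card := Finset.card_pos.2 ⟨v, hv⟩
    omega
  rw [hcut, hfib]
  have h3 : S.card * (l + 1 - S.card) ≤ ∑ v ∈ S, (Q.filter (fun p => p.1 = v)).card := by
    rw [← smul_eq_mul]
    exact Finset.card_nsmul_le_sum _ _ _ key
  refine le_trans ?_ h3
  rw [hWS] at h1 h2
  obtain ⟨s, hs⟩ : ∃ s, S.card = s + 1 := ⟨S.card - 1, by omega⟩
  obtain ⟨t, ht⟩ : ∃ t, l = S.card + t := ⟨l - S.card, by omega⟩
  have h4 : l + 1 - S.card = t + 1 := by omega
  rw [h4, ht, hs]
  nlinarith [Nat.zero_le (s * t)]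

theorem t_CHA (hB : S_BAS) : S_CHA := by
  intro V _ G l hd hn X hX hXc
  have h1 : 1 ≤ X.ncard := (Set.ncard_pos (Set.toFinite _)).2 hX
  have h2 : 1 ≤ Xᶜ.ncard := (Set.ncard_pos (Set.toFinite _)).2 hXc
  have h3 : X.ncard + Xᶜ.ncard = Fintype.card V := by
    rw [Set.ncard_add_ncard_compl, Nat.card_eq_fintype_card]
  rcases Nat.lt_or_ge l X.ncard with h | h
  · rw [← (hB V G).2.1 X]
    exact cha_aux V G l hd Xᶜ h2 (by omega)
  · exact cha_aux V G l hd X h1 h

end H467Aug
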