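import Pool.Agent.H467R2.Aug.Defs

/-!
# CUT: edge-connectivity by cuts
-/

set_option autoImplicit false

namespace H467Aug

/-- a graph in which no edge leaves `X` is disconnected -/
lemma cut_notconn {V : Type} (H : SimpleGraph V) (X : Set V) (hX : X.Nonempty)
    (hXc : Xᶜ.Nonempty) (h : ∀ u v, H.Adj u v → u ∈ X → v ∈ X) : ¬ H.Connected := by
  intro hc
  obtain ⟨x, hx⟩ := hX
  obtain ⟨y, hy⟩ := hXc
  obtain ⟨p⟩ := hc.preconnected x y
  have key : ∀ a b : V, H.Walk a b → a ∈ X → b ∈ X := by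
    intro a b p
    induction p with
    | nil => exact fun h => h
    | cons hadj _ ih => exact fun ha => ih (h _ _ hadj ha)
  exact hy (key x y p hx)

/-- a disconnected graph has a set left by no edge -/
lemma cut_exists {V : Type} [Nonempty V] (H : SimpleGraph V) (h : ¬ H.Connected) :
    ∃ X : Set V, X.Nonempty ∧ Xᶜ.Nonempty ∧ ∀ u v, H.Adj u v → u ∈ X → v ∈ X := by
  have h1 : ¬ H.Preconnected := fun hp => h ((SimpleGraph.connected_iff H).2 ⟨hp, inferInstance⟩)
  unfold SimpleGraph.Preconnected at h1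
  push Not at h1
  obtain ⟨a, b, hab⟩ := h1
  refine ⟨{w | H.Reachable a w}, ⟨a, SimpleGraph.Reachable.refl a⟩, ⟨b, hab⟩, ?_⟩
  intro u v huv hu
  exact SimpleGraph.Reachable.trans hu huv.reachable

theorem t_CUT : S_CUT := by
  classical
  intro n hn G k
  haveI : Nonempty (Fin n) := ⟨⟨0, by omega⟩⟩
  constructor
  · intro hk X hX hXc
    by_contra hlt
    push Not at hlt
    set P : Set (Fin n × Fin n) := {p | G.Adj p.1 p.2 ∧ p.1 ∈ X ∧ p.2 ∉ X} with hP
    have hPf : P.Finite := Set.toFinite _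
    set F : Finset (Sym2 (Fin n)) := hPf.toFinset.image (fun p => s(p.1, p.2)) with hF
    have hFc : F.card ≤ cut G X := by
      refine (Finset.card_image_le).trans ?_
      unfold cut
      rw [Set.ncard_eq_toFinset_card P hPf]
    have hFs : (F : Set (Sym2 (Fin n))) ⊆ G.edgeSet := by
      intro e he
      rw [hF, Finset.coe_image] at he
      obtain ⟨p, hp, rfl⟩ := he
      have hp' : p ∈ P := hPf.mem_toFinset.1 (Finset.mem_coe.1 hp)
      exact (SimpleGraph.mem_edgeSet G).2 hp'.1
    have hdis : ¬ (G.deleteEdges (F : Set (Sym2 (Fin n)))).Connected := by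
      apply cut_notconn _ X hX hXc
      intro u v huv hu
      by_contra hv
      rw [SimpleGraph.deleteEdges_adj] at huv
      apply huv.2
      rw [hF, Finset.coe_image]
      exact ⟨(u, v), Finset.mem_coe.2 (hPf.mem_toFinset.2 (show (u, v) ∈ P from ⟨huv.1, hu, hv⟩)), rfl⟩
    have hle : lam G ≤ F.card := Nat.sInf_le ⟨F, hFs, rfl, hdis⟩
    omega
  · intro hk
    have hne : {m | ∃ F : Finset (Sym2 (Fin n)), (F : Set (Sym2 (Fin n))) ⊆ G.edgeSet ∧
        F.card = m ∧ ¬ (G.deleteEdges (F : Set (Sym2 (Fin n)))).Connected}.Nonempty := by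
      refine ⟨_, G.edgeFinset, ?_, rfl, ?_⟩
      · rw [SimpleGraph.coe_edgeFinset]
      · apply cut_notconn _ {(⟨0, by omega⟩ : Fin n)} ⟨_, rfl⟩
          ⟨(⟨1, by omega⟩ : Fin n), fun hh => absurd (congrArg Fin.val (Set.mem_singleton_iff.1 hh)) (by simp)⟩
        intro u v huv _
        exfalso
        rw [SimpleGraph.deleteEdges_adj] at huv
        apply huv.2
        rw [SimpleGraph.coe_edgeFinset]
        exact huv.1
    obtain ⟨F, hFs, hFc, hdis⟩ := Nat.sInf_mem hne
    obtain ⟨X, hX, hXc, hcl⟩ := cut_exists _ hdis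
    have h1 : cut G X ≤ F.card := by
      unfold cut
      have : F.card = (F : Set (Sym2 (Fin n))).ncard := (Set.ncard_coe_finset F).symm
      rw [this]
      refine Set.ncard_le_ncard_of_injOn (fun p => s(p.1, p.2)) ?_ ?_ (Finset.finite_toSet F)
      · intro p hp
        by_contra hpF
        exact hp.2.2 (hcl p.1 p.2 (by
          rw [SimpleGraph.deleteEdges_adj]
          exact ⟨hp.1, hpF⟩) hp.2.1)
      · intro p hp q hq hpq
        have h2 := Sym2.eq_iff.1 hpq
        rcases h2 with ⟨h2, h3⟩ | ⟨h2, h3⟩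
        · exact Prod.ext h2 h3
        · exact absurd (h2 ▸ hp.2.1) hq.2.2
    have h2 := hk X hX hXc
    unfold lam
    rw [← hFc]
    exact h2.trans h1

end H467Aug
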