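import Pool.Agent.H467R2.Aug.Defs

/-! Task CYC: the cycle. -/

set_option autoImplicit false

namespace H467Aug

theorem cyc_exit {m : ℕ} (X : Set (Fin (m + 3))) (h1 : X.Nonempty) (h2 : Xᶜ.Nonempty) :
    ∃ i, i ∈ X ∧ i + 1 ∉ X := by
  by_contra hcon
  have hcl : ∀ i, i ∈ X → i + 1 ∈ X := by
    intro i hi
    by_contra h
    exact hcon ⟨i, hi, h⟩
  obtain ⟨x, hx⟩ := h1
  obtain ⟨y, hy⟩ := h2
  have hk : ∀ k : Fin (m + 3), x + k ∈ X := by
    intro k
    induction k using Fin.induction with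
    | zero => simpa using hx
    | succ i ih =>
      have := hcl _ ih
      rwa [add_assoc, Fin.coeSucc_eq_succ] at this
  apply hy
  have h3 := hk (y - x)
  have h4 : x + (y - x) = y := by abel
  rwa [h4] at h3

theorem cyc_two {m : ℕ} (k : Fin (m + 3)) : k + 1 + 1 ≠ k := by
  intro h
  rw [add_assoc] at h
  have h1 : (1 + 1 : Fin (m + 3)) = 0 := by
    have h2 : k + (1 + 1) = k + 0 := by rw [h, add_zero]
    exact add_left_cancel h2
  have h3 := congrArg Fin.val h1
  rw [Fin.val_add, Fin.val_one, Fin.val_zero] at h3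
  rw [Nat.mod_eq_of_lt (by omega)] at h3
  omega

theorem cyc_ne {m : ℕ} (k : Fin (m + 3)) : k + 1 ≠ k := by
  intro h
  have h1 : (1 : Fin (m + 3)) = 0 := by
    have h2 : k + 1 = k + 0 := by rw [h, add_zero]
    exact add_left_cancel h2
  have h3 := congrArg Fin.val h1
  rw [Fin.val_one, Fin.val_zero] at h3
  omega

theorem t_CYC : S_CYC := by
  intro n hn
  obtain ⟨m, rfl⟩ : ∃ m, n = m + 3 := ⟨n - 3, by omega⟩
  let G : SimpleGraph (Fin (m + 3)) := SimpleGraph.fromRel (fun i j => j = i + 1)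
  have hadj : ∀ i j, G.Adj i j ↔ i ≠ j ∧ (j = i + 1 ∨ i = j + 1) := fun i j =>
    SimpleGraph.fromRel_adj _ _ _
  refine ⟨G, ?_, ?_⟩
  · intro X hX hXc
    obtain ⟨i, hi, hi'⟩ := cyc_exit X hX hXc
    obtain ⟨k, hk, hk'⟩ := cyc_exit Xᶜ hXc (by rwa [compl_compl])
    rw [Set.mem_compl_iff, not_not] at hk'
    unfold cut
    have hsub : ({(i, i + 1), (k + 1, k)} : Set (Fin (m + 3) × Fin (m + 3))) ⊆
        {p | G.Adj p.1 p.2 ∧ p.1 ∈ X ∧ p.2 ∉ X} := by
      intro p hp
      rcases hp with rfl | rfl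
      · exact ⟨(hadj _ _).2 ⟨(cyc_ne i).symm, Or.inl rfl⟩, hi, hi'⟩
      · exact ⟨(hadj _ _).2 ⟨cyc_ne k, Or.inr rfl⟩, hk', hk⟩
    have hne : (i, i + 1) ≠ (k + 1, k) := by
      intro h
      rw [Prod.mk.injEq] at h
      apply cyc_two k
      rw [← h.1]
      exact h.2
    calc 2 = ({(i, i + 1), (k + 1, k)} : Set (Fin (m + 3) × Fin (m + 3))).ncard :=
          (Set.ncard_pair hne).symm
      _ ≤ _ := Set.ncard_le_ncard hsub (Set.toFinite _)
  · unfold ec
    have hsub : G.edgeSet ⊆ (fun i : Fin (m + 3) => s(i, i + 1)) '' Set.univ := by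
      intro e he
      induction e using Sym2.ind with
      | _ a b =>
        rw [SimpleGraph.mem_edgeSet, hadj] at he
        rcases he.2 with h | h
        · exact ⟨a, Set.mem_univ _, by rw [h]⟩
        · refine ⟨b, Set.mem_univ _, ?_⟩
          rw [h]
          exact Sym2.eq_swap
    calc G.edgeSet.ncard ≤ ((fun i : Fin (m + 3) => s(i, i + 1)) '' Set.univ).ncard :=
          Set.ncard_le_ncard hsub (Set.toFinite _)
      _ ≤ (Set.univ : Set (Fin (m + 3))).ncard := Set.ncard_image_le (Set.toFinite _)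
      _ = m + 3 := by rw [Set.ncard_univ, Nat.card_eq_fintype_card, Fintype.card_fin]

end H467Aug
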