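import Pool.Agent.H467R2.Aug.Defs

/-! Task EX: `k`-edge-connected graphs with `⌈nk/2⌉` edges. -/

set_option autoImplicit false

namespace H467Aug

theorem ex_even (n : ℕ) : n * (n - 1) % 2 = 0 := by
  rcases Nat.eq_zero_or_pos n with h | h
  · subst h; rfl
  · obtain ⟨m, rfl⟩ : ∃ m, n = m + 1 := ⟨n - 1, by omega⟩
    have h2 : Even ((m + 1) * m) := by
      rw [mul_comm]; exact Nat.even_mul_succ_self m
    rw [Nat.add_sub_cancel]
    exact Nat.even_iff.1 h2

theorem ex_ec_bot {V : Type} : ec (⊥ : SimpleGraph V) = 0 := by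
  unfold ec
  simp

theorem t_EX (h1 : S_STEP) (h2 : S_CYC) (h3 : S_RED) (h4 : S_CHA) (hB : S_BAS) : S_EX := by
  intro n k hk hkn
  by_cases hn : n ≤ 2 * k + 1
  · -- dense case
    obtain ⟨-, -, hdc, -, -, -, -, -, -, -, -, -, -⟩ := hB (Fin n) (⊤ : SimpleGraph (Fin n))
    obtain ⟨-, -, -, -, hecT, -, -, -, -, -, -, -, -⟩ := hB (Fin n) (⊤ : SimpleGraph (Fin n))
    rw [Fintype.card_fin] at hdc hecT
    have hdT : ∀ v, dg (⊤ : SimpleGraph (Fin n)) v ≤ n - 1 := by
      intro v
      have := hdc v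
      omega
    have hcond : (Fintype.card (Fin n) + 2 ≤ 2 * (n - 1) ∨ (Even (n - 1) ∧ Even (n - 1 - k)) ∨
        (Fintype.card (Fin n) ≤ 2 * (n - 1) ∧ Odd (n - 1)) ∨ n - 1 - k = 0) := by
      rw [Fintype.card_fin]
      by_cases h : n + 2 ≤ 2 * (n - 1)
      · exact Or.inl h
      · right; right; right
        omega
    obtain ⟨H', -, hd', hec'⟩ := h3 (Fin n) ⊤ (n - 1) (n - 1 - k) (by omega) hdT hcond
    obtain ⟨-, -, hdc', -, hecH, -, -, -, -, -, -, -, -⟩ := hB (Fin n) H'
    rw [Fintype.card_fin] at hdc' hecH hec'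
    refine ⟨H'ᶜ, ?_, ?_⟩
    · refine h4 (Fin n) H'ᶜ k ?_ ?_
      · intro v
        have e1 := hdc' v
        have e2 := hd' v
        omega
      · rw [Fintype.card_fin]
        exact hn
    · rw [compl_top, ex_ec_bot] at hecT
      unfold fl at hec'
      unfold cl
      have e1 := ex_even n
      have e2 : n * (n - 1 - k) + n * k = n * (n - 1) := by
        rw [← Nat.mul_add]
        congr 1
        omega
      generalize n * (n - 1 - k) = R at *
      generalize n * k = Q at *
      generalize n * (n - 1) = P at *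
      omega
  · -- sparse case
    have key : ∀ j, 2 ≤ j → j ≤ k → ∃ G : SimpleGraph (Fin n), KC G j ∧ ec G ≤ cl n j := by
      intro j hj
      induction j, hj using Nat.le_induction with
      | base =>
        intro _
        obtain ⟨G, hG, hG2⟩ := h2 n (by omega)
        refine ⟨G, hG, ?_⟩
        unfold cl
        omega
      | succ j hj ih =>
        intro hjk
        obtain ⟨G, hG, hG2⟩ := ih (by omega)
        obtain ⟨H, -, hH, hH2⟩ := h1 (Fin n) G j hj (by rw [Fintype.card_fin]; omega) hG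
        rw [Fintype.card_fin] at hH2
        exact ⟨H, hH, by omega⟩
    exact key k hk le_rfl

end H467Aug
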