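import Pool.Agent.H467R2.Aug.Defs

/-!
# A pair of pairs without edges between them
-/

set_option autoImplicit false

namespace H467Aug

theorem good_card {m j a b : ℕ} (hj : 2 ≤ j) (ha : (j + 2) / 2 ≤ a) (hb : (j + 2) / 2 ≤ b)
    (hm : m = a * b) (h : m ≤ j) : False := by
  obtain ⟨c, hc⟩ : ∃ c, (j + 2) / 2 = c := ⟨_, rfl⟩
  rw [hc] at ha hb
  have h1 : 2 ≤ c := by omega
  have h2 : j + 2 ≤ 2 * c + 1 := by omega
  have h3 : c * c ≤ a * b := Nat.mul_le_mul ha hb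
  have h4 : 2 * c ≤ c * c := Nat.mul_le_mul_right c h1
  omega

theorem t_GOOD (h : S_PAIRS) : S_GOOD := by
  classical
  intro V _ G M j X hj hM hC hcut hX hXc
  have h1 : ∀ u v, M.Adj u v → u ∈ X → v ∈ X := by
    intro u v huv hu
    by_contra hv
    exact hC ⟨u, v, huv, hu, hv⟩
  have h2 : ∀ u v, M.Adj u v → u ∈ Xᶜ → v ∈ Xᶜ := by
    intro u v huv hu hv
    exact hC ⟨v, u, huv.symm, hv, hu⟩
  obtain ⟨P, hPc, hP, hPd⟩ := h V M X hM h1
  obtain ⟨Q, hQc, hQ, hQd⟩ := h V M Xᶜ hM h2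
  by_contra hno
  have hex : ∀ p ∈ P, ∀ q ∈ Q, ∃ u v, G.Adj u v ∧ (u = p.1 ∨ u = p.2) ∧ (v = q.1 ∨ v = q.2) := by
    intro p hp q hq
    by_contra hc
    apply hno
    obtain ⟨p1, p2, p3, p4⟩ := hP p hp
    obtain ⟨q1, q2, q3, q4⟩ := hQ q hq
    refine ⟨p.1, p.2, q.1, q.2, p1, p2, q1, q2, p3, q3, p4, q4, ?_, ?_, ?_, ?_⟩
    · exact fun he => hc ⟨_, _, he, Or.inl rfl, Or.inl rfl⟩
    · exact fun he => hc ⟨_, _, he, Or.inl rfl, Or.inr rfl⟩
    · exact fun he => hc ⟨_, _, he, Or.inr rfl, Or.inl rfl⟩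
    · exact fun he => hc ⟨_, _, he, Or.inr rfl, Or.inr rfl⟩
  have hne : Nonempty V := by
    by_contra hV
    rw [not_nonempty_iff] at hV
    have : X = ∅ := Set.eq_empty_of_isEmpty X
    rw [this, Set.ncard_empty] at hX
    omega
  have hch : ∃ e : (V × V) × (V × V) → V × V, ∀ x ∈ P ×ˢ Q, G.Adj (e x).1 (e x).2 ∧
      ((e x).1 = x.1.1 ∨ (e x).1 = x.1.2) ∧ ((e x).2 = x.2.1 ∨ (e x).2 = x.2.2) := by
    have : ∀ x : (V × V) × (V × V), ∃ y : V × V, x ∈ P ×ˢ Q → G.Adj y.1 y.2 ∧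
        (y.1 = x.1.1 ∨ y.1 = x.1.2) ∧ (y.2 = x.2.1 ∨ y.2 = x.2.2) := by
      intro x
      by_cases hx : x ∈ P ×ˢ Q
      · rw [Finset.mem_product] at hx
        obtain ⟨u, v, h3⟩ := hex x.1 hx.1 x.2 hx.2
        exact ⟨(u, v), fun _ => h3⟩
      · obtain ⟨v⟩ := hne
        exact ⟨(v, v), fun h => absurd h hx⟩
    choose e he using this
    exact ⟨e, he⟩
  obtain ⟨e, he⟩ := hch
  have hinj : Set.InjOn e (↑(P ×ˢ Q) : Set ((V × V) × (V × V))) := by
    rintro ⟨p, q⟩ hx ⟨p', q'⟩ hx' heq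
    have a1 := he _ (Finset.mem_coe.1 hx)
    have a2 := he _ (Finset.mem_coe.1 hx')
    rw [Finset.mem_coe, Finset.mem_product] at hx hx'
    rw [heq] at a1
    simp only at a1 a2 hx hx'
    have b1 : p = p' := by
      by_contra hpp
      obtain ⟨c1, c2, c3, c4⟩ := hPd p hx.1 p' hx'.1 hpp
      rcases a1.2.1 with d1 | d1 <;> rcases a2.2.1 with d2 | d2
      · exact c1 (d1.symm.trans d2)
      · exact c2 (d1.symm.trans d2)
      · exact c3 (d1.symm.trans d2)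
      · exact c4 (d1.symm.trans d2)
    have b2 : q = q' := by
      by_contra hpp
      obtain ⟨c1, c2, c3, c4⟩ := hQd q hx.2 q' hx'.2 hpp
      rcases a1.2.2 with d1 | d1 <;> rcases a2.2.2 with d2 | d2
      · exact c1 (d1.symm.trans d2)
      · exact c2 (d1.symm.trans d2)
      · exact c3 (d1.symm.trans d2)
      · exact c4 (d1.symm.trans d2)
    rw [b1, b2]
  have hle : (P ×ˢ Q).card ≤ cut G X := by
    unfold cut
    rw [← Set.ncard_coe_finset (P ×ˢ Q)]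
    refine Set.ncard_le_ncard_of_injOn e ?_ hinj (Set.toFinite _)
    intro x hx
    have a1 := he x (Finset.mem_coe.1 hx)
    rw [Finset.mem_coe, Finset.mem_product] at hx
    obtain ⟨p1, p2, -, -⟩ := hP x.1 hx.1
    obtain ⟨q1, q2, -, -⟩ := hQ x.2 hx.2
    refine ⟨a1.1, ?_, ?_⟩
    · rcases a1.2.1 with d | d
      · rw [d]; exact p1
      · rw [d]; exact p2
    · rcases a1.2.2 with d | d
      · rw [d]; exact q1
      · rw [d]; exact q2
  rw [hcut, Finset.card_product] at hle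
  exact good_card hj ((Nat.div_le_div_right hX).trans hPc) ((Nat.div_le_div_right hXc).trans hQc)
    rfl hle

end H467Aug
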