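import Pool.Agent.H467R2.Aug.Defs

/-! Task JOIN (helper355): a join has no large cuts of size at most `j`. -/

set_option autoImplicit false

namespace H467Aug

theorem t_JOIN : S_JOIN := by
  intro V _ G j K X hadj hK hKc hX hXc
  have hfin : ∀ s : Set V, s.Finite := fun s => Set.toFinite s
  have h1 : ((X ∩ K) ×ˢ (Xᶜ ∩ Kᶜ) ∪ (X \ K) ×ˢ (K \ X) : Set (V × V)) ⊆
      {p : V × V | G.Adj p.1 p.2 ∧ p.1 ∈ X ∧ p.2 ∉ X} := by
    rintro ⟨v, w⟩ hvw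
    rcases hvw with ⟨⟨h2, h3⟩, h4, h5⟩ | ⟨⟨h2, h3⟩, h4, h5⟩
    · exact ⟨hadj v h3 w h5, h2, h4⟩
    · exact ⟨(hadj w h4 v h3).symm, h2, h5⟩
  have h2 : (X ∩ K).ncard * (Xᶜ ∩ Kᶜ).ncard + (X \ K).ncard * (K \ X).ncard ≤ cut G X := by
    unfold cut
    rw [← Set.ncard_prod, ← Set.ncard_prod, ← Set.ncard_union_eq _ (Set.toFinite _) (Set.toFinite _)]
    · exact Set.ncard_le_ncard h1 (Set.toFinite _)
    · rw [Set.disjoint_left]
      rintro ⟨v, w⟩ ⟨⟨_, h3⟩, _⟩ ⟨⟨_, h4⟩, _⟩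
      exact h4 h3
  have h3 : (X ∩ K).ncard + (X \ K).ncard = X.ncard := Set.ncard_inter_add_ncard_sdiff_eq_ncard X K (hfin _)
  have h4 : (K \ X).ncard + (Xᶜ ∩ Kᶜ).ncard = Xᶜ.ncard := by
    have h5 := Set.ncard_inter_add_ncard_sdiff_eq_ncard Xᶜ K (hfin _)
    have h6 : Xᶜ ∩ K = K \ X := by ext v; simp [and_comm]
    have h7 : Xᶜ \ K = Xᶜ ∩ Kᶜ := by ext v; simp
    rw [h6, h7] at h5
    exact h5
  have h5 : (X ∩ K).ncard + (K \ X).ncard = K.ncard := by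
    have h6 := Set.ncard_inter_add_ncard_sdiff_eq_ncard K X (hfin _)
    rwa [Set.inter_comm] at h6
  have h6 : 0 < (X \ K).ncard + (Xᶜ ∩ Kᶜ).ncard := by
    obtain ⟨v, hv⟩ := hKc
    by_cases hvX : v ∈ X
    · have : 0 < (X \ K).ncard := (Set.ncard_pos (hfin _)).2 ⟨v, hvX, hv⟩
      omega
    · have : 0 < (Xᶜ ∩ Kᶜ).ncard := (Set.ncard_pos (hfin _)).2 ⟨v, hvX, hv⟩
      omega
  refine le_trans ?_ h2
  generalize (X ∩ K).ncard = a at *
  generalize (Xᶜ ∩ Kᶜ).ncard = c' at *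
  generalize (X \ K).ncard = c at *
  generalize (K \ X).ncard = a' at *
  rcases Nat.eq_zero_or_pos c with hc | hc
  · subst hc
    have : 1 ≤ c' := by omega
    nlinarith
  · rcases Nat.eq_zero_or_pos c' with hc' | hc'
    · subst hc'
      nlinarith
    · nlinarith

end H467Aug
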