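import Pool.Agent.H467R2.Aug.Defs

set_option autoImplicit false

namespace H467Aug

open scoped Classical in
theorem lem3_cut {V : Type} [Fintype V] (G : SimpleGraph V) (S : Set V) :
    cut G S = ∑ p : V × V, if G.Adj p.1 p.2 ∧ p.1 ∈ S ∧ p.2 ∉ S then 1 else 0 := by
  unfold cut
  rw [Set.ncard_eq_toFinset_card', Finset.sum_boole]
  simp only [Set.toFinset_setOf]
  rfl

open scoped Classical in
theorem lem3_cut' {V : Type} [Fintype V] (G : SimpleGraph V) (S : Set V) :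
    cut G S = ∑ p : V × V, if G.Adj p.1 p.2 ∧ p.2 ∈ S ∧ p.1 ∉ S then 1 else 0 := by
  rw [lem3_cut]
  refine Fintype.sum_equiv (Equiv.prodComm V V) _ _ ?_
  intro p
  simp only [Equiv.prodComm_apply, Prod.fst_swap, Prod.snd_swap, G.adj_comm]

open scoped Classical in
theorem lem3_two {V : Type} [Fintype V] (G : SimpleGraph V) (S : Set V) :
    2 * cut G S = ∑ p : V × V, if G.Adj p.1 p.2 then
      ((if p.1 ∈ S ∧ p.2 ∉ S then 1 else 0) + (if p.2 ∈ S ∧ p.1 ∉ S then 1 else 0)) else 0 := by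
  rw [two_mul]
  nth_rw 1 [lem3_cut]
  rw [lem3_cut', ← Finset.sum_add_distrib]
  apply Finset.sum_congr rfl
  intro p _
  by_cases h : G.Adj p.1 p.2
  · simp only [h, true_and, if_true]
  · simp only [h, false_and, if_false]

theorem t_LEM3 : S_LEM3 := by
  classical
  intro V _ G j X Y Z a b c d hj hK hX hY hZ haX hbX hcX hdX haY hcY hbY hdY haZ hdZ hbZ hcZ
  have hA := hK (X ∩ Y ∩ Z) ⟨a, ⟨haX, haY⟩, haZ⟩ ⟨b, fun h => hbZ h.2⟩
  have hB := hK (X \ (Y ∪ Z)) ⟨b, hbX, by simp [hbY, hbZ]⟩ ⟨c, fun h => hcX h.1⟩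
  have hC := hK (Y \ (X ∪ Z)) ⟨c, hcY, by simp [hcX, hcZ]⟩ ⟨b, fun h => hbY h.1⟩
  have hD := hK (Z \ (X ∪ Y)) ⟨d, hdZ, by simp [hdX, hdY]⟩ ⟨b, fun h => hbZ h.1⟩
  have key : 2 * cut G (X ∩ Y ∩ Z) + 2 * cut G (X \ (Y ∪ Z)) + 2 * cut G (Y \ (X ∪ Z)) +
      2 * cut G (Z \ (X ∪ Y)) ≤ 2 * cut G X + 2 * cut G Y + 2 * cut G Z := by
    simp only [lem3_two, ← Finset.sum_add_distrib]
    apply Finset.sum_le_sum
    rintro ⟨u, v⟩ _
    by_cases h : G.Adj u v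
    · simp only [h, if_true, Set.mem_inter_iff, Set.mem_diff, Set.mem_union]
      by_cases h1 : u ∈ X <;> by_cases h2 : u ∈ Y <;> by_cases h3 : u ∈ Z <;>
      by_cases h4 : v ∈ X <;> by_cases h5 : v ∈ Y <;> by_cases h6 : v ∈ Z <;>
      simp [h1, h2, h3, h4, h5, h6]
    · simp only [h, if_false]
      exact le_refl _
  omega

end H467Aug
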