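import Pool.Agent.H467R2.Aug.Defs

/-! LOOP: all tight sets can be covered. -/

set_option autoImplicit false

namespace H467Aug

theorem loop_cov_compl {V : Type} {F : SimpleGraph V} {X : Set V} (h : Cov F Xᶜ) : Cov F X := by
  obtain ⟨u, v, h1, h2, h3⟩ := h
  exact ⟨v, u, h1.symm, not_not.1 h3, h2⟩

theorem t_LOOP (h1 : S_SIZE) (h2 : S_SWAP) (hB : S_BAS) : S_LOOP := by
  classical
  intro V _ G M E j hj hG hM hMG hEG hcov
  obtain ⟨hcut1, hcutc, -⟩ := hB V G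
  have hne : ({M' : SimpleGraph V | Mat M' ∧ Dis M' G ∧
      ∀ Y, cut G Y = j → Cov (M ⊔ E) Y → Cov (M' ⊔ E) Y}).Nonempty :=
    ⟨M, hM, hMG, fun _ _ h => h⟩
  obtain ⟨M', ⟨hM', hMG', hcand⟩, hmax⟩ := Set.exists_max_image
    {M' : SimpleGraph V | Mat M' ∧ Dis M' G ∧
      ∀ Y, cut G Y = j → Cov (M ⊔ E) Y → Cov (M' ⊔ E) Y}
    (fun M' => {Y : Set V | cut G Y = j ∧ Cov (M' ⊔ E) Y}.ncard) (Set.toFinite _) hne
  refine ⟨M', hM', hMG', fun X hX hXc hXj => ?_⟩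
  by_contra hno
  have hdis : Dis (M' ⊔ E) G := by
    intro u v h
    rw [SimpleGraph.sup_adj] at h
    rcases h with h | h
    · exact hMG' u v h
    · exact hEG u v h
  have hdeg : ∀ v, dg G v = j → ∃ w, (M' ⊔ E).Adj v w := by
    intro v hv
    obtain ⟨w, hw⟩ := hcov v hv
    obtain ⟨a, b, hab, ha, -⟩ := hcand {v} ((hcut1 v).trans hv)
      ⟨v, w, hw, rfl, fun h => (hw.ne (by simpa using h.symm)).elim⟩
    rw [Set.mem_singleton_iff] at ha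
    subst ha
    exact ⟨b, hab⟩
  have hnoc : ¬ Cov (M' ⊔ E) Xᶜ := fun h => hno (loop_cov_compl h)
  have s1 : j + 2 ≤ X.ncard := h1 V G (M' ⊔ E) j X hG hdis hX hXc hXj hno fun v _ => hdeg v
  have s2 : j + 2 ≤ Xᶜ.ncard := h1 V G (M' ⊔ E) j Xᶜ hG hdis hXc (by rwa [compl_compl])
    ((hcutc X).trans hXj) hnoc fun v _ => hdeg v
  obtain ⟨M'', hM'', hMG'', hX'', hY''⟩ := h2 V G M' E j X hj hG hM' hMG' hEG hXj hno s1 s2
  have hle := hmax M'' ⟨hM'', hMG'', fun Y hY hc => hY'' Y hY (hcand Y hY hc)⟩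
  have hX3 : Cov (M'' ⊔ E) X := by
    obtain ⟨u, v, a, b, c⟩ := hX''
    exact ⟨u, v, by rw [SimpleGraph.sup_adj]; exact Or.inl a, b, c⟩
  have hlt : {Y : Set V | cut G Y = j ∧ Cov (M' ⊔ E) Y}.ncard <
      {Y : Set V | cut G Y = j ∧ Cov (M'' ⊔ E) Y}.ncard := by
    apply Set.ncard_lt_ncard _ (Set.toFinite _)
    refine ⟨fun Y hY => ⟨hY.1, hY'' Y hY.1 hY.2⟩, fun h => ?_⟩
    exact hno (h (show X ∈ {Y : Set V | cut G Y = j ∧ Cov (M'' ⊔ E) Y} from ⟨hXj, hX3⟩)).2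
  omega

end H467Aug
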