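import Pool.Agent.H467R2.Aug.DefsB

/-! MAIN2: the theorem. -/

set_option autoImplicit false

namespace H467Aug

theorem main2_deg {n l : ℕ} (hn : 2 ≤ n) (hB : S_BAS) {H : SimpleGraph (Fin n)} (hH : KC H l) :
    cl n l ≤ ec H := by
  obtain ⟨-, -, -, hsum, -, -, -, -, -, -, -, -, hdeg⟩ := hB (Fin n) H
  have h1 : ∀ v, l ≤ dg H v := hdeg l hH (by rw [Fintype.card_fin]; exact hn)
  have h2 : ∑ _v : Fin n, l ≤ ∑ v, dg H v := Finset.sum_le_sum fun v _ => h1 v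
  rw [hsum, Finset.sum_const, Finset.card_univ, Fintype.card_fin, smul_eq_mul] at h2
  unfold cl
  omega

theorem t_MAIN2 (h1 : S_UP2) (h2 : S_EX) (h3 : S_CUT) (hB : S_BAS) : S_MAIN2 := by
  intro n k l hP
  have hk : 2 ≤ k := hP.1
  have hkl : k < l := hP.2.1
  have hln : l < n := hP.2.2.1
  have hn : 2 ≤ n := by omega
  have key : ∀ G H : SimpleGraph (Fin n), G ≤ H →
      ec G ≤ ec H ∧ (H.edgeSet \ G.edgeSet).ncard = ec H - ec G := by
    intro G H hGH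
    obtain ⟨-, -, -, -, -, h, -⟩ := hB (Fin n) G
    exact h H hGH
  constructor
  · intro G hG
    obtain ⟨H, hGH, hH, hle⟩ := h1 n k l hP G ((h3 n hn G k).1 hG)
    refine ⟨H, hGH, (h3 n hn H l).2 hH, ?_⟩
    obtain ⟨_, e2⟩ := key G H hGH
    rw [e2]
    omega
  · intro e he
    obtain ⟨G, hG, hGe⟩ := h2 n k hk (by omega)
    obtain ⟨H, hGH, hH, hle⟩ := he G ((h3 n hn G k).2 hG)
    obtain ⟨e1, e2⟩ := key G H hGH
    have h4 := main2_deg hn hB ((h3 n hn H l).1 hH)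
    rw [e2] at hle
    omega

end H467Aug
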