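import Pool.Agent.H467R2.Aug.Defs

set_option autoImplicit false

namespace H467Aug

private theorem mc_sum {V : Type} [Fintype V] (G : SimpleGraph V) (S : Set V) (c : ℕ)
    (hS : ∀ v ∈ S, dg G v = c) (hS' : ∀ v, v ∉ S → dg G v = 0) :
    ∑ v, dg G v = S.ncard * c := by
  classical
  have h1 : ∀ v, dg G v = if v ∈ S then c else 0 := by
    intro v
    split_ifs with h
    · exact hS v h
    · exact hS' v h
  rw [Finset.sum_congr rfl fun v _ => h1 v, ← Finset.sum_filter, Finset.sum_const, smul_eq_mul]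
  congr 1
  rw [Set.ncard_eq_toFinset_card']
  congr 1
  ext v
  simp

theorem t_MC (h1 : S_MCA) (h2 : S_MCB) (hB : S_BAS) : S_MC := by
  intro V _ H D hD hn
  classical
  obtain ⟨M, hM, hmax⟩ := Set.exists_max_image {M : SimpleGraph V | Mat M ∧ M ≤ H}
    (fun M => {v | dg H v = D ∧ ∃ w, M.Adj v w}.ncard) (Set.toFinite _)
    ⟨⊥, fun u v w h _ => absurd h (by simp), bot_le⟩
  have hO : Opt H D M := ⟨hM.1, hM.2, fun M' a b => hmax M' ⟨a, b⟩⟩
  by_cases hcov : ∀ v, dg H v = D → ∃ w, M.Adj v w
  · left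
    exact ⟨M, hM.1, hM.2, hcov⟩
  right
  push Not at hcov
  obtain ⟨u, hu, hmu⟩ := hcov
  set Q : Set V := {v | dg H v = D ∧ ∃ M' : SimpleGraph V, Opt H D M' ∧ ∀ w, ¬ M'.Adj v w}
    with hQ
  have huQ : u ∈ Q := ⟨hu, M, hO, hmu⟩
  have hQc : ∀ v x, v ∈ Q → H.Adj v x → x ∈ Q := by
    rintro v x ⟨hv, M', hM', hmv⟩ hvx
    exact h2 V H D M' v x hD hn hM' hv hmv hvx
  have hQcard : D + 1 ≤ Q.ncard := by
    have e1 : insert u {w | H.Adj u w} ⊆ Q := by
      intro x hx
      rcases hx with rfl | hx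
      · exact huQ
      · exact hQc u x huQ hx
    have e2 : (insert u {w | H.Adj u w}).ncard = D + 1 := by
      rw [Set.ncard_insert_of_notMem (by simp) (Set.toFinite _)]
      change dg H u + 1 = D + 1
      rw [hu]
    rw [← e2]
    exact Set.ncard_le_ncard e1 (Set.toFinite _)
  have hVQ : ∀ v, dg H v = D → v ∈ Q := by
    intro v hv
    by_contra hvQ
    have e1 : insert v {w | H.Adj v w} ⊆ Qᶜ := by
      intro x hx
      rcases hx with rfl | hx
      · exact hvQ
      · intro hxQ
        exact hvQ (hQc x v hxQ hx.symm)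
    have e2 : (insert v {w | H.Adj v w}).ncard = D + 1 := by
      rw [Set.ncard_insert_of_notMem (by simp) (Set.toFinite _)]
      change dg H v + 1 = D + 1
      rw [hv]
    have e3 := Set.ncard_le_ncard e1 (Set.toFinite _)
    have e4 := Set.ncard_add_ncard_compl Q
    rw [Nat.card_eq_fintype_card] at e4
    omega
  have hcl : ∀ v w, dg H v = D → H.Adj v w → dg H w = D := fun v w hv hvw =>
    (hQc v w (hVQ v hv) hvw).1
  have hcov : ∀ v, dg H v = D → v ≠ u → ∃ w, M.Adj v w := by
    intro v hv hvu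
    by_contra hcon
    push Not at hcon
    exact h1 V H D M u v hD hn hO (Ne.symm hvu) hu hv hmu hcon
  -- the restricted matching
  let M' : SimpleGraph V :=
    { Adj := fun v w => M.Adj v w ∧ dg H v = D ∧ dg H w = D
      symm := ⟨fun v w h => ⟨h.1.symm, h.2.2, h.2.1⟩⟩
      loopless := ⟨fun v h => M.loopless.irrefl v h.1⟩ }
  let H' : SimpleGraph V :=
    { Adj := fun v w => H.Adj v w ∧ dg H v = D ∧ dg H w = D
      symm := ⟨fun v w h => ⟨h.1.symm, h.2.2, h.2.1⟩⟩
      loopless := ⟨fun v h => H.loopless.irrefl v h.1⟩ }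
  set VD : Set V := {v | dg H v = D} with hVD
  have hsum1 := mc_sum M' (VD \ {u}) 1 (by
    rintro v ⟨hv, hvu⟩
    obtain ⟨w, hw⟩ := hcov v hv hvu
    have : {x | M'.Adj v x} = {w} := by
      ext x
      constructor
      · intro hx
        exact hM.1 v x w hx.1 hw
      · rintro rfl
        exact ⟨hw, hv, hcl v x hv (hM.2 hw)⟩
    unfold dg
    rw [this, Set.ncard_singleton]) (by
    intro v hv
    have : {x | M'.Adj v x} = ∅ := by
      ext x
      simp only [Set.mem_ofPred_eq, Set.mem_empty_iff_false, iff_false]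
      intro hx
      apply hv
      refine ⟨hx.2.1, ?_⟩
      rintro rfl
      exact hmu x hx.1
    unfold dg
    rw [this, Set.ncard_empty])
  have hsum2 := mc_sum H' VD D (by
    intro v hv
    have : {x | H'.Adj v x} = {x | H.Adj v x} := by
      ext x
      constructor
      · intro hx
        exact hx.1
      · intro hx
        exact ⟨hx, hv, hcl v x hv hx⟩
    have e : dg H' v = dg H v := by
      unfold dg
      rw [this]
    rw [e]
    exact hv) (by
    intro v hv
    have : {x | H'.Adj v x} = ∅ := by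
      ext x
      simp only [Set.mem_ofPred_eq, Set.mem_empty_iff_false, iff_false]
      intro hx
      exact hv hx.2.1
    unfold dg
    rw [this, Set.ncard_empty])
  rw [(hB V M').2.2.2.1, mul_one] at hsum1
  rw [(hB V H').2.2.2.1] at hsum2
  have hodd : Odd VD.ncard := by
    have huVD : u ∈ VD := hu
    have e1 : (VD \ {u}).ncard + 1 = VD.ncard := Set.ncard_sdiff_singleton_add_one huVD
      (Set.toFinite _)
    rw [← e1, ← hsum1]
    exact ⟨_, rfl⟩
  have heven : Even D := by
    have e1 : Even (VD.ncard * D) := by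
      rw [← hsum2]
      exact even_two_mul _
    rw [Nat.even_mul] at e1
    rcases e1 with e1 | e1
    · exact absurd e1 (Nat.not_even_iff_odd.2 hodd)
    · exact e1
  refine ⟨heven, hodd, hcl, u, hu, M', ?_, ?_, ?_, ?_, ?_⟩
  · intro a b c hab hac
    exact hM.1 a b c hab.1 hac.1
  · intro a b hab
    exact hM.2 hab.1
  · intro v hv hvu
    obtain ⟨w, hw⟩ := hcov v hv hvu
    exact ⟨w, hw, hv, hcl v w hv (hM.2 hw)⟩
  · intro w hw
    exact hmu w hw.1
  · intro v w hvw
    exact hvw.2.1

end H467Aug
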