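import Pool.Agent.H467R2.Aug.DefsB

set_option autoImplicit false

namespace H467Aug

theorem t_MC2 (h1 : S_PA) (h2 : S_PB) (h3 : S_MCA2) : S_MC2 := by
  intro V _ H D hD hG
  classical
  by_cases hcovM : ∃ M : SimpleGraph V, Mat M ∧ M ≤ H ∧ ∀ v, dg H v = D → ∃ w, M.Adj v w
  · left
    exact hcovM
  right
  obtain ⟨S, F, hSF, hF, hFd⟩ := h1 V H {v | dg H v = D} (by
    rintro ⟨M, hM, hMH, hc⟩
    exact hcovM ⟨M, hM, hMH, fun v hv => hc v hv⟩)
  obtain ⟨heven, hodd, hn, hcl⟩ := h2 V H D S F hD hG hSF hF hFd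
  obtain ⟨M, hM, hmax⟩ := Set.exists_max_image {M : SimpleGraph V | Mat M ∧ M ≤ H}
    (fun M => {v | dg H v = D ∧ ∃ w, M.Adj v w}.ncard) (Set.toFinite _)
    ⟨⊥, fun u v w h _ => absurd h (by simp), bot_le⟩
  have hO : Opt H D M := ⟨hM.1, hM.2, fun M' a b => hmax M' ⟨a, b⟩⟩
  have hmiss : ∃ u, dg H u = D ∧ ∀ w, ¬ M.Adj u w := by
    by_contra hcon
    push Not at hcon
    exact hcovM ⟨M, hM.1, hM.2, hcon⟩
  obtain ⟨u, hu, hmu⟩ := hmiss
  have hcov : ∀ v, dg H v = D → v ≠ u → ∃ w, M.Adj v w := by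
    intro v hv hvu
    by_contra hcon
    push Not at hcon
    exact h3 V H D M u v hD hn hO (Ne.symm hvu) hu hv hmu hcon
  -- the restricted matching
  let M' : SimpleGraph V :=
    { Adj := fun v w => M.Adj v w ∧ dg H v = D ∧ dg H w = D
      symm := ⟨fun v w h => ⟨h.1.symm, h.2.2, h.2.1⟩⟩
      loopless := ⟨fun v h => M.loopless.irrefl v h.1⟩ }
  refine ⟨heven, hodd, hcl, u, hu, M', ?_, ?_, ?_, ?_, ?_⟩
  · intro a b c hab hac
    exact hM.1 a b c hab.1 hac.1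
  · intro a b hab
    exact hM.2 hab.1
  · intro v hv hvu
    obtain ⟨w, hw⟩ := hcov v hv hvu
    exact ⟨w, hw, hv, hcl v w hv (hM.2 hw)⟩
  · intro w hw
    exact hmu w hw.1
  · intro v w hvw
    exact hvw.2.1

end H467Aug
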