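import Pool.Agent.H467R2.Aug.DefsB
import Pool.Agent.H467R2.Aug.MCA

set_option autoImplicit false

namespace H467Aug

theorem t_MCA2 : S_MCA2 := by
  classical
  intro V _ H D M u v _ hcard hO huv hu hv hn hm
  have hcov : ∀ x, H.Adj u x → ∃ y, M.Adj x y := fun x hx => mca_case1 H D M hO u x hu hn hx
  have hcov' : ∀ x, ∃ y, H.Adj u x → M.Adj x y := by
    intro x
    by_cases hx : H.Adj u x
    · obtain ⟨y, hy⟩ := hcov x hx
      exact ⟨y, fun _ => hy⟩
    · exact ⟨x, fun h => absurd h hx⟩
  choose f hf using hcov'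
  have hinj : Set.InjOn f {x | H.Adj u x} := by
    intro a ha b hb hab
    have h1 := (hf a ha).symm
    have h2 := (hf b hb).symm
    rw [← hab] at h2
    exact hO.1 _ _ _ h1 h2
  have himg : (f '' {x | H.Adj u x}).ncard = D := by
    rw [Set.ncard_image_of_injOn hinj]
    exact hu
  have hdisj : Disjoint (f '' {x | H.Adj u x}) {w | H.Adj v w} := by
    rw [Set.disjoint_left]
    rintro _ ⟨x, hx, rfl⟩ hvy
    exact mca_case2 H D M hO u v x (f x) huv hu hn hm hx (hf x hx) hvy
  have hunion : (f '' {x | H.Adj u x} ∪ {w | H.Adj v w}).ncard = D + D := by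
    rw [Set.ncard_union_eq hdisj (Set.toFinite _) (Set.toFinite _), himg]
    congr 1
  have hv' : v ∉ (f '' {x | H.Adj u x} ∪ {w | H.Adj v w}) := by
    rintro (⟨x, hx, hxv⟩ | h)
    · have := hf x hx
      rw [hxv] at this
      exact hm _ this.symm
    · exact h.ne rfl
  have hu' : u ∉ insert v (f '' {x | H.Adj u x} ∪ {w | H.Adj v w}) := by
    rintro (h | ⟨x, hx, hxv⟩ | h)
    · exact huv h
    · have := hf x hx
      rw [hxv] at this
      exact hn _ this.symm
    · obtain ⟨y, hy⟩ := hcov v (SimpleGraph.Adj.symm h)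
      exact hm _ hy
  have hins := Set.ncard_insert_of_notMem hv' (Set.toFinite _)
  have hins2 := Set.ncard_insert_of_notMem hu' (Set.toFinite _)
  have hle := Set.ncard_le_ncard (Set.subset_univ
    (insert u (insert v (f '' {x | H.Adj u x} ∪ {w | H.Adj v w})))) (Set.toFinite _)
  rw [Set.ncard_univ, Nat.card_eq_fintype_card] at hle
  omega

end H467Aug

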