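import Pool.Agent.H467R2.Aug.Defs

/-!
MCB: the neighbours of a missed vertex have degree `D` and can be missed.
-/

set_option autoImplicit false

namespace H467Aug

/-- match `u` with `z` instead of the partner of `z` -/
def mcb_sw {V : Type} (M : SimpleGraph V) (u z : V) (huz : u ≠ z) : SimpleGraph V where
  Adj p q := (M.Adj p q ∧ p ≠ z ∧ q ≠ z) ∨ (p = u ∧ q = z) ∨ (p = z ∧ q = u)
  symm := ⟨by
    rintro p q (⟨h, h1, h2⟩ | ⟨h1, h2⟩ | ⟨h1, h2⟩)
    · exact Or.inl ⟨h.symm, h2, h1⟩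
    · exact Or.inr (Or.inr ⟨h2, h1⟩)
    · exact Or.inr (Or.inl ⟨h2, h1⟩)⟩
  loopless := ⟨by
    rintro p (⟨h, -, -⟩ | ⟨h1, h2⟩ | ⟨h1, h2⟩)
    · exact M.loopless.irrefl p h
    · exact huz (h1.symm.trans h2)
    · exact huz (h2.symm.trans h1)⟩

theorem mcb_mat {V : Type} {M : SimpleGraph V} {u z : V} (huz : u ≠ z) (hM : Mat M)
    (hu : ∀ w, ¬ M.Adj u w) : Mat (mcb_sw M u z huz) := by
  rintro p q r (⟨h1, h2, h3⟩ | ⟨h1, h2⟩ | ⟨h1, h2⟩) (⟨k1, k2, k3⟩ | ⟨k1, k2⟩ | ⟨k1, k2⟩)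
  · exact hM p q r h1 k1
  · exact absurd h1 (by rw [k1]; exact hu q)
  · exact absurd k1 h2
  · exact absurd k1 (by rw [h1]; exact hu r)
  · rw [h2, k2]
  · exact absurd (h1.symm.trans k1) huz
  · exact absurd h1 k2
  · exact absurd (k1.symm.trans h1) huz
  · rw [h2, k2]

theorem mcb_le {V : Type} {H M : SimpleGraph V} {u z : V} (huz : u ≠ z) (hMH : M ≤ H)
    (hz : H.Adj u z) : mcb_sw M u z huz ≤ H := by
  rintro p q (⟨h1, -, -⟩ | ⟨h1, h2⟩ | ⟨h1, h2⟩)
  · exact hMH h1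
  · rw [h1, h2]; exact hz
  · rw [h1, h2]; exact hz.symm

theorem mcb_cov {V : Type} {M : SimpleGraph V} {u z : V} (huz : u ≠ z) {v : V}
    (hv : ∃ w, M.Adj v w) (hvz : ¬ M.Adj z v) : ∃ w, (mcb_sw M u z huz).Adj v w := by
  obtain ⟨w, hw⟩ := hv
  by_cases h : v = z
  · exact ⟨u, Or.inr (Or.inr ⟨h, rfl⟩)⟩
  · refine ⟨w, Or.inl ⟨hw, h, ?_⟩⟩
    rintro rfl
    exact hvz hw.symm

theorem mcb_miss {V : Type} {M : SimpleGraph V} {u z y : V} (huz : u ≠ z) (hM : Mat M)
    (hu : ∀ w, ¬ M.Adj u w) (hzy : M.Adj z y) : ∀ w, ¬ (mcb_sw M u z huz).Adj y w := by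
  rintro w (⟨h1, h2, h3⟩ | ⟨h1, h2⟩ | ⟨h1, h2⟩)
  · exact h3 (hM y w z h1 hzy.symm)
  · rw [h1] at hzy
    exact hu z hzy.symm
  · rw [h1] at hzy
    exact M.loopless.irrefl z hzy

/-- the exchange for an optimal matching -/
theorem mcb_step {V : Type} [Fintype V] {H : SimpleGraph V} {D : ℕ} {M : SimpleGraph V} {u z : V}
    (huz : u ≠ z) (hO : Opt H D M) (hu : dg H u = D) (hmiss : ∀ w, ¬ M.Adj u w)
    (hz : H.Adj u z) :
    ∃ y, M.Adj z y ∧ dg H y = D ∧ Opt H D (mcb_sw M u z huz) ∧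
      ∀ w, ¬ (mcb_sw M u z huz).Adj y w := by
  obtain ⟨hM, hMH, hopt⟩ := hO
  have hmat := mcb_mat huz hM hmiss
  have hle := mcb_le huz hMH hz
  have hbd := hopt _ hmat hle
  have hucov : u ∈ {v | dg H v = D ∧ ∃ w, (mcb_sw M u z huz).Adj v w} :=
    ⟨hu, z, Or.inr (Or.inl ⟨rfl, rfl⟩)⟩
  have hunot : u ∉ {v | dg H v = D ∧ ∃ w, M.Adj v w} := by
    rintro ⟨-, w, hw⟩
    exact hmiss w hw
  -- no strict improvement
  have hno : ¬ ∀ v, dg H v = D → (∃ w, M.Adj v w) → ¬ M.Adj z v := by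
    intro hall
    have hss : {v | dg H v = D ∧ ∃ w, M.Adj v w} ⊂
        {v | dg H v = D ∧ ∃ w, (mcb_sw M u z huz).Adj v w} := by
      refine ⟨?_, fun h => hunot (h hucov)⟩
      rintro v ⟨h1, h2⟩
      exact ⟨h1, mcb_cov huz h2 (hall v h1 h2)⟩
    have := Set.ncard_lt_ncard hss (Set.toFinite _)
    omega
  push Not at hno
  obtain ⟨y, hy, -, hzy⟩ := hno
  have hsub : insert u ({v | dg H v = D ∧ ∃ w, M.Adj v w} \ {y}) ⊆
      {v | dg H v = D ∧ ∃ w, (mcb_sw M u z huz).Adj v w} := by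
    rw [Set.insert_subset_iff]
    refine ⟨hucov, ?_⟩
    rintro v ⟨⟨h1, h2⟩, h3⟩
    refine ⟨h1, mcb_cov huz h2 fun h4 => h3 ?_⟩
    exact hM z v y h4 hzy
  have hc1 := Set.ncard_le_ncard hsub (Set.toFinite _)
  rw [Set.ncard_insert_of_notMem (fun h => hunot h.1) (Set.toFinite _),
    Set.ncard_sdiff_singleton_of_mem
      (show y ∈ {v | dg H v = D ∧ ∃ w, M.Adj v w} from ⟨hy, z, hzy.symm⟩)] at hc1
  refine ⟨y, hzy, hy, ⟨hmat, hle, fun M' h1 h2 => ?_⟩, mcb_miss huz hM hmiss hzy⟩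
  have := hopt M' h1 h2
  omega

theorem t_MCB : S_MCB := by
  intro V _ H D M u x hdeg hn hO hu hmiss hux
  have hux' : u ≠ x := hux.ne
  obtain ⟨y, hxy, hy, hO1, hm1⟩ := mcb_step hux' hO hu hmiss hux
  by_cases hyu : H.Adj u y
  · -- case A
    obtain ⟨x1, hyx1, hx1, hO2, hm2⟩ := mcb_step hyu.ne hO hu hmiss hyu
    have : x1 = x := hO.1 y x1 x hyx1 hxy.symm
    subst this
    exact ⟨hx1, _, hO2, hm2⟩
  · -- case B
    have hyu' : u ≠ y := by
      rintro rfl
      exact hmiss x hxy.symm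
    -- all neighbours of `u` are matched
    have hpart : ∀ z, H.Adj u z → ∃ p, M.Adj z p := by
      intro z hz
      obtain ⟨p, hp, -⟩ := mcb_step hz.ne hO hu hmiss hz
      exact ⟨p, hp⟩
    have hex : ∃ x' y', H.Adj u x' ∧ M.Adj x' y' ∧ y' ≠ y ∧ H.Adj y y' := by
      by_contra hcon
      push Not at hcon
      classical
      choose! f hf using hpart
      set P : Set V := f '' {z | H.Adj u z} with hP
      have hPcard : P.ncard = D := by
        have hinj : Set.InjOn f {z | H.Adj u z} := by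
          intro z hz z' hz' hzz
          have h1 := hf z hz
          have h2 := hf z' hz'
          rw [← hzz] at h2
          exact hO.1 (f z) z z' h1.symm h2.symm
        rw [hP, hinj.ncard_image, ← hu]
        rfl
      have hyP : y ∈ P := ⟨x, hux, hO.1 x (f x) y (hf x hux) hxy⟩
      have huP : u ∉ P := by
        rintro ⟨z, hz, hfz⟩
        have h1 := hf z hz
        rw [hfz] at h1
        exact hmiss z h1.symm
      set N : Set V := {w | H.Adj y w} with hN
      have hNcard : N.ncard = D := hy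
      have hyN : y ∉ N := fun h => H.loopless.irrefl y h
      have huN : u ∉ N := fun h => hyu (SimpleGraph.Adj.symm h)
      set A : Set V := insert u (insert y N) with hA
      have hAcard : A.ncard = D + 2 := by
        rw [hA, Set.ncard_insert_of_notMem _ (Set.toFinite _),
          Set.ncard_insert_of_notMem hyN (Set.toFinite _), hNcard]
        rintro (h | h)
        · exact hyu' h
        · exact huN h
      have hBcard : (P \ {y}).ncard = D - 1 := by
        rw [Set.ncard_sdiff_singleton_of_mem hyP, hPcard]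
      have hdisj : Disjoint A (P \ {y}) := by
        rw [Set.disjoint_left]
        rintro v hv ⟨hvP, hvy⟩
        rcases hv with rfl | rfl | hv
        · exact huP hvP
        · exact hvy rfl
        · obtain ⟨z, hz, hfz⟩ := hvP
          have h1 := hf z hz
          rw [hfz] at h1
          exact hcon z v hz h1 hvy hv
      have hun := Set.ncard_union_eq hdisj (Set.toFinite _) (Set.toFinite _)
      have hle : (A ∪ (P \ {y})).ncard ≤ Fintype.card V := by
        have := Set.ncard_le_ncard (Set.subset_univ (A ∪ (P \ {y}))) (Set.toFinite _)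
        rwa [Set.ncard_univ, Nat.card_eq_fintype_card] at this
      have hD : 1 ≤ D := by
        rw [← hu]
        exact Set.ncard_pos (Set.toFinite _) |>.mpr ⟨x, hux⟩
      omega
    obtain ⟨x', y', hux1, hxy1, hne, hyy⟩ := hex
    have hyy' : y' ≠ y := hne
    obtain ⟨y1, hxy2, hy1, hO2, hm2⟩ := mcb_step hux1.ne hO hu hmiss hux1
    have : y1 = y' := hO.1 x' y1 y' hxy2 hxy1
    subst this
    -- `x` and `y` are still matched
    have hxx' : x ≠ x' := by
      rintro rfl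
      exact hne (hO.1 x y1 y hxy1 hxy)
    have hyx' : y ≠ x' := by
      rintro rfl
      exact hyu hux1
    have hM1 : (mcb_sw M u x' hux1.ne).Adj y x := Or.inl ⟨hxy.symm, hyx', hxx'⟩
    obtain ⟨x2, hyx2, hx2, hO3, hm3⟩ := mcb_step hne hO2 hy1 hm2 hyy.symm
    have : x2 = x := hO2.1 y x2 x hyx2 hM1
    subst this
    exact ⟨hx2, _, hO3, hm3⟩

end H467Aug
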