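import Pool.Agent.H467R2.Aug.Defs

set_option autoImplicit false

namespace H467Aug

theorem odd_iter (h2 : S_PET) (V : Type) [Fintype V] (b : ℕ) : ∀ (t : ℕ) (H : SimpleGraph V),
    (∀ v, dg H v ≤ 2 * (b + t)) → ∃ H' : SimpleGraph V, H' ≤ H ∧ (∀ v, dg H' v ≤ 2 * b) ∧
      ec H ≤ ec H' + Fintype.card V * t := by
  intro t
  induction t with
  | zero =>
    intro H hH
    exact ⟨H, le_refl _, by simpa using hH, by simp⟩
  | succ t ih =>
    intro H hH
    obtain ⟨H1, h1le, h1d, h1e⟩ := h2 V H (b + t) (by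
      intro v
      have := hH v
      rw [← add_assoc] at this
      exact this)
    obtain ⟨H2, h2le, h2d, h2e⟩ := ih H1 h1d
    refine ⟨H2, h2le.trans h1le, h2d, ?_⟩
    have : Fintype.card V * (t + 1) = Fintype.card V * t + Fintype.card V := by ring
    omega

theorem odd_dg_mat {V : Type} [Fintype V] {M : SimpleGraph V} (hM : Mat M) (v : V) :
    dg M v ≤ 1 := by
  unfold dg
  by_contra hcon
  push Not at hcon
  obtain ⟨x, hx, y, hy, hxy⟩ := Set.one_lt_ncard_iff_nontrivial.1 hcon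
  exact hxy (hM v x y hx hy)

theorem odd_dg_mono {V : Type} [Fintype V] {G H : SimpleGraph V} (h : G ≤ H) (v : V) :
    dg G v ≤ dg H v := by
  unfold dg
  apply Set.ncard_le_ncard _ (Set.toFinite _)
  intro w hw
  exact h hw

theorem odd_dg_sdiff {V : Type} [Fintype V] {H M : SimpleGraph V} (hle : M ≤ H) {v w : V}
    (hw : M.Adj v w) : dg (H \ M) v + 1 ≤ dg H v := by
  unfold dg
  have hlt : {u | (H \ M).Adj v u}.ncard < {u | H.Adj v u}.ncard := by
    apply Set.ncard_lt_ncard _ (Set.toFinite _)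
    refine ⟨fun u hu => ?_, fun hsub => ?_⟩
    · have : (H \ M).Adj v u := hu
      rw [SimpleGraph.sdiff_adj] at this
      exact this.1
    · have h1 : w ∈ {u | H.Adj v u} := hle hw
      have h2 : (H \ M).Adj v w := hsub h1
      rw [SimpleGraph.sdiff_adj] at h2
      exact h2.2 hw
  omega

theorem odd_dg_sup {V : Type} [Fintype V] (G H : SimpleGraph V) (v : V) :
    dg (G ⊔ H) v ≤ dg G v + dg H v := by
  unfold dg
  have hset : {w | (G ⊔ H).Adj v w} = {w | G.Adj v w} ∪ {w | H.Adj v w} := by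
    ext w
    show (G ⊔ H).Adj v w ↔ G.Adj v w ∨ H.Adj v w
    rw [SimpleGraph.sup_adj]
  rw [hset]
  exact Set.ncard_union_le _ _

theorem t_ODD (h1 : S_MC) (h2 : S_PET) (hB : S_BAS) : S_ODD := by
  intro V _ H a b hba hdeg hcard
  rcases h1 V H (2 * a + 1) hdeg hcard with ⟨M, hMat, hMle, hMcov⟩ | ⟨hev, _⟩
  · have hd1 : ∀ v, dg (H \ M) v ≤ 2 * (b + (a - b)) := by
      intro v
      have hab : b + (a - b) = a := by omega
      rw [hab]
      by_cases hv : dg H v = 2 * a + 1
      · obtain ⟨w, hw⟩ := hMcov v hv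
        have := odd_dg_sdiff hMle hw
        omega
      · have h3 := hdeg v
        have h4 : dg (H \ M) v ≤ dg H v := odd_dg_mono sdiff_le v
        omega
    obtain ⟨H2, hH2le, hH2d, hH2e⟩ := odd_iter h2 V b (a - b) (H \ M) hd1
    refine ⟨H2 ⊔ M, sup_le (hH2le.trans sdiff_le) hMle, ?_, ?_⟩
    · intro v
      have h3 := odd_dg_sup H2 M v
      have h4 := hH2d v
      have h5 := odd_dg_mat hMat v
      omega
    · obtain ⟨_, _, _, _, _, _, _, hsd, _⟩ := hB V H
      obtain ⟨_, _, _, _, _, _, _, hsd', _⟩ := hB V (H2 ⊔ M)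
      obtain ⟨_, _, _, _, _, hmono, _⟩ := hB V H2
      have e1 := hsd M hMle
      have e2 := hsd' M le_sup_right
      have hle : H2 ≤ (H2 ⊔ M) \ M := by
        intro u w huw
        rw [SimpleGraph.sdiff_adj, SimpleGraph.sup_adj]
        have := hH2le huw
        rw [SimpleGraph.sdiff_adj] at this
        exact ⟨Or.inl huw, this.2⟩
      have e3 := (hmono _ hle).1
      omega
  · exfalso
    rw [Nat.even_iff] at hev
    omega

end H467Aug
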