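import Pool.Agent.H467R2.Aug.DefsB
import Pool.Agent.H467R2.Aug.ODD

set_option autoImplicit false

namespace H467Aug

theorem t_ODD2 (h1 : S_MC2) (h2 : S_PET) (hB : S_BAS) : S_ODD2 := by
  intro V _ H a b hba hdeg hcard
  rcases h1 V H (2 * a + 1) hdeg (Or.inr ⟨⟨a, rfl⟩, by omega⟩) with ⟨M, hMat, hMle, hMcov⟩ | ⟨hev, _⟩
  · have hd1 : ∀ v, dg (H \ M) v ≤ 2 * (b + (a - b)) := by
      intro v
      have hab : b + (a - b) = a := by omega
      rw [hab]
      by_cases hv : dg H v = 2 * a + 1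
      · obtain ⟨w, hw⟩ := hMcov v hv
        have := odd_dg_sdiff hMle hw
        omega
      · have h3 := hdeg v
        have h4 : dg (H \ M) v ≤ dg H v := odd_dg_mono sdiff_le v
        omega
    obtain ⟨H2, hH2le, hH2d, hH2e⟩ := odd_iter h2 V b (a - b) (H \ M) hd1
    refine ⟨H2 ⊔ M, sup_le (hH2le.trans sdiff_le) hMle, ?_, ?_⟩
    · intro v
      have h3 := odd_dg_sup H2 M v
      have h4 := hH2d v
      have h5 := odd_dg_mat hMat v
      omega
    · obtain ⟨_, _, _, _, _, _, _, hsd, _⟩ := hB V H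
      obtain ⟨_, _, _, _, _, _, _, hsd', _⟩ := hB V (H2 ⊔ M)
      obtain ⟨_, _, _, _, _, hmono, _⟩ := hB V H2
      have e1 := hsd M hMle
      have e2 := hsd' M le_sup_right
      have hle : H2 ≤ (H2 ⊔ M) \ M := by
        intro u w huw
        rw [SimpleGraph.sdiff_adj, SimpleGraph.sup_adj]
        have := hH2le huw
        rw [SimpleGraph.sdiff_adj] at this
        exact ⟨Or.inl huw, this.2⟩
      have e3 := (hmono _ hle).1
      omega
  · exfalso
    rw [Nat.even_iff] at hev
    omega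

end H467Aug
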