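import Pool.Agent.H467R2.Aug.Defs

set_option autoImplicit false

namespace H467Aug

open scoped Classical in
lemma ori_out {V : Type} [Fintype V] (E : Multiset (V × V)) (hE : E.Nodup) (v : V) :
    {w | (v, w) ∈ E}.ncard = (E.map Prod.fst).count v := by
  rw [Multiset.count_map]
  have h1 : {w | (v, w) ∈ E} = Prod.snd '' ((⟨E.filter (fun p => v = p.1), hE.filter _⟩ :
      Finset (V × V)) : Set (V × V)) := by
    ext w
    simp only [Set.mem_ofPred_eq, Set.mem_image, Finset.mem_coe, Finset.mem_mk,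
      Multiset.mem_filter, Prod.exists]
    constructor
    · intro h
      exact ⟨v, w, ⟨h, rfl⟩, rfl⟩
    · rintro ⟨x, y, ⟨h, rfl⟩, rfl⟩
      exact h
  rw [h1, Set.InjOn.ncard_image, Set.ncard_coe_finset]
  · rfl
  · rintro ⟨x, y⟩ hx ⟨x', y'⟩ hx' h
    simp only [Finset.mem_coe, Finset.mem_mk, Multiset.mem_filter] at hx hx'
    simp only at h
    rw [← hx.2, ← hx'.2, h]

open scoped Classical in
lemma ori_in {V : Type} [Fintype V] (E : Multiset (V × V)) (hE : E.Nodup) (v : V) :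
    {w | (w, v) ∈ E}.ncard = (E.map Prod.snd).count v := by
  rw [Multiset.count_map]
  have h1 : {w | (w, v) ∈ E} = Prod.fst '' ((⟨E.filter (fun p => v = p.2), hE.filter _⟩ :
      Finset (V × V)) : Set (V × V)) := by
    ext w
    simp only [Set.mem_ofPred_eq, Set.mem_image, Finset.mem_coe, Finset.mem_mk,
      Multiset.mem_filter, Prod.exists]
    constructor
    · intro h
      exact ⟨w, v, ⟨h, rfl⟩, rfl⟩
    · rintro ⟨x, y, ⟨h, rfl⟩, rfl⟩
      exact h
  rw [h1, Set.InjOn.ncard_image, Set.ncard_coe_finset]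
  · rfl
  · rintro ⟨x, y⟩ hx ⟨x', y'⟩ hx' h
    simp only [Finset.mem_coe, Finset.mem_mk, Multiset.mem_filter] at hx hx'
    simp only at h
    rw [← hx.2, ← hx'.2, h]

theorem t_ORI (h : S_ORM) : S_ORI := by
  classical
  intro V _ H a ha
  obtain ⟨E, hE, hbal⟩ := h V H.edgeFinset.val
  have hnd : (E.map (fun p : V × V => s(p.1, p.2))).Nodup := by
    rw [hE]
    exact H.edgeFinset.nodup
  have hEnd : E.Nodup := Multiset.Nodup.of_map _ hnd
  have hmem : ∀ u v, (u, v) ∈ E → H.Adj u v := by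
    intro u v huv
    have h1 : s(u, v) ∈ E.map (fun p : V × V => s(p.1, p.2)) :=
      Multiset.mem_map.mpr ⟨(u, v), huv, rfl⟩
    rw [hE] at h1
    have h2 : s(u, v) ∈ H.edgeFinset := h1
    rw [SimpleGraph.mem_edgeFinset, SimpleGraph.mem_edgeSet] at h2
    exact h2
  have hex : ∀ u v, H.Adj u v → (u, v) ∈ E ∨ (v, u) ∈ E := by
    intro u v huv
    have h2 : s(u, v) ∈ H.edgeFinset := by
      rw [SimpleGraph.mem_edgeFinset, SimpleGraph.mem_edgeSet]
      exact huv
    have h1 : s(u, v) ∈ E.map (fun p : V × V => s(p.1, p.2)) := by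
      rw [hE]
      exact h2
    obtain ⟨⟨x, y⟩, hp, hs⟩ := Multiset.mem_map.mp h1
    simp only [Sym2.eq_iff] at hs
    rcases hs with ⟨rfl, rfl⟩ | ⟨rfl, rfl⟩
    · exact Or.inl hp
    · exact Or.inr hp
  have hnot : ∀ u v, ¬ ((u, v) ∈ E ∧ (v, u) ∈ E) := by
    rintro u v ⟨h1, h2⟩
    have h3 := Multiset.inj_on_of_nodup_map hnd (u, v) h1 (v, u) h2 Sym2.eq_swap
    have h4 : u = v := congrArg Prod.fst h3
    exact H.ne_of_adj (hmem u v h1) h4
  have hdeg : ∀ v, {w | (v, w) ∈ E}.ncard + {w | (w, v) ∈ E}.ncard ≤ 2 * a := by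
    intro v
    refine le_trans ?_ (ha v)
    rw [← Set.ncard_union_eq]
    · apply Set.ncard_le_ncard
      · rintro w (hw | hw)
        · exact hmem v w hw
        · exact (hmem w v hw).symm
      · exact Set.toFinite _
    · rw [Set.disjoint_left]
      intro w hw hw'
      exact hnot v w ⟨hw, hw'⟩
  refine ⟨fun u v => (u, v) ∈ E, hmem, hex, hnot, ?_, ?_⟩
  · intro u
    have h1 := hdeg u
    have h2 := hbal u
    rw [ori_out E hEnd u, ori_in E hEnd u] at h1
    rw [ori_out E hEnd u]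
    omega
  · intro u
    have h1 := hdeg u
    have h2 := hbal u
    rw [ori_out E hEnd u, ori_in E hEnd u] at h1
    rw [ori_in E hEnd u]
    omega

end H467Aug
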