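import Pool.Agent.H467R2.Aug.DefsB

/-!
# MP_30a809_co, task PA: Tutte's theorem for matchings covering a given set
-/

set_option autoImplicit false

namespace H467Aug

open SimpleGraph

/-- the auxiliary graph -/
def paG {V : Type} (H : SimpleGraph V) (U : Set V) : SimpleGraph (V ⊕ V) where
  Adj x y := match x, y with
    | Sum.inl u, Sum.inl v => H.Adj u v ∨ (u ∉ U ∧ v ∉ U ∧ u ≠ v)
    | Sum.inl u, Sum.inr _ => u ∉ U
    | Sum.inr _, Sum.inl u => u ∉ U
    | Sum.inr x, Sum.inr y => x ≠ y
  symm := by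
    constructor
    rintro (u | u) (v | v) h
    · rcases h with h | ⟨h1, h2, h3⟩
      · exact Or.inl h.symm
      · exact Or.inr ⟨h2, h1, h3.symm⟩
    · exact h
    · exact h
    · exact Ne.symm h
  loopless := by
    constructor
    rintro (u | u) h
    · rcases h with h | ⟨_, _, h3⟩
      · exact H.loopless.irrefl _ h
      · exact h3 rfl
    · exact h rfl

theorem pa_ll {V : Type} (H : SimpleGraph V) (U : Set V) (u v : V) :
    (paG H U).Adj (Sum.inl u) (Sum.inl v) ↔ (H.Adj u v ∨ (u ∉ U ∧ v ∉ U ∧ u ≠ v)) := Iff.rfl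

theorem pa_lr {V : Type} (H : SimpleGraph V) (U : Set V) (u v : V) :
    (paG H U).Adj (Sum.inl u) (Sum.inr v) ↔ u ∉ U := Iff.rfl

theorem pa_rr {V : Type} (H : SimpleGraph V) (U : Set V) (u v : V) :
    (paG H U).Adj (Sum.inr u) (Sum.inr v) ↔ u ≠ v := Iff.rfl

theorem pa_match {V : Type} [Fintype V] (H : SimpleGraph V) (U : Set V)
    (M : (paG H U).Subgraph) (hM : M.IsPerfectMatching) :
    ∃ M : SimpleGraph V, Mat M ∧ M ≤ H ∧ ∀ v ∈ U, ∃ w, M.Adj v w := by
  refine ⟨{ Adj := fun u v => M.Adj (Sum.inl u) (Sum.inl v) ∧ H.Adj u v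
            symm := ⟨fun u v h => ⟨h.1.symm, h.2.symm⟩⟩
            loopless := ⟨fun u h => H.loopless.irrefl u h.2⟩ }, ?_, ?_, ?_⟩
  · intro u v w h1 h2
    have h3 := hM.1 (h1.1.fst_mem)
    have := h3.unique h1.1 h2.1
    exact Sum.inl.inj this
  · intro u v h
    exact h.2
  · intro v hv
    obtain ⟨w, hw, _⟩ := hM.1 (hM.2 (Sum.inl v))
    rcases w with w | w
    · refine ⟨w, hw, ?_⟩
      have h := M.adj_sub hw
      rw [pa_ll] at h
      rcases h with h | h
      · exact h
      · exact absurd hv h.1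
    · have h := M.adj_sub hw
      rw [pa_lr] at h
      exact absurd hv h

theorem t_PA : S_PA := by
  classical
  intro V _ H U hno
  have hT : ∃ T : Set (V ⊕ V), (paG H U).IsTutteViolator T := by
    by_contra hcon
    push Not at hcon
    obtain ⟨M, hM⟩ := SimpleGraph.tutte.2 hcon
    exact hno (pa_match H U M hM)
  obtain ⟨T, hT⟩ := hT
  unfold SimpleGraph.IsTutteViolator at hT
  set K := ((⊤ : (paG H U).Subgraph).deleteVerts T) with hK
  set G' := K.coe with hG'
  have hmem : ∀ x : V ⊕ V, x ∈ K.verts ↔ x ∉ T := by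
    intro x
    simp [hK]
  have hadj : ∀ x y : K.verts, G'.Adj x y ↔ (paG H U).Adj x.1 y.1 := by
    intro x y
    have hx := (hmem x.1).1 x.2
    have hy := (hmem y.1).1 y.2
    have h1 : K.Adj x.1 y.1 ↔ (paG H U).Adj x.1 y.1 := by
      have h2 := SimpleGraph.Subgraph.deleteVerts_adj (G' := (⊤ : (paG H U).Subgraph)) (s := T)
        (u := x.1) (v := y.1)
      simp only [hx, hy, not_false_eq_true, true_and, SimpleGraph.Subgraph.verts_top,
        Set.mem_univ, SimpleGraph.Subgraph.top_adj] at h2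
      exact h2
    exact h1
  have hcard : Nat.card K.verts + T.ncard = 2 * Fintype.card V := by
    have h1 : K.verts = Tᶜ := by
      ext x; rw [hmem]; rfl
    have h2 := Set.ncard_add_ncard_compl T
    rw [Nat.card_coe_set_eq, h1]
    have h3 : Nat.card (V ⊕ V) = 2 * Fintype.card V := by
      rw [Nat.card_eq_fintype_card, Fintype.card_sum]; ring
    omega
  have hpar := SimpleGraph.odd_ncard_oddComponents (G := G')
  have h2 : T.ncard + 2 ≤ G'.oddComponents.ncard := by
    by_contra hcon
    have h3 : G'.oddComponents.ncard = T.ncard + 1 := by omega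
    rw [h3] at hpar
    rw [Nat.odd_iff, Nat.odd_iff] at hpar
    omega
  -- a dummy vertex remains
  have hy : ∃ y : V, Sum.inr y ∉ T := by
    by_contra hcon
    push Not at hcon
    have h3 : Fintype.card V ≤ T.ncard := by
      have h4 : (Set.range (Sum.inr : V → V ⊕ V)).ncard = Fintype.card V := by
        rw [← Set.image_univ, Set.ncard_image_of_injective _ Sum.inr_injective, Set.ncard_univ,
          Nat.card_eq_fintype_card]
      rw [← h4]
      apply Set.ncard_le_ncard _ (Set.toFinite _)
      rintro _ ⟨y, rfl⟩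
      exact hcon y
    have h5 : G'.oddComponents.ncard ≤ Nat.card K.verts := by
      calc G'.oddComponents.ncard ≤ Nat.card G'.ConnectedComponent := by
            rw [← Set.ncard_univ]
            exact Set.ncard_le_ncard (Set.subset_univ _) (Set.toFinite _)
        _ ≤ Nat.card K.verts :=
            Nat.card_le_card_of_surjective G'.connectedComponentMk Quot.mk_surjective
    omega
  obtain ⟨y, hy⟩ := hy
  have hyK : Sum.inr y ∈ K.verts := (hmem _).2 hy
  set c0 := G'.connectedComponentMk ⟨Sum.inr y, hyK⟩ with hc0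
  -- elements of the big component
  have hr : ∀ (x : V) (hx : Sum.inr x ∈ K.verts), G'.connectedComponentMk ⟨Sum.inr x, hx⟩ = c0 := by
    intro x hx
    by_cases hxy : x = y
    · subst hxy; rfl
    · apply SimpleGraph.ConnectedComponent.sound
      apply SimpleGraph.Adj.reachable
      rw [hadj]
      exact hxy
  have hl : ∀ (v : V) (hv : Sum.inl v ∈ K.verts), v ∉ U →
      G'.connectedComponentMk ⟨Sum.inl v, hv⟩ = c0 := by
    intro v hv hvU
    apply SimpleGraph.ConnectedComponent.sound
    apply SimpleGraph.Adj.reachable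
    rw [hadj]
    exact hvU
  let g : G'.ConnectedComponent → Set V := fun c =>
    {v | ∃ h : Sum.inl v ∈ K.verts, G'.connectedComponentMk ⟨Sum.inl v, h⟩ = c}
  -- every element of another component is of the form inl v, v ∈ U
  have hform : ∀ c, c ≠ c0 → ∀ x : K.verts, G'.connectedComponentMk x = c →
      ∃ v ∈ g c, x.1 = Sum.inl v := by
    intro c hc x hx
    obtain ⟨x, hxK⟩ := x
    rcases x with v | v
    · exact ⟨v, ⟨hxK, hx⟩, rfl⟩
    · exact absurd ((hx.symm.trans (hr v hxK))) hc
  have hginj : Set.InjOn g {c | c ≠ c0} := by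
    intro c hc c' hc' heq
    obtain ⟨x, hx⟩ := c.exists_rep
    obtain ⟨v, hv, _⟩ := hform c hc x hx
    have hv' : v ∈ g c' := heq ▸ hv
    obtain ⟨h1, h1'⟩ := hv
    obtain ⟨h2, h2'⟩ := hv'
    exact h1'.symm.trans h2'
  have hgcard : ∀ c, c ≠ c0 → (g c).ncard = c.supp.ncard := by
    intro c hc
    have h1 : (fun x : K.verts => x.1) '' c.supp = Sum.inl '' (g c) := by
      ext x
      constructor
      · rintro ⟨z, hz, rfl⟩
        obtain ⟨v, hv, hv'⟩ := hform c hc z hz
        exact ⟨v, hv, hv'.symm⟩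
      · rintro ⟨v, ⟨h, hv⟩, rfl⟩
        exact ⟨⟨Sum.inl v, h⟩, hv, rfl⟩
    rw [← Set.ncard_image_of_injective (g c) (Sum.inl_injective (α := V) (β := V)), ← h1,
      Set.ncard_image_of_injective _ Subtype.val_injective]
  let F : Finset (Set V) := ((G'.oddComponents \ {c0}).toFinite.toFinset).image g
  have hFcard : T.ncard + 1 ≤ F.card := by
    have h3 : F.card = (G'.oddComponents \ {c0}).ncard := by
      rw [Finset.card_image_of_injOn, Set.ncard_eq_toFinset_card _ (Set.toFinite _)]
      intro c hc c' hc' heq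
      apply hginj _ _ heq
      · have := (Set.Finite.mem_toFinset _).1 (Finset.mem_coe.1 hc)
        exact this.2
      · have := (Set.Finite.mem_toFinset _).1 (Finset.mem_coe.1 hc')
        exact this.2
    rw [h3]
    have h4 := Set.ncard_le_ncard_sdiff_add_ncard G'.oddComponents {c0}
    rw [Set.ncard_singleton] at h4
    omega
  refine ⟨{v | Sum.inl v ∈ T}, F, ?_, ?_, ?_⟩
  · have h3 : {v : V | Sum.inl v ∈ T}.ncard ≤ T.ncard := by
      rw [← Set.ncard_image_of_injective _ (Sum.inl_injective (α := V) (β := V))]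
      apply Set.ncard_le_ncard _ (Set.toFinite _)
      rintro _ ⟨v, hv, rfl⟩
      exact hv
    omega
  · intro C hC
    obtain ⟨c, hc, rfl⟩ := Finset.mem_image.1 hC
    rw [Set.Finite.mem_toFinset] at hc
    obtain ⟨hc1, hc2⟩ := hc
    have hc2' : c ≠ c0 := hc2
    refine ⟨?_, ?_, ?_, ?_⟩
    · rintro v ⟨h, hv⟩
      by_contra hvU
      exact hc2' (hv.symm.trans (hl v h hvU))
    · rw [Set.disjoint_left]
      rintro v ⟨h, hv⟩ hvT
      exact (hmem _).1 h hvT
    · rw [hgcard c hc2']
      exact hc1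
    · rintro v ⟨h, hv⟩ w hvw
      by_cases hw : Sum.inl w ∈ T
      · exact Or.inr hw
      · left
        refine ⟨(hmem _).2 hw, ?_⟩
        rw [← hv]
        apply SimpleGraph.ConnectedComponent.sound
        apply SimpleGraph.Adj.reachable
        rw [hadj]
        exact Or.inl hvw.symm
  · intro C hC C' hC' hne
    obtain ⟨c, hc, rfl⟩ := Finset.mem_image.1 hC
    obtain ⟨c', hc', rfl⟩ := Finset.mem_image.1 hC'
    rw [Set.disjoint_left]
    rintro v ⟨h, hv⟩ ⟨h', hv'⟩
    apply hne
    have : c = c' := hv.symm.trans hv'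
    rw [this]

end H467Aug
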