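import Mathlib
import Pool.Agent.H467R2.Aug.Defs

set_option autoImplicit false

namespace H467Aug

theorem pairs_aux (V : Type) [Fintype V] (M : SimpleGraph V) (hM : Mat M) :
    ∀ (n : ℕ) (X : Set V), X.ncard = n → (∀ u v, M.Adj u v → u ∈ X → v ∈ X) →
    ∃ P : Finset (V × V), n / 2 ≤ P.card ∧
      (∀ p ∈ P, p.1 ∈ X ∧ p.2 ∈ X ∧ p.1 ≠ p.2 ∧
        (M.Adj p.1 p.2 ∨ ((∀ w, ¬ M.Adj p.1 w) ∧ (∀ w, ¬ M.Adj p.2 w)))) ∧
      (∀ p ∈ P, ∀ q ∈ P, p ≠ q → p.1 ≠ q.1 ∧ p.1 ≠ q.2 ∧ p.2 ≠ q.1 ∧ p.2 ≠ q.2) := by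
  classical
  intro n
  induction n using Nat.strong_induction_on with
  | _ n ih =>
    intro X hX hcl
    by_cases hn : n ≤ 1
    · refine ⟨∅, ?_, ?_, ?_⟩
      · have : n / 2 = 0 := by omega
        simp [this]
      · intro p hp; simp at hp
      · intro p hp; simp at hp
    · push Not at hn
      -- find a good pair
      have key : ∃ a b, a ∈ X ∧ b ∈ X ∧ a ≠ b ∧
          (M.Adj a b ∨ ((∀ w, ¬ M.Adj a w) ∧ (∀ w, ¬ M.Adj b w))) ∧
          (∀ u v, M.Adj u v → u ∈ X \ {a, b} → v ∈ X \ {a, b}) := by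
        by_cases h : ∃ a ∈ X, ∃ b, M.Adj a b
        · obtain ⟨a, ha, b, hab⟩ := h
          refine ⟨a, b, ha, hcl a b hab ha, hab.ne, Or.inl hab, ?_⟩
          intro u v huv hu
          refine ⟨hcl u v huv hu.1, ?_⟩
          have hu2 : ¬ (u = a ∨ u = b) := hu.2
          push Not at hu2
          intro hv
          rcases hv with hv | hv
          · subst hv
            exact hu2.2 (hM v u b huv.symm hab)
          · have hv' : v = b := hv
            subst hv'
            exact hu2.1 (hM v u a huv.symm hab.symm)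
        · push Not at h
          have h2 : 1 < X.ncard := by omega
          obtain ⟨a, ha, b, hb, hab⟩ := (Set.one_lt_ncard (Set.toFinite X)).1 h2
          refine ⟨a, b, ha, hb, hab, Or.inr ⟨h a ha, h b hb⟩, ?_⟩
          intro u v huv hu
          exact absurd huv (h u hu.1 v)
      obtain ⟨a, b, ha, hb, hab, hgood, hcl'⟩ := key
      have hcard : (X \ {a, b}).ncard = n - 2 := by
        have h1 : ({a, b} : Set V) ⊆ X := by
          intro x hx
          rcases hx with hx | hx
          · rw [hx]; exact ha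
          · have hx' : x = b := hx
            rw [hx']; exact hb
        rw [Set.ncard_sdiff h1 (Set.toFinite _), Set.ncard_pair hab, hX]
      obtain ⟨P, hP1, hP2, hP3⟩ := ih (n - 2) (by omega) (X \ {a, b}) hcard hcl'
      have hnot : (a, b) ∉ P := by
        intro h
        have h1 := (hP2 _ h).1
        exact h1.2 (Or.inl rfl)
      have hsep : ∀ p ∈ P, p.1 ≠ a ∧ p.1 ≠ b ∧ p.2 ≠ a ∧ p.2 ≠ b := by
        intro p hp
        obtain ⟨h1, h2, _, _⟩ := hP2 p hp
        refine ⟨?_, ?_, ?_, ?_⟩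
        · intro h; exact h1.2 (Or.inl h)
        · intro h; exact h1.2 (Or.inr h)
        · intro h; exact h2.2 (Or.inl h)
        · intro h; exact h2.2 (Or.inr h)
      refine ⟨insert (a, b) P, ?_, ?_, ?_⟩
      · rw [Finset.card_insert_of_notMem hnot]
        omega
      · intro p hp
        rw [Finset.mem_insert] at hp
        rcases hp with hp | hp
        · subst hp
          exact ⟨ha, hb, hab, hgood⟩
        · obtain ⟨h1, h2, h3, h4⟩ := hP2 p hp
          exact ⟨h1.1, h2.1, h3, h4⟩
      · intro p hp q hq hpq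
        rw [Finset.mem_insert] at hp hq
        rcases hp with hp | hp <;> rcases hq with hq | hq
        · exact absurd (hp.trans hq.symm) hpq
        · subst hp
          obtain ⟨h1, h2, h3, h4⟩ := hsep q hq
          exact ⟨h1.symm, h3.symm, h2.symm, h4.symm⟩
        · subst hq
          obtain ⟨h1, h2, h3, h4⟩ := hsep p hp
          exact ⟨h1, h2, h3, h4⟩
        · exact hP3 p hp q hq hpq

theorem t_PAIRS : S_PAIRS := by
  intro V _ M X hM hcl
  exact pairs_aux V M hM X.ncard X rfl hcl

end H467Aug
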