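import Pool.Agent.H467R2.Aug.DefsB

/-! PB: the obstructions in the good range. -/

set_option autoImplicit false

namespace H467Aug

open Finset

open scoped Classical in
/-- adjacency as a number -/
noncomputable def pb_A {V : Type} (H : SimpleGraph V) (v w : V) : ℕ := if H.Adj v w then 1 else 0

open scoped Classical in
/-- a set as a finset -/
noncomputable def pb_t {V : Type} [Fintype V] (C : Set V) : Finset V := univ.filter (· ∈ C)

theorem pb_mem {V : Type} [Fintype V] {C : Set V} {v : V} : v ∈ pb_t C ↔ v ∈ C := by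
  classical
  unfold pb_t
  simp

theorem pb_card {V : Type} [Fintype V] (C : Set V) : (pb_t C).card = C.ncard := by
  rw [← Set.ncard_coe_finset]
  congr 1
  ext v
  exact pb_mem

theorem pb_A_le {V : Type} (H : SimpleGraph V) (v w : V) : pb_A H v w ≤ 1 := by
  classical
  unfold pb_A
  split_ifs <;> simp

theorem pb_A_zero {V : Type} {H : SimpleGraph V} {v w : V} (h : ¬ H.Adj v w) :
    pb_A H v w = 0 := by
  classical
  unfold pb_A
  rw [if_neg h]

theorem pb_A_symm {V : Type} (H : SimpleGraph V) (v w : V) : pb_A H v w = pb_A H w v := by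
  classical
  unfold pb_A
  by_cases h : H.Adj v w
  · rw [if_pos h, if_pos h.symm]
  · rw [if_neg h, if_neg fun h' => h h'.symm]

theorem pb_dg {V : Type} [Fintype V] (H : SimpleGraph V) (v : V) :
    dg H v = ∑ w, pb_A H v w := by
  classical
  unfold dg
  rw [← pb_card]
  unfold pb_t pb_A
  rw [card_filter]
  exact sum_congr rfl fun w _ => by simp

/-- edges to `S` -/
noncomputable def pb_e {V : Type} [Fintype V] (H : SimpleGraph V) (S C : Set V) : ℕ :=
  ∑ v ∈ pb_t C, ∑ w ∈ pb_t S, pb_A H v w

/-- twice the number of inner edges -/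
noncomputable def pb_i {V : Type} [Fintype V] (H : SimpleGraph V) (C : Set V) : ℕ :=
  ∑ v ∈ pb_t C, ∑ w ∈ pb_t C, pb_A H v w

theorem pb_split {V : Type} [Fintype V] {H : SimpleGraph V} {D : ℕ} {S C : Set V}
    (h1 : C ⊆ {v | dg H v = D}) (h2 : Disjoint C S)
    (h3 : ∀ v ∈ C, ∀ w, H.Adj v w → w ∈ C ∨ w ∈ S) :
    D * C.ncard = pb_i H C + pb_e H S C := by
  classical
  unfold pb_i pb_e
  rw [← sum_add_distrib, ← pb_card C, mul_comm, ← smul_eq_mul, ← sum_const]
  refine sum_congr rfl fun v hv => ?_
  have hvC : v ∈ C := pb_mem.mp hv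
  have hD : dg H v = D := h1 hvC
  have hdisj : Disjoint (pb_t C) (pb_t S) := by
    rw [Finset.disjoint_left]
    intro w hw hw'
    exact Set.disjoint_left.mp h2 (pb_mem.mp hw) (pb_mem.mp hw')
  rw [← hD, pb_dg, ← sum_union hdisj]
  symm
  refine sum_subset (subset_univ _) fun w _ hw => pb_A_zero fun hadj => hw ?_
  rw [mem_union, pb_mem, pb_mem]
  exact h3 v hvC w hadj

theorem pb_even {V : Type} [Fintype V] (H : SimpleGraph V) (C : Set V) : Even (pb_i H C) := by
  classical
  rw [← ZMod.natCast_eq_zero_iff_even]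
  unfold pb_i
  rw [← sum_product', Nat.cast_sum]
  refine sum_involution (fun p _ => (p.2, p.1)) ?_ ?_ ?_ ?_
  · rintro ⟨v, w⟩ _
    simp only
    rw [pb_A_symm H w v]
    exact CharTwo.add_self_eq_zero _
  · rintro ⟨v, w⟩ _ hne heq
    simp only [Prod.mk.injEq] at heq
    apply hne
    simp only
    rw [heq.2, pb_A_zero (H.loopless.irrefl w), Nat.cast_zero]
  · rintro ⟨v, w⟩ h
    rw [mem_product] at h ⊢
    exact ⟨h.2, h.1⟩
  · rintro ⟨v, w⟩ _
    rfl

theorem pb_i_le {V : Type} [Fintype V] (H : SimpleGraph V) (C : Set V) :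
    pb_i H C ≤ C.ncard * (C.ncard - 1) := by
  classical
  unfold pb_i
  rw [← pb_card C]
  have h : ∀ v ∈ pb_t C, ∑ w ∈ pb_t C, pb_A H v w ≤ (pb_t C).card - 1 := by
    intro v hv
    rw [← card_erase_of_mem hv, ← sum_erase (a := v) _ (pb_A_zero (H.loopless.irrefl v))]
    calc ∑ w ∈ (pb_t C).erase v, pb_A H v w ≤ ∑ _w ∈ (pb_t C).erase v, 1 :=
          sum_le_sum fun w _ => pb_A_le H v w
      _ = _ := by simp
  calc _ ≤ ∑ _v ∈ pb_t C, ((pb_t C).card - 1) := sum_le_sum h
    _ = _ := by rw [sum_const, smul_eq_mul]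

theorem pb_e_le {V : Type} [Fintype V] (H : SimpleGraph V) (S C : Set V) :
    pb_e H S C ≤ C.ncard * S.ncard := by
  classical
  unfold pb_e
  rw [← pb_card C, ← pb_card S]
  calc _ ≤ ∑ _v ∈ pb_t C, ∑ _w ∈ pb_t S, 1 :=
        sum_le_sum fun v _ => sum_le_sum fun w _ => pb_A_le H v w
    _ = _ := by simp

theorem pb_sum_e {V : Type} [Fintype V] {H : SimpleGraph V} {D : ℕ} {S : Set V}
    {F : Finset (Set V)} (hd : ∀ v, dg H v ≤ D)
    (hdisj : ∀ C ∈ F, ∀ C' ∈ F, C ≠ C' → Disjoint C C') :
    ∑ C ∈ F, pb_e H S C ≤ S.ncard * D := by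
  classical
  have h1 : ∑ C ∈ F, pb_e H S C = ∑ w ∈ pb_t S, ∑ C ∈ F, ∑ v ∈ pb_t C, pb_A H w v := by
    rw [sum_comm]
    refine sum_congr rfl fun C _ => ?_
    unfold pb_e
    rw [sum_comm]
    exact sum_congr rfl fun w _ => sum_congr rfl fun v _ => pb_A_symm H v w
  have hpd : (F : Set (Set V)).PairwiseDisjoint (fun C => pb_t C) := by
    intro C hC C' hC' hne
    show Disjoint (pb_t C) (pb_t C')
    rw [Finset.disjoint_left]
    intro v hv hv'
    exact Set.disjoint_left.mp (hdisj C hC C' hC' hne) (pb_mem.mp hv) (pb_mem.mp hv')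
  rw [h1]
  calc _ ≤ ∑ _w ∈ pb_t S, D := by
        refine sum_le_sum fun w _ => ?_
        rw [← sum_biUnion hpd]
        refine le_trans (sum_le_sum_of_subset (subset_univ _)) ?_
        rw [← pb_dg]
        exact hd w
    _ = _ := by rw [sum_const, smul_eq_mul, pb_card]

theorem pb_sum_c {V : Type} [Fintype V] {S : Set V} {F : Finset (Set V)}
    (hS : ∀ C ∈ F, Disjoint C S)
    (hdisj : ∀ C ∈ F, ∀ C' ∈ F, C ≠ C' → Disjoint C C') :
    S.ncard + ∑ C ∈ F, C.ncard ≤ Fintype.card V := by
  classical
  have hpd : (F : Set (Set V)).PairwiseDisjoint (fun C => pb_t C) := by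
    intro C hC C' hC' hne
    show Disjoint (pb_t C) (pb_t C')
    rw [Finset.disjoint_left]
    intro v hv hv'
    exact Set.disjoint_left.mp (hdisj C hC C' hC' hne) (pb_mem.mp hv) (pb_mem.mp hv')
  have h1 : ∑ C ∈ F, C.ncard = (F.biUnion fun C => pb_t C).card := by
    rw [card_biUnion hpd]
    exact sum_congr rfl fun C _ => (pb_card C).symm
  have h2 : Disjoint (pb_t S) (F.biUnion fun C => pb_t C) := by
    rw [Finset.disjoint_left]
    intro v hv hv'
    obtain ⟨C, hC, hvC⟩ := mem_biUnion.mp hv'
    exact Set.disjoint_left.mp (hS C hC) (pb_mem.mp hvC) (pb_mem.mp hv)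
  rw [h1, ← pb_card S, ← card_union_of_disjoint h2]
  exact card_le_univ _

theorem t_PB : S_PB := by
  intro V _ H D S F hd hgood hcard hF hdisj
  classical
  set n := Fintype.card V with hn
  set a := S.ncard with ha
  have hsumE : ∑ C ∈ F, pb_e H S C ≤ a * D := pb_sum_e hd hdisj
  have hsumC : a + ∑ C ∈ F, C.ncard ≤ n := pb_sum_c (fun C hC => (hF C hC).2.1) hdisj
  have hsplit : ∀ C ∈ F, D * C.ncard = pb_i H C + pb_e H S C := fun C hC =>
    pb_split (hF C hC).1 (hF C hC).2.1 (hF C hC).2.2.2
  have hodd : ∀ C ∈ F, Odd C.ncard := fun C hC => (hF C hC).2.2.1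
  -- small members
  have hsmall : ∀ C ∈ F, C.ncard ≤ D → D ≤ pb_e H S C := by
    intro C hC hcD
    have h1 := hsplit C hC
    have h2 := pb_i_le H C
    obtain ⟨k, hk⟩ := hodd C hC
    obtain ⟨m, hm⟩ := Nat.exists_eq_add_of_le hcD
    rw [hk] at h1 h2 hm
    rw [Nat.add_sub_cancel] at h2
    rw [hm] at h1 ⊢
    nlinarith [Nat.zero_le (2 * k * m)]
  set F1 := F.filter (fun C => C.ncard ≤ D) with hF1
  set F2 := F.filter (fun C => ¬ C.ncard ≤ D) with hF2
  have hm : F1.card + F2.card = F.card := card_filter_add_card_filter_not _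
  have hE : ∑ C ∈ F1, pb_e H S C + ∑ C ∈ F2, pb_e H S C ≤ a * D := by
    rw [sum_filter_add_sum_filter_not]; exact hsumE
  have hC : a + (∑ C ∈ F1, C.ncard + ∑ C ∈ F2, C.ncard) ≤ n := by
    rw [sum_filter_add_sum_filter_not]; exact hsumC
  have hE1 : F1.card * D ≤ ∑ C ∈ F1, pb_e H S C := by
    rw [← smul_eq_mul]
    exact card_nsmul_le_sum _ _ _ fun C hC => hsmall C (mem_filter.mp hC).1 (mem_filter.mp hC).2
  rcases Nat.even_or_odd D with hDe | hDo
  · -- D even
    have hn1 : n ≤ 2 * D + 1 := by
      rcases hgood with h | ⟨h, -⟩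
      · exact h
      · exact absurd hDe (Nat.not_even_iff_odd.mpr h)
    rcases Nat.eq_zero_or_pos D with hD0 | hDpos
    · -- D = 0
      subst hD0
      have hall : ∀ v, dg H v = 0 := fun v => Nat.le_zero.mp (hd v)
      have huniv : {v | dg H v = 0} = Set.univ := by
        ext v; simp [hall v]
      have hFne : 0 < F.card := by omega
      obtain ⟨C, hCF⟩ := card_pos.mp hFne
      have h1 : C.ncard ≤ ∑ C ∈ F, C.ncard := single_le_sum (f := fun C : Set V => C.ncard)
        (fun _ _ => Nat.zero_le _) hCF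
      have h2 : 1 ≤ C.ncard := (hodd C hCF).pos
      have hn1' : n = 1 := by omega
      refine ⟨hDe, ?_, hn1, fun v w _ _ => hall w⟩
      rw [huniv, Set.ncard_univ, Nat.card_eq_fintype_card, ← hn, hn1']
      exact odd_one
    · -- D ≥ 2
      have hD2 : 2 ≤ D := by
        obtain ⟨k, hk⟩ := hDe
        omega
      have hC2 : F2.card * (D + 1) ≤ ∑ C ∈ F2, C.ncard := by
        rw [← smul_eq_mul]
        exact card_nsmul_le_sum _ _ _ fun C hC => by
          have := (mem_filter.mp hC).2
          omega
      have hm2 : F2.card ≤ 1 := by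
        by_contra hcon
        have h2 : 2 * (D + 1) ≤ F2.card * (D + 1) := Nat.mul_le_mul_right _ (by omega)
        omega
      have hm1 : F1.card ≤ a := by
        have h3 : F1.card * D ≤ a * D := by omega
        exact Nat.le_of_mul_le_mul_right h3 hDpos
      have hm1' : F1.card = a := by omega
      have hm2' : F2.card = 1 := by omega
      rw [hm2', one_mul] at hC2
      -- a = 0
      have ha0 : a = 0 := by
        by_contra hne
        have hpos : 0 < F1.card := by omega
        obtain ⟨C1, hC1⟩ := card_pos.mp hpos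
        obtain ⟨hC1F, hC1D⟩ := mem_filter.mp hC1
        have h4 : (F1.card - 1) * D ≤ ∑ C ∈ F1.erase C1, pb_e H S C := by
          rw [← card_erase_of_mem hC1, ← smul_eq_mul]
          exact card_nsmul_le_sum _ _ _ fun C hC => by
            have hC' := mem_of_mem_erase hC
            exact hsmall C (mem_filter.mp hC').1 (mem_filter.mp hC').2
        have h5 := add_sum_erase F1 (fun C => pb_e H S C) hC1
        have h6 : pb_e H S C1 ≤ D := by
          obtain ⟨b, hb⟩ : ∃ b, a = b + 1 := ⟨a - 1, by omega⟩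
          rw [hm1', hb, Nat.add_sub_cancel] at h4
          rw [hb, Nat.succ_mul] at hE
          omega
        have h7 := hsplit C1 hC1F
        have h8 := pb_i_le H C1
        have h9 := pb_e_le H S C1
        have hc1 : C1.ncard = 1 := by
          obtain ⟨k, hk⟩ := hodd C1 hC1F
          obtain ⟨m, hm⟩ := Nat.exists_eq_add_of_le hC1D
          rw [hk] at h7 h8 hm
          rw [Nat.add_sub_cancel] at h8
          have hkm : 2 * k * m ≤ 0 := by
            rw [hm] at h7 h6
            nlinarith
          have hkm' : k = 0 ∨ m = 0 := by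
            have : 2 * k * m = 0 := Nat.le_zero.mp hkm
            rcases Nat.mul_eq_zero.mp this with h | h
            · left; omega
            · right; exact h
          rcases hkm' with h | h
          · omega
          · exfalso
            obtain ⟨d, hd'⟩ := hDe
            omega
        rw [hc1] at h7 h8 h9
        have h10 : ∑ C ∈ F1, C.ncard ≥ 1 := by
          have h11 : C1.ncard ≤ ∑ C ∈ F1, C.ncard := single_le_sum
            (f := fun C : Set V => C.ncard) (fun _ _ => Nat.zero_le _) hC1
          omega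
        omega
      have hSe : S = ∅ := by
        rw [← Set.ncard_eq_zero (Set.toFinite _)]
        exact ha0
      obtain ⟨C2, hC2F2⟩ := card_pos.mp (by omega : 0 < F2.card)
      obtain ⟨hC2F, hC2D⟩ := mem_filter.mp hC2F2
      obtain ⟨hCsub, -, hCodd, hCcl⟩ := hF C2 hC2F
      have hcl : ∀ v ∈ C2, ∀ w, H.Adj v w → w ∈ C2 := by
        intro v hv w hvw
        rcases hCcl v hv w hvw with h | h
        · exact h
        · rw [hSe] at h
          exact absurd h (Set.notMem_empty w)
      have heq : {v | dg H v = D} = C2 := by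
        refine Set.Subset.antisymm ?_ hCsub
        intro v hv
        by_contra hvC
        have hv' : {w | H.Adj v w}.ncard = D := hv
        have hdj : Disjoint (insert v {w | H.Adj v w}) C2 := by
          rw [Set.disjoint_left]
          rintro w (rfl | hw) hwC
          · exact hvC hwC
          · exact hvC (hcl w hwC v (SimpleGraph.Adj.symm hw))
        have h11 := Set.ncard_union_eq hdj (Set.toFinite _) (Set.toFinite _)
        have hvn : v ∉ {w | H.Adj v w} := fun h => H.loopless.irrefl v h
        rw [Set.ncard_insert_of_notMem hvn (Set.toFinite _), hv'] at h11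
        have h12 : (insert v {w | H.Adj v w} ∪ C2).ncard ≤ n := by
          have := Set.ncard_le_ncard (Set.subset_univ (insert v {w | H.Adj v w} ∪ C2))
            (Set.toFinite _)
          rwa [Set.ncard_univ, Nat.card_eq_fintype_card] at this
        omega
      refine ⟨hDe, ?_, hn1, ?_⟩
      · rw [heq]; exact hCodd
      · intro v w hv hvw
        have hvC : v ∈ C2 := by
          rw [← heq]; exact hv
        have hwC : w ∈ C2 := hcl v hvC w hvw
        exact hCsub hwC
  · -- D odd: impossible
    exfalso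
    have hn4 : n ≤ 2 * D + 4 := by
      rcases hgood with h | ⟨-, h⟩
      · omega
      · exact h
    have hD1 : 1 ≤ D := hDo.pos
    have heodd : ∀ C ∈ F, 1 ≤ pb_e H S C := by
      intro C hCF
      have h1 := hsplit C hCF
      have h2 : Odd (D * C.ncard) := hDo.mul (hodd C hCF)
      obtain ⟨i, hi⟩ := pb_even H C
      obtain ⟨k, hk⟩ := h2
      omega
    have hE2 : F2.card ≤ ∑ C ∈ F2, pb_e H S C := by
      have := card_nsmul_le_sum F2 (fun C => pb_e H S C) 1
        fun C hC => heodd C (mem_filter.mp hC).1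
      simpa using this
    have hC2 : F2.card * (D + 2) ≤ ∑ C ∈ F2, C.ncard := by
      rw [← smul_eq_mul]
      refine card_nsmul_le_sum _ _ _ fun C hC => ?_
      obtain ⟨h1, h2⟩ := mem_filter.mp hC
      obtain ⟨k, hk⟩ := hodd C h1
      obtain ⟨d, hd'⟩ := hDo
      omega
    have hm2 : 2 ≤ F2.card := by
      by_contra hcon
      have h1 : F1.card * D + F2.card ≤ a * D := by omega
      have hcase : F2.card = 0 ∨ F2.card = 1 := by omega
      rcases hcase with h | h
      · have h2 : a + 1 ≤ F1.card := by omega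
        have h3 : (a + 1) * D ≤ F1.card * D := Nat.mul_le_mul_right _ h2
        rw [Nat.add_mul, one_mul] at h3
        omega
      · have h2 : a ≤ F1.card := by omega
        have h3 : a * D ≤ F1.card * D := Nat.mul_le_mul_right _ h2
        omega
    have ha1 : 1 ≤ a := by
      by_contra hcon
      have : a = 0 := by omega
      rw [this, zero_mul] at hE
      omega
    have h4 : 2 * (D + 2) ≤ F2.card * (D + 2) := Nat.mul_le_mul_right _ hm2
    omega

end H467Aug
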