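import Pool.Agent.H467R2.Aug.Defs

set_option autoImplicit false

namespace H467Aug

theorem pet_half {V : Type} [Fintype V] (N P : V → Prop) (a : ℕ) (hN : {w | N w}.ncard ≤ a + 1)
    (hP : ∀ w, P w → N w) (hc : {w | N w}.ncard = a + 1 → ∃ w, P w) :
    {w | N w ∧ ¬ P w}.ncard ≤ a := by
  classical
  by_cases h : {w | N w}.ncard = a + 1
  · obtain ⟨w0, hw0⟩ := hc h
    have hsub : {w | N w ∧ ¬ P w} ⊆ {w | N w} \ {w0} := by
      intro w hw
      refine ⟨hw.1, ?_⟩
      intro h2
      have h3 : w = w0 := h2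
      subst h3
      exact hw.2 hw0
    have h1 := Set.ncard_le_ncard hsub (Set.toFinite _)
    have h2 : ({w | N w} \ {w0}).ncard = {w | N w}.ncard - 1 :=
      Set.ncard_diff_singleton_of_mem (hP w0 hw0)
    omega
  · have hsub : {w | N w ∧ ¬ P w} ⊆ {w | N w} := fun w hw => hw.1
    have h1 := Set.ncard_le_ncard hsub (Set.toFinite _)
    omega

theorem t_PET (h1 : S_ORI) (h2 : S_BIP) (hB : S_BAS) : S_PET := by
  classical
  intro V _ H a hH
  obtain ⟨N, hNH, hHN, hanti, hout, hin⟩ := h1 V H (a + 1) (by simpa using hH)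
  obtain ⟨P, hPN, hPf, hPi, hrow, hcol⟩ := h2 V N (a + 1) (by omega) hout hin
  let H' : SimpleGraph V :=
    { Adj := fun u v => H.Adj u v ∧ ¬ P u v ∧ ¬ P v u
      symm := ⟨fun u v h => ⟨h.1.symm, h.2.2, h.2.1⟩⟩
      loopless := ⟨fun u h => H.irrefl h.1⟩ }
  have hle : H' ≤ H := fun u v h => h.1
  refine ⟨H', hle, ?_, ?_⟩
  · intro v
    have hsub : {w | H'.Adj v w} ⊆ {w | N v w ∧ ¬ P v w} ∪ {w | N w v ∧ ¬ P w v} := by
      intro w hw
      have hw1 : H.Adj v w := hw.1
      rcases hHN v w hw1 with h | h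
      · exact Or.inl ⟨h, hw.2.1⟩
      · exact Or.inr ⟨h, hw.2.2⟩
    have e1 := Set.ncard_le_ncard hsub (Set.toFinite _)
    have e2 := Set.ncard_union_le {w | N v w ∧ ¬ P v w} {w | N w v ∧ ¬ P w v}
    have e3 := pet_half (fun w => N v w) (fun w => P v w) a (hout v) (fun w => hPN v w) (hrow v)
    have e4 := pet_half (fun w => N w v) (fun w => P w v) a (hin v) (fun w => hPN w v) (hcol v)
    unfold dg
    omega
  · obtain ⟨e1, e2⟩ := (hB V H').2.2.2.2.2.1 H hle
    have hsub : H.edgeSet \ H'.edgeSet ⊆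
        (fun u => s(u, if h : ∃ v, P u v then h.choose else u)) '' (Set.univ : Set V) := by
      intro e he
      induction e with
      | _ u v =>
        have h3 : H.Adj u v := he.1
        have h4 : ¬ (H.Adj u v ∧ ¬ P u v ∧ ¬ P v u) := he.2
        have h5 : P u v ∨ P v u := by tauto
        rcases h5 with h5 | h5
        · refine ⟨u, Set.mem_univ _, ?_⟩
          have h6 : ∃ v, P u v := ⟨v, h5⟩
          have h7 : h6.choose = v := hPf u _ _ h6.choose_spec h5
          simp only [dif_pos h6, h7]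
        · refine ⟨v, Set.mem_univ _, ?_⟩
          have h6 : ∃ w, P v w := ⟨u, h5⟩
          have h7 : h6.choose = u := hPf v _ _ h6.choose_spec h5
          simp only [dif_pos h6, h7]
          exact Sym2.eq_swap
    have e3 := Set.ncard_le_ncard hsub (Set.toFinite _)
    have e4 := Set.ncard_image_le (f := fun u => s(u, if h : ∃ v, P u v then h.choose else u))
      (Set.toFinite (Set.univ : Set V))
    have e5 : (Set.univ : Set V).ncard = Fintype.card V := by
      rw [Set.ncard_univ, Nat.card_eq_fintype_card]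
    omega

end H467Aug
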