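import Pool.Agent.H467R2.Aug.Defs

/-!
RED: reduction of the maximum degree. (helper677)
-/

set_option autoImplicit false

namespace H467Aug

theorem red_fl_even (n a : ℕ) : fl n (2 * a) = n * a := by
  unfold fl
  rw [show n * (2 * a) = 2 * (n * a) by ring]
  exact Nat.mul_div_cancel_left _ (by norm_num)

theorem red_fl_odd (n a : ℕ) : fl n (2 * a + 1) = n * a + n / 2 := by
  unfold fl
  rw [show n * (2 * a + 1) = n + 2 * (n * a) by ring, Nat.add_mul_div_left _ _ (by norm_num)]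
  omega

/-- even to even -/
theorem red_ee (h3 : S_PET) (V : Type) [Fintype V] (b t : ℕ) : ∀ H : SimpleGraph V,
    (∀ v, dg H v ≤ 2 * (b + t)) → ∃ H' : SimpleGraph V, H' ≤ H ∧ (∀ v, dg H' v ≤ 2 * b) ∧
      ec H ≤ ec H' + Fintype.card V * t := by
  induction t with
  | zero => exact fun H hH => ⟨H, le_rfl, by simpa using hH, by simp⟩
  | succ t ih =>
    intro H hH
    obtain ⟨H1, h1, h2, h4⟩ := h3 V H (b + t) (by simpa [Nat.add_assoc] using hH)
    obtain ⟨H2, h5, h6, h7⟩ := ih H1 h2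
    refine ⟨H2, h5.trans h1, h6, ?_⟩
    calc ec H ≤ ec H1 + Fintype.card V := h4
      _ ≤ ec H2 + Fintype.card V * t + Fintype.card V := Nat.add_le_add_right h7 _
      _ = ec H2 + Fintype.card V * (t + 1) := by ring

/-- even to even, in terms of `fl` -/
theorem red_ee' (h3 : S_PET) (V : Type) [Fintype V] (H : SimpleGraph V) (D b : ℕ) (hbD : b ≤ D)
    (hH : ∀ v, dg H v ≤ D) (hD : Even D) (hb : Even b) :
    ∃ H' : SimpleGraph V, H' ≤ H ∧ (∀ v, dg H' v ≤ b) ∧
      ec H + fl (Fintype.card V) b ≤ ec H' + fl (Fintype.card V) D := by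
  obtain ⟨a, ha⟩ := hD
  obtain ⟨c, hc⟩ := hb
  obtain ⟨t, ht⟩ : ∃ t, a = c + t := ⟨a - c, by omega⟩
  have hD2 : D = 2 * (c + t) := by omega
  have hb2 : b = 2 * c := by omega
  subst hD2
  subst hb2
  obtain ⟨H', h1, h2, h4⟩ := red_ee h3 V c t H hH
  refine ⟨H', h1, h2, ?_⟩
  rw [red_fl_even, red_fl_even, Nat.mul_add]
  omega

/-- odd to odd, in terms of `fl` -/
theorem red_oo (h2 : S_ODD) (V : Type) [Fintype V] (H : SimpleGraph V) (D b : ℕ) (hbD : b ≤ D)
    (hH : ∀ v, dg H v ≤ D) (hD : Odd D) (hb : Odd b) (hn : Fintype.card V ≤ 2 * D) :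
    ∃ H' : SimpleGraph V, H' ≤ H ∧ (∀ v, dg H' v ≤ b) ∧
      ec H + fl (Fintype.card V) b ≤ ec H' + fl (Fintype.card V) D := by
  obtain ⟨a, ha⟩ := hD
  obtain ⟨c, hc⟩ := hb
  subst ha
  subst hc
  obtain ⟨H', h1, h3, h4⟩ := h2 V H a c (by omega) hH hn
  refine ⟨H', h1, h3, ?_⟩
  rw [red_fl_odd, red_fl_odd]
  have h5 : Fintype.card V * a = Fintype.card V * c + Fintype.card V * (a - c) := by
    rw [← Nat.mul_add]
    congr 1
    omega
  omega

theorem red_zero (hB : S_BAS) (V : Type) [Fintype V] (H : SimpleGraph V) (D : ℕ)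
    (hH : ∀ v, dg H v ≤ D) :
    ∃ H' : SimpleGraph V, H' ≤ H ∧ (∀ v, dg H' v ≤ 0) ∧
      ec H + fl (Fintype.card V) 0 ≤ ec H' + fl (Fintype.card V) D := by
  refine ⟨⊥, bot_le, fun v => ?_, ?_⟩
  · unfold dg
    simp
  · have h1 := (hB V H).2.2.2.1
    have h2 : ∑ v, dg H v ≤ Fintype.card V * D := by
      calc ∑ v, dg H v ≤ ∑ _v : V, D := Finset.sum_le_sum fun v _ => hH v
        _ = Fintype.card V * D := by simp
    have h3 : ec H ≤ Fintype.card V * D / 2 := by omega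
    unfold fl
    simp only [Nat.mul_zero, Nat.zero_div, Nat.add_zero]
    omega

theorem red_step (V : Type) [Fintype V] (H : SimpleGraph V) (D b c : ℕ)
    (h1 : ∃ H1 : SimpleGraph V, H1 ≤ H ∧ (∀ v, dg H1 v ≤ c) ∧
      ec H + fl (Fintype.card V) c ≤ ec H1 + fl (Fintype.card V) D)
    (h2 : ∀ H1 : SimpleGraph V, (∀ v, dg H1 v ≤ c) → ∃ H' : SimpleGraph V, H' ≤ H1 ∧
      (∀ v, dg H' v ≤ b) ∧ ec H1 + fl (Fintype.card V) b ≤ ec H' + fl (Fintype.card V) c) :
    ∃ H' : SimpleGraph V, H' ≤ H ∧ (∀ v, dg H' v ≤ b) ∧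
      ec H + fl (Fintype.card V) b ≤ ec H' + fl (Fintype.card V) D := by
  obtain ⟨H1, a1, a2, a3⟩ := h1
  obtain ⟨H2, b1, b2, b3⟩ := h2 H1 a2
  exact ⟨H2, b1.trans a1, b2, by omega⟩

theorem t_RED (h1 : S_TONE) (h2 : S_ODD) (h3 : S_PET) (hB : S_BAS) : S_RED := by
  intro V _ H D b hbD hH hcase
  have hodd : Fintype.card V ≤ 2 * D → Odd D → ∃ H' : SimpleGraph V, H' ≤ H ∧
      (∀ v, dg H' v ≤ b) ∧
      ec H + fl (Fintype.card V) b ≤ ec H' + fl (Fintype.card V) D := by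
    intro hn hD
    rcases Nat.even_or_odd b with hb | hb
    · have hD1 : 1 ≤ D := hD.pos
      have hne : b ≠ D := by
        rintro rfl
        exact (Nat.not_even_iff_odd.2 hD) hb
      refine red_step V H D b (D - 1) (h1 V H D hD1 hH hn) fun H1 hH1 => ?_
      refine red_ee' h3 V H1 (D - 1) b (by omega) hH1 ?_ hb
      exact Nat.Odd.sub_odd hD odd_one
    · exact red_oo h2 V H D b hbD hH hD hb hn
  rcases hcase with hn | ⟨hD, hb⟩ | ⟨hn, hD⟩ | hb0
  · rcases Nat.even_or_odd D with hD | hD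
    · rcases Nat.even_or_odd b with hb | hb
      · exact red_ee' h3 V H D b hbD hH hD hb
      · have hne : b ≠ D := by
          rintro rfl
          exact (Nat.not_even_iff_odd.2 hb) hD
        refine red_step V H D b (D - 1) (h1 V H D (by omega) hH (by omega)) fun H1 hH1 => ?_
        refine red_oo h2 V H1 (D - 1) b (by omega) hH1 ?_ hb (by omega)
        exact Nat.Even.sub_odd (by omega) hD odd_one
    · exact hodd (by omega) hD
  · exact red_ee' h3 V H D b hbD hH hD hb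
  · exact hodd hn hD
  · subst hb0
    exact red_zero hB V H D hH

end H467Aug
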