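import Pool.Agent.H467R2.Aug.DefsB
import Pool.Agent.H467R2.Aug.RED

/-!
RED2: reduction of the maximum degree in the good range. (helper965, after helper677's RED)
-/

set_option autoImplicit false

namespace H467Aug

/-- odd to odd in the good range, in terms of `fl` -/
theorem red2_oo (h2 : S_ODD2) (V : Type) [Fintype V] (H : SimpleGraph V) (D b : ℕ) (hbD : b ≤ D)
    (hH : ∀ v, dg H v ≤ D) (hD : Odd D) (hb : Odd b) (hn : Fintype.card V ≤ 2 * D + 4) :
    ∃ H' : SimpleGraph V, H' ≤ H ∧ (∀ v, dg H' v ≤ b) ∧
      ec H + fl (Fintype.card V) b ≤ ec H' + fl (Fintype.card V) D := by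
  obtain ⟨a, ha⟩ := hD
  obtain ⟨c, hc⟩ := hb
  subst ha
  subst hc
  obtain ⟨H', h1, h3, h4⟩ := h2 V H a c (by omega) hH (by omega)
  refine ⟨H', h1, h3, ?_⟩
  rw [red_fl_odd, red_fl_odd]
  have h5 : Fintype.card V * a = Fintype.card V * c + Fintype.card V * (a - c) := by
    rw [← Nat.mul_add]
    congr 1
    omega
  omega

theorem t_RED2 (h1 : S_TONE2) (h2 : S_ODD2) (h3 : S_PET) (hB : S_BAS) : S_RED2 := by
  intro V _ H D b hbD hH hcase
  rcases hcase with hgood | ⟨hD, hb⟩ | hb0
  · rcases Nat.even_or_odd D with hD | hD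
    · have hn : Fintype.card V ≤ 2 * D + 1 := by
        rcases hgood with h | ⟨h, -⟩
        · exact h
        · exact absurd hD (Nat.not_even_iff_odd.2 h)
      rcases Nat.even_or_odd b with hb | hb
      · exact red_ee' h3 V H D b hbD hH hD hb
      · have hne : b ≠ D := by
          rintro rfl
          exact (Nat.not_even_iff_odd.2 hb) hD
        have hb1 : 1 ≤ b := hb.pos
        refine red_step V H D b (D - 1) (h1 V H D (by omega) hH hgood) fun H1 hH1 => ?_
        refine red2_oo h2 V H1 (D - 1) b (by omega) hH1 ?_ hb (by omega)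
        exact Nat.Even.sub_odd (by omega) hD odd_one
    · have hn : Fintype.card V ≤ 2 * D + 4 := by
        rcases hgood with h | ⟨-, h⟩
        · omega
        · exact h
      rcases Nat.even_or_odd b with hb | hb
      · have hD1 : 1 ≤ D := hD.pos
        have hne : b ≠ D := by
          rintro rfl
          exact (Nat.not_even_iff_odd.2 hD) hb
        refine red_step V H D b (D - 1) (h1 V H D hD1 hH hgood) fun H1 hH1 => ?_
        refine red_ee' h3 V H1 (D - 1) b (by omega) hH1 ?_ hb
        exact Nat.Odd.sub_odd hD odd_one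
      · exact red2_oo h2 V H D b hbD hH hD hb hn
  · exact red_ee' h3 V H D b hbD hH hD hb
  · subst hb0
    exact red_zero hB V H D hH

end H467Aug
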