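import Pool.Agent.H467R2.Aug.Defs

set_option autoImplicit false

namespace H467Aug

open Classical in
theorem size_dg {V : Type} [Fintype V] (G : SimpleGraph V) (v : V) :
    dg G v = ∑ w, if G.Adj v w then 1 else 0 := by
  unfold dg
  rw [Set.ncard_eq_toFinset_card', Set.toFinset_ofPred, Finset.card_filter]

open Classical in
theorem size_cut {V : Type} [Fintype V] (G : SimpleGraph V) (X : Set V) :
    cut G X = ∑ v ∈ X.toFinset, ∑ w ∈ X.toFinsetᶜ, if G.Adj v w then 1 else 0 := by
  unfold cut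
  rw [Set.ncard_eq_toFinset_card', ← Finset.sum_product', ← Finset.card_filter]
  congr 1
  ext p
  simp only [Set.mem_toFinset, Set.mem_ofPred_eq, Finset.mem_filter, Finset.mem_product,
    Finset.mem_compl]
  tauto

theorem size_KC {V : Type} [Fintype V] (G : SimpleGraph V) (j : ℕ) (h : KC G j) (v : V)
    (hv : ({v} : Set V)ᶜ.Nonempty) : j ≤ dg G v := by
  refine (h {v} (Set.singleton_nonempty v) hv).trans ?_
  unfold cut dg
  have hsub : {p : V × V | G.Adj p.1 p.2 ∧ p.1 ∈ ({v} : Set V) ∧ p.2 ∉ ({v} : Set V)} ⊆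
      (fun w => (v, w)) '' {w | G.Adj v w} := by
    rintro ⟨a, b⟩ ⟨h1, h2, h3⟩
    simp only [Set.mem_singleton_iff] at h2
    subst h2
    exact ⟨b, h1, rfl⟩
  exact (Set.ncard_le_ncard hsub (Set.toFinite _)).trans (Set.ncard_image_le (Set.toFinite _))

theorem t_SIZE : S_SIZE := by
  classical
  intro V _ G F j X hK hD hX hXc hcut hcov hF
  by_contra hlt
  rw [not_le] at hlt
  set Xf := X.toFinset with hXf
  have hs : X.ncard = Xf.card := by
    rw [hXf, ← Set.ncard_eq_toFinset_card']
  have hs1 : 1 ≤ Xf.card := by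
    rw [← hs]
    exact (Set.ncard_pos (Set.toFinite X)).mpr hX
  have hdg : ∀ v ∈ Xf, j + 1 ≤ dg G v + (if dg G v = j then 1 else 0) := by
    intro v hv
    have h1 : j ≤ dg G v := by
      apply size_KC G j hK
      obtain ⟨w, hw⟩ := hXc
      refine ⟨w, fun h => hw ?_⟩
      rw [Set.mem_singleton_iff] at h
      rw [h]
      exact Set.mem_toFinset.mp hv
    split_ifs with h2
    · omega
    · omega
  have hin : ∀ v ∈ Xf, (∑ w ∈ Xf, if G.Adj v w then 1 else 0) + (if dg G v = j then 1 else 0) + 1 ≤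
      Xf.card := by
    intro v hv
    rw [← Finset.card_filter]
    have hv' : v ∈ X := Set.mem_toFinset.mp hv
    split_ifs with h2
    · obtain ⟨w, hw⟩ := hF v hv' h2
      have hwX : w ∈ X := by
        by_contra hn
        exact hcov ⟨v, w, hw, hv', hn⟩
      have hwf : w ∈ Xf := Set.mem_toFinset.mpr hwX
      have hvw : v ≠ w := hw.ne
      have hsub : Xf.filter (fun w => G.Adj v w) ⊆ (Xf.erase v).erase w := by
        intro z hz
        rw [Finset.mem_filter] at hz
        rw [Finset.mem_erase, Finset.mem_erase]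
        refine ⟨?_, hz.2.ne', hz.1⟩
        rintro rfl
        exact hD v z hw hz.2
      have h3 := Finset.card_le_card hsub
      rw [Finset.card_erase_of_mem (Finset.mem_erase.mpr ⟨hvw.symm, hwf⟩),
        Finset.card_erase_of_mem hv] at h3
      have h4 : 2 ≤ Xf.card := by
        have : ({v, w} : Finset V) ⊆ Xf := by
          intro z hz
          rw [Finset.mem_insert, Finset.mem_singleton] at hz
          rcases hz with rfl | rfl
          · exact hv
          · exact hwf
        have h5 := Finset.card_le_card this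
        rwa [Finset.card_pair hvw] at h5
      omega
    · have hsub : Xf.filter (fun w => G.Adj v w) ⊆ Xf.erase v := by
        intro z hz
        rw [Finset.mem_filter] at hz
        rw [Finset.mem_erase]
        exact ⟨hz.2.ne', hz.1⟩
      have h3 := Finset.card_le_card hsub
      rw [Finset.card_erase_of_mem hv] at h3
      omega
  have hsplit : ∀ v, dg G v = (∑ w ∈ Xf, if G.Adj v w then 1 else 0) +
      ∑ w ∈ Xfᶜ, if G.Adj v w then 1 else 0 := by
    intro v
    rw [size_dg, Finset.sum_add_sum_compl]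
  have hcut' : ∑ v ∈ Xf, ∑ w ∈ Xfᶜ, (if G.Adj v w then 1 else 0) = j := by
    rw [← hcut, size_cut]
  have h1 := Finset.sum_le_sum hdg
  have h2 := Finset.sum_le_sum hin
  rw [Finset.sum_const, Finset.sum_add_distrib, smul_eq_mul] at h1
  rw [Finset.sum_add_distrib, Finset.sum_add_distrib, Finset.sum_const, Finset.sum_const,
    smul_eq_mul, smul_eq_mul, mul_one] at h2
  have h3 : ∑ v ∈ Xf, dg G v = ∑ v ∈ Xf, (∑ w ∈ Xf, if G.Adj v w then 1 else 0) + j := by
    rw [← hcut', ← Finset.sum_add_distrib]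
    exact Finset.sum_congr rfl fun v _ => hsplit v
  rw [h3] at h1
  rw [hs] at hlt
  obtain ⟨s, hsd⟩ : ∃ s, s = Xf.card := ⟨_, rfl⟩
  rw [← hsd] at h1 h2 hlt hs1
  -- s (j+1) ≤ s (s-1) + j
  have h4 : s * (j + 1) + s ≤ s * s + j := by
    have e1 : s * (j + 1) ≤ (∑ v ∈ Xf, ∑ w ∈ Xf, if G.Adj v w then 1 else 0) + j +
        ∑ v ∈ Xf, (if dg G v = j then 1 else 0) := h1
    have e2 : (∑ v ∈ Xf, ∑ w ∈ Xf, if G.Adj v w then 1 else 0) +
        ∑ v ∈ Xf, (if dg G v = j then 1 else 0) + s ≤ s * s := h2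
    omega
  obtain ⟨t, ht⟩ : ∃ t, j + 1 = s + t := ⟨j + 1 - s, by omega⟩
  obtain ⟨r, hr⟩ : ∃ r, s = r + 1 := ⟨s - 1, by omega⟩
  subst hr
  have hj : j = r + t := by omega
  subst hj
  nlinarith [Nat.zero_le (r * t)]

end H467Aug
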