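import Pool.Agent.H467R2.Aug.Defs

/-!
# STEP: augmentation by one
-/

set_option autoImplicit false

namespace H467Aug

lemma step_kc {V : Type} [Fintype V] (hB : S_BAS) (G F : SimpleGraph V) (j : ℕ) (hG : KC G j)
    (hd : Dis F G) (h : ∀ X : Set V, X.Nonempty → Xᶜ.Nonempty → cut G X = j → Cov F X) :
    KC (G ⊔ F) (j + 1) := by
  intro X h1 h2
  obtain ⟨-, -, -, -, -, -, -, -, b9, b10, -⟩ := hB V G
  rcases Nat.lt_or_ge (cut G X) (j + 1) with h3 | h3
  · have h4 : cut G X = j := le_antisymm (Nat.lt_succ_iff.1 h3) (hG X h1 h2)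
    have := b9 F hd X (h X h1 h2 h4)
    omega
  · exact le_trans h3 (b10 (G ⊔ F) le_sup_left X)

lemma step_cov_compl {V : Type} (F : SimpleGraph V) (X : Set V) (h : ¬ Cov F X) : ¬ Cov F Xᶜ := by
  rintro ⟨a, b, hab, ha, hb⟩
  exact h ⟨b, a, hab.symm, by simpa using hb, ha⟩

theorem t_STEP (h1 : S_LOOP) (h2 : S_MC) (h3 : S_SIZE) (h4 : S_JOIN) (hB : S_BAS) : S_STEP := by
  intro V _ G j hj hn hG
  classical
  set n := Fintype.card V with hnd
  have hBG := hB V G
  obtain ⟨b1, b2, b3, b4, b5, b6, b7, b8, b9, b10, b11, b12, b13⟩ := hBG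
  have hdeg : ∀ v, j ≤ dg G v := fun v => b13 j hG (by omega) v
  have hcd : ∀ v, dg Gᶜ v = n - 1 - dg G v := fun v => by have := b3 v; omega
  have hDle : ∀ v, dg Gᶜ v ≤ n - 1 - j := fun v => by have := hdeg v; have := hcd v; omega
  have hiff : ∀ v, dg Gᶜ v = n - 1 - j ↔ dg G v = j := fun v => by
    have := hdeg v; have := b3 v; omega
  have hmul : n * (j + 1) = n * j + n := by ring
  -- cost
  rcases h2 V Gᶜ (n - 1 - j) hDle (by omega) with ⟨M, hM, hMG, hMc⟩ | ⟨hev, hodd, hcl, u, hu, M, hM, hMG, hMc, hMu, hMK⟩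
  · have hMd : Dis M G := fun a b hab => by
      have := hMG hab
      rw [SimpleGraph.compl_adj] at this
      exact this.2
    obtain ⟨M', hM', hd', hc'⟩ := h1 V G M ⊥ j hj hG hM hMd (fun a b hab => by simp at hab)
      (fun v hv => by
        obtain ⟨w, hw⟩ := hMc v ((hiff v).2 hv)
        exact ⟨w, Or.inl hw⟩)
    refine ⟨G ⊔ M', le_sup_left, step_kc hB G M' j hG hd' (fun X hX hXc hcut => ?_), ?_⟩
    · have := hc' X hX hXc hcut
      rwa [sup_bot_eq] at this
    · have e1 := b7 M'
      have e2 : 2 * ec M' ≤ n := by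
        obtain ⟨-, -, -, -, -, -, -, -, -, -, c11, -⟩ := hB V M'
        exact c11 hM'
      unfold cl
      rw [hmul]
      omega
  · -- the extra edge
    have hDpos : 1 ≤ n - 1 - j := by omega
    obtain ⟨x, hx⟩ : ∃ x, Gᶜ.Adj u x := by
      by_contra hcon
      push Not at hcon
      have : dg Gᶜ u = 0 := by
        unfold dg
        have : {w | Gᶜ.Adj u w} = ∅ := by
          ext w; simp only [Set.mem_setOf_eq, Set.mem_empty_iff_false, iff_false]; exact hcon w
        rw [this, Set.ncard_empty]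
      omega
    set E : SimpleGraph V := SimpleGraph.fromEdgeSet {s(u, x)} with hE
    have hEadj : ∀ a b, E.Adj a b ↔ s(a, b) = s(u, x) ∧ a ≠ b := fun a b => by
      rw [hE, SimpleGraph.fromEdgeSet_adj]; rfl
    have hux : u ≠ x := hx.ne
    have hEux : E.Adj u x := (hEadj u x).2 ⟨rfl, hux⟩
    have hEG : Dis E G := by
      intro a b hab
      obtain ⟨hab1, -⟩ := (hEadj a b).1 hab
      have hnG : ¬ G.Adj u x := by
        rw [SimpleGraph.compl_adj] at hx
        exact hx.2
      rcases Sym2.eq_iff.1 hab1 with ⟨rfl, rfl⟩ | ⟨rfl, rfl⟩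
      · exact hnG
      · exact fun h => hnG h.symm
    have hEc : ec E ≤ 1 := by
      unfold ec
      have : E.edgeSet ⊆ {s(u, x)} := by
        rw [hE, SimpleGraph.edgeSet_fromEdgeSet]
        exact Set.diff_subset
      calc E.edgeSet.ncard ≤ ({s(u, x)} : Set (Sym2 V)).ncard := Set.ncard_le_ncard this (Set.finite_singleton _)
        _ = 1 := Set.ncard_singleton _
    have hMd : Dis M G := fun a b hab => by
      have := hMG hab
      rw [SimpleGraph.compl_adj] at this
      exact this.2
    have hcovv : ∀ v, dg G v = j → ∃ w, (M ⊔ E).Adj v w := by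
      intro v hv
      by_cases hvu : v = u
      · subst hvu
        exact ⟨x, Or.inr hEux⟩
      · obtain ⟨w, hw⟩ := hMc v ((hiff v).2 hv) hvu
        exact ⟨w, Or.inl hw⟩
    by_cases hK : {v | dg Gᶜ v = n - 1 - j} = Set.univ
    · rw [hK, Set.ncard_univ, Nat.card_eq_fintype_card, ← hnd] at hodd
      obtain ⟨M', hM', hd', hc'⟩ := h1 V G M E j hj hG hM hMd hEG hcovv
      have hdis : Dis (M' ⊔ E) G := by
        rintro a b (hab | hab)
        · exact hd' a b hab
        · exact hEG a b hab
      refine ⟨G ⊔ (M' ⊔ E), le_sup_left, step_kc hB G (M' ⊔ E) j hG hdis hc', ?_⟩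
      have e1 := b7 (M' ⊔ E)
      have e2 : ec (M' ⊔ E) ≤ ec M' + ec E := by
        obtain ⟨-, -, -, -, -, -, c7, -⟩ := hB V M'
        exact c7 E
      have e3 : 2 * ec M' ≤ n := by
        obtain ⟨-, -, -, -, -, -, -, -, -, -, c11, -⟩ := hB V M'
        exact c11 hM'
      have hjev : Even j := by
        rcases hodd with ⟨r, hr⟩
        rcases hev with ⟨s, hs⟩
        exact ⟨r - s, by omega⟩
      obtain ⟨t, ht⟩ : Even (n * j) := hjev.mul_left n
      obtain ⟨r, hr⟩ := hodd
      unfold cl
      rw [hmul]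
      omega
    · -- K is not everything
      have hKc : ({v | dg Gᶜ v = n - 1 - j}ᶜ : Set V).Nonempty := by
        rw [Set.nonempty_compl]; exact hK
      have hdis : Dis (M ⊔ E) G := by
        rintro a b (hab | hab)
        · exact hMd a b hab
        · exact hEG a b hab
      have hKcard : n - 1 - j + 1 ≤ ({v | dg Gᶜ v = n - 1 - j} : Set V).ncard := by
        have hsub : insert u {w | Gᶜ.Adj u w} ⊆ {v | dg Gᶜ v = n - 1 - j} := by
          rintro w (rfl | hw)
          · exact hu
          · exact hcl u w hu hw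
        have hni : u ∉ {w | Gᶜ.Adj u w} := fun h => (Gᶜ).irrefl h
        calc n - 1 - j + 1 = ({w | Gᶜ.Adj u w}).ncard + 1 := by
              have : ({w | Gᶜ.Adj u w} : Set V).ncard = n - 1 - j := hu
              rw [this]
          _ = (insert u {w | Gᶜ.Adj u w}).ncard := (Set.ncard_insert_of_notMem hni (Set.toFinite _)).symm
          _ ≤ _ := Set.ncard_le_ncard hsub (Set.toFinite _)
      refine ⟨G ⊔ (M ⊔ E), le_sup_left, step_kc hB G (M ⊔ E) j hG hdis (fun X hX hXc hcut => ?_), ?_⟩
      · by_contra hcon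
        have s1 := h3 V G (M ⊔ E) j X hG hdis hX hXc hcut hcon (fun v _ hv => hcovv v hv)
        have s2 := h3 V G (M ⊔ E) j Xᶜ hG hdis hXc (by rwa [compl_compl]) (by rw [b2, hcut])
          (step_cov_compl _ _ hcon) (fun v _ hv => hcovv v hv)
        have s3 := h4 V G j {v | dg Gᶜ v = n - 1 - j} X (fun v hv w hw => by
          by_contra hvw
          have hne : v ≠ w := by rintro rfl; exact hw hv
          exact hw (hcl v w hv (by rw [SimpleGraph.compl_adj]; exact ⟨hne, hvw⟩))) (by omega) hKc s1 s2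
        omega
      · have e1 := b7 (M ⊔ E)
        have e2 : ec (M ⊔ E) ≤ ec M + ec E := by
          obtain ⟨-, -, -, -, -, -, c7, -⟩ := hB V M
          exact c7 E
        have e3 : 2 * ec M + 1 ≤ n := by
          obtain ⟨-, -, -, -, -, -, -, -, -, -, -, c12, -⟩ := hB V M
          exact c12 hM u hMu
        rcases Nat.even_or_odd n with hne | hno
        · obtain ⟨t, ht⟩ : Even (n * j) := hne.mul_right j
          obtain ⟨r, hr⟩ := hne
          unfold cl
          rw [hmul]
          omega
        · have hjev : Even j := by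
            rcases hno with ⟨r, hr⟩
            rcases hev with ⟨s, hs⟩
            exact ⟨r - s, by omega⟩
          obtain ⟨t, ht⟩ : Even (n * j) := hjev.mul_left n
          obtain ⟨r, hr⟩ := hno
          unfold cl
          rw [hmul]
          omega

end H467Aug
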