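import Pool.Agent.H467R2.Aug.Defs

/-!
# SWAP: the exchange step
-/

set_option autoImplicit false

namespace H467Aug

/-- the exchanged matching -/
def swap_M {V : Type} (M : SimpleGraph V) (a b c d : V) (hac : a ≠ c) (hbd : b ≠ d) :
    SimpleGraph V where
  Adj x y := (M.Adj x y ∧ (x ≠ a ∧ x ≠ b ∧ x ≠ c ∧ x ≠ d) ∧ (y ≠ a ∧ y ≠ b ∧ y ≠ c ∧ y ≠ d)) ∨
    ((x = a ∧ y = c) ∨ (x = c ∧ y = a)) ∨ ((x = b ∧ y = d) ∨ (x = d ∧ y = b))
  symm := ⟨by
    rintro x y (⟨h, h1, h2⟩ | (h | h) | (h | h))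
    · exact Or.inl ⟨h.symm, h2, h1⟩
    · exact Or.inr (Or.inl (Or.inr ⟨h.2, h.1⟩))
    · exact Or.inr (Or.inl (Or.inl ⟨h.2, h.1⟩))
    · exact Or.inr (Or.inr (Or.inr ⟨h.2, h.1⟩))
    · exact Or.inr (Or.inr (Or.inl ⟨h.2, h.1⟩))⟩
  loopless := ⟨by
    rintro x (⟨h, -, -⟩ | (h | h) | (h | h))
    · exact M.loopless.irrefl x h
    · exact hac (h.1.symm.trans h.2)
    · exact hac (h.2.symm.trans h.1)
    · exact hbd (h.1.symm.trans h.2)
    · exact hbd (h.2.symm.trans h.1)⟩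

theorem swap_aux (hB : S_BAS) {V : Type} [Fintype V] (G M E : SimpleGraph V) (j : ℕ) (X : Set V)
    (hM : Mat M) (hMG : Dis M G) (a b c d : V) (ha : a ∈ X) (hb : b ∈ X) (hc : c ∉ X)
    (hd : d ∉ X) (hab : a ≠ b) (hcd : c ≠ d)
    (h1 : M.Adj a b ∨ ((∀ w, ¬ M.Adj a w) ∧ (∀ w, ¬ M.Adj b w)))
    (h2 : M.Adj c d ∨ ((∀ w, ¬ M.Adj c w) ∧ (∀ w, ¬ M.Adj d w)))
    (hac : ¬ G.Adj a c) (hbd : ¬ G.Adj b d) :
    (∃ M' : SimpleGraph V, Mat M' ∧ Dis M' G ∧ Cov M' X ∧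
      ∀ Y, cut G Y = j → Cov (M ⊔ E) Y → Cov (M' ⊔ E) Y) ∨
    ∃ Y : Set V, cut G Y = j ∧ a ∈ Y ∧ c ∈ Y ∧ b ∉ Y ∧ d ∉ Y := by
  have hac' : a ≠ c := fun h => hc (h ▸ ha)
  have had' : a ≠ d := fun h => hd (h ▸ ha)
  have hbc' : b ≠ c := fun h => hc (h ▸ hb)
  have hbd' : b ≠ d := fun h => hd (h ▸ hb)
  have hMa : ∀ w, M.Adj a w → w = b := by
    intro w hw
    rcases h1 with h1 | h1
    · exact hM a w b hw h1
    · exact absurd hw (h1.1 w)
  have hMb : ∀ w, M.Adj b w → w = a := by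
    intro w hw
    rcases h1 with h1 | h1
    · exact hM b w a hw h1.symm
    · exact absurd hw (h1.2 w)
  have hMc : ∀ w, M.Adj c w → w = d := by
    intro w hw
    rcases h2 with h2 | h2
    · exact hM c w d hw h2
    · exact absurd hw (h2.1 w)
  have hMd : ∀ w, M.Adj d w → w = c := by
    intro w hw
    rcases h2 with h2 | h2
    · exact hM d w c hw h2.symm
    · exact absurd hw (h2.2 w)
  by_cases hall : ∀ Y, cut G Y = j → Cov (M ⊔ E) Y → Cov (swap_M M a b c d hac' hbd' ⊔ E) Y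
  · left
    refine ⟨swap_M M a b c d hac' hbd', ?_, ?_, ?_, hall⟩
    · intro u v w huv huw
      simp only [swap_M] at huv huw
      rcases huv with ⟨h, h3, h4⟩ | (h | h) | (h | h) <;>
      rcases huw with ⟨k, k3, k4⟩ | (k | k) | (k | k)
      all_goals first
        | exact hM u v w h k
        | (exfalso; obtain ⟨h5, h6⟩ := h; subst h5; simp at k3)
        | (exfalso; obtain ⟨h5, h6⟩ := k; subst h5; simp at h3)
        | (obtain ⟨h5, h6⟩ := h; obtain ⟨k5, k6⟩ := k; subst h5; subst h6; simp_all)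
    · intro u v huv hG
      simp only [swap_M] at huv
      rcases huv with ⟨h, -, -⟩ | (h | h) | (h | h)
      · exact hMG u v h hG
      · rw [h.1, h.2] at hG; exact hac hG
      · rw [h.1, h.2] at hG; exact hac hG.symm
      · rw [h.1, h.2] at hG; exact hbd hG
      · rw [h.1, h.2] at hG; exact hbd hG.symm
    · exact ⟨a, c, Or.inr (Or.inl (Or.inl ⟨rfl, rfl⟩)), ha, hc⟩
  · right
    push Not at hall
    obtain ⟨Y, hY, hcov, hn⟩ := hall
    have hE : ∀ u v, E.Adj u v → u ∈ Y → v ∈ Y := by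
      intro u v huv hu
      by_contra hv
      exact hn ⟨u, v, Or.inr huv, hu, hv⟩
    have hN : ∀ u v, (swap_M M a b c d hac' hbd').Adj u v → u ∈ Y → v ∈ Y := by
      intro u v huv hu
      by_contra hv
      exact hn ⟨u, v, Or.inl huv, hu, hv⟩
    have e1 : a ∈ Y ↔ c ∈ Y :=
      ⟨hN a c (Or.inr (Or.inl (Or.inl ⟨rfl, rfl⟩))), hN c a (Or.inr (Or.inl (Or.inr ⟨rfl, rfl⟩)))⟩
    have e2 : b ∈ Y ↔ d ∈ Y :=
      ⟨hN b d (Or.inr (Or.inr (Or.inl ⟨rfl, rfl⟩))), hN d b (Or.inr (Or.inr (Or.inr ⟨rfl, rfl⟩)))⟩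
    have e3 : ¬ (a ∈ Y ↔ b ∈ Y) := by
      intro e3
      obtain ⟨u, v, huv, hu, hv⟩ := hcov
      rcases huv with huv | huv
      · have hva : ∀ x y, M.Adj x y → (x ∈ Y ∧ y ∉ Y) → x ≠ a := by
          rintro x y hxy ⟨hx, hy⟩ rfl
          rw [hMa y hxy] at hy
          exact hy (e3.1 hx)
        have hvb : ∀ x y, M.Adj x y → (x ∈ Y ∧ y ∉ Y) → x ≠ b := by
          rintro x y hxy ⟨hx, hy⟩ rfl
          rw [hMb y hxy] at hy
          exact hy (e3.2 hx)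
        have hvc : ∀ x y, M.Adj x y → (x ∈ Y ∧ y ∉ Y) → x ≠ c := by
          rintro x y hxy ⟨hx, hy⟩ rfl
          rw [hMc y hxy] at hy
          exact hy (e2.1 (e3.1 (e1.2 hx)))
        have hvd : ∀ x y, M.Adj x y → (x ∈ Y ∧ y ∉ Y) → x ≠ d := by
          rintro x y hxy ⟨hx, hy⟩ rfl
          rw [hMd y hxy] at hy
          exact hy (e1.1 (e3.2 (e2.2 hx)))
        have hwa : v ≠ a := by
          rintro rfl
          have := hMa u huv.symm
          rw [this] at hu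
          exact hv (e3.2 hu)
        have hwb : v ≠ b := by
          rintro rfl
          have := hMb u huv.symm
          rw [this] at hu
          exact hv (e3.1 hu)
        have hwc : v ≠ c := by
          rintro rfl
          have := hMc u huv.symm
          rw [this] at hu
          exact hv (e1.1 (e3.2 (e2.2 hu)))
        have hwd : v ≠ d := by
          rintro rfl
          have := hMd u huv.symm
          rw [this] at hu
          exact hv (e2.1 (e3.1 (e1.2 hu)))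
        exact hv (hN u v (Or.inl ⟨huv, ⟨hva u v huv ⟨hu, hv⟩, hvb u v huv ⟨hu, hv⟩,
          hvc u v huv ⟨hu, hv⟩, hvd u v huv ⟨hu, hv⟩⟩, ⟨hwa, hwb, hwc, hwd⟩⟩) hu)
      · exact hv (hE u v huv hu)
    by_cases haY : a ∈ Y
    · refine ⟨Y, hY, haY, e1.1 haY, fun hbY => e3 ⟨fun _ => hbY, fun _ => haY⟩, fun hdY => ?_⟩
      exact e3 ⟨fun _ => e2.2 hdY, fun _ => haY⟩
    · have hbY : b ∈ Y := by
        by_contra hbY
        exact e3 ⟨fun h => absurd h haY, fun h => absurd h hbY⟩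
      refine ⟨Yᶜ, ?_, haY, fun hcY => haY (e1.2 hcY), fun h => h hbY, fun h => h (e2.1 hbY)⟩
      rw [(hB V G).2.1 Y, hY]

theorem t_SWAP (h1 : S_GOOD) (h2 : S_LEM3) (hB : S_BAS) : S_SWAP := by
  intro V _ G M E j X hj hK hM hMG hEG hX hcov hX1 hX2
  have hcovM : ¬ Cov M X := by
    rintro ⟨u, v, huv, hu, hv⟩
    exact hcov ⟨u, v, Or.inl huv, hu, hv⟩
  obtain ⟨a, b, c, d, ha, hb, hc, hd, hab, hcd, hMab, hMcd, hac, had, hbc, hbd⟩ :=
    h1 V G M j X hj hM hcovM hX hX1 hX2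
  rcases swap_aux hB G M E j X hM hMG a b c d ha hb hc hd hab hcd hMab hMcd hac hbd with h | h
  · exact h
  · have hMdc : M.Adj d c ∨ ((∀ w, ¬ M.Adj d w) ∧ (∀ w, ¬ M.Adj c w)) := by
      rcases hMcd with h | h
      · exact Or.inl h.symm
      · exact Or.inr ⟨h.2, h.1⟩
    rcases swap_aux hB G M E j X hM hMG a b d c ha hb hd hc hab hcd.symm hMab hMdc had hbc with
      k | k
    · exact k
    · exfalso
      obtain ⟨Y, hY, haY, hcY, hbY, hdY⟩ := h
      obtain ⟨Z, hZ, haZ, hdZ, hbZ, hcZ⟩ := k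
      exact h2 V G j X Y Z a b c d (by omega) hK hX hY hZ ha hb hc hd haY hcY hbY hdY haZ hdZ
        hbZ hcZ

end H467Aug
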