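import Pool.Agent.H467R2.Aug.Defs

/-!
# TONE: reduction of the maximum degree `D ≥ n/2` by one
-/

set_option autoImplicit false

namespace H467Aug

theorem tone_deg {V : Type} [Fintype V] (H F : SimpleGraph V) (D : ℕ) (hD : 1 ≤ D)
    (hd : ∀ v, dg H v ≤ D) (hF : F ≤ H) (hc : ∀ v, dg H v = D → ∃ w, F.Adj v w) (v : V) :
    dg (H \ F) v ≤ D - 1 := by
  classical
  by_cases h : dg H v = D
  · obtain ⟨w, hw⟩ := hc v h
    have h1 : {x | (H \ F).Adj v x} ⊆ {x | H.Adj v x} \ {w} := by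
      intro x hx
      have hx' : H.Adj v x ∧ ¬ F.Adj v x := hx
      refine ⟨hx'.1, ?_⟩
      intro hxw
      have : x = w := hxw
      subst this
      exact hx'.2 hw
    have h2 : dg (H \ F) v ≤ ({x | H.Adj v x} \ {w}).ncard :=
      Set.ncard_le_ncard h1 (Set.toFinite _)
    have h3 : ({x | H.Adj v x} \ {w}).ncard = {x | H.Adj v x}.ncard - 1 :=
      Set.ncard_diff_singleton_of_mem (hF hw)
    have h4 : {x | H.Adj v x}.ncard = D := h
    omega
  · have h1 : {x | (H \ F).Adj v x} ⊆ {x | H.Adj v x} := by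
      intro x hx
      have hx' : H.Adj v x ∧ ¬ F.Adj v x := hx
      exact hx'.1
    have h2 : dg (H \ F) v ≤ dg H v := Set.ncard_le_ncard h1 (Set.toFinite _)
    have h3 := hd v
    omega

theorem tone_edge {V : Type} (u x : V) :
    ec (SimpleGraph.fromEdgeSet ({s(u, x)} : Set (Sym2 V))) ≤ 1 := by
  unfold ec
  rw [SimpleGraph.edgeSet_fromEdgeSet]
  calc (({s(u, x)} : Set (Sym2 V)) \ Sym2.diagSet).ncard ≤ ({s(u, x)} : Set (Sym2 V)).ncard :=
        Set.ncard_le_ncard Set.diff_subset (Set.finite_singleton _)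
    _ = 1 := Set.ncard_singleton _

theorem t_TONE (h : S_MC) (hB : S_BAS) : S_TONE := by
  intro V _ H D hD hd hn
  obtain ⟨M, hM, hMH, hcov⟩ | ⟨hev, -, -, u, hu, M, hM, hMH, hcov, hfree, -⟩ := h V H D hd hn
  · refine ⟨H \ M, sdiff_le, tone_deg H M D hD hd hMH hcov, ?_⟩
    obtain ⟨-, -, -, -, -, -, -, hs, -⟩ := hB V H
    obtain ⟨-, -, -, -, -, -, -, -, -, -, hm, -⟩ := hB V M
    have h1 := hs M hMH
    have h2 := hm hM
    obtain ⟨e, rfl⟩ : ∃ e, D = e + 1 := ⟨D - 1, by omega⟩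
    have h3 : fl (Fintype.card V) (e + 1) = (Fintype.card V * e + Fintype.card V) / 2 := by
      unfold fl
      rw [Nat.mul_succ]
    have h4 : fl (Fintype.card V) (e + 1 - 1) = (Fintype.card V * e) / 2 := rfl
    omega
  · have hx : ∃ x, H.Adj u x := by
      have h1 : {w | H.Adj u w}.ncard = D := hu
      have h2 : {w | H.Adj u w}.Nonempty := by
        rw [← Set.ncard_pos (Set.toFinite _)]
        omega
      exact h2
    obtain ⟨x, hx⟩ := hx
    set E : SimpleGraph V := SimpleGraph.fromEdgeSet ({s(u, x)} : Set (Sym2 V)) with hE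
    have hEux : E.Adj u x := by
      rw [hE, SimpleGraph.fromEdgeSet_adj]
      exact ⟨rfl, hx.ne⟩
    have hEH : E ≤ H := by
      intro a b hab
      rw [hE, SimpleGraph.fromEdgeSet_adj] at hab
      have h1 : s(a, b) = s(u, x) := hab.1
      have h2 : s(a, b) ∈ H.edgeSet := by
        rw [h1]
        exact hx
      exact h2
    have hFH : M ⊔ E ≤ H := sup_le hMH hEH
    have hcov' : ∀ v, dg H v = D → ∃ w, (M ⊔ E).Adj v w := by
      intro v hv
      by_cases hvu : v = u
      · subst hvu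
        exact ⟨x, Or.inr hEux⟩
      · obtain ⟨w, hw⟩ := hcov v hv hvu
        exact ⟨w, Or.inl hw⟩
    refine ⟨H \ (M ⊔ E), sdiff_le, tone_deg H (M ⊔ E) D hD hd hFH hcov', ?_⟩
    obtain ⟨-, -, -, -, -, -, -, hs, -⟩ := hB V H
    obtain ⟨-, -, -, -, -, -, hsup, -, -, -, -, hm, -⟩ := hB V M
    have h1 := hs (M ⊔ E) hFH
    have h2 := hsup E
    have h3 : ec E ≤ 1 := tone_edge u x
    have h4 := hm hM u hfree
    obtain ⟨d, hd2⟩ := hev
    obtain ⟨e, rfl⟩ : ∃ e, d = e + 1 := ⟨d - 1, by omega⟩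
    subst hd2
    have h5 : fl (Fintype.card V) (e + 1 + (e + 1)) =
        (2 * (Fintype.card V * e) + 2 * Fintype.card V) / 2 := by
      unfold fl
      congr 1
      ring
    have h6 : fl (Fintype.card V) (e + 1 + (e + 1) - 1) =
        (2 * (Fintype.card V * e) + Fintype.card V) / 2 := by
      have : e + 1 + (e + 1) - 1 = 2 * e + 1 := by omega
      unfold fl
      rw [this]
      congr 1
      ring
    omega

end H467Aug
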