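import Pool.Agent.H467R2.Aug.BAS
import Pool.Agent.H467R2.Aug.CUT
import Pool.Agent.H467R2.Aug.LEM3
import Pool.Agent.H467R2.Aug.SIZE
import Pool.Agent.H467R2.Aug.PAIRS
import Pool.Agent.H467R2.Aug.GOOD
import Pool.Agent.H467R2.Aug.SWAP
import Pool.Agent.H467R2.Aug.LOOP
import Pool.Agent.H467R2.Aug.MCA
import Pool.Agent.H467R2.Aug.MCB
import Pool.Agent.H467R2.Aug.MC
import Pool.Agent.H467R2.Aug.JOIN
import Pool.Agent.H467R2.Aug.STEP
import Pool.Agent.H467R2.Aug.ORM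
import Pool.Agent.H467R2.Aug.ORI
import Pool.Agent.H467R2.Aug.BIP
import Pool.Agent.H467R2.Aug.PET
import Pool.Agent.H467R2.Aug.TONE
import Pool.Agent.H467R2.Aug.ODD
import Pool.Agent.H467R2.Aug.RED
import Pool.Agent.H467R2.Aug.CHA
import Pool.Agent.H467R2.Aug.CYC
import Pool.Agent.H467R2.Aug.EX
import Pool.Agent.H467R2.Aug.PA
import Pool.Agent.H467R2.Aug.PB
import Pool.Agent.H467R2.Aug.MCA2
import Pool.Agent.H467R2.Aug.MC2
import Pool.Agent.H467R2.Aug.TONE2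
import Pool.Agent.H467R2.Aug.ODD2
import Pool.Agent.H467R2.Aug.RED2
import Pool.Agent.H467R2.Aug.UP2
import Pool.Agent.H467R2.Aug.MAIN2

set_option autoImplicit false

namespace H467Aug

theorem all_PET : S_PET := t_PET (t_ORI t_ORM) t_BIP t_BAS
theorem all_LOOP : S_LOOP := t_LOOP t_SIZE (t_SWAP (t_GOOD t_PAIRS) t_LEM3 t_BAS) t_BAS
theorem all_MC : S_MC := t_MC t_MCA t_MCB t_BAS
theorem all_STEP : S_STEP := t_STEP all_LOOP all_MC t_SIZE t_JOIN t_BAS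
theorem all_RED : S_RED := t_RED (t_TONE all_MC t_BAS) (t_ODD all_MC all_PET t_BAS) all_PET t_BAS
theorem all_CHA : S_CHA := t_CHA t_BAS
theorem all_EX : S_EX := t_EX all_STEP t_CYC all_RED all_CHA t_BAS
theorem all_MC2 : S_MC2 := t_MC2 t_PA t_PB t_MCA2
theorem all_RED2 : S_RED2 :=
  t_RED2 (t_TONE2 all_MC2 t_BAS) (t_ODD2 all_MC2 all_PET t_BAS) all_PET t_BAS
theorem all_UP2 : S_UP2 := t_UP2 all_STEP all_RED2 all_CHA t_BAS
theorem all_MAIN2 : S_MAIN2 := t_MAIN2 all_UP2 all_EX t_CUT t_BAS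

end H467Aug
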