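import Pool.Agent.H467R2.Aug.BLO

/-!
# MP_30a809_co, task BLE (second version)
-/

set_option autoImplicit false

namespace H467Aug

open scoped Classical in
theorem bleb_eb {V : Type} (H : SimpleGraph V) (A B : Finset V) :
    eb H (A : Set V) (B : Set V) = ∑ v ∈ A, ∑ w ∈ B, if H.Adj v w then 1 else 0 := by
  have h : {p : V × V | H.Adj p.1 p.2 ∧ p.1 ∈ (A : Set V) ∧ p.2 ∈ (B : Set V)} =
      (((A ×ˢ B).filter fun p => H.Adj p.1 p.2 : Finset (V × V)) : Set (V × V)) := by
    ext p
    simp only [Set.mem_ofPred_eq, Finset.mem_coe, Finset.mem_filter, Finset.mem_product]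
    tauto
  unfold eb
  rw [h, Set.ncard_coe_finset, Finset.card_filter, Finset.sum_product]

theorem t_BLEb (hB : S_BAS) : S_BLE := by
  classical
  intro V _ H b T F hb hdeg hF hdis hcov hTT heb
  have hsum : ∑ v, dg H v = 2 * ec H := (hB V H).2.2.2.1
  have hmem : ∀ C ∈ F, ∑ v ∈ C, (dg H v + ∑ w ∈ T, if H.Adj v w then 1 else 0) ≤
      ∑ _v ∈ C, b := by
    intro C hC
    have hcl := hF C hC
    have hCT : Disjoint C T := by
      rw [Finset.disjoint_left]
      intro v hv
      exact (hcl v hv).1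
    have h1 : ∑ v ∈ C, dg H v = (∑ v ∈ C, ∑ w ∈ C, if H.Adj v w then 1 else 0) +
        ∑ v ∈ C, ∑ w ∈ T, if H.Adj v w then 1 else 0 := by
      rw [← Finset.sum_add_distrib]
      apply Finset.sum_congr rfl
      intro v hv
      rw [blo_dg, ← Finset.sum_union hCT]
      symm
      apply Finset.sum_subset (Finset.subset_univ _)
      intro w _ hw
      rw [Finset.mem_union, not_or] at hw
      have : ¬ H.Adj v w := by
        intro h
        rcases (hcl v hv).2 w h with h' | h'
        · exact hw.1 h'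
        · exact hw.2 h'
      simp [this]
    have h2 : ∑ v ∈ C, dg H v ≤ ∑ _v ∈ C, b := Finset.sum_le_sum fun v _ => hdeg v
    have h3 := heb C hC
    rw [bleb_eb] at h3
    obtain ⟨e, he⟩ := blo_even H C
    obtain ⟨o, ho⟩ := hb
    rw [Finset.sum_add_distrib]
    have h4 : ∑ _v ∈ C, b = 2 * (o * C.card) := by
      rw [Finset.sum_const, smul_eq_mul, ho]
      ring
    omega
  have hTc : F.biUnion id = Tᶜ := by
    ext v
    rw [Finset.mem_biUnion, Finset.mem_compl]
    constructor
    · rintro ⟨C, hC, hv⟩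
      exact (hF C hC v hv).1
    · intro hv
      obtain ⟨C, hC, hv⟩ := hcov v hv
      exact ⟨C, hC, hv⟩
  have hall : ∑ v ∈ Tᶜ, (dg H v + ∑ w ∈ T, if H.Adj v w then 1 else 0) ≤ ∑ _v ∈ Tᶜ, b := by
    rw [← hTc, Finset.sum_biUnion, Finset.sum_biUnion]
    · exact Finset.sum_le_sum hmem
    · intro C hC C' hC' hne
      exact hdis C hC C' hC' hne
    · intro C hC C' hC' hne
      exact hdis C hC C' hC' hne
  have hT : ∑ v ∈ T, dg H v = ∑ v ∈ Tᶜ, ∑ w ∈ T, if H.Adj v w then 1 else 0 := by
    rw [Finset.sum_comm]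
    apply Finset.sum_congr rfl
    intro v hv
    rw [blo_dg, ← Finset.sum_add_sum_compl T]
    have : (∑ w ∈ T, if H.Adj v w then 1 else 0) = 0 := by
      apply Finset.sum_eq_zero
      intro w hw
      simp [hTT v hv w hw]
    rw [this, zero_add]
    apply Finset.sum_congr rfl
    intro w _
    simp only [H.adj_comm]
  have hsplit : ∑ v ∈ T, dg H v + ∑ v ∈ Tᶜ, dg H v = ∑ v, dg H v :=
    Finset.sum_add_sum_compl T _
  have hc : T.card + Tᶜ.card = Fintype.card V := Finset.card_add_card_compl T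
  have hn : b * Fintype.card V = b * T.card + b * Tᶜ.card := by
    rw [← hc, mul_add]
  rw [Finset.sum_add_distrib, Finset.sum_const, smul_eq_mul, mul_comm] at hall
  omega

end H467Aug
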