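import Pool.Agent.H467R2.Aug.DefsC

/-!
# MP_30a809_co, task BLO
-/

set_option autoImplicit false

namespace H467Aug

open scoped Classical in
theorem blo_dg {V : Type} [Fintype V] (H : SimpleGraph V) (v : V) :
    dg H v = ∑ w, if H.Adj v w then 1 else 0 := by
  unfold dg
  rw [Finset.sum_boole, Set.ncard_eq_toFinset_card', Nat.cast_id]
  congr 1
  ext w
  simp

open scoped Classical in
theorem blo_even {V : Type} (H : SimpleGraph V) (C : Finset V) :
    Even (∑ v ∈ C, ∑ w ∈ C, if H.Adj v w then 1 else 0) := by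
  induction C using Finset.induction_on with
  | empty => simp
  | insert a C ha ih =>
    have h1 : ∀ v, (∑ w ∈ insert a C, if H.Adj v w then 1 else 0) =
        (if H.Adj v a then 1 else 0) + ∑ w ∈ C, if H.Adj v w then 1 else 0 := by
      intro v
      rw [Finset.sum_insert ha]
    rw [Finset.sum_insert ha, h1 a]
    simp only [h1]
    rw [Finset.sum_add_distrib]
    have h2 : (∑ v ∈ C, if H.Adj v a then 1 else 0) = ∑ w ∈ C, if H.Adj a w then 1 else 0 := by
      apply Finset.sum_congr rfl
      intro v _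
      simp only [H.adj_comm]
    rw [h2]
    have h3 : (if H.Adj a a then 1 else 0) = 0 := by simp
    rw [h3]
    obtain ⟨k, hk⟩ := ih
    refine ⟨k + ∑ w ∈ C, (if H.Adj a w then 1 else 0), ?_⟩
    omega

theorem t_BLO (hB : S_BAS) : S_BLO := by
  classical
  intro V _ H b S F hb hdeg hF hdis
  have hsum : ∑ v, dg H v = 2 * ec H := (hB V H).2.2.2.1
  -- every member of the family has defect at least one
  have hmem : ∀ C ∈ F, 1 ≤ ∑ v ∈ C, ((b - dg H v) + ∑ w ∈ S, if H.Adj v w then 1 else 0) := by
    intro C hC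
    obtain ⟨hodd, hcl⟩ := hF C hC
    have hCS : Disjoint C S := by
      rw [Finset.disjoint_left]
      intro v hv
      exact (hcl v hv).1
    have h1 : ∑ v ∈ C, dg H v = (∑ v ∈ C, ∑ w ∈ C, if H.Adj v w then 1 else 0) +
        ∑ v ∈ C, ∑ w ∈ S, if H.Adj v w then 1 else 0 := by
      rw [← Finset.sum_add_distrib]
      apply Finset.sum_congr rfl
      intro v hv
      rw [blo_dg, ← Finset.sum_union hCS]
      symm
      apply Finset.sum_subset (Finset.subset_univ _)
      intro w _ hw
      rw [Finset.mem_union, not_or] at hw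
      have : ¬ H.Adj v w := by
        intro h
        rcases (hcl v hv).2 w h with h' | h'
        · exact hw.1 h'
        · exact hw.2 h'
      simp [this]
    have h2 : ∑ v ∈ C, (b - dg H v) + ∑ v ∈ C, dg H v = b * C.card := by
      rw [← Finset.sum_add_distrib]
      have : ∀ v ∈ C, b - dg H v + dg H v = b := by
        intro v _
        have := hdeg v
        omega
      rw [Finset.sum_congr rfl this, Finset.sum_const, smul_eq_mul, mul_comm]
    have h3 : Odd (b * C.card) := hb.mul hodd
    obtain ⟨e, he⟩ := blo_even H C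
    obtain ⟨o, ho⟩ := h3
    rw [Finset.sum_add_distrib]
    omega
  have hcard : F.card ≤ ∑ v ∈ Sᶜ, ((b - dg H v) + ∑ w ∈ S, if H.Adj v w then 1 else 0) := by
    calc F.card = ∑ C ∈ F, 1 := by simp
      _ ≤ ∑ C ∈ F, ∑ v ∈ C, ((b - dg H v) + ∑ w ∈ S, if H.Adj v w then 1 else 0) :=
        Finset.sum_le_sum hmem
      _ = ∑ v ∈ F.biUnion id, ((b - dg H v) + ∑ w ∈ S, if H.Adj v w then 1 else 0) := by
        rw [Finset.sum_biUnion]
        · rfl
        · intro C hC C' hC' hne
          exact hdis C hC C' hC' hne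
      _ ≤ _ := by
        apply Finset.sum_le_sum_of_subset
        intro v hv
        rw [Finset.mem_biUnion] at hv
        obtain ⟨C, hC, hv⟩ := hv
        rw [Finset.mem_compl]
        exact ((hF C hC).2 v hv).1
  have hS : ∑ v ∈ Sᶜ, (∑ w ∈ S, if H.Adj v w then 1 else 0) ≤ ∑ w ∈ S, dg H w := by
    rw [Finset.sum_comm]
    apply Finset.sum_le_sum
    intro w _
    rw [blo_dg]
    calc (∑ v ∈ Sᶜ, if H.Adj v w then 1 else 0) = ∑ v ∈ Sᶜ, if H.Adj w v then 1 else 0 := by
          apply Finset.sum_congr rfl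
          intro v _
          simp only [H.adj_comm]
      _ ≤ _ := Finset.sum_le_sum_of_subset (Finset.subset_univ _)
  have hS2 : ∑ w ∈ S, dg H w ≤ b * S.card := by
    calc ∑ w ∈ S, dg H w ≤ ∑ w ∈ S, b := Finset.sum_le_sum fun w _ => hdeg w
      _ = b * S.card := by simp [mul_comm]
  have hSc : ∑ v ∈ Sᶜ, (b - dg H v) + ∑ v ∈ Sᶜ, dg H v = b * Sᶜ.card := by
    rw [← Finset.sum_add_distrib]
    have : ∀ v ∈ Sᶜ, b - dg H v + dg H v = b := by
      intro v _
      have := hdeg v
      omega
    rw [Finset.sum_congr rfl this, Finset.sum_const, smul_eq_mul, mul_comm]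
  have hsplit : ∑ v ∈ S, dg H v + ∑ v ∈ Sᶜ, dg H v = ∑ v, dg H v :=
    Finset.sum_add_sum_compl S _
  have hc : S.card + Sᶜ.card = Fintype.card V := Finset.card_add_card_compl S
  rw [Finset.sum_add_distrib] at hcard
  have hn : b * Fintype.card V = b * S.card + b * Sᶜ.card := by
    rw [← hc, mul_add]
  omega

end H467Aug
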