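import Pool.Agent.H467R2.Aug.DefsC

/-! Task CG: the edges at `S`. -/

set_option autoImplicit false

namespace H467Aug

open Classical in
theorem cg_eb {V : Type} [Fintype V] (H : SimpleGraph V) (A B : Finset V) :
    eb H (A : Set V) (B : Set V) = ∑ v ∈ A, ∑ w ∈ B, if H.Adj v w then 1 else 0 := by
  unfold eb
  have h : {p : V × V | H.Adj p.1 p.2 ∧ p.1 ∈ (A : Set V) ∧ p.2 ∈ (B : Set V)} =
      (((A ×ˢ B).filter fun p => H.Adj p.1 p.2 : Finset (V × V)) : Set (V × V)) := by
    ext p
    simp only [Set.mem_ofPred_eq, Finset.mem_coe, Finset.coe_filter, Finset.mem_product]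
    tauto
  rw [h, Set.ncard_coe_finset, Finset.card_filter, Finset.sum_product]

open Classical in
theorem cg_dg {V : Type} [Fintype V] (H : SimpleGraph V) (v : V) :
    dg H v = ∑ w, if H.Adj v w then 1 else 0 := by
  unfold dg
  have h : {w | H.Adj v w} = ((Finset.univ.filter fun w => H.Adj v w : Finset V) : Set V) := by
    ext w
    simp
  rw [h, Set.ncard_coe_finset, Finset.card_filter]

theorem cg_symm {V : Type} [Fintype V] (H : SimpleGraph V) (A B : Finset V) :
    eb H (A : Set V) (B : Set V) = eb H (B : Set V) (A : Set V) := by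
  classical
  rw [cg_eb, cg_eb, Finset.sum_comm]
  refine Finset.sum_congr rfl fun v _ => Finset.sum_congr rfl fun w _ => ?_
  simp only [H.adj_comm]

theorem t_CG : S_CG := by
  classical
  intro V _ H D S T F hD hST hF hd
  refine ⟨cg_symm H S T, ?_⟩
  have h1 : ∀ K ∈ F, eb H (K : Set V) (S : Set V) =
      ∑ v ∈ S, ∑ w ∈ K, if H.Adj v w then 1 else 0 := by
    intro K _
    rw [cg_symm, cg_eb]
  rw [Finset.sum_congr rfl h1, Finset.sum_comm, cg_eb]
  have h2 : ∀ v : V, (∑ w ∈ T, if H.Adj v w then 1 else 0) +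
      ∑ K ∈ F, (∑ w ∈ K, if H.Adj v w then 1 else 0) ≤ dg H v := by
    intro v
    have h3 : ∑ K ∈ F, (∑ w ∈ K, if H.Adj v w then 1 else 0) =
        ∑ w ∈ F.biUnion id, if H.Adj v w then 1 else 0 := by
      rw [Finset.sum_biUnion]
      · rfl
      · intro K hK K' hK' hne
        exact hd K hK K' hK' hne
    have h4 : Disjoint T (F.biUnion id) := by
      rw [Finset.disjoint_left]
      intro w hw hw'
      rw [Finset.mem_biUnion] at hw'
      obtain ⟨K, hK, hwK⟩ := hw'
      exact (hF K hK w hwK).2 hw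
    rw [h3, ← Finset.sum_union h4, cg_dg]
    exact Finset.sum_le_sum_of_subset (Finset.subset_univ _)
  calc (∑ v ∈ S, ∑ w ∈ T, if H.Adj v w then 1 else 0) +
        (∑ v ∈ S, ∑ K ∈ F, ∑ w ∈ K, if H.Adj v w then 1 else 0) + ∑ v ∈ S, (D - dg H v)
      = ∑ v ∈ S, (((∑ w ∈ T, if H.Adj v w then 1 else 0) +
        ∑ K ∈ F, ∑ w ∈ K, if H.Adj v w then 1 else 0) + (D - dg H v)) := by
        rw [← Finset.sum_add_distrib, ← Finset.sum_add_distrib]
    _ ≤ ∑ v ∈ S, D := by
        refine Finset.sum_le_sum fun v _ => ?_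
        have := h2 v
        have := hD v
        omega
    _ = D * S.card := by
        rw [Finset.sum_const, smul_eq_mul, mul_comm]

end H467Aug
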