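import Pool.Agent.H467R2.Aug.DefsC

/-!
# CK: counting in one member
-/

set_option autoImplicit false

namespace H467Aug

open Finset

open Classical in
theorem ck_eb {V : Type} (H : SimpleGraph V) (A B : Finset V) :
    eb H (A : Set V) (B : Set V) = ∑ v ∈ A, (B.filter (fun w => H.Adj v w)).card := by
  have h1 : {p : V × V | H.Adj p.1 p.2 ∧ p.1 ∈ (A : Set V) ∧ p.2 ∈ (B : Set V)} =
      (((A ×ˢ B).filter (fun p => H.Adj p.1 p.2) : Finset (V × V)) : Set (V × V)) := by
    ext p
    simp only [Set.mem_ofPred_eq, mem_coe, coe_filter, mem_product]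
    tauto
  unfold eb
  rw [h1, Set.ncard_coe_finset, card_filter, sum_product]
  refine sum_congr rfl fun v _ => ?_
  rw [card_filter]

open Classical in
theorem ck_dg {V : Type} [Fintype V] (H : SimpleGraph V) (v : V) :
    dg H v = (univ.filter (fun w => H.Adj v w)).card := by
  have h1 : {w | H.Adj v w} = ((univ.filter (fun w => H.Adj v w) : Finset V) : Set V) := by
    ext w
    simp
  unfold dg
  rw [h1, Set.ncard_coe_finset]

open Classical in
theorem ck_even {V : Type} [Fintype V] (H : SimpleGraph V) (K : Finset V) :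
    ∃ i, ∑ v ∈ K, (K.filter (fun w => H.Adj v w)).card = 2 * i := by
  let G : SimpleGraph V :=
    { Adj := fun v w => H.Adj v w ∧ v ∈ K ∧ w ∈ K
      symm := ⟨fun v w h => ⟨h.1.symm, h.2.2, h.2.1⟩⟩
      loopless := ⟨fun v h => H.loopless.irrefl v h.1⟩ }
  refine ⟨G.edgeFinset.card, ?_⟩
  rw [← G.sum_degrees_eq_twice_card_edges]
  have h1 : ∀ v, G.degree v = if v ∈ K then (K.filter (fun w => H.Adj v w)).card else 0 := by
    intro v
    rw [← G.card_neighborFinset_eq_degree, G.neighborFinset_eq_filter]
    split_ifs with hv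
    · congr 1
      ext w
      simp only [mem_filter, mem_univ, true_and]
      constructor
      · rintro ⟨h, _, hw⟩
        exact ⟨hw, h⟩
      · rintro ⟨hw, h⟩
        exact ⟨h, hv, hw⟩
    · rw [card_eq_zero, filter_eq_empty_iff]
      rintro w _ ⟨_, h, _⟩
      exact hv h
  simp only [h1]
  rw [sum_ite_mem, univ_inter]

theorem t_CK : S_CK := by
  classical
  intro V _ H D b S T K hD hST hK
  obtain ⟨hne, hKv, -⟩ := hK
  rw [ck_eb, ck_eb]
  obtain ⟨i, hi⟩ := ck_even H K
  have hdeg : ∀ v ∈ K, dg H v = (K.filter (fun w => H.Adj v w)).card +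
      (S.filter (fun w => H.Adj v w)).card + (T.filter (fun w => H.Adj v w)).card := by
    intro v hv
    obtain ⟨-, -, -, h⟩ := hKv v hv
    rw [ck_dg]
    have h1 : (univ.filter (fun w => H.Adj v w)) = (K.filter (fun w => H.Adj v w) ∪
        S.filter (fun w => H.Adj v w)) ∪ T.filter (fun w => H.Adj v w) := by
      ext w
      simp only [mem_filter, mem_univ, true_and, mem_union]
      constructor
      · intro hw
        have := h w hw
        tauto
      · tauto
    rw [h1, card_union_of_disjoint, card_union_of_disjoint]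
    · rw [disjoint_left]
      intro w h1 h2
      simp only [mem_filter] at h1 h2
      exact (hKv w h1.1).1 h2.1
    · rw [disjoint_left]
      intro w h1 h2
      simp only [mem_filter, mem_union] at h1 h2
      rcases h1 with h1 | h1
      · exact (hKv w h1.1).2.1 h2.1
      · exact hST w h1.1 h2.1
  have hsum : ∑ v ∈ K, (S.filter (fun w => H.Adj v w)).card +
      ∑ v ∈ K, (T.filter (fun w => H.Adj v w)).card + ∑ v ∈ K, (D - dg H v) +
      ∑ v ∈ K, (K.filter (fun w => H.Adj v w)).card = D * K.card := by
    rw [← sum_add_distrib, ← sum_add_distrib, ← sum_add_distrib, mul_comm, ← smul_eq_mul,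
      ← sum_const]
    refine sum_congr rfl fun v hv => ?_
    have h1 := hdeg v hv
    have h2 := hD v
    omega
  refine ⟨⟨i, ?_⟩, fun hKD => ?_⟩
  · rw [← hi]
    exact hsum
  · have hle : ∑ v ∈ K, (K.filter (fun w => H.Adj v w)).card ≤ K.card * (K.card - 1) := by
      rw [← smul_eq_mul, ← sum_const]
      refine sum_le_sum fun v hv => ?_
      have h1 : K.filter (fun w => H.Adj v w) ⊆ K.erase v := by
        intro w hw
        rw [mem_filter] at hw
        rw [mem_erase]
        exact ⟨fun h => H.loopless.irrefl v (h ▸ hw.2), hw.1⟩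
      have h2 := card_le_card h1
      rwa [card_erase_of_mem hv] at h2
    have hpos : 1 ≤ K.card := card_pos.mpr hne
    obtain ⟨c, hc⟩ : ∃ c, K.card = c + 1 := ⟨K.card - 1, by omega⟩
    obtain ⟨d, hd⟩ : ∃ d, D = K.card + d := ⟨D - K.card, by omega⟩
    rw [hc] at hle hsum hd
    simp only [Nat.add_sub_cancel] at hle
    rw [hd] at hsum ⊢
    nlinarith [Nat.zero_le (c * d)]

end H467Aug
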