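import Pool.Agent.H467R2.Aug.DefsC

/-!
# MP_30a809_co, task CLEAN: clean obstructions
-/

set_option autoImplicit false

namespace H467Aug

theorem clean_rest {W : Type} {Γ : SimpleGraph W} {X : Set W} {F : Finset (Set W)}
    (h : CF Γ X F) {v w : W} (hv : v ∉ X ∧ ∀ C ∈ F, v ∉ C) (hvw : Γ.Adj v w) :
    (w ∉ X ∧ ∀ C ∈ F, w ∉ C) ∨ w ∈ X := by
  by_cases hw : w ∈ X
  · exact Or.inr hw
  · left
    refine ⟨hw, fun C hC hwC => ?_⟩
    rcases (h.1 C hC).2.2 w hwC v hvw.symm with h1 | h1
    · exact hv.2 C hC h1
    · exact hv.1 h1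

theorem t_CLEAN : S_CLEAN := by
  classical
  intro W _ Γ hev hex
  obtain ⟨X0, F0, h0, h0'⟩ := hex
  let α := {p : Set W × Finset (Set W) // CF Γ p.1 p.2 ∧ p.1.ncard + 2 ≤ p.2.card}
  have : Nonempty α := ⟨⟨(X0, F0), h0, h0'⟩⟩
  obtain ⟨⟨⟨X, F⟩, hCF, hle⟩, hmax⟩ :=
    Finite.exists_max (fun p : α => ((p.1.2.card : ℤ) - 2 * (p.1.1.ncard : ℤ)))
  simp only at hCF hle hmax
  have hmax' : ∀ (X' : Set W) (F' : Finset (Set W)), CF Γ X' F' → X'.ncard + 2 ≤ F'.card →
      ((F'.card : ℤ) - 2 * (X'.ncard : ℤ)) ≤ ((F.card : ℤ) - 2 * (X.ncard : ℤ)) := by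
    intro X' F' h1 h2
    exact hmax ⟨(X', F'), h1, h2⟩
  set R : Set W := {v | v ∉ X ∧ ∀ C ∈ F, v ∉ C} with hR
  have hReven : ¬ Odd R.ncard := by
    intro hodd
    have hRne : R.Nonempty := by
      rw [Set.nonempty_iff_ne_empty]
      rintro h
      rw [h] at hodd
      simp at hodd
    have hRF : R ∉ F := by
      intro h
      obtain ⟨v, hv⟩ := hRne
      exact hv.2 R h hv
    have h1 : CF Γ X (insert R F) := by
      refine ⟨?_, ?_⟩
      · intro C hC
        rcases Finset.mem_insert.1 hC with rfl | hC
        · refine ⟨?_, hodd, ?_⟩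
          · rw [Set.disjoint_left]
            intro v hv hvX
            exact hv.1 hvX
          · intro v hv w hvw
            exact clean_rest hCF hv hvw
        · exact hCF.1 C hC
      · intro C hC C' hC' hne
        rcases Finset.mem_insert.1 hC with rfl | hC
        · rcases Finset.mem_insert.1 hC' with h | hC'
          · exact absurd h.symm hne
          · rw [Set.disjoint_left]
            intro v hv hv'
            exact hv.2 C' hC' hv'
        · rcases Finset.mem_insert.1 hC' with h | hC'
          · subst h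
            rw [Set.disjoint_left]
            intro v hv hv'
            exact hv'.2 C hC hv
          · exact hCF.2 C hC C' hC' hne
    have h2 : (insert R F).card = F.card + 1 := Finset.card_insert_of_notMem hRF
    have h3 := hmax' X (insert R F) h1 (by omega)
    omega
  refine ⟨X, F, hCF, hle, ?_⟩
  intro y hy
  by_contra hcon
  have hXy : (X \ {y}).ncard + 1 = X.ncard := Set.ncard_sdiff_singleton_add_one hy (Set.toFinite _)
  set N := F.filter (fun C => ∃ w ∈ C, Γ.Adj y w) with hN
  have hyC : ∀ C ∈ F, y ∉ C := by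
    intro C hC hyC
    exact Set.disjoint_left.1 (hCF.1 C hC).1 hyC hy
  -- members without neighbours of `y` are closed modulo `X \ {y}`
  have hclosed : ∀ C ∈ F, C ∉ N → Disjoint C (X \ {y}) ∧ Odd C.ncard ∧
      ∀ v ∈ C, ∀ w, Γ.Adj v w → w ∈ C ∨ w ∈ X \ {y} := by
    intro C hC hCN
    obtain ⟨h1, h2, h3⟩ := hCF.1 C hC
    refine ⟨h1.mono_right Set.sdiff_subset, h2, ?_⟩
    intro v hv w hvw
    rcases h3 v hv w hvw with h4 | h4
    · exact Or.inl h4
    · right
      refine ⟨h4, ?_⟩
      intro h5
      have h5' : w = y := h5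
      subst h5'
      exact hCN (Finset.mem_filter.2 ⟨hC, v, hv, hvw.symm⟩)
  have hN2 : N.card ≤ 2 := by
    by_contra h
    push Not at h
    obtain ⟨a, ha, b, hb, c, hc, hab, hac, hbc⟩ := Finset.two_lt_card.1 h
    rw [hN, Finset.mem_filter] at ha hb hc
    exact hcon ⟨a, ha.1, b, hb.1, c, hc.1, hab, hac, hbc, ha.2, hb.2, hc.2⟩
  have hNF : N ⊆ F := Finset.filter_subset _ _
  by_cases hN1 : N.card ≤ 1
  · have h1 : CF Γ (X \ {y}) (F \ N) := by
      refine ⟨?_, ?_⟩
      · intro C hC
        rw [Finset.mem_sdiff] at hC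
        exact hclosed C hC.1 hC.2
      · intro C hC C' hC' hne
        exact hCF.2 C (Finset.mem_sdiff.1 hC).1 C' (Finset.mem_sdiff.1 hC').1 hne
    have h2 : (F \ N).card = F.card - N.card := Finset.card_sdiff_of_subset hNF
    have h3 := hmax' _ _ h1 (by omega)
    omega
  · have hN3 : N.card = 2 := by omega
    obtain ⟨C1, C2, hne12, hN12⟩ := Finset.card_eq_two.1 hN3
    have hC1N : C1 ∈ N := by rw [hN12]; simp
    have hC2N : C2 ∈ N := by rw [hN12]; simp
    have hC1 : C1 ∈ F := hNF hC1N
    have hC2 : C2 ∈ F := hNF hC2N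
    set Cs : Set W := (C1 ∪ C2) ∪ (insert y R) with hCs
    have hmemCs : ∀ v, v ∈ Cs ↔ (v ∈ C1 ∨ v ∈ C2) ∨ (v = y ∨ v ∈ R) := by
      intro v
      rfl
    have hyR : y ∉ R := fun h => h.1 hy
    have hcardCs : Cs.ncard = C1.ncard + C2.ncard + (R.ncard + 1) := by
      rw [hCs, Set.ncard_union_eq _ (Set.toFinite _) (Set.toFinite _),
        Set.ncard_union_eq (hCF.2 C1 hC1 C2 hC2 hne12) (Set.toFinite _) (Set.toFinite _),
        Set.ncard_insert_of_notMem hyR (Set.toFinite _)]
      rw [Set.disjoint_left]
      rintro v (hv | hv) (hv' | hv')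
      · subst hv'
        exact hyC C1 hC1 hv
      · exact hv'.2 C1 hC1 hv
      · subst hv'
        exact hyC C2 hC2 hv
      · exact hv'.2 C2 hC2 hv
    have hCsF : Cs ∉ F \ N := by
      intro h
      exact hyC Cs (Finset.mem_sdiff.1 h).1 ((hmemCs y).2 (Or.inr (Or.inl rfl)))
    have hdisj : ∀ C ∈ F \ N, Disjoint C Cs := by
      intro C hC
      rw [Finset.mem_sdiff] at hC
      have hc1 : C ≠ C1 := by rintro rfl; exact hC.2 hC1N
      have hc2 : C ≠ C2 := by rintro rfl; exact hC.2 hC2N
      rw [Set.disjoint_left]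
      intro v hv hv'
      rcases (hmemCs v).1 hv' with (h | h) | (h | h)
      · exact Set.disjoint_left.1 (hCF.2 C hC.1 C1 hC1 hc1) hv h
      · exact Set.disjoint_left.1 (hCF.2 C hC.1 C2 hC2 hc2) hv h
      · subst h
        exact hyC C hC.1 hv
      · exact h.2 C hC.1 hv
    have h1 : CF Γ (X \ {y}) (insert Cs (F \ N)) := by
      refine ⟨?_, ?_⟩
      · intro C hC
        rcases Finset.mem_insert.1 hC with rfl | hC
        · refine ⟨?_, ?_, ?_⟩
          · rw [Set.disjoint_left]
            intro v hv hvX
            rcases (hmemCs v).1 hv with (h | h) | (h | h)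
            · exact Set.disjoint_left.1 (hCF.1 C1 hC1).1 h hvX.1
            · exact Set.disjoint_left.1 (hCF.1 C2 hC2).1 h hvX.1
            · exact hvX.2 h
            · exact h.1 hvX.1
          · rw [hcardCs]
            have o1 := (hCF.1 C1 hC1).2.1
            have o2 := (hCF.1 C2 hC2).2.1
            rw [Nat.not_odd_iff_even] at hReven
            exact (o1.add_odd o2).add_odd hReven.add_one
          · -- closed
            have aux : ∀ w, w ∈ X → w ∈ Cs ∨ w ∈ X \ {y} := by
              intro w hw
              by_cases hwy : w = y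
              · exact Or.inl ((hmemCs w).2 (Or.inr (Or.inl hwy)))
              · exact Or.inr ⟨hw, hwy⟩
            intro v hv w hvw
            rcases (hmemCs v).1 hv with (h | h) | (h | h)
            · rcases (hCF.1 C1 hC1).2.2 v h w hvw with h' | h'
              · exact Or.inl ((hmemCs w).2 (Or.inl (Or.inl h')))
              · exact aux w h'
            · rcases (hCF.1 C2 hC2).2.2 v h w hvw with h' | h'
              · exact Or.inl ((hmemCs w).2 (Or.inl (Or.inr h')))
              · exact aux w h'
            · subst h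
              by_cases hwX : w ∈ X
              · exact aux w hwX
              · left
                rw [hmemCs]
                by_cases hwF : ∃ C ∈ F, w ∈ C
                · obtain ⟨C, hC, hwC⟩ := hwF
                  have : C ∈ N := Finset.mem_filter.2 ⟨hC, w, hwC, hvw⟩
                  rw [hN12, Finset.mem_insert, Finset.mem_singleton] at this
                  left
                  rcases this with rfl | rfl
                  · exact Or.inl hwC
                  · exact Or.inr hwC
                · push Not at hwF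
                  exact Or.inr (Or.inr ⟨hwX, hwF⟩)
            · rcases clean_rest hCF h hvw with h' | h'
              · exact Or.inl ((hmemCs w).2 (Or.inr (Or.inr h')))
              · exact aux w h'
        · rw [Finset.mem_sdiff] at hC
          exact hclosed C hC.1 hC.2
      · intro C hC C' hC' hne
        rcases Finset.mem_insert.1 hC with rfl | hC
        · rcases Finset.mem_insert.1 hC' with h | hC'
          · exact absurd h.symm hne
          · exact (hdisj C' hC').symm
        · rcases Finset.mem_insert.1 hC' with h | hC'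
          · subst h
            exact hdisj C hC
          · exact hCF.2 C (Finset.mem_sdiff.1 hC).1 C' (Finset.mem_sdiff.1 hC').1 hne
    have h2 : (F \ N).card = F.card - N.card := Finset.card_sdiff_of_subset hNF
    have h4 : (insert Cs (F \ N)).card = (F \ N).card + 1 := Finset.card_insert_of_notMem hCsF
    have h3 := hmax' _ _ h1 (by omega)
    omega

end H467Aug
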