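import Pool.Agent.H467R2.Aug.DefsC

/-! FIN: the complete answer for `2 ≤ k`. -/

set_option autoImplicit false

namespace H467Aug

theorem fin_fl (n k : ℕ) (hk : k ≤ n - 1) : fl n (n - 1 - k) + cl n k = n * (n - 1) / 2 := by
  have h1 : n * (n - 1 - k) + n * k = n * (n - 1) := by
    rw [← Nat.mul_add]; congr 1; omega
  have h2 : Even (n * (n - 1)) := Nat.even_mul_pred_self n
  obtain ⟨c, hc⟩ := h2
  unfold fl cl
  omega

theorem t_FIN (h1 : S_MAIN2) (h2 : S_GZ) (h3 : S_UBD) (h4 : S_LBD) (h5 : S_CHA) (h6 : S_CUT)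
    (hB : S_BAS) : S_FIN := by
  intro n k l hk hkl hln
  by_cases hkn : 2 * k < n
  · have hg : gg n (n - 1 - k) (n - 1 - l) = 0 :=
      h2 n (n - 1 - k) (n - 1 - l) (by omega) (by omega) (by omega)
    rw [hg, Nat.zero_div, Nat.add_zero]
    exact h1 n k l ⟨hk, hkl, hln, Or.inl hkn⟩
  · have hn : 2 ≤ n := by omega
    have hval : cl n l - cl n k + gg n (n - 1 - k) (n - 1 - l) / 2 =
        val n (n - 1 - k) (n - 1 - l) := by
      have e1 := fin_fl n k (by omega)
      have e2 := fin_fl n l (by omega)
      unfold val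
      omega
    rw [hval]
    -- complements
    have hdc : ∀ (G : SimpleGraph (Fin n)) (v : Fin n), dg Gᶜ v + dg G v + 1 = n := by
      intro G v
      obtain ⟨_, _, h, _⟩ := hB (Fin n) G
      have := h v
      rwa [Fintype.card_fin] at this
    have hec : ∀ G : SimpleGraph (Fin n), ec Gᶜ + ec G = n * (n - 1) / 2 := by
      intro G
      obtain ⟨_, _, _, _, h, _⟩ := hB (Fin n) G
      rwa [Fintype.card_fin] at h
    have hdiff : ∀ G H : SimpleGraph (Fin n), G ≤ H →
        ec G ≤ ec H ∧ (H.edgeSet \ G.edgeSet).ncard = ec H - ec G := by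
      intro G H hGH
      obtain ⟨-, -, -, -, -, h, -⟩ := hB (Fin n) G
      exact h H hGH
    have hdeg : ∀ (G : SimpleGraph (Fin n)) (j : ℕ), j ≤ lam G → ∀ v, j ≤ dg G v := by
      intro G j hj
      obtain ⟨_, _, _, _, _, _, _, _, _, _, _, _, h⟩ := hB (Fin n) G
      exact h j ((h6 n hn G j).1 hj) (by rw [Fintype.card_fin]; exact hn)
    have hlam : ∀ (G : SimpleGraph (Fin n)) (j : ℕ), n ≤ 2 * j + 1 → (∀ v, j ≤ dg G v) →
        j ≤ lam G := by
      intro G j hj hd
      exact (h6 n hn G j).2 (h5 (Fin n) G j hd (by rw [Fintype.card_fin]; exact hj))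
    constructor
    · intro G hG
      have hdG := hdeg G k hG
      obtain ⟨H', hle, hd, he⟩ := h3 (Fin n) Gᶜ (n - 1 - k) (n - 1 - l) (by omega)
        (by rw [Fintype.card_fin]; omega) (by
          intro v
          have h := hdc G v
          have := hdG v
          omega)
      rw [Fintype.card_fin] at he
      have hGH : G ≤ H'ᶜ := by
        rw [← compl_compl G]
        exact compl_le_compl hle
      refine ⟨H'ᶜ, hGH, hlam H'ᶜ l (by omega) ?_, ?_⟩
      · intro v
        have h := hdc H' v
        have := hd v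
        omega
      · rw [(hdiff G H'ᶜ hGH).2]
        have e1 := hec G
        have e2 := hec H'
        omega
    · intro e he
      obtain ⟨H, hd, hH⟩ := h4 n (n - 1 - k) (n - 1 - l) (by omega) (by omega)
      obtain ⟨G', hle, hl, hcard⟩ := he Hᶜ (hlam Hᶜ k (by omega) (by
        intro v
        have h := hdc H v
        have := hd v
        omega))
      have hle' : G'ᶜ ≤ H := by
        rw [← compl_compl H]
        exact compl_le_compl hle
      have h7 := hH G'ᶜ hle' (by
        intro v
        have h := hdc G' v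
        have := hdeg G' l hl v
        omega)
      obtain ⟨a1, a2⟩ := hdiff Hᶜ G' hle
      rw [a2] at hcard
      have e1 := hec H
      have e2 := hec G'
      omega

end H467Aug
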