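import Pool.Agent.H467R2.Aug.DefsC

/-!
# MP_30a809_co: GB1, the lower bound for `|X|`
-/

set_option autoImplicit false

namespace H467Aug

open scoped Classical in
/-- GB1: lower bound for `X`. -/
theorem t_GB1 : S_GB1 := by
  intro V _ H b z X S T hStr hST
  obtain ⟨h1, h2, h3⟩ := hStr
  obtain ⟨hS, hT⟩ := hST
  have hmem : ∀ (v : V) (hv : v ∈ S) (w : V) (hw : H.Adj v w),
      (Sum.inl ⟨(v, w), hw⟩ : GW H b z) ∈ X := by
    intro v hv w hw
    obtain ⟨p, hp, hpX⟩ := (hS v).1 hv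
    exact (h2 p hpX).2.1 ⟨(v, w), hw⟩ hp.symm
  have hmem2 : ∀ (v : V) (hv : v ∈ T) (i : Fin (dg H v - b)),
      (Sum.inr (Sum.inl ⟨v, i⟩) : GW H b z) ∈ X := fun v hv i => ((hT v).1 hv).2 i
  let A : Type := Σ v : {x // x ∈ S}, {w : V // H.Adj v.1 w}
  let B : Type := Σ v : {x // x ∈ T}, Fin (dg H v.1 - b)
  let f : (Fin z ⊕ (A ⊕ B)) → X := fun x =>
    match x with
    | Sum.inl d => ⟨Sum.inr (Sum.inr d), h1 d⟩
    | Sum.inr (Sum.inl p) => ⟨Sum.inl ⟨(p.1.1, p.2.1), p.2.2⟩, hmem p.1.1 p.1.2 p.2.1 p.2.2⟩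
    | Sum.inr (Sum.inr q) => ⟨Sum.inr (Sum.inl ⟨q.1.1, q.2⟩), hmem2 q.1.1 q.1.2 q.2⟩
  have hf : Function.Injective f := by
    rintro (d | ⟨⟨v, hv⟩, w, hw⟩ | ⟨⟨v, hv⟩, i⟩) (d' | ⟨⟨v', hv'⟩, w', hw'⟩ | ⟨⟨v', hv'⟩, i'⟩) h
    · have h' := congrArg Subtype.val h
      simp only [f, Sum.inr.injEq] at h'
      rw [h']
    · have h' := congrArg Subtype.val h
      simp [f] at h'
    · have h' := congrArg Subtype.val h
      simp [f] at h'
    · have h' := congrArg Subtype.val h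
      simp [f] at h'
    · have h' := congrArg Subtype.val h
      simp only [f, Sum.inl.injEq, Subtype.mk.injEq, Prod.mk.injEq] at h'
      obtain ⟨rfl, rfl⟩ := h'
      rfl
    · have h' := congrArg Subtype.val h
      simp [f] at h'
    · have h' := congrArg Subtype.val h
      simp [f] at h'
    · have h' := congrArg Subtype.val h
      simp [f] at h'
    · have h' := congrArg Subtype.val h
      simp only [f, Sum.inr.injEq, Sum.inl.injEq, Sigma.mk.injEq] at h'
      obtain ⟨rfl, h''⟩ := h'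
      rw [eq_of_heq h'']
  have hc := Nat.card_le_card_of_injective f hf
  have e1 : Nat.card A = ∑ v ∈ S, dg H v := by
    have : ∀ v : {x // x ∈ S}, Nat.card {w : V // H.Adj v.1 w} = dg H v.1 := fun v => rfl
    rw [← Finset.sum_coe_sort S (fun v => dg H v)]
    rw [Nat.card_sigma]
    rfl
  have e2 : Nat.card B = ∑ v ∈ T, (dg H v - b) := by
    rw [← Finset.sum_coe_sort T (fun v => dg H v - b)]
    rw [Nat.card_sigma]
    refine Finset.sum_congr rfl fun v _ => ?_
    exact Nat.card_fin _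
  rw [Nat.card_sum, Nat.card_sum, e1, e2, Nat.card_fin] at hc
  rw [← Nat.card_coe_set_eq]
  omega

end H467Aug
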