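import Pool.Agent.H467R2.Aug.DefsC

set_option autoImplicit false

namespace H467Aug

theorem t_GB2 (h : S_GK) : S_GB2 := by
  classical
  intro V _ H b z X F S T hCF hStr hST
  obtain ⟨hC, hD⟩ := hCF
  have huniq : ∀ C ∈ F, ∀ C' ∈ F, ∀ x : GW H b z, x ∈ C → x ∈ C' → C = C' := by
    intro C h1 C' h2 x hx hx'
    by_contra hne
    exact Set.disjoint_left.1 (hD C h1 C' h2 hne) hx hx'
  let P1 : Set (GW H b z) → Prop := fun C =>
    ∃ v ∈ S, ∃ i : Fin (dg H v - b), (Sum.inr (Sum.inl ⟨v, i⟩) : GW H b z) ∈ C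
  let P2 : Set (GW H b z) → Prop := fun C =>
    ∃ p : {p : V × V // H.Adj p.1 p.2}, p.1.1 ∈ T ∧ p.1.2 ∈ S ∧ (Sum.inl p : GW H b z) ∈ C
  let F1 := F.filter P1
  let F2 := F.filter (fun C => ¬ P1 C ∧ P2 C)
  let F3 := F.filter (fun C => ¬ P1 C ∧ ¬ P2 C)
  have hcard : F.card ≤ F1.card + F2.card + F3.card := by
    have hsub : F ⊆ F1 ∪ F2 ∪ F3 := by
      intro C hCF
      by_cases h1 : P1 C
      · exact Finset.mem_union_left _ (Finset.mem_union_left _ (Finset.mem_filter.2 ⟨hCF, h1⟩))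
      · by_cases h2 : P2 C
        · exact Finset.mem_union_left _
            (Finset.mem_union_right _ (Finset.mem_filter.2 ⟨hCF, h1, h2⟩))
        · exact Finset.mem_union_right _ (Finset.mem_filter.2 ⟨hCF, h1, h2⟩)
    refine (Finset.card_le_card hsub).trans ((Finset.card_union_le _ _).trans ?_)
    exact Nat.add_le_add_right (Finset.card_union_le _ _) _
  -- the member containing a vertex
  let g : GW H b z → Set (GW H b z) := fun x =>
    if hx : ∃ C ∈ F, x ∈ C then hx.choose else ∅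
  have hg : ∀ C ∈ F, ∀ x : GW H b z, x ∈ C → g x = C := by
    intro C hCF x hx
    have hex : ∃ C ∈ F, x ∈ C := ⟨C, hCF, hx⟩
    simp only [g, dif_pos hex]
    exact huniq _ hex.choose_spec.1 _ hCF x hex.choose_spec.2 hx
  have hF1 : F1.card ≤ ∑ v ∈ S, (dg H v - b) := by
    have hsub : F1 ⊆ (S.sigma (fun v => (Finset.univ : Finset (Fin (dg H v - b))))).image
        (fun u => g (Sum.inr (Sum.inl u))) := by
      intro C hCF1
      obtain ⟨hCF, v, hv, i, hi⟩ := Finset.mem_filter.1 hCF1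
      exact Finset.mem_image.2 ⟨⟨v, i⟩, Finset.mem_sigma.2 ⟨hv, Finset.mem_univ _⟩, hg C hCF _ hi⟩
    refine (Finset.card_le_card hsub).trans (Finset.card_image_le.trans ?_)
    rw [Finset.card_sigma]
    simp
  have hF2 : F2.card ≤ eb H (S : Set V) (T : Set V) := by
    let E : Set (V × V) := {p : V × V | H.Adj p.1 p.2 ∧ p.1 ∈ (S : Set V) ∧ p.2 ∈ (T : Set V)}
    have hE : E.Finite := Set.toFinite E
    have hEc : eb H (S : Set V) (T : Set V) = hE.toFinset.card :=
      Set.ncard_eq_toFinset_card E hE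
    rw [hEc]
    let g2 : V × V → Set (GW H b z) := fun q =>
      if hq : H.Adj q.2 q.1 then g (Sum.inl ⟨(q.2, q.1), hq⟩) else ∅
    have hsub : F2 ⊆ hE.toFinset.image g2 := by
      intro C hCF2
      obtain ⟨hCF, -, p, hpT, hpS, hpC⟩ := Finset.mem_filter.1 hCF2
      obtain ⟨⟨a, c⟩, hadj⟩ := p
      refine Finset.mem_image.2 ⟨(c, a), ?_, ?_⟩
      · rw [Set.Finite.mem_toFinset]
        exact ⟨hadj.symm, hpS, hpT⟩
      · have hq : H.Adj a c := hadj
        simp only [g2, dif_pos hq]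
        exact hg C hCF _ hpC
    exact (Finset.card_le_card hsub).trans Finset.card_image_le
  -- the remaining members
  let Kf : Set (GW H b z) → Finset V := fun C => Finset.univ.filter (fun v =>
    v ∉ S ∧ v ∉ T ∧ ∃ p : {p : V × V // H.Adj p.1 p.2}, p.1.1 = v ∧ (Sum.inl p : GW H b z) ∈ C)
  have hK : ∀ C v, v ∈ Kf C ↔ v ∉ S ∧ v ∉ T ∧
      ∃ p : {p : V × V // H.Adj p.1 p.2}, p.1.1 = v ∧ (Sum.inl p : GW H b z) ∈ C := by
    intro C v
    simp only [Kf, Finset.mem_filter, Finset.mem_univ, true_and]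
  have hgood : ∀ C ∈ F3, Kgood H b S T (Kf C) := by
    intro C hCF3
    obtain ⟨hCF, hn1, hn2⟩ := Finset.mem_filter.1 hCF3
    obtain ⟨h1, h2, h3⟩ := hC C hCF
    refine h V H b z X S T (Kf C) C hStr hST h1 h2 (fun x hx y hxy => h3 x hx y hxy) ?_ ?_ (hK C)
    · intro v i hv hmem
      exact hn1 ⟨v, hv, i, hmem⟩
    · intro p hpT hpS hmem
      exact hn2 ⟨p, hpT, hpS, hmem⟩
  have hdis : ∀ C ∈ F3, ∀ C' ∈ F3, C ≠ C' → Disjoint (Kf C) (Kf C') := by
    intro C hCF3 C' hCF3' hne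
    rw [Finset.disjoint_left]
    intro v hv hv'
    obtain ⟨hvS, hvT, p, hp, hpC⟩ := (hK C v).1 hv
    obtain ⟨-, -, p', hp', hpC'⟩ := (hK C' v).1 hv'
    have hCF := (Finset.mem_filter.1 hCF3).1
    have hCF' := (Finset.mem_filter.1 hCF3').1
    have hbl : ∃ i : Fin (dg H v - b), (Sum.inr (Sum.inl ⟨v, i⟩) : GW H b z) ∉ X := by
      by_contra hc
      push Not at hc
      exact hvT ((hST.2 v).2 ⟨hvS, hc⟩)
    obtain ⟨i, hi⟩ := hbl
    have hadj : ∀ p : {p : V × V // H.Adj p.1 p.2}, p.1.1 = v →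
        (gad H b z).Adj (Sum.inl p) (Sum.inr (Sum.inl ⟨v, i⟩)) := by
      intro p hp
      unfold gad
      rw [SimpleGraph.fromRel_adj]
      exact ⟨by simp, Or.inl hp⟩
    have h1 := ((hC C hCF).2.2 _ hpC _ (hadj p hp)).resolve_right hi
    have h2 := ((hC C' hCF').2.2 _ hpC' _ (hadj p' hp')).resolve_right hi
    exact hne (huniq C hCF C' hCF' _ h1 h2)
  refine ⟨F3.image Kf, ?_, ?_, ?_⟩
  · intro K hKm
    obtain ⟨C, hCm, rfl⟩ := Finset.mem_image.1 hKm
    exact hgood C hCm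
  · intro K hKm K' hKm' hne
    obtain ⟨C, hCm, rfl⟩ := Finset.mem_image.1 hKm
    obtain ⟨C', hCm', rfl⟩ := Finset.mem_image.1 hKm'
    exact hdis C hCm C' hCm' (fun he => hne (by rw [he]))
  · have hinj : Set.InjOn Kf (F3 : Set (Set (GW H b z))) := by
      intro C hCm C' hCm' he
      by_contra hne
      have h1 := hdis C hCm C' hCm' hne
      rw [← he] at h1
      obtain ⟨v, hv⟩ := (hgood C hCm).1
      exact Finset.disjoint_left.1 h1 hv hv
    rw [Finset.card_image_of_injOn hinj]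
    omega

end H467Aug
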