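import Pool.Agent.H467R2.Aug.DefsC

/-!
# MP_30a809_co: GCARD, the order of the gadget
-/

set_option autoImplicit false

namespace H467Aug

/-- the number of darts is twice the number of edges -/
theorem gcard_darts (V : Type) [Fintype V] (H : SimpleGraph V) :
    Nat.card {p : V × V // H.Adj p.1 p.2} = 2 * ec H := by
  classical
  have e : {p : V × V // H.Adj p.1 p.2} ≃ H.Dart :=
    { toFun := fun p => ⟨p.1, p.2⟩
      invFun := fun d => ⟨d.toProd, d.adj⟩
      left_inv := fun p => rfl
      right_inv := fun d => rfl }
  rw [Nat.card_congr e, Nat.card_eq_fintype_card, H.dart_card_eq_twice_card_edges]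
  unfold ec
  rw [← SimpleGraph.coe_edgeFinset, Set.ncard_coe_finset]

/-- GCARD: the order of the gadget. -/
theorem t_GCARD : S_GCARD := by
  classical
  intro V _ H b z
  unfold GW
  rw [Nat.card_sum, Nat.card_sum, Nat.card_sigma, gcard_darts]
  simp only [Nat.card_fin]
  omega

end H467Aug
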