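import Pool.Agent.H467R2.Aug.DefsC

/-!
# MP_30a809_co, task GK
-/

set_option autoImplicit false

namespace H467Aug

theorem gk_even {V : Type} (R : V → V → Prop) [∀ v w, Decidable (R v w)]
    (hs : ∀ v w, R v w → R w v) (hi : ∀ v, ¬ R v v)
    (C : Finset V) : Even (∑ v ∈ C, ∑ w ∈ C, if R v w then 1 else 0) := by
  classical
  induction C using Finset.induction_on with
  | empty => simp
  | insert a C ha ih =>
    have h1 : ∀ v, (∑ w ∈ insert a C, if R v w then 1 else 0) =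
        (if R v a then 1 else 0) + ∑ w ∈ C, if R v w then 1 else 0 := by
      intro v
      rw [Finset.sum_insert ha]
    rw [Finset.sum_insert ha, h1 a]
    simp only [h1]
    rw [Finset.sum_add_distrib]
    have h2 : (∑ v ∈ C, if R v a then 1 else 0) = ∑ w ∈ C, if R a w then 1 else 0 := by
      apply Finset.sum_congr rfl
      intro v _
      have : R v a ↔ R a v := ⟨hs v a, hs a v⟩
      simp only [this]
    rw [h2]
    have h3 : (if R a a then 1 else 0) = 0 := by simp [hi a]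
    rw [h3]
    obtain ⟨k, hk⟩ := ih
    refine ⟨k + ∑ w ∈ C, (if R a w then 1 else 0), ?_⟩
    omega

theorem gk_rev {V : Type} (H : SimpleGraph V) (b z : ℕ) (v w : V) (h : H.Adj v w) :
    (gad H b z).Adj (Sum.inl ⟨(v, w), h⟩) (Sum.inl ⟨(w, v), h.symm⟩) := by
  rw [gad, SimpleGraph.fromRel_adj]
  refine ⟨?_, Or.inl ⟨rfl, rfl⟩⟩
  intro he
  have h1 := Sum.inl_injective he
  have h2 : (v, w) = (w, v) := congrArg Subtype.val h1
  exact h.ne (congrArg Prod.fst h2)

theorem gk_blo {V : Type} (H : SimpleGraph V) (b z : ℕ) (v w : V) (h : H.Adj v w)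
    (i : Fin (dg H v - b)) :
    (gad H b z).Adj (Sum.inl ⟨(v, w), h⟩) (Sum.inr (Sum.inl ⟨v, i⟩)) := by
  rw [gad, SimpleGraph.fromRel_adj]
  exact ⟨by simp, Or.inl rfl⟩

open scoped Classical in
theorem gk_dg {V : Type} [Fintype V] (H : SimpleGraph V) (v : V) :
    dg H v = ∑ w, if H.Adj v w then 1 else 0 := by
  unfold dg
  rw [Finset.sum_boole, Set.ncard_eq_toFinset_card', Nat.cast_id]
  congr 1
  ext w
  simp

open scoped Classical in
theorem gk_eb {V : Type} [Fintype V] (H : SimpleGraph V) (A B : Finset V) :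
    eb H (A : Set V) (B : Set V) = ∑ v ∈ A, ∑ w ∈ B, if H.Adj v w then 1 else 0 := by
  unfold eb
  rw [← Finset.sum_product' (f := fun v w => if H.Adj v w then 1 else 0),
    Finset.sum_boole, Set.ncard_eq_toFinset_card', Nat.cast_id]
  congr 1
  ext w
  simp only [Set.mem_toFinset, Set.mem_ofPred_eq, Finset.mem_coe, Finset.mem_filter,
    Finset.mem_product]
  tauto

open scoped Classical in
theorem gk_sum_darts {V : Type} [Fintype V] (H : SimpleGraph V)
    (P : {p : V × V // H.Adj p.1 p.2} → Prop) :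
    (∑ p, if P p then 1 else 0) = ∑ v, ∑ w, if (∃ h : H.Adj v w, P ⟨(v, w), h⟩) then 1 else 0 := by
  rw [← Finset.sum_product' (f := fun v w => if (∃ h : H.Adj v w, P ⟨(v, w), h⟩) then 1 else 0),
    Finset.univ_product_univ, Finset.sum_boole, Finset.sum_boole, Nat.cast_id, Nat.cast_id]
  rw [← Finset.card_map (Function.Embedding.subtype _)]
  congr 1
  ext ⟨v, w⟩
  simp only [Finset.mem_map, Finset.mem_filter, Finset.mem_univ, true_and,
    Function.Embedding.subtype_apply]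
  constructor
  · rintro ⟨p, hp, he⟩
    have hadj : H.Adj v w := by
      have := p.2
      rw [he] at this
      exact this
    refine ⟨hadj, ?_⟩
    have : p = ⟨(v, w), hadj⟩ := Subtype.ext he
    rw [← this]
    exact hp
  · rintro ⟨h, hp⟩
    exact ⟨⟨(v, w), h⟩, hp, rfl⟩

theorem t_GK : S_GK := by
  classical
  intro V _ H b z X S T K C hStr hST hdisj hodd hcl hblS hTS hK
  obtain ⟨hdum, hdar, hblo⟩ := hStr
  obtain ⟨hSdef, hTdef⟩ := hST
  have hnX : ∀ x ∈ C, x ∉ X := fun x hx hx' => Set.disjoint_left.mp hdisj hx hx'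
  -- darts at vertices outside `S` are not in `X`
  have hSX : ∀ v w (h : H.Adj v w), v ∉ S → (Sum.inl ⟨(v, w), h⟩ : GW H b z) ∉ X := by
    intro v w h hv hx
    exact hv ((hSdef v).mpr ⟨⟨(v, w), h⟩, rfl, hx⟩)
  have hTS' : ∀ v ∈ T, v ∉ S := fun v hv => ((hTdef v).mp hv).1
  -- blockers of vertices outside `S` and `T`
  have F1 : ∀ v, v ∉ S → v ∉ T → b < dg H v ∧
      ∀ i : Fin (dg H v - b), (Sum.inr (Sum.inl ⟨v, i⟩) : GW H b z) ∉ X := by
    intro v hS hT
    have h1 : ¬ ∀ i : Fin (dg H v - b), (Sum.inr (Sum.inl ⟨v, i⟩) : GW H b z) ∈ X := by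
      intro h
      exact hT ((hTdef v).mpr ⟨hS, h⟩)
    rw [not_forall] at h1
    obtain ⟨i, hi⟩ := h1
    refine ⟨?_, ?_⟩
    · have := i.2
      omega
    · intro j hj
      exact hi (hblo v j i hj)
  -- everything at a vertex of `K` is in `C`
  have F2 : ∀ v ∈ K, (∀ i : Fin (dg H v - b), (Sum.inr (Sum.inl ⟨v, i⟩) : GW H b z) ∈ C) ∧
      ∀ w (h : H.Adj v w), (Sum.inl ⟨(v, w), h⟩ : GW H b z) ∈ C := by
    intro v hv
    obtain ⟨hS, hT, ⟨⟨a, c⟩, hac⟩, hp1, hp⟩ := (hK v).mp hv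
    have hp1' : a = v := hp1
    subst hp1'
    obtain ⟨hb, hnb⟩ := F1 a hS hT
    have h1 : ∀ i : Fin (dg H a - b), (Sum.inr (Sum.inl ⟨a, i⟩) : GW H b z) ∈ C := by
      intro i
      rcases hcl _ hp _ (gk_blo H b z a c hac i) with h | h
      · exact h
      · exact absurd h (hnb i)
    refine ⟨h1, ?_⟩
    intro w h
    have i0 : Fin (dg H a - b) := ⟨0, by omega⟩
    rcases hcl _ (h1 i0) _ (gk_blo H b z a w h i0).symm with h' | h'
    · exact h'
    · exact absurd h' (hSX a w h hS)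
  have F3 : ∀ v w (h : H.Adj v w), (Sum.inl ⟨(v, w), h⟩ : GW H b z) ∈ C → w ∉ S →
      (Sum.inl ⟨(w, v), h.symm⟩ : GW H b z) ∈ C := by
    intro v w h hC hw
    rcases hcl _ hC _ (gk_rev H b z v w h) with h' | h'
    · exact h'
    · exact absurd h' (hSX w v h.symm hw)
  have F4 : ∀ v w (h : H.Adj v w), (Sum.inl ⟨(v, w), h⟩ : GW H b z) ∈ C → v ∉ S := by
    intro v w h hC hv
    obtain ⟨p, hp1, hp⟩ := (hSdef v).mp hv
    have := (hdar p hp).2.1 ⟨(v, w), h⟩ hp1.symm
    exact hnX _ hC this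
  have F5 : ∀ v w (h : H.Adj v w), (Sum.inl ⟨(v, w), h⟩ : GW H b z) ∈ C → v ∈ K ∨ v ∈ T := by
    intro v w h hC
    by_cases hT : v ∈ T
    · exact Or.inr hT
    · exact Or.inl ((hK v).mpr ⟨F4 v w h hC, hT, ⟨⟨(v, w), h⟩, rfl, hC⟩⟩)
  have F6 : ∀ v (i : Fin (dg H v - b)), (Sum.inr (Sum.inl ⟨v, i⟩) : GW H b z) ∈ C ↔ v ∈ K := by
    intro v i
    constructor
    · intro hC
      have hS : v ∉ S := fun hv => hblS v i hv hC
      have hT : v ∉ T := fun hv => hnX _ hC (((hTdef v).mp hv).2 i)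
      have hpos : 0 < dg H v := by
        have := i.2
        omega
      have hne : {w | H.Adj v w}.Nonempty := by
        rw [← Set.ncard_pos (Set.toFinite _)]
        exact hpos
      obtain ⟨w, hw⟩ := hne
      have hw' : H.Adj v w := hw
      rcases hcl _ hC _ (gk_blo H b z v w hw' i).symm with h' | h'
      · exact (hK v).mpr ⟨hS, hT, ⟨⟨(v, w), hw'⟩, rfl, h'⟩⟩
      · exact absurd h' (hSX v w hw' hS)
    · intro hv
      exact (F2 v hv).1 i
  have hKT : ∀ v ∈ K, v ∉ T := fun v hv => ((hK v).mp hv).2.1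
  have hKS : ∀ v ∈ K, v ∉ S := fun v hv => ((hK v).mp hv).1
  -- the closure property of `K`
  have hKcl : ∀ v ∈ K, v ∉ S ∧ v ∉ T ∧ b < dg H v ∧
      ∀ w, H.Adj v w → w ∈ K ∨ w ∈ S ∨ w ∈ T := by
    intro v hv
    refine ⟨hKS v hv, hKT v hv, (F1 v (hKS v hv) (hKT v hv)).1, ?_⟩
    intro w hw
    by_cases hwS : w ∈ S
    · exact Or.inr (Or.inl hwS)
    · have h1 := F3 v w hw ((F2 v hv).2 w hw) hwS
      rcases F5 w v hw.symm h1 with h | h
      · exact Or.inl h
      · exact Or.inr (Or.inr h)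
  -- counting
  have hcount : C.ncard = (∑ p : {p : V × V // H.Adj p.1 p.2}, if Sum.inl p ∈ C then 1 else 0) +
      ((∑ q : (Σ v : V, Fin (dg H v - b)), if Sum.inr (Sum.inl q) ∈ C then 1 else 0) +
       ∑ d : Fin z, if Sum.inr (Sum.inr d) ∈ C then 1 else 0) := by
    rw [Set.ncard_eq_toFinset_card']
    have h1 : C.toFinset.card = ∑ x : GW H b z, if x ∈ C then 1 else 0 := by
      rw [Finset.sum_boole, Nat.cast_id]
      congr 1
      ext x
      simp
    rw [h1, Fintype.sum_sum_type, Fintype.sum_sum_type]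
  have hdum0 : (∑ d : Fin z, if (Sum.inr (Sum.inr d) : GW H b z) ∈ C then 1 else 0) = 0 := by
    apply Finset.sum_eq_zero
    intro d _
    have : (Sum.inr (Sum.inr d) : GW H b z) ∉ C := fun h => hnX _ h (hdum d)
    simp [this]
  have hblk : (∑ q : (Σ v : V, Fin (dg H v - b)),
      if (Sum.inr (Sum.inl q) : GW H b z) ∈ C then 1 else 0) = ∑ v ∈ K, (dg H v - b) := by
    rw [Fintype.sum_sigma]
    have h1 : ∀ v : V, (∑ i : Fin (dg H v - b),
        if (Sum.inr (Sum.inl ⟨v, i⟩) : GW H b z) ∈ C then 1 else 0) =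
        if v ∈ K then dg H v - b else 0 := by
      intro v
      simp only [F6]
      split_ifs <;> simp
    simp only [h1]
    rw [← Finset.sum_filter]
    congr 1
    ext v
    simp
  have hdart : (∑ p : {p : V × V // H.Adj p.1 p.2},
      if (Sum.inl p : GW H b z) ∈ C then 1 else 0) =
      ∑ v ∈ K, dg H v + (eb H (K : Set V) (T : Set V) +
        ∑ v ∈ T, ∑ w ∈ T, if (v ∈ T ∧ w ∈ T ∧ ∃ h : H.Adj v w,
          (Sum.inl ⟨(v, w), h⟩ : GW H b z) ∈ C) then 1 else 0) := by
    rw [gk_sum_darts H (fun p => (Sum.inl p : GW H b z) ∈ C)]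
    have hdKT : Disjoint K T := Finset.disjoint_left.mpr hKT
    -- only the vertices of `K` and `T` matter
    have h1 : (∑ v, ∑ w, if (∃ h : H.Adj v w, (Sum.inl ⟨(v, w), h⟩ : GW H b z) ∈ C) then 1
        else 0) = ∑ v ∈ K ∪ T, ∑ w, if (∃ h : H.Adj v w,
          (Sum.inl ⟨(v, w), h⟩ : GW H b z) ∈ C) then 1 else 0 := by
      symm
      apply Finset.sum_subset (Finset.subset_univ _)
      intro v _ hv
      apply Finset.sum_eq_zero
      intro w _
      rw [Finset.mem_union] at hv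
      have : ¬ ∃ h : H.Adj v w, (Sum.inl ⟨(v, w), h⟩ : GW H b z) ∈ C := by
        rintro ⟨h, hC⟩
        exact hv (F5 v w h hC)
      simp [this]
    rw [h1, Finset.sum_union hdKT]
    congr 1
    · apply Finset.sum_congr rfl
      intro v hv
      rw [gk_dg]
      apply Finset.sum_congr rfl
      intro w _
      have : (∃ h : H.Adj v w, (Sum.inl ⟨(v, w), h⟩ : GW H b z) ∈ C) ↔ H.Adj v w :=
        ⟨fun ⟨h, _⟩ => h, fun h => ⟨h, (F2 v hv).2 w h⟩⟩
      simp only [this]
    · have h2 : ∀ v ∈ T, (∑ w, if (∃ h : H.Adj v w,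
          (Sum.inl ⟨(v, w), h⟩ : GW H b z) ∈ C) then 1 else 0) =
          (∑ w ∈ K, if H.Adj w v then 1 else 0) + ∑ w ∈ T, if (v ∈ T ∧ w ∈ T ∧ ∃ h : H.Adj v w,
          (Sum.inl ⟨(v, w), h⟩ : GW H b z) ∈ C) then 1 else 0 := by
        intro v hv
        have h3 : (∑ w, if (∃ h : H.Adj v w,
          (Sum.inl ⟨(v, w), h⟩ : GW H b z) ∈ C) then 1 else 0) =
          ∑ w ∈ K ∪ T, if (∃ h : H.Adj v w,
          (Sum.inl ⟨(v, w), h⟩ : GW H b z) ∈ C) then 1 else 0 := by
          symm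
          apply Finset.sum_subset (Finset.subset_univ _)
          intro w _ hw
          rw [Finset.mem_union] at hw
          have : ¬ ∃ h : H.Adj v w, (Sum.inl ⟨(v, w), h⟩ : GW H b z) ∈ C := by
            rintro ⟨h, hC⟩
            have hwS : w ∉ S := fun hS => hTS ⟨(v, w), h⟩ hv hS hC
            exact hw (F5 w v h.symm (F3 v w h hC hwS))
          simp [this]
        rw [h3, Finset.sum_union hdKT]
        congr 1
        · apply Finset.sum_congr rfl
          intro w hw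
          have : (∃ h : H.Adj v w, (Sum.inl ⟨(v, w), h⟩ : GW H b z) ∈ C) ↔ H.Adj w v := by
            constructor
            · rintro ⟨h, _⟩
              exact h.symm
            · intro h
              exact ⟨h.symm, F3 w v h ((F2 w hw).2 v h) (hTS' v hv)⟩
          simp only [this]
        · apply Finset.sum_congr rfl
          intro w hw
          simp only [hv, hw, true_and]
      rw [Finset.sum_congr rfl h2, Finset.sum_add_distrib, gk_eb]
      congr 1
      rw [Finset.sum_comm]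
  have hev : Even (∑ v ∈ T, ∑ w ∈ T, if (v ∈ T ∧ w ∈ T ∧ ∃ h : H.Adj v w,
      (Sum.inl ⟨(v, w), h⟩ : GW H b z) ∈ C) then 1 else 0) := by
    apply gk_even (fun v w => v ∈ T ∧ w ∈ T ∧ ∃ h : H.Adj v w,
      (Sum.inl ⟨(v, w), h⟩ : GW H b z) ∈ C)
    · rintro v w ⟨hv, hw, h, hC⟩
      exact ⟨hw, hv, h.symm, F3 v w h hC (hTS' w hw)⟩
    · rintro v ⟨_, _, h, _⟩
      exact H.loopless.irrefl v h
  have hpar : ∑ v ∈ K, (dg H v - b) + b * K.card = ∑ v ∈ K, dg H v := by
    have h1 : b * K.card = ∑ v ∈ K, b := by simp [mul_comm]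
    rw [h1, ← Finset.sum_add_distrib]
    apply Finset.sum_congr rfl
    intro v hv
    have := (hKcl v hv).2.2.1
    omega
  have hOdd : Odd (b * K.card + eb H (K : Set V) (T : Set V)) := by
    rw [hcount, hdum0, hblk, hdart] at hodd
    obtain ⟨e, he⟩ := hev
    obtain ⟨o, ho⟩ := hodd
    rw [Nat.odd_iff]
    omega
  refine ⟨?_, hKcl, hOdd⟩
  by_contra hne
  rw [Finset.not_nonempty_iff_eq_empty] at hne
  subst hne
  rw [gk_eb] at hOdd
  simp at hOdd

end H467Aug
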