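import Pool.Agent.H467R2.Aug.DefsC

/-! GLU: degrees and blocks of the glued graph (helper844). -/

set_option autoImplicit false

namespace H467Aug

section
variable {s r : ℕ} (c : Fin r → ℕ) (G : ∀ j, SimpleGraph (Fin (c j)))
    (φ : (Σ j : Fin r, Fin (c j)) → Option (Fin s))

theorem glu_ll (a a' : Fin s) : ¬ (glu c G φ).Adj (Sum.inl a) (Sum.inl a') := by
  unfold glu
  rw [SimpleGraph.fromRel_adj]
  rintro ⟨-, (⟨j, v, w, h1, -⟩ | ⟨_, u, -, h2, -⟩) | (⟨j, v, w, h1, -⟩ | ⟨_, u, -, h2, -⟩)⟩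
  · cases h1
  · cases h2
  · cases h1
  · cases h2

theorem glu_lr (a : Fin s) (u : Σ j : Fin r, Fin (c j)) :
    (glu c G φ).Adj (Sum.inl a) (Sum.inr u) ↔ φ u = some a := by
  unfold glu
  rw [SimpleGraph.fromRel_adj]
  constructor
  · rintro ⟨-, (⟨j, v, w, h1, -⟩ | ⟨a', u', h1, h2, h3⟩) | (⟨j, v, w, -, h1, -⟩ | ⟨_, u, h2, -⟩)⟩
    · cases h1
    · cases h1
      cases h2
      exact h3
    · cases h1
    · cases h2
  · intro h
    exact ⟨fun h => (by cases h), Or.inl (Or.inr ⟨a, u, rfl, rfl, h⟩)⟩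

theorem glu_rr (j j' : Fin r) (v : Fin (c j)) (v' : Fin (c j')) :
    (glu c G φ).Adj (Sum.inr ⟨j, v⟩) (Sum.inr ⟨j', v'⟩) ↔
      ∃ w : Fin (c j), (⟨j', v'⟩ : Σ j : Fin r, Fin (c j)) = ⟨j, w⟩ ∧ (G j).Adj v w := by
  unfold glu
  rw [SimpleGraph.fromRel_adj]
  constructor
  · rintro ⟨-, (⟨k, x, y, h1, h2, h3⟩ | ⟨a', u', h1, -⟩) | (⟨k, x, y, h1, h2, h3⟩ | ⟨_, u, h2, -⟩)⟩
    · have e1 := Sum.inr.inj h1
      cases e1
      have e2 := Sum.inr.inj h2
      exact ⟨y, e2, h3⟩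
    · cases h1
    · have e1 := Sum.inr.inj h2
      cases e1
      have e2 := Sum.inr.inj h1
      exact ⟨x, e2, h3.symm⟩
    · cases h2
  · rintro ⟨w, h1, h2⟩
    cases h1
    refine ⟨fun h => ?_, Or.inl (Or.inl ⟨j, v, w, rfl, rfl, h2⟩)⟩
    have e1 := Sum.inr.inj h
    cases e1
    exact (G j).loopless.irrefl _ h2

theorem glu_dg_l (a : Fin s) :
    dg (glu c G φ) (Sum.inl a) = {u | φ u = some a}.ncard := by
  unfold dg
  have h : {w | (glu c G φ).Adj (Sum.inl a) w} =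
      (Sum.inr : (Σ j : Fin r, Fin (c j)) → Fin s ⊕ (Σ j : Fin r, Fin (c j))) ''
        {u | φ u = some a} := by
    ext w
    rcases w with a' | u
    · simp only [Set.mem_setOf_eq, Set.mem_image]
      constructor
      · intro h
        exact absurd h (glu_ll c G φ a a')
      · rintro ⟨x, -, hx⟩
        cases hx
    · simp only [Set.mem_setOf_eq, Set.mem_image]
      rw [glu_lr]
      constructor
      · intro h
        exact ⟨u, h, rfl⟩
      · rintro ⟨x, h, hx⟩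
        cases hx
        exact h
  rw [h]
  exact Set.ncard_image_of_injective _ Sum.inr_injective

theorem glu_nb (j : Fin r) (v : Fin (c j)) :
    {w | (glu c G φ).Adj (Sum.inr ⟨j, v⟩) w} =
      (fun w : Fin (c j) => (Sum.inr ⟨j, w⟩ : Fin s ⊕ (Σ j : Fin r, Fin (c j)))) ''
        {w | (G j).Adj v w} ∪ Sum.inl '' {a | φ ⟨j, v⟩ = some a} := by
  ext w
  rcases w with a | ⟨j', v'⟩
  · simp only [Set.mem_setOf_eq, Set.mem_union, Set.mem_image]
    rw [(glu c G φ).adj_comm, glu_lr]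
    constructor
    · intro h
      exact Or.inr ⟨a, h, rfl⟩
    · rintro (⟨w, -, hw⟩ | ⟨b, hb, hw⟩)
      · cases hw
      · cases hw
        exact hb
  · simp only [Set.mem_setOf_eq, Set.mem_union, Set.mem_image]
    rw [glu_rr]
    constructor
    · rintro ⟨w, h1, h2⟩
      exact Or.inl ⟨w, h2, by rw [h1]⟩
    · rintro (⟨w, h1, hw⟩ | ⟨b, hb, hw⟩)
      · exact ⟨w, (Sum.inr.inj hw).symm, h1⟩
      · cases hw

theorem glu_inj (j : Fin r) : Function.Injective
    (fun w : Fin (c j) => (Sum.inr ⟨j, w⟩ : Fin s ⊕ (Σ j : Fin r, Fin (c j)))) := by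
  intro x y h
  have e1 := Sum.inr.inj h
  exact eq_of_heq (Sigma.mk.inj_iff.1 e1).2

theorem glu_dg_none (u : Σ j : Fin r, Fin (c j)) (h : φ u = none) :
    dg (glu c G φ) (Sum.inr u) = dg (G u.1) u.2 := by
  obtain ⟨j, v⟩ := u
  unfold dg
  rw [glu_nb]
  have h0 : {a | φ ⟨j, v⟩ = some a} = (∅ : Set (Fin s)) := by
    rw [h]
    ext a
    simp
  rw [h0, Set.image_empty, Set.union_empty]
  exact Set.ncard_image_of_injective _ (glu_inj c j)

theorem glu_dg_some (u : Σ j : Fin r, Fin (c j)) (h : φ u ≠ none) :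
    dg (glu c G φ) (Sum.inr u) = dg (G u.1) u.2 + 1 := by
  obtain ⟨j, v⟩ := u
  unfold dg
  rw [glu_nb]
  obtain ⟨a, ha⟩ := Option.ne_none_iff_exists'.1 h
  have h0 : {b | φ ⟨j, v⟩ = some b} = ({a} : Set (Fin s)) := by
    rw [ha]
    ext b
    simp only [Set.mem_setOf_eq, Option.some.injEq, Set.mem_singleton_iff]
    exact eq_comm
  rw [h0, Set.image_singleton, Set.ncard_union_eq _ (Set.toFinite _) (Set.toFinite _),
    Set.ncard_singleton, Set.ncard_image_of_injective _ (glu_inj c j)]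
  rw [Set.disjoint_singleton_right]
  rintro ⟨w, -, hw⟩
  cases hw

end

theorem t_GLU : S_GLU := by
  classical
  intro s r c G φ hc
  refine ⟨glu_dg_l c G φ, glu_dg_none c G φ, glu_dg_some c G φ, glu_ll c G φ,
    (Finset.univ : Finset (Fin s)).map ⟨Sum.inl, Sum.inl_injective⟩,
    fun j => (Finset.univ : Finset (Fin (c j))).map ⟨fun w => Sum.inr ⟨j, w⟩, glu_inj c j⟩,
    ?_, ?_, ?_, ?_, ?_, ?_⟩
  · intro x
    simp only [Finset.mem_map, Finset.mem_univ, true_and, Function.Embedding.coeFn_mk]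
    exact ⟨fun ⟨a, h⟩ => ⟨a, h.symm⟩, fun ⟨a, h⟩ => ⟨a, h.symm⟩⟩
  · rw [Finset.card_map, Finset.card_univ, Fintype.card_fin]
  · intro j x
    simp only [Finset.mem_map, Finset.mem_univ, true_and, Function.Embedding.coeFn_mk]
    exact ⟨fun ⟨a, h⟩ => ⟨a, h.symm⟩, fun ⟨a, h⟩ => ⟨a, h.symm⟩⟩
  · intro j
    rw [Finset.card_map, Finset.card_univ, Fintype.card_fin]
  · intro j j' hj
    have hd : Disjoint
        ((Finset.univ : Finset (Fin (c j))).map
          ⟨fun w => (Sum.inr ⟨j, w⟩ : Fin s ⊕ (Σ j : Fin r, Fin (c j))), glu_inj c j⟩)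
        ((Finset.univ : Finset (Fin (c j'))).map
          ⟨fun w => (Sum.inr ⟨j', w⟩ : Fin s ⊕ (Σ j : Fin r, Fin (c j))), glu_inj c j'⟩) := by
      rw [Finset.disjoint_left]
      intro x hx hx'
      simp only [Finset.mem_map, Finset.mem_univ, true_and, Function.Embedding.coeFn_mk] at hx hx'
      obtain ⟨a, rfl⟩ := hx
      obtain ⟨b, hb⟩ := hx'
      have e1 := Sum.inr.inj hb
      exact hj (Sigma.mk.inj_iff.1 e1).1.symm
    refine ⟨fun he => ?_, hd⟩
    have hx : (Sum.inr ⟨j, ⟨0, hc j⟩⟩ : Fin s ⊕ (Σ j : Fin r, Fin (c j))) ∈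
        ((Finset.univ : Finset (Fin (c j))).map
          ⟨fun w => (Sum.inr ⟨j, w⟩ : Fin s ⊕ (Σ j : Fin r, Fin (c j))), glu_inj c j⟩) := by
      simp only [Finset.mem_map, Finset.mem_univ, true_and, Function.Embedding.coeFn_mk]
      exact ⟨_, rfl⟩
    exact (Finset.disjoint_left.1 hd hx) (by
      have he' := he
      beta_reduce at he'
      rw [← he']
      exact hx)
  · intro j x hx
    simp only [Finset.mem_map, Finset.mem_univ, true_and, Function.Embedding.coeFn_mk] at hx ⊢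
    obtain ⟨v, rfl⟩ := hx
    refine ⟨?_, ?_⟩
    · rintro ⟨a, ha⟩
      cases ha
    · intro w hw
      have h1 : w ∈ {w | (glu c G φ).Adj (Sum.inr ⟨j, v⟩) w} := hw
      rw [glu_nb] at h1
      rcases h1 with ⟨y, -, hy⟩ | ⟨a, -, ha⟩
      · exact Or.inl ⟨y, hy⟩
      · exact Or.inr ⟨a, ha⟩

end H467Aug
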