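import Pool.Agent.H467R2.Aug.DefsC

/-!
# MP_30a809_co: task GOA, the structure of a clean obstruction
-/

set_option autoImplicit false

namespace H467Aug

theorem goa_adj_db {V : Type} (H : SimpleGraph V) (b z : ℕ)
    (p : {p : V × V // H.Adj p.1 p.2}) (q : Σ v : V, Fin (dg H v - b)) (h : p.1.1 = q.1) :
    (gad H b z).Adj (Sum.inr (Sum.inl q)) (Sum.inl p) := by
  unfold gad
  rw [SimpleGraph.fromRel_adj]
  refine ⟨by simp, Or.inr h⟩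

theorem goa_nb_dart {V : Type} (H : SimpleGraph V) (b z : ℕ)
    (p : {p : V × V // H.Adj p.1 p.2}) (y : GW H b z) (h : (gad H b z).Adj (Sum.inl p) y) :
    (∃ q : {p : V × V // H.Adj p.1 p.2}, y = Sum.inl q ∧ q.1 = (p.1.2, p.1.1)) ∨
    (∃ q : Σ v : V, Fin (dg H v - b), y = Sum.inr (Sum.inl q) ∧ p.1.1 = q.1) ∨
    (∃ d : Fin z, y = Sum.inr (Sum.inr d)) := by
  unfold gad at h
  rw [SimpleGraph.fromRel_adj] at h
  obtain ⟨_, h⟩ := h
  rcases y with q | q | d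
  · left
    refine ⟨q, rfl, ?_⟩
    rcases h with ⟨h1, h2⟩ | ⟨h1, h2⟩
    · exact Prod.ext h2.symm h1.symm
    · exact Prod.ext h1 h2
  · right; left
    refine ⟨q, rfl, ?_⟩
    rcases h with h | h
    · exact h
    · exact h.elim
  · right; right
    exact ⟨d, rfl⟩

theorem goa_nb_blk {V : Type} (H : SimpleGraph V) (b z : ℕ)
    (q : Σ v : V, Fin (dg H v - b)) (y : GW H b z)
    (h : (gad H b z).Adj (Sum.inr (Sum.inl q)) y) :
    ∃ p : {p : V × V // H.Adj p.1 p.2}, y = Sum.inl p ∧ p.1.1 = q.1 := by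
  unfold gad at h
  rw [SimpleGraph.fromRel_adj] at h
  obtain ⟨_, h⟩ := h
  rcases y with p | p | d
  · refine ⟨p, rfl, ?_⟩
    rcases h with h | h
    · exact h.elim
    · exact h
  · rcases h with h | h <;> exact h.elim
  · rcases h with h | h <;> exact h.elim

theorem goa_two {V : Type} (H : SimpleGraph V) (b z : ℕ)
    (X : Set (GW H b z)) (F : Finset (Set (GW H b z))) (hF : CF (gad H b z) X F)
    (hT : Three (gad H b z) X F) (hd : ∀ d : Fin z, Sum.inr (Sum.inr d) ∈ X)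
    (p : {p : V × V // H.Adj p.1 p.2}) (hp : Sum.inl p ∈ X) :
    ∃ C ∈ F, ∃ C' ∈ F, C ≠ C' ∧
      (∃ q : Σ v : V, Fin (dg H v - b), p.1.1 = q.1 ∧ Sum.inr (Sum.inl q) ∈ C) ∧
      (∃ q : Σ v : V, Fin (dg H v - b), p.1.1 = q.1 ∧ Sum.inr (Sum.inl q) ∈ C') := by
  obtain ⟨C1, h1, C2, h2, C3, h3, h12, h13, h23, ⟨w1, hw1, a1⟩, ⟨w2, hw2, a2⟩, ⟨w3, hw3, a3⟩⟩ :=
    hT _ hp
  have key : ∀ C ∈ F, ∀ w ∈ C, (gad H b z).Adj (Sum.inl p) w →
      (∃ q : {p : V × V // H.Adj p.1 p.2}, Sum.inl q ∈ C ∧ q.1 = (p.1.2, p.1.1)) ∨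
      (∃ q : Σ v : V, Fin (dg H v - b), p.1.1 = q.1 ∧ Sum.inr (Sum.inl q) ∈ C) := by
    intro C hC w hw ha
    rcases goa_nb_dart H b z p w ha with ⟨q, e, hq⟩ | ⟨q, e, hq⟩ | ⟨d, e⟩
    · left; rw [e] at hw; exact ⟨q, hw, hq⟩
    · right; rw [e] at hw; exact ⟨q, hq, hw⟩
    · exfalso
      rw [e] at hw
      exact Set.disjoint_left.1 (hF.1 C hC).1 hw (hd d)
  have dis : ∀ C ∈ F, ∀ C' ∈ F, C ≠ C' →
      (∃ q : {p : V × V // H.Adj p.1 p.2}, Sum.inl q ∈ C ∧ q.1 = (p.1.2, p.1.1)) →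
      (∃ q : {p : V × V // H.Adj p.1 p.2}, Sum.inl q ∈ C' ∧ q.1 = (p.1.2, p.1.1)) → False := by
    rintro C hC C' hC' hne ⟨q, hq, e⟩ ⟨q', hq', e'⟩
    have : q = q' := Subtype.ext (e.trans e'.symm)
    subst this
    exact Set.disjoint_left.1 (hF.2 C hC C' hC' hne) hq hq'
  rcases key C1 h1 w1 hw1 a1 with k1 | k1
  · have k2 := (key C2 h2 w2 hw2 a2).resolve_left (fun h => dis C1 h1 C2 h2 h12 k1 h)
    have k3 := (key C3 h3 w3 hw3 a3).resolve_left (fun h => dis C1 h1 C3 h3 h13 k1 h)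
    exact ⟨C2, h2, C3, h3, h23, k2, k3⟩
  · rcases key C2 h2 w2 hw2 a2 with k2 | k2
    · have k3 := (key C3 h3 w3 hw3 a3).resolve_left (fun h => dis C2 h2 C3 h3 h23 k2 h)
      exact ⟨C1, h1, C3, h3, h13, k1, k3⟩
    · exact ⟨C1, h1, C2, h2, h12, k1, k2⟩

theorem goa_darts {V : Type} (H : SimpleGraph V) (b z : ℕ)
    (X : Set (GW H b z)) (F : Finset (Set (GW H b z))) (hF : CF (gad H b z) X F)
    (hT : Three (gad H b z) X F) (hd : ∀ d : Fin z, Sum.inr (Sum.inr d) ∈ X)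
    (p : {p : V × V // H.Adj p.1 p.2}) (hp : Sum.inl p ∈ X)
    (q : {p : V × V // H.Adj p.1 p.2}) (hq : q.1.1 = p.1.1) : Sum.inl q ∈ X := by
  obtain ⟨C, hC, C', hC', hne, ⟨r, hr, hrC⟩, ⟨r', hr', hrC'⟩⟩ := goa_two H b z X F hF hT hd p hp
  by_contra hX
  have e1 := ((hF.1 C hC).2.2 _ hrC _ (goa_adj_db H b z q r (hq.trans hr))).resolve_right hX
  have e2 := ((hF.1 C' hC').2.2 _ hrC' _ (goa_adj_db H b z q r' (hq.trans hr'))).resolve_right hX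
  exact Set.disjoint_left.1 (hF.2 C hC C' hC' hne) e1 e2

/-- GOA: the structure of a clean obstruction. -/
theorem t_GOA : S_GOA := by
  intro V _ H b z X F hF hT hd
  refine ⟨hd, ?_, ?_⟩
  · intro p hp
    refine ⟨?_, goa_darts H b z X F hF hT hd p hp, ?_⟩
    · obtain ⟨C, hC, C', hC', hne, ⟨r, hr, hrC⟩, -⟩ := goa_two H b z X F hF hT hd p hp
      have h1 : 0 < dg H r.1 - b := lt_of_le_of_lt (Nat.zero_le _) r.2.isLt
      rw [hr]
      omega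
    · intro i hi
      obtain ⟨C1, h1, C2, h2, C3, h3, h12, h13, h23, ⟨w1, hw1, a1⟩, -, -⟩ := hT _ hi
      obtain ⟨q, e, hq⟩ := goa_nb_blk H b z _ w1 a1
      rw [e] at hw1
      exact Set.disjoint_left.1 (hF.1 C1 h1).1 hw1 (goa_darts H b z X F hF hT hd p hp q hq)
  · intro v i j hi
    by_contra hX
    obtain ⟨C1, h1, C2, h2, C3, h3, h12, h13, h23, ⟨w1, hw1, a1⟩, ⟨w2, hw2, a2⟩, -⟩ := hT _ hi
    obtain ⟨q1, e1, hq1⟩ := goa_nb_blk H b z _ w1 a1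
    obtain ⟨q2, e2, hq2⟩ := goa_nb_blk H b z _ w2 a2
    rw [e1] at hw1
    rw [e2] at hw2
    have f1 := ((hF.1 C1 h1).2.2 _ hw1 _
      (goa_adj_db H b z q1 ⟨v, j⟩ hq1).symm).resolve_right hX
    have f2 := ((hF.1 C2 h2).2.2 _ hw2 _
      (goa_adj_db H b z q2 ⟨v, j⟩ hq2).symm).resolve_right hX
    exact Set.disjoint_left.1 (hF.2 C1 h1 C2 h2 h12) f1 f2

end H467Aug
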