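import Pool.Agent.H467R2.Aug.DefsC

set_option autoImplicit false

namespace H467Aug

theorem goa0_dd {V : Type} (H : SimpleGraph V) (b z : ℕ) (d d' : Fin z) (h : d ≠ d') :
    (gad H b z).Adj (Sum.inr (Sum.inr d)) (Sum.inr (Sum.inr d')) := by
  unfold gad
  rw [SimpleGraph.fromRel_adj]
  refine ⟨?_, Or.inl trivial⟩
  intro e
  exact h (Sum.inr_injective (Sum.inr_injective e))

theorem goa0_pd {V : Type} (H : SimpleGraph V) (b z : ℕ) (p : {p : V × V // H.Adj p.1 p.2})
    (d : Fin z) : (gad H b z).Adj (Sum.inl p) (Sum.inr (Sum.inr d)) := by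
  unfold gad
  rw [SimpleGraph.fromRel_adj]
  exact ⟨by simp, Or.inl trivial⟩

theorem goa0_bp {V : Type} (H : SimpleGraph V) (b z : ℕ) (p : {p : V × V // H.Adj p.1 p.2})
    (q : Σ v : V, Fin (dg H v - b)) (h : p.1.1 = q.1) :
    (gad H b z).Adj (Sum.inr (Sum.inl q)) (Sum.inl p) := by
  unfold gad
  rw [SimpleGraph.fromRel_adj]
  exact ⟨by simp, Or.inr h⟩

theorem goa0_map {V : Type} [Finite V] (H : SimpleGraph V) (b : ℕ) :
    ∃ f : (Σ v : V, Fin (dg H v - b)) → {p : V × V // H.Adj p.1 p.2},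
      Function.Injective f ∧ ∀ q, (f q).1.1 = q.1 := by
  have hc : ∀ v : V, Nat.card {w // w ∈ {w | H.Adj v w}} = dg H v := fun v => by
    exact Nat.card_coe_set_eq _
  let e : ∀ v : V, {w // w ∈ {w | H.Adj v w}} ≃ Fin (dg H v) := fun v =>
    Finite.equivFinOfCardEq (hc v)
  refine ⟨fun q => ⟨(q.1, ((e q.1).symm (Fin.castLE (Nat.sub_le _ _) q.2)).1),
    ((e q.1).symm (Fin.castLE (Nat.sub_le _ _) q.2)).2⟩, ?_, fun q => rfl⟩
  rintro ⟨v, i⟩ ⟨w, j⟩ h
  have h1 := congrArg (fun x => x.1.1) h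
  simp only at h1
  subst h1
  have h2 := congrArg (fun x => x.1.2) h
  simp only at h2
  have h3 := (e v).symm.injective (Subtype.ext h2)
  have h4 := Fin.castLE_injective _ h3
  rw [h4]

theorem t_GOA0 : S_GOA0 := by
  classical
  intro V _ H b z X F hCF hcard d
  by_contra hd
  obtain ⟨h1, h2⟩ := hCF
  obtain ⟨f, hf, hf1⟩ := goa0_map H b
  -- members containing a dart or a dummy contain `d`
  have hA : ∀ C ∈ F, ∀ p, (Sum.inl p : GW H b z) ∈ C →
      (Sum.inr (Sum.inr d) : GW H b z) ∈ C := by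
    intro C hC p hp
    rcases (h1 C hC).2.2 _ hp _ (goa0_pd H b z p d) with h | h
    · exact h
    · exact absurd h hd
  have hB : ∀ C ∈ F, ∀ d' : Fin z, (Sum.inr (Sum.inr d') : GW H b z) ∈ C →
      (Sum.inr (Sum.inr d) : GW H b z) ∈ C := by
    intro C hC d' hp
    by_cases hdd : d' = d
    · rwa [hdd] at hp
    rcases (h1 C hC).2.2 _ hp _ (goa0_dd H b z d' d hdd) with h | h
    · exact h
    · exact absurd h hd
  have : Nonempty (GW H b z) := ⟨Sum.inr (Sum.inr d)⟩
  let F' : Finset (Set (GW H b z)) := F.filter fun C => (Sum.inr (Sum.inr d) : GW H b z) ∉ C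
  let F0 : Finset (Set (GW H b z)) := F.filter fun C => (Sum.inr (Sum.inr d) : GW H b z) ∈ C
  have hF0 : F0.card ≤ 1 := by
    rw [Finset.card_le_one]
    intro C hC C' hC'
    by_contra hne
    rw [Finset.mem_filter] at hC hC'
    exact Set.disjoint_left.mp (h2 C hC.1 C' hC'.1 hne) hC.2 hC'.2
  have hsum : F0.card + F'.card = F.card := by
    rw [← Finset.card_filter_add_card_filter_not
      (fun C => (Sum.inr (Sum.inr d) : GW H b z) ∈ C) (s := F)]
  have hbl : ∀ C ∈ F', ∃ y : GW H b z, ∃ q, y = Sum.inl (f q) ∧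
      (Sum.inr (Sum.inl q) : GW H b z) ∈ C := by
    intro C hC
    rw [Finset.mem_filter] at hC
    have hodd := (h1 C hC.1).2.1
    have hne : C.Nonempty := by
      apply Set.nonempty_of_ncard_ne_zero
      intro h0
      rw [h0] at hodd
      exact absurd hodd (by decide)
    obtain ⟨x, hx⟩ := hne
    rcases x with p | q | d'
    · exact absurd (hA C hC.1 p hx) hC.2
    · exact ⟨Sum.inl (f q), q, rfl, hx⟩
    · exact absurd (hB C hC.1 d' hx) hC.2
  choose! g hg using hbl
  have hle : (F' : Set (Set (GW H b z))).ncard ≤ X.ncard := by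
    refine Set.ncard_le_ncard_of_injOn g ?_ ?_ (Set.toFinite X)
    · intro C hC
      have hC' : C ∈ F' := hC
      obtain ⟨q, hq, hqC⟩ := hg C hC'
      rw [Finset.mem_filter] at hC'
      rw [hq]
      rcases (h1 C hC'.1).2.2 _ hqC _ (goa0_bp H b z (f q) q (hf1 q)) with h | h
      · exact absurd (hA C hC'.1 _ h) hC'.2
      · exact h
    · intro C hC C' hC' hgg
      obtain ⟨q, hq, hqC⟩ := hg C hC
      obtain ⟨q', hq', hqC'⟩ := hg C' hC'
      rw [hq, hq'] at hgg
      have hqq : q = q' := hf (Sum.inl_injective hgg)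
      subst hqq
      by_contra hne
      have hm : C ∈ F' := hC
      have hm' : C' ∈ F' := hC'
      rw [Finset.mem_filter] at hm hm'
      exact Set.disjoint_left.mp (h2 C hm.1 C' hm'.1 hne) hqC hqC'
  rw [Set.ncard_coe_finset] at hle
  omega

end H467Aug
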