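import Pool.Agent.H467R2.Aug.DefsC

/-!
# MP_30a809_co, task GPM
-/

set_option autoImplicit false

namespace H467Aug

theorem gpm_darts {V : Type} [Fintype V] (H : SimpleGraph V) :
    {p : V × V | H.Adj p.1 p.2}.ncard = ∑ v, dg H v := by
  classical
  have h1 : ∀ v, dg H v = ∑ w, if H.Adj v w then 1 else 0 := by
    intro v
    unfold dg
    rw [Finset.sum_boole, Set.ncard_eq_toFinset_card', Nat.cast_id]
    congr 1
    ext w
    simp
  simp only [h1]
  rw [← Finset.sum_product' (f := fun v w => if H.Adj v w then 1 else 0)]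
  rw [Finset.univ_product_univ, Finset.sum_boole, Set.ncard_eq_toFinset_card', Nat.cast_id]
  congr 1
  ext w
  simp

/-- neighbours of a blocker -/
theorem gpm_blocker {V : Type} (H : SimpleGraph V) (b z : ℕ) (v : V) (i : Fin (dg H v - b))
    (y : GW H b z) (h : (gad H b z).Adj (Sum.inr (Sum.inl ⟨v, i⟩)) y) :
    ∃ (w : V) (hw : H.Adj v w), y = Sum.inl ⟨(v, w), hw⟩ := by
  rw [gad, SimpleGraph.fromRel_adj] at h
  obtain ⟨-, h⟩ := h
  rcases y with ⟨⟨a, c⟩, hac⟩ | (⟨q⟩ | d)
  · rcases h with h | h
    · exact h.elim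
    · have h' : a = v := h
      subst h'
      exact ⟨c, hac, rfl⟩
  · rcases h with h | h <;> exact h.elim
  · rcases h with h | h <;> exact h.elim

/-- neighbours of a dart which are darts -/
theorem gpm_dart {V : Type} (H : SimpleGraph V) (b z : ℕ) (p q : {p : V × V // H.Adj p.1 p.2})
    (h : (gad H b z).Adj (Sum.inl p) (Sum.inl q)) : q.1.1 = p.1.2 ∧ q.1.2 = p.1.1 := by
  rw [gad, SimpleGraph.fromRel_adj] at h
  obtain ⟨-, h⟩ := h
  rcases h with h | h
  · exact ⟨h.2.symm, h.1.symm⟩
  · exact ⟨h.1, h.2⟩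

theorem t_GPM (hB : S_BAS) : S_GPM := by
  classical
  intro V _ H b z hPM
  obtain ⟨M, hMat, hMle, hMcov⟩ := hPM
  choose m hm using hMcov
  let H' : SimpleGraph V :=
    { Adj := fun v w => ∃ h : H.Adj v w,
        M.Adj (Sum.inl ⟨(v, w), h⟩) (Sum.inl ⟨(w, v), h.symm⟩)
      symm := ⟨by
        rintro v w ⟨h, hM⟩
        exact ⟨h.symm, hM.symm⟩⟩
      loopless := ⟨by
        rintro v ⟨h, -⟩
        exact H.loopless.irrefl v h⟩ }
  have hH'le : H' ≤ H := by
    intro v w h
    exact h.1
  refine ⟨H', hH'le, ?_, ?_⟩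
  · intro v
    -- the darts matched with blockers
    have hg : ∀ i : Fin (dg H v - b), ∃ w, ∃ hw : H.Adj v w,
        M.Adj (Sum.inr (Sum.inl ⟨v, i⟩)) (Sum.inl ⟨(v, w), hw⟩) := by
      intro i
      obtain ⟨w, hw, he⟩ := gpm_blocker H b z v i _ (hMle (hm (Sum.inr (Sum.inl ⟨v, i⟩))))
      refine ⟨w, hw, ?_⟩
      rw [← he]
      exact hm _
    choose g hgH hgM using hg
    have hginj : Function.Injective g := by
      intro i j hij
      have h1 := hgM i
      have h2 := hgM j
      have h3 : (Sum.inl ⟨(v, g i), hgH i⟩ : GW H b z) = Sum.inl ⟨(v, g j), hgH j⟩ := by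
        congr 2
        rw [hij]
      rw [← h3] at h2
      have h4 := hMat _ _ _ h1.symm h2.symm
      simpa using h4
    have hdisj : Disjoint {w | H'.Adj v w} (Set.range g) := by
      rw [Set.disjoint_left]
      rintro w ⟨h, hM⟩ ⟨i, rfl⟩
      have h4 := hMat _ _ _ hM (hgM i).symm
      cases h4
    have hsub : {w | H'.Adj v w} ∪ Set.range g ⊆ {w | H.Adj v w} := by
      rintro w (hw | ⟨i, rfl⟩)
      · exact hH'le hw
      · exact hgH i
    have hc := Set.ncard_le_ncard hsub (Set.toFinite _)
    rw [Set.ncard_union_eq hdisj (Set.toFinite _) (Set.toFinite _)] at hc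
    have hr : (Set.range g).ncard = dg H v - b := by
      rw [← Set.image_univ, Set.ncard_image_of_injective _ hginj, Set.ncard_univ,
        Nat.card_eq_fintype_card, Fintype.card_fin]
    rw [hr] at hc
    change dg H' v + (dg H v - b) ≤ dg H v at hc
    have hle : dg H' v ≤ dg H v :=
      Set.ncard_le_ncard (fun w hw => hH'le hw) (Set.toFinite _)
    omega
  · have h1 : ∑ v, dg H v = 2 * ec H := (hB V H).2.2.2.1
    have h2 : ∑ v, dg H' v = 2 * ec H' := (hB V H').2.2.2.1
    rw [← h1, ← h2, ← gpm_darts, ← gpm_darts]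
    let T := (Σ v : V, Fin (dg H v - b)) ⊕ Fin z
    let f : T → Option (V × V) := fun t =>
      Sum.elim (fun q : {p : V × V // H.Adj p.1 p.2} => some q.1) (fun _ => none)
        (m (Sum.inr t))
    have hsub : {p : V × V | H.Adj p.1 p.2} ⊆
        {p : V × V | H'.Adj p.1 p.2} ∪ {p : V × V | some p ∈ Set.range f} := by
      rintro ⟨v, w⟩ hvw
      change H.Adj v w at hvw
      rcases hy : m (Sum.inl ⟨(v, w), hvw⟩) with q | t
      · left
        have h3 := hm (Sum.inl ⟨(v, w), hvw⟩)
        rw [hy] at h3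
        obtain ⟨h4, h5⟩ := gpm_dart H b z _ _ (hMle h3)
        refine ⟨hvw, ?_⟩
        have h6 : q = ⟨(w, v), hvw.symm⟩ := by
          apply Subtype.ext
          exact Prod.ext h4 h5
        rw [h6] at h3
        exact h3
      · right
        refine ⟨t, ?_⟩
        have h3 := hm (Sum.inl ⟨(v, w), hvw⟩)
        rw [hy] at h3
        have h4 : m (Sum.inr t) = Sum.inl ⟨(v, w), hvw⟩ :=
          hMat _ _ _ (hm (Sum.inr t)) h3.symm
        change Sum.elim (fun q : {p : V × V // H.Adj p.1 p.2} => some q.1) (fun _ => none)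
          (m (Sum.inr t)) = some (v, w)
        rw [h4]
        rfl
    have hc := Set.ncard_le_ncard hsub (Set.toFinite _)
    have hu := Set.ncard_union_le {p : V × V | H'.Adj p.1 p.2}
      {p : V × V | some p ∈ Set.range f}
    have hs : {p : V × V | some p ∈ Set.range f}.ncard ≤ ∑ v, (dg H v - b) + z := by
      have h3 : (some '' {p : V × V | some p ∈ Set.range f}).ncard =
          {p : V × V | some p ∈ Set.range f}.ncard :=
        Set.ncard_image_of_injective _ (Option.some_injective _)
      rw [← h3]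
      have h4 : some '' {p : V × V | some p ∈ Set.range f} ⊆ f '' Set.univ := by
        rintro _ ⟨p, hp, rfl⟩
        rw [Set.image_univ]
        exact hp
      have h5 := Set.ncard_le_ncard h4 (Set.toFinite _)
      have h6 := Set.ncard_image_le (f := f) (s := Set.univ) (Set.toFinite _)
      have h7 : (Set.univ : Set T).ncard = ∑ v, (dg H v - b) + z := by
        rw [Set.ncard_univ, Nat.card_eq_fintype_card, Fintype.card_sum, Fintype.card_sigma,
          Fintype.card_fin]
        simp
      omega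
    omega

end H467Aug
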