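import Pool.Agent.H467R2.Aug.DefsC

set_option autoImplicit false

namespace H467Aug

theorem t_GZ : S_GZ := by
  intro n D b hbD hDn hn
  unfold gg
  split_ifs with hD hb hb
  · rfl
  · have h1 : n / (D + 1) = 1 := by
      apply Nat.div_eq_of_lt_le <;> omega
    unfold gEO
    rw [h1]
    omega
  · have hb1 : 1 ≤ b := by obtain ⟨k, hk⟩ := hb; omega
    unfold gOO
    refine (Finset.sup_eq_bot_iff _ _).2 ?_
    intro s hs
    show min (pP n D s) (D * s) - b * s = 0
    rcases Nat.eq_zero_or_pos s with h | h
    · subst h; simp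
    · have h1 : (n - s) / (D + 2) < 2 := by
        rw [Nat.div_lt_iff_lt_mul (by omega)]
        omega
      have h2 : pP n D s ≤ 1 := by
        unfold pP
        omega
      have h3 : 1 ≤ b * s := Nat.mul_pos (by omega) h
      have h4 : min (pP n D s) (D * s) ≤ pP n D s := min_le_left _ _
      omega
  · unfold gOE
    refine (Finset.sup_eq_bot_iff _ _).2 ?_
    intro t ht
    show qQ n D (t + 1) + n % 2 - (D - b) * (t + 1) = 0
    have h1 : (n - (t + 1)) / (D + 2) < 2 := by
      rw [Nat.div_lt_iff_lt_mul (by omega)]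
      omega
    unfold qQ
    generalize hm : min ((n - (t + 1)) / (D + 2)) (D * (t + 1)) = m
    have h2 : m ≤ (n - (t + 1)) / (D + 2) := by rw [← hm]; exact min_le_left _ _
    have h3 : 1 ≤ (D - b) * (t + 1) := Nat.mul_pos (by omega) (by omega)
    rcases Nat.eq_zero_or_pos t with h | h
    · subst h
      by_cases h4 : D - b = 1
      · rw [h4]; omega
      · have h5 : 2 ≤ (D - b) * (0 + 1) := by omega
        omega
    · have h5 : 2 ≤ (D - b) * (t + 1) := by
        calc 2 ≤ t + 1 := by omega
          _ = 1 * (t + 1) := by ring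
          _ ≤ (D - b) * (t + 1) := Nat.mul_le_mul_right _ (by omega)
      omega

end H467Aug
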