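import Pool.Agent.H467R2.Aug.DefsC

/-! HEO: block graphs, `D` even. -/

set_option autoImplicit false

namespace H467Aug

/-- the sizes of the blocks -/
def heo_c (n D m : ℕ) (j : Fin (m + 1)) : ℕ := if (j : ℕ) = m then n - m * (D + 1) else D + 1

theorem heo_sum (n D m : ℕ) (h : (m + 1) * (D + 1) ≤ n) : ∑ j, heo_c n D m j = n := by
  rw [Fin.sum_univ_castSucc]
  have h1 : ∀ i : Fin m, heo_c n D m (Fin.castSucc i) = D + 1 := by
    intro i
    unfold heo_c
    rw [if_neg]
    have := i.isLt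
    simp only [Fin.val_castSucc]
    omega
  have h2 : heo_c n D m (Fin.last m) = n - m * (D + 1) := by
    unfold heo_c
    rw [if_pos (by simp)]
  rw [h2, Finset.sum_congr rfl (fun i _ => h1 i)]
  simp only [Finset.sum_const, Finset.card_univ, Fintype.card_fin, smul_eq_mul]
  have h3 : (m + 1) * (D + 1) = m * (D + 1) + (D + 1) := by ring
  omega

theorem heo_ge (n D m : ℕ) (h : (m + 1) * (D + 1) ≤ n) (j : Fin (m + 1)) :
    D + 1 ≤ heo_c n D m j := by
  unfold heo_c
  have h3 : (m + 1) * (D + 1) = m * (D + 1) + (D + 1) := by ring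
  split_ifs
  · omega
  · exact le_rfl

theorem heo_odd (n D m : ℕ) (hD : Even D) (h : (m + 1) * (D + 1) ≤ n) (hp : (m + 1 + n) % 2 = 0)
    (j : Fin (m + 1)) : Odd (heo_c n D m j) := by
  unfold heo_c
  have h3 : (m + 1) * (D + 1) = m * (D + 1) + (D + 1) := by ring
  obtain ⟨d, hd⟩ := hD
  split_ifs
  · have h4 : m * (D + 1) = 2 * (m * d) + m := by rw [hd]; ring
    rw [Nat.odd_iff]
    omega
  · rw [Nat.odd_iff]
    omega

theorem heo_reg (hB : S_BAS) (c D : ℕ) (hD : Even D) (G : SimpleGraph (Fin c))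
    (h1 : ∀ v, dg G v ≤ D) (h2 : ec G = fl c D) : ∀ v, dg G v = D := by
  have h3 : ∑ v, dg G v = 2 * ec G := (hB (Fin c) G).2.2.2.1
  obtain ⟨d, hd⟩ := hD
  have h4 : 2 * ec G = c * D := by
    rw [h2]
    unfold fl
    have : c * D = 2 * (c * d) := by rw [hd]; ring
    rw [this]
    omega
  have h5 : ∑ v : Fin c, dg G v = ∑ _v : Fin c, D := by
    rw [h3, h4]
    simp
  have h6 := (Finset.sum_eq_sum_iff_of_le (fun v _ => h1 v)).mp h5
  intro v
  exact h6 v (Finset.mem_univ v)

theorem t_HEO (h1 : S_REG) (h2 : S_GLU) (hB : S_BAS) : S_HEO := by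
  classical
  intro n D p hD hDn hp hpn hle
  obtain ⟨m, rfl⟩ : ∃ m, p = m + 1 := ⟨p - 1, by omega⟩
  have hG : ∀ j : Fin (m + 1), ∃ G : SimpleGraph (Fin (heo_c n D m j)), ∀ v, dg G v = D := by
    intro j
    obtain ⟨G, hG1, hG2⟩ := h1 (heo_c n D m j) D (by
      have := heo_ge n D m hle j
      omega)
    exact ⟨G, heo_reg hB _ D hD G hG1 hG2⟩
  choose G hG using hG
  obtain ⟨-, hd, -, -, S, B, hS, hScard, hB1, hB2, hB3, hB4⟩ := h2 0 (m + 1) (heo_c n D m) G
    (fun _ => none) (fun j => by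
      have := heo_ge n D m hle j
      omega)
  have hSe : S = ∅ := Finset.card_eq_zero.mp hScard
  have hBinj : Function.Injective B := by
    intro j j' hjj
    by_contra hne
    exact (hB3 j j' hne).1 hjj
  refine ⟨Fin 0 ⊕ (Σ j : Fin (m + 1), Fin (heo_c n D m j)), inferInstance, glu (heo_c n D m) G
    (fun _ => none), Finset.univ.image B, ?_, ?_, ?_, ?_, ?_⟩
  · rw [Fintype.card_sum, Fintype.card_fin, zero_add, Fintype.card_sigma]
    simp only [Fintype.card_fin]
    exact heo_sum n D m hle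
  · rintro (a | u)
    · exact a.elim0
    · rw [hd u rfl]
      exact hG u.1 u.2
  · rw [Finset.card_image_of_injective _ hBinj, Finset.card_univ, Fintype.card_fin]
  · intro C hC
    obtain ⟨j, -, rfl⟩ := Finset.mem_image.mp hC
    refine ⟨?_, ?_⟩
    · rw [hB2 j]
      exact heo_odd n D m hD hle hpn j
    · intro v hv w hvw
      rcases (hB4 j v hv).2 w hvw with h | h
      · exact h
      · rw [hSe] at h
        exact absurd h (Finset.notMem_empty w)
  · intro C hC C' hC' hne
    obtain ⟨j, -, rfl⟩ := Finset.mem_image.mp hC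
    obtain ⟨j', -, rfl⟩ := Finset.mem_image.mp hC'
    exact (hB3 j j' (fun h => hne (by rw [h]))).2

end H467Aug
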