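import Pool.Agent.H467R2.Aug.DefsC

set_option autoImplicit false

namespace H467Aug

theorem hoo_sizes (n D s r : ℕ) (hD : Odd D) (h : (r + 1) * (D + 2) + s ≤ n)
    (hpar : (r + 1 + n + s) % 2 = 0) :
    ∃ c : Fin (r + 1) → ℕ, (∀ j, Odd (c j)) ∧ (∀ j, D + 2 ≤ c j) ∧ s + ∑ j, c j = n := by
  obtain ⟨d, rfl⟩ := hD
  have hr : (r + 1) * (2 * d + 1 + 2) = r * (2 * d + 1 + 2) + (2 * d + 1 + 2) := by ring
  obtain ⟨x, hx⟩ : ∃ x, x = r * (2 * d + 1 + 2) := ⟨_, rfl⟩
  have hx2 : x % 2 = r % 2 := by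
    rw [hx]
    have : r * (2 * d + 1 + 2) = r + 2 * (r * (d + 1)) := by ring
    omega
  rw [hr, ← hx] at h
  refine ⟨fun j => if (j : ℕ) = r then n - s - x else 2 * d + 1 + 2, ?_, ?_, ?_⟩
  · intro j
    dsimp only
    split_ifs with hj
    · rw [Nat.odd_iff]
      omega
    · exact ⟨d + 1, by ring⟩
  · intro j
    dsimp only
    split_ifs with hj
    · omega
    · exact le_rfl
  · rw [Fin.sum_univ_castSucc]
    have h1 : ∀ j : Fin r, (if ((Fin.castSucc j : Fin (r + 1)) : ℕ) = r then n - s - x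
        else 2 * d + 1 + 2) = 2 * d + 1 + 2 := by
      intro j
      have : ((Fin.castSucc j : Fin (r + 1)) : ℕ) ≠ r := by
        rw [Fin.val_castSucc]
        exact j.2.ne
      rw [if_neg this]
    have h2 : (if ((Fin.last r : Fin (r + 1)) : ℕ) = r then n - s - x
        else 2 * d + 1 + 2) = n - s - x := by
      rw [if_pos (Fin.val_last r)]
    rw [Finset.sum_congr rfl (fun j _ => h1 j), h2]
    simp only [Finset.sum_const, Finset.card_univ, Fintype.card_fin, smul_eq_mul]
    rw [← hx]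
    omega

/-- the slot numbers: odd, between `1` and `D`; the first `q` of them have sum `D s` -/
theorem hoo_slots (n D s q r : ℕ) (hD : Odd D) (hs : 1 ≤ s) (h1 : D * s < q + D)
    (h2 : q ≤ D * s) (hpar : (q + s) % 2 = 0) (hr : q + n % 2 = r) :
    ∃ k : Fin r → ℕ, (∀ j, Odd (k j)) ∧ (∀ j, k j ≤ D) ∧
      ∑ j : Fin r, (if (j : ℕ) < q then k j else 0) = D * s ∧
      ∑ j : Fin r, (if (j : ℕ) < q then 0 else k j) = n % 2 := by
  subst hr
  have hD1 : 1 ≤ D := hD.pos
  have hq : 1 ≤ q := by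
    have : D * 1 ≤ D * s := Nat.mul_le_mul_left D hs
    omega
  have hpar2 : (D * s) % 2 = s % 2 := by
    obtain ⟨d, rfl⟩ := hD
    have : (2 * d + 1) * s = s + 2 * (d * s) := by ring
    omega
  obtain ⟨q, rfl⟩ : ∃ q', q = q' + 1 := ⟨q - 1, by omega⟩
  refine ⟨fun j => if (j : ℕ) = q then D * s - q else 1, ?_, ?_, ?_, ?_⟩
  · intro j
    dsimp only
    split_ifs with hj
    · rw [Nat.odd_iff]
      omega
    · exact odd_one
  · intro j
    dsimp only
    split_ifs with hj
    · omega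
    · exact hD1
  · rw [Fin.sum_univ_eq_sum_range (fun j => if j < q + 1 then (if j = q then D * s - q else 1)
      else 0) (q + 1 + n % 2), Finset.sum_range_add]
    have e1 : ∑ x ∈ Finset.range (n % 2), (if q + 1 + x < q + 1 then
        (if q + 1 + x = q then D * s - q else 1) else 0) = 0 := by
      refine Finset.sum_eq_zero fun x _ => ?_
      rw [if_neg (by omega)]
    rw [e1, add_zero, Finset.sum_range_succ]
    have e2 : ∑ x ∈ Finset.range q, (if x < q + 1 then
        (if x = q then D * s - q else 1) else 0) = ∑ x ∈ Finset.range q, 1 := by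
      refine Finset.sum_congr rfl fun x hx => ?_
      have := Finset.mem_range.1 hx
      rw [if_pos (by omega), if_neg (by omega)]
    rw [e2, if_pos (by omega), if_pos rfl]
    simp only [Finset.sum_const, Finset.card_range, smul_eq_mul, mul_one]
    omega
  · rw [Fin.sum_univ_eq_sum_range (fun j => if j < q + 1 then 0
      else (if j = q then D * s - q else 1)) (q + 1 + n % 2), Finset.sum_range_add]
    have e1 : ∑ x ∈ Finset.range (q + 1), (if x < q + 1 then 0
        else (if x = q then D * s - q else 1)) = 0 := by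
      refine Finset.sum_eq_zero fun x hx => ?_
      rw [if_pos (Finset.mem_range.1 hx)]
    have e2 : ∑ x ∈ Finset.range (n % 2), (if q + 1 + x < q + 1 then 0
        else (if q + 1 + x = q then D * s - q else 1)) = ∑ x ∈ Finset.range (n % 2), 1 := by
      refine Finset.sum_congr rfl fun x hx => ?_
      rw [if_neg (by omega), if_neg (by omega)]
    rw [e1, e2]
    simp

theorem t_HOO (h1 : S_DEF) (h2 : S_GLU) (hB : S_BAS) : S_HOO := by
  classical
  intro n D s q hD hs hq1 hq2 hpar hle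
  have hD1 : 1 ≤ D := hD.pos
  have hq : 1 ≤ q := by
    have : D * 1 ≤ D * s := Nat.mul_le_mul_left D hs
    omega
  obtain ⟨r, hr⟩ : ∃ r, q + n % 2 = r + 1 := ⟨q + n % 2 - 1, by omega⟩
  rw [hr] at hle
  obtain ⟨c, hc1, hc2, hc3⟩ := hoo_sizes n D s r hD hle (by omega)
  obtain ⟨k, hk1, hk2, hk3, hk4⟩ := hoo_slots n D s q (r + 1) hD hs hq1 hq2 hpar hr
  have h3 : ∀ j, ∃ (G : SimpleGraph (Fin (c j))) (J : Finset (Fin (c j))), J.card = k j ∧
      (∀ v ∈ J, dg G v + 1 = D) ∧ (∀ v, v ∉ J → dg G v = D) :=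
    fun j => h1 (c j) D (k j) (hc1 j) hD (hk1 j) (hk2 j) (hc2 j)
  choose G J hJ hJ1 hJ2 using h3
  -- the slots
  obtain ⟨P, hP⟩ : ∃ P : Finset (Σ j : Fin (r + 1), Fin (c j)),
      P = Finset.univ.filter (fun u => (u.1 : ℕ) < q ∧ u.2 ∈ J u.1) := ⟨_, rfl⟩
  have hPmem : ∀ u, u ∈ P ↔ ((u.1 : ℕ) < q ∧ u.2 ∈ J u.1) := by
    intro u
    rw [hP, Finset.mem_filter]
    simp
  obtain ⟨Q, hQ⟩ : ∃ Q : Finset (Σ j : Fin (r + 1), Fin (c j)),
      Q = Finset.univ.filter (fun u => ¬ (u.1 : ℕ) < q ∧ u.2 ∈ J u.1) := ⟨_, rfl⟩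
  have hQmem : ∀ u, u ∈ Q ↔ (¬ (u.1 : ℕ) < q ∧ u.2 ∈ J u.1) := by
    intro u
    rw [hQ, Finset.mem_filter]
    simp
  have hPs : P = (Finset.univ : Finset (Fin (r + 1))).sigma
      (fun j => if (j : ℕ) < q then J j else ∅) := by
    ext ⟨j, v⟩
    rw [hPmem, Finset.mem_sigma]
    by_cases hj : (j : ℕ) < q
    · simp [hj]
    · simp [hj]
  have hQs : Q = (Finset.univ : Finset (Fin (r + 1))).sigma
      (fun j => if (j : ℕ) < q then ∅ else J j) := by
    ext ⟨j, v⟩
    rw [hQmem, Finset.mem_sigma]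
    by_cases hj : (j : ℕ) < q
    · simp [hj]
    · simp [hj]
  have hPc : P.card = D * s := by
    rw [hPs, Finset.card_sigma, ← hk3]
    refine Finset.sum_congr rfl fun j _ => ?_
    split_ifs with hj
    · exact hJ j
    · rfl
  have hQc : Q.card = n % 2 := by
    rw [hQs, Finset.card_sigma, ← hk4]
    refine Finset.sum_congr rfl fun j _ => ?_
    split_ifs with hj
    · rfl
    · exact hJ j
  obtain ⟨ψ⟩ : Nonempty ({u // u ∈ P} ≃ Fin s × Fin D) := by
    refine Fintype.card_eq.1 ?_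
    rw [Fintype.card_coe, hPc, Fintype.card_prod, Fintype.card_fin, Fintype.card_fin, mul_comm]
  obtain ⟨φ, hφ1, hφ2⟩ : ∃ φ : (Σ j : Fin (r + 1), Fin (c j)) → Option (Fin s),
      (∀ u (hu : u ∈ P), φ u = some (ψ ⟨u, hu⟩).1) ∧ (∀ u, u ∉ P → φ u = none) :=
    ⟨fun u => if hu : u ∈ P then some (ψ ⟨u, hu⟩).1 else none,
      fun u hu => dif_pos hu, fun u hu => dif_neg hu⟩
  obtain ⟨g1, g2, g3, g4, S, B, g5, g6, g7, g8, g9, g10⟩ :=
    h2 s (r + 1) c G φ (fun j => by have := hc2 j; omega)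
  have hdeg1 : ∀ a, dg (glu c G φ) (Sum.inl a) = D := by
    intro a
    rw [g1 a]
    have hset : {u | φ u = some a} = (fun i : Fin D => ((ψ.symm (a, i)) : _).1) '' Set.univ := by
      ext u
      rw [Set.mem_ofPred_eq, Set.image_univ, Set.mem_range]
      constructor
      · intro h
        by_cases hu : u ∈ P
        · rw [hφ1 u hu] at h
          refine ⟨(ψ ⟨u, hu⟩).2, ?_⟩
          have : (a, (ψ ⟨u, hu⟩).2) = ψ ⟨u, hu⟩ := by
            rw [← Option.some.inj h]
          rw [this, Equiv.symm_apply_apply]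
        · rw [hφ2 u hu] at h
          cases h
      · rintro ⟨i, rfl⟩
        rw [hφ1 _ (ψ.symm (a, i)).2]
        simp
    have hinj : Function.Injective (fun i : Fin D => ((ψ.symm (a, i)) : _).1) := by
      intro i i' h
      have h' := ψ.symm.injective (Subtype.ext h)
      exact (Prod.mk.inj h').2
    rw [hset, Set.ncard_image_of_injective _ hinj, Set.ncard_univ, Nat.card_eq_fintype_card,
      Fintype.card_fin]
  have hdeg2 : ∀ u, u ∉ Q → dg (glu c G φ) (Sum.inr u) = D := by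
    intro u hu
    rw [hQmem] at hu
    by_cases hu' : u ∈ P
    · rw [g3 u (by rw [hφ1 u hu']; exact Option.some_ne_none _)]
      exact hJ1 _ _ ((hPmem u).1 hu').2
    · rw [g2 u (hφ2 u hu')]
      rw [hPmem] at hu'
      exact hJ2 _ _ (fun h => by
        by_cases h' : (u.1 : ℕ) < q
        · exact hu' ⟨h', h⟩
        · exact hu ⟨h', h⟩)
  have hdeg3 : ∀ u, u ∈ Q → dg (glu c G φ) (Sum.inr u) + 1 = D := by
    intro u hu
    rw [hQmem] at hu
    have hu' : u ∉ P := by
      rw [hPmem]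
      exact fun h => hu.1 h.1
    rw [g2 u (hφ2 u hu')]
    exact hJ1 _ _ hu.2
  have hcard : Fintype.card (Fin s ⊕ (Σ j : Fin (r + 1), Fin (c j))) = n := by
    rw [Fintype.card_sum, Fintype.card_sigma]
    simp only [Fintype.card_fin]
    exact hc3
  have hcard2 : Fintype.card (Σ j : Fin (r + 1), Fin (c j)) + s = n := by
    rw [Fintype.card_sigma]
    simp only [Fintype.card_fin]
    omega
  have hsum := (hB (Fin s ⊕ (Σ j : Fin (r + 1), Fin (c j))) (glu c G φ)).2.2.2.1
  refine ⟨_, inferInstance, glu c G φ, S, Finset.univ.image B, hcard, ?_, ?_, g6, ?_, ?_, ?_⟩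
  · rintro (a | u)
    · exact (hdeg1 a).le
    · by_cases hu : u ∈ Q
      · have := hdeg3 u hu
        omega
      · exact (hdeg2 u hu).le
  · rw [← hsum, Fintype.sum_sum_type, Finset.sum_congr rfl (fun a _ => hdeg1 a)]
    have h6 : ∑ u, dg (glu c G φ) (Sum.inr u) + Q.card =
        D * Fintype.card (Σ j : Fin (r + 1), Fin (c j)) := by
      have e1 : ∀ u : (Σ j : Fin (r + 1), Fin (c j)),
          dg (glu c G φ) (Sum.inr u) + (if u ∈ Q then 1 else 0) = D := by
        intro u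
        by_cases hu : u ∈ Q
        · rw [if_pos hu]
          exact hdeg3 u hu
        · rw [if_neg hu]
          exact hdeg2 u hu
      have e2 : Q.card = ∑ u, (if u ∈ Q then 1 else 0) := by
        rw [Finset.sum_ite_mem, Finset.univ_inter, Finset.sum_const, smul_eq_mul, mul_one]
      rw [e2, ← Finset.sum_add_distrib, Finset.sum_congr rfl (fun u _ => e1 u),
        Finset.sum_const, Finset.card_univ, smul_eq_mul, mul_comm]
    rw [hQc] at h6
    rw [Finset.sum_const, Finset.card_univ, Fintype.card_fin, smul_eq_mul, add_assoc, h6,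
      ← hcard2]
    ring
  · rw [Finset.card_image_of_injOn, Finset.card_univ, Fintype.card_fin, hr]
    intro j _ j' _ h
    by_contra hne
    exact (g9 j j' hne).1 h
  · intro C hC
    obtain ⟨j, -, rfl⟩ := Finset.mem_image.1 hC
    exact ⟨by rw [g8 j]; exact hc1 j, g10 j⟩
  · intro C hC C' hC' hne
    obtain ⟨j, -, rfl⟩ := Finset.mem_image.1 hC
    obtain ⟨j', -, rfl⟩ := Finset.mem_image.1 hC'
    exact (g9 j j' (fun h => hne (by rw [h]))).2

end H467Aug
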