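import Pool.Agent.H467R2.Aug.DefsC

/-! Task LBD: the lower bound. -/

set_option autoImplicit false

namespace H467Aug

theorem lbd_ec {n b : ℕ} (hB : S_BAS) (H' : SimpleGraph (Fin n)) (h : ∀ v, dg H' v ≤ b) :
    2 * ec H' ≤ n * b := by
  obtain ⟨-, -, -, h4, -⟩ := hB (Fin n) H'
  rw [← h4]
  calc ∑ v, dg H' v ≤ ∑ _v : Fin n, b := Finset.sum_le_sum fun v _ => h v
    _ = n * b := by simp

/-- no correction -/
theorem lbd_zero {n D b : ℕ} (h1 : S_REG) (hB : S_BAS) (hb : b < D) (hD : D < n)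
    (hg : gg n D b = 0) : ∃ H : SimpleGraph (Fin n),
    (∀ v, dg H v ≤ D) ∧ ∀ H' : SimpleGraph (Fin n), H' ≤ H → (∀ v, dg H' v ≤ b) →
      ec H' + val n D b ≤ ec H := by
  obtain ⟨H, hH, hE⟩ := h1 n D hD
  refine ⟨H, hH, fun H' _ hH' => ?_⟩
  have h2 := lbd_ec hB H' hH'
  unfold val
  rw [hg, hE]
  unfold fl
  have h3 : n * b ≤ n * D := Nat.mul_le_mul_left _ hb.le
  omega

/-- from the doubled inequality -/
theorem lbd_of {n D b x y : ℕ} {H : SimpleGraph (Fin n)} (h : Lw H D b x y)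
    (hv : 2 * val n D b + y ≤ x) :
    (∀ v, dg H v ≤ D) ∧ ∀ H' : SimpleGraph (Fin n), H' ≤ H → (∀ v, dg H' v ≤ b) →
      ec H' + val n D b ≤ ec H := by
  refine ⟨h.1, fun H' h1 h2 => ?_⟩
  have := h.2 H' h1 h2
  omega

theorem t_LBD (h1 : S_REG) (h2 : S_LEO) (h3 : S_LOO) (h4 : S_LOE) (h5 : S_ATT) (h6 : S_VAL)
    (hB : S_BAS) : S_LBD := by
  intro n D b hb hD
  obtain ⟨v1, v2, v3, v4⟩ := h6 n D b hb hD
  rcases Nat.even_or_odd D with hDe | hDo
  · rcases Nat.even_or_odd b with hbe | hbo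
    · apply lbd_zero h1 hB hb hD
      unfold gg
      rw [if_pos hDe, if_pos hbe]
    · have hv := v2 hDe hbo
      obtain ⟨m, hm⟩ : ∃ m, m = n / (D + 1) := ⟨_, rfl⟩
      rw [← hm] at hv
      obtain ⟨p, hp⟩ : ∃ p, p = m - (m + n) % 2 := ⟨_, rfl⟩
      rw [← hp] at hv
      have hm1 : 1 ≤ m := by
        rw [hm]
        exact (Nat.one_le_div_iff (by omega)).2 hD
      have hm2 : m * (D + 1) ≤ n := by
        rw [hm]
        exact Nat.div_mul_le_self _ _
      rcases Nat.eq_zero_or_pos p with hp0 | hp0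
      · obtain ⟨H, hH, hE⟩ := h1 n D hD
        refine ⟨H, hH, fun H' _ hH' => ?_⟩
        have h7 := lbd_ec hB H' hH'
        rw [hE]
        unfold fl
        have h8 : n * (D - b) + n * b = n * D := by
          rw [← Nat.mul_add, Nat.sub_add_cancel hb.le]
        omega
      · obtain ⟨H, hH⟩ := h2 n D b p hb hDe hbo hD hp0 (by omega)
          ((Nat.mul_le_mul_right _ (by omega)).trans hm2)
        exact ⟨H, lbd_of hH (by omega)⟩
  · rcases Nat.even_or_odd b with hbe | hbo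
    · have hv := v4 hDo hbe
      rcases Nat.eq_zero_or_pos (gOE n D b) with hg | hg
      · apply lbd_zero h1 hB hb hD
        unfold gg
        rw [if_neg (Nat.not_even_iff_odd.2 hDo), if_neg (Nat.not_odd_iff_even.2 hbe), hg]
      · have hne : (Finset.range n).Nonempty := ⟨0, Finset.mem_range.2 (by omega)⟩
        obtain ⟨t, ht, ht'⟩ := Finset.exists_mem_eq_sup (Finset.range n) hne
          (fun t => qQ n D (t + 1) + n % 2 - (D - b) * (t + 1))
        have hg' : gOE n D b = qQ n D (t + 1) + n % 2 - (D - b) * (t + 1) := ht'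
        rw [Finset.mem_range] at ht
        obtain ⟨N, hN⟩ : ∃ N, N = qQ n D (t + 1) := ⟨_, rfl⟩
        rw [← hN] at hg'
        have h7 : 1 ≤ (D - b) * (t + 1) := Nat.mul_pos (by omega) (by omega)
        obtain ⟨c, hc⟩ : ∃ c, c = (D - b) * (t + 1) := ⟨_, rfl⟩
        rw [← hc] at hg' h7
        have hN1 : 1 ≤ N := by omega
        unfold qQ at hN
        obtain ⟨M, hM⟩ : ∃ M, M = min ((n - (t + 1)) / (D + 2)) (D * (t + 1)) := ⟨_, rfl⟩
        rw [← hM] at hN
        have hM1 : M ≤ D * (t + 1) := hM ▸ min_le_right _ _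
        have hM2 : M ≤ (n - (t + 1)) / (D + 2) := hM ▸ min_le_left _ _
        have hM3 : M * (D + 2) ≤ n - (t + 1) :=
          (Nat.mul_le_mul_right _ hM2).trans (Nat.div_mul_le_self _ _)
        have hNM : N ≤ M := by omega
        have hM4 : N * (D + 2) ≤ M * (D + 2) := Nat.mul_le_mul_right _ hNM
        obtain ⟨H, hH⟩ := h4 n D b (t + 1) N hb hDo hbe (by omega) hN1 (by omega) (by omega)
          (by omega)
        rw [← hc] at hH
        exact ⟨H, lbd_of hH (by omega)⟩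
    · have hv := v3 hDo hbo
      rcases Nat.eq_zero_or_pos (gOO n D b) with hg | hg
      · apply lbd_zero h1 hB hb hD
        unfold gg
        rw [if_neg (Nat.not_even_iff_odd.2 hDo), if_pos hbo, hg]
      · obtain ⟨s, q, a1, a2, a3, a4, a5, a6⟩ := h5 n D b hb hD hDo hbo hg
        obtain ⟨H, hH⟩ := h3 n D b s q hb hDo hbo a1 a2 a3 a4 a5
        exact ⟨H, lbd_of hH (by omega)⟩

end H467Aug
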