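import Pool.Agent.H467R2.Aug.DefsC

set_option autoImplicit false

/-! Task LEO: lower bound, `D` even and `b` odd. -/

namespace H467Aug

theorem t_LEO (h1 : S_HEO) (h2 : S_BLO) (h3 : S_TR) (hB : S_BAS) : S_LEO := by
  intro n D b p hb hD hbo hDn hp hpn hpD
  obtain ⟨V, hVf, H, F, hV, hdeg, hF, hC, hdis⟩ := h1 n D p hD hDn hp hpn hpD
  subst hV
  refine h3 V H D b _ _ ⟨fun v => (hdeg v).le, ?_⟩
  intro H' hH' hd
  have e1 := h2 V H' b ∅ F hbo hd (by
    intro C hCF
    refine ⟨(hC C hCF).1, fun v hv => ⟨by simp, fun w hw => Or.inl ?_⟩⟩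
    exact (hC C hCF).2 v hv w (hH' hw)) hdis
  have e2 := (hB V H).2.2.2.1
  simp only [hdeg, Finset.sum_const, Finset.card_univ, smul_eq_mul] at e2
  rw [hF, Finset.card_empty, Nat.mul_zero, Nat.add_zero] at e1
  have e3 : b * Fintype.card V + Fintype.card V * (D - b) = Fintype.card V * D := by
    rw [Nat.mul_comm b, ← Nat.mul_add]
    congr 1
    omega
  omega

end H467Aug
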