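import Pool.Agent.H467R2.Aug.DefsC

set_option autoImplicit false

namespace H467Aug

theorem t_LOE (h1 : S_HOE) (h2 : S_BLE) (h3 : S_TR) : S_LOE := by
  classical
  intro n D b t N hbD hD hb ht hN hNt hpar hsize
  obtain ⟨V, iV, H, T, F, hcard, hdg, hec, hT, hF1, hF2, hF3, hT2, hF4⟩ :=
    h1 n D t N hD ht hN hNt hpar hsize
  subst hcard
  apply h3 V H D b
  refine ⟨hdg, fun H' hle hdg' => ?_⟩
  have h4 := h2 V H' b T F hb hdg'
    (fun C hC v hv => ⟨(hF1 C hC v hv).1, fun w hw => (hF1 C hC v hv).2 w (hle hw)⟩)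
    hF2 hF3 (fun v hv w hw hvw => hT2 v hv w hw (hle hvw))
    (by
      intro C hC
      refine le_trans ?_ (hF4 C hC)
      unfold eb
      refine Set.ncard_le_ncard ?_ (Set.toFinite _)
      intro p hp
      exact ⟨hle hp.1, hp.2⟩)
  rw [hT] at h4
  obtain ⟨d, rfl⟩ : ∃ d, D = b + d := ⟨D - b, by omega⟩
  have e0 : b + d - b = d := by omega
  rw [e0]
  have e1 : (b + d) * t = b * t + d * t := by ring
  have e2 : Fintype.card V * (b + d) = b * Fintype.card V + Fintype.card V * d := by ring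
  rw [e1, e2] at hec
  linarith

end H467Aug
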