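import Pool.Agent.H467R2.Aug.DefsC

set_option autoImplicit false

namespace H467Aug

/-- LOO: lower bound, `D` odd and `b` odd. -/
theorem t_LOO (h1 : S_HOO) (h2 : S_BLO) (h3 : S_TR) : S_LOO := by
  intro n D b s q hbD hD hb hs hq1 hq2 hpar hn
  obtain ⟨V, iV, H, S, F, hV, hdeg, hec, hS, hF, hcl, hdis⟩ := h1 n D s q hD hs hq1 hq2 hpar hn
  have hLw : Lw H D b (n * (D - b) + q) (b * s) := by
    refine ⟨hdeg, fun H' hH' hd => ?_⟩
    have h4 := h2 V H' b S F hb hd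
      (fun C hC => ⟨(hcl C hC).1, fun v hv => ⟨((hcl C hC).2 v hv).1, fun w hw =>
        ((hcl C hC).2 v hv).2 w (hH' hw)⟩⟩) hdis
    rw [hV, hS, hF] at h4
    obtain ⟨c, rfl⟩ := Nat.exists_eq_add_of_le hbD.le
    rw [Nat.add_sub_cancel_left]
    rw [Nat.mul_add, Nat.mul_comm n b] at hec
    omega
  have h5 := h3 V H D b _ _ hLw
  rw [hV] at h5
  exact h5

end H467Aug
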