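import Pool.Agent.H467R2.Aug.DefsC

/-!
# The min-max theorem (task MM)
-/

set_option autoImplicit false

namespace H467Aug

theorem t_MM (h1 : S_VIO) (h2 : S_CLEAN) (h3 : S_GPM) (h4 : S_GCARD) (h5 : S_GOA0) (h6 : S_GOA)
    (h7 : S_GB1) (h8 : S_GB2) : S_MM := by
  intro V _ H b z hev
  classical
  by_cases hpm : PM (gad H b z)
  · exact Or.inl (h3 V H b z hpm)
  · right
    have hcard : Even (Nat.card (GW H b z)) := by
      rw [h4, add_assoc]
      exact (even_two_mul _).add hev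
    obtain ⟨X, F, hCF, hX, hT⟩ := h2 _ _ hcard (h1 _ _ hcard hpm)
    have hd := h5 V H b z X F hCF hX
    have hStr := h6 V H b z X F hCF hT hd
    obtain ⟨S, hS⟩ : ∃ S : Finset V, ∀ v, v ∈ S ↔
        ∃ p : {p : V × V // H.Adj p.1 p.2}, p.1.1 = v ∧ Sum.inl p ∈ X :=
      ⟨Finset.univ.filter fun v => ∃ p : {p : V × V // H.Adj p.1 p.2}, p.1.1 = v ∧ Sum.inl p ∈ X,
        fun v => by simp only [Finset.mem_filter, Finset.mem_univ, true_and]⟩
    obtain ⟨T, hTT⟩ : ∃ T : Finset V, ∀ v, v ∈ T ↔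
        v ∉ S ∧ ∀ i : Fin (dg H v - b), Sum.inr (Sum.inl ⟨v, i⟩) ∈ X :=
      ⟨Finset.univ.filter fun v => v ∉ S ∧ ∀ i : Fin (dg H v - b), Sum.inr (Sum.inl ⟨v, i⟩) ∈ X,
        fun v => by simp only [Finset.mem_filter, Finset.mem_univ, true_and]⟩
    have hST : ST H b z X S T := ⟨hS, hTT⟩
    have g1 := h7 V H b z X S T hStr hST
    obtain ⟨F', k1, k2, k3⟩ := h8 V H b z X F S T hCF hStr hST
    have hb : ∀ v ∈ S, b < dg H v := by
      intro v hv
      obtain ⟨p, hp1, hp2⟩ := (hS v).1 hv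
      rw [← hp1]
      exact (hStr.2.1 p hp2).1
    refine ⟨S, T, F', ?_, hb, k1, k2, ?_⟩
    · intro v hv hv'
      exact ((hTT v).1 hv').1 hv
    · have e : ∑ v ∈ S, dg H v = ∑ v ∈ S, (dg H v - b) + b * S.card := by
        rw [mul_comm b, ← smul_eq_mul, ← Finset.sum_const, ← Finset.sum_add_distrib]
        exact Finset.sum_congr rfl fun v hv => by have := hb v hv; omega
      rw [e] at g1
      omega

end H467Aug
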