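import Pool.Agent.H467R2.Aug.DefsC

/-!
# MP_30a809_co: REG, almost regular graphs
-/

set_option autoImplicit false

namespace H467Aug

/-- REG: almost regular graphs. -/
theorem t_REG (h1 : S_RED2) (hB : S_BAS) : S_REG := by
  intro c D hDc
  have hbot : ∀ v : Fin c, dg (⊥ : SimpleGraph (Fin c)) v = 0 := by
    intro v
    simp [dg]
  have hecbot : ec (⊥ : SimpleGraph (Fin c)) = 0 := by
    simp [ec]
  obtain ⟨-, -, b3, b4, b5, -⟩ := hB (Fin c) (⊥ : SimpleGraph (Fin c))
  rw [compl_bot] at b5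
  simp only [compl_bot, Fintype.card_fin] at b3 b5
  have htop : ∀ v : Fin c, dg (⊤ : SimpleGraph (Fin c)) v ≤ c - 1 := by
    intro v
    have h := b3 v
    omega
  obtain ⟨H', -, hd, he⟩ := h1 (Fin c) ⊤ (c - 1) D (by omega) htop
    (Or.inl (by rw [Fintype.card_fin]; left; omega))
  rw [Fintype.card_fin] at he
  refine ⟨H', hd, ?_⟩
  obtain ⟨-, -, -, b4', -⟩ := hB (Fin c) H'
  have hsum : ∑ v, dg H' v ≤ c * D := by
    calc ∑ v, dg H' v ≤ ∑ _v : Fin c, D := Finset.sum_le_sum fun v _ => hd v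
      _ = c * D := by simp
  have hfl : fl c (c - 1) = c * (c - 1) / 2 := rfl
  have hfl' : fl c D = c * D / 2 := rfl
  omega

end H467Aug
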