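import Pool.Agent.H467R2.Aug.DefsC

/-! TR: transport of lower bounds to `Fin n` (helper844). -/

set_option autoImplicit false

namespace H467Aug

theorem tr_dg {V W : Type} (e : V ≃ W) (K : SimpleGraph V) (x : W) :
    dg (K.comap e.symm) x = dg K (e.symm x) := by
  unfold dg
  have h : {w | (K.comap e.symm).Adj x w} = e '' {w | K.Adj (e.symm x) w} := by
    ext w
    simp only [Set.mem_setOf_eq, SimpleGraph.comap_adj, Set.mem_image]
    constructor
    · intro h
      exact ⟨e.symm w, h, e.apply_symm_apply w⟩
    · rintro ⟨v, hv, rfl⟩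
      rw [e.symm_apply_apply]
      exact hv
  rw [h]
  exact Set.ncard_image_of_injective _ e.injective

theorem tr_ec {V W : Type} (e : V ≃ W) (K : SimpleGraph V) :
    ec (K.comap e.symm) = ec K := by
  unfold ec
  have i : K.comap e.symm ≃g K := SimpleGraph.Iso.comap e.symm K
  rw [← Nat.card_coe_set_eq, ← Nat.card_coe_set_eq]
  exact Nat.card_congr i.mapEdgeSet

theorem tr_TR : S_TR := by
  intro V _ H D b x y hL
  have e : V ≃ Fin (Fintype.card V) := Fintype.equivFin V
  refine ⟨H.comap e.symm, ⟨fun v => ?_, fun H' hle hb => ?_⟩⟩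
  · rw [tr_dg]
    exact hL.1 _
  · have hH : H'.comap e ≤ H := by
      intro v w hvw
      have h1 : H'.Adj (e v) (e w) := hvw
      have h2 := hle h1
      have h3 : H.Adj (e.symm (e v)) (e.symm (e w)) := h2
      rwa [e.symm_apply_apply, e.symm_apply_apply] at h3
    have hd : ∀ v, dg (H'.comap e) v ≤ b := by
      intro v
      have := tr_dg e.symm H' v
      rw [Equiv.symm_symm] at this
      rw [this]
      exact hb _
    have h4 := hL.2 _ hH hd
    have h5 : ec (H'.comap e) = ec H' := by
      have := tr_ec e.symm H'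
      rwa [Equiv.symm_symm] at this
    rw [h5] at h4
    rw [tr_ec]
    exact h4

end H467Aug
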