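import Pool.Agent.H467R2.Aug.DefsC

/-! # UBD: the upper bound -/

set_option autoImplicit false

namespace H467Aug

theorem ubd_W_le {V : Type} [Fintype V] (H : SimpleGraph V) (D b : ℕ)
    (hd : ∀ v, dg H v ≤ D) : ∑ v, (dg H v - b) ≤ Fintype.card V * (D - b) := by
  have h : ∑ v, (dg H v - b) ≤ ∑ _v : V, (D - b) :=
    Finset.sum_le_sum fun v _ => Nat.sub_le_sub_right (hd v) b
  simpa [Finset.sum_const, Finset.card_univ, smul_eq_mul] using h

theorem ubd_W_lt {V : Type} [Fintype V] (H : SimpleGraph V) (D b : ℕ) (hb : b < D)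
    (hd : ∀ v, dg H v ≤ D) (v₀ : V) (hv : dg H v₀ < D) :
    ∑ v, (dg H v - b) + 1 ≤ Fintype.card V * (D - b) := by
  have h : ∑ v, (dg H v - b) < ∑ _v : V, (D - b) := by
    apply Finset.sum_lt_sum
    · intro v _
      exact Nat.sub_le_sub_right (hd v) b
    · exact ⟨v₀, Finset.mem_univ _, by omega⟩
  have h2 : ∑ _v : V, (D - b) = Fintype.card V * (D - b) := by
    simp [Finset.sum_const, Finset.card_univ, smul_eq_mul]
  omega

theorem ubd_exists_lt {V : Type} [Fintype V] (H : SimpleGraph V) (D : ℕ) (hB : S_BAS)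
    (hD : Odd D) (hn : Odd (Fintype.card V)) (hd : ∀ v, dg H v ≤ D) : ∃ v, dg H v < D := by
  by_contra hcon
  push Not at hcon
  have hsum : ∑ v, dg H v = 2 * ec H := (hB V H).2.2.2.1
  have h1 : ∑ v, dg H v = Fintype.card V * D := by
    have : ∀ v, dg H v = D := fun v => le_antisymm (hd v) (hcon v)
    simp [this, Finset.sum_const, Finset.card_univ, smul_eq_mul]
  have h2 : Odd (Fintype.card V * D) := hn.mul hD
  rw [← h1, hsum] at h2
  exact (Nat.not_odd_iff_even.2 (even_two_mul _)) h2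

/-- the reduction to the min-max theorem -/
theorem ubd_red {V : Type} [Fintype V] (H : SimpleGraph V) (D b X Y : ℕ) (h2 : S_MM)
    (h3 : S_CNT) (hb : b < D) (hd : ∀ v, dg H v ≤ D)
    (hval : 2 * val (Fintype.card V) D b + Y = Fintype.card V * (D - b) + X)
    (hW : ∑ v, (dg H v - b) ≤ 2 * val (Fintype.card V) D b)
    (hno : ∀ (F : Finset (Finset V)) (c e f m i : Finset V → ℕ) (s t mS mT m0 m1 : ℕ),
      ¬ Num (Fintype.card V) D b X Y F c e f m i s t mS mT m0 m1) :
    ∃ H' : SimpleGraph V, H' ≤ H ∧ (∀ v, dg H' v ≤ b) ∧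
      ec H ≤ ec H' + val (Fintype.card V) D b := by
  set W := ∑ v, (dg H v - b) with hWdef
  set z := 2 * val (Fintype.card V) D b - W with hz
  have hWz : W + z = 2 * val (Fintype.card V) D b := by omega
  have hev : Even (∑ v, (dg H v - b) + z) := by
    rw [← hWdef, hWz]; exact even_two_mul _
  rcases h2 V H b z hev with ⟨H', hle, hdg, hec⟩ | hobs
  · refine ⟨H', hle, hdg, ?_⟩
    rw [← hWdef] at hec
    omega
  · exfalso
    obtain ⟨F, c, e, f, m, i, s, t, mS, mT, m0, m1, hnum⟩ :=
      h3 V H D b z X Y hd hb (by rw [← hWdef]; omega) hobs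
    exact hno F c e f m i s t mS mT m0 m1 hnum

theorem t_UBD (h1 : S_RED2) (h2 : S_MM) (h3 : S_CNT) (h4 : S_AEO) (h5 : S_AOO) (h6 : S_AOE)
    (h7 : S_VAL) (hB : S_BAS) : S_UBD := by
  intro V _ H D b hb hDn hd
  obtain ⟨v1, v2, v3, v4⟩ := h7 (Fintype.card V) D b hb hDn
  have hWle := ubd_W_le H D b hd
  rcases Nat.even_or_odd D with hD | hD
  · rcases Nat.even_or_odd b with hbe | hbo
    · obtain ⟨H', hle, hdg, hec⟩ := h1 V H D b hb.le hd (Or.inr (Or.inl ⟨hD, hbe⟩))
      refine ⟨H', hle, hdg, ?_⟩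
      have hgg : gg (Fintype.card V) D b = 0 := by
        unfold gg
        rw [if_pos hD, if_pos hbe]
      unfold val
      rw [hgg]
      omega
    · have hv := v2 hD hbo
      refine ubd_red H D b _ 0 h2 h3 hb hd (by rw [add_zero]; exact hv) (by omega) ?_
      intro F c e f m i s t mS mT m0 m1
      exact h4 (Fintype.card V) D b (Finset V) F c e f m i s t mS mT m0 m1 hb hDn hD hbo
  · rcases Nat.even_or_odd b with hbe | hbo
    · have hv := v4 hD hbe
      refine ubd_red H D b _ _ h2 h3 hb hd hv ?_ ?_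
      · rcases Nat.even_or_odd (Fintype.card V) with hne | hno
        · have : Fintype.card V % 2 = 0 := Nat.even_iff.1 hne
          omega
        · have : Fintype.card V % 2 = 1 := Nat.odd_iff.1 hno
          obtain ⟨v₀, hv₀⟩ := ubd_exists_lt H D hB hD hno hd
          have := ubd_W_lt H D b hb hd v₀ hv₀
          omega
      · intro F c e f m i s t mS mT m0 m1
        exact h6 (Fintype.card V) D b (Finset V) F c e f m i s t mS mT m0 m1 hb hDn hD hbe
    · have hv := v3 hD hbo
      refine ubd_red H D b _ 0 h2 h3 hb hd (by rw [add_zero]; exact hv) (by omega) ?_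
      intro F c e f m i s t mS mT m0 m1
      exact h5 (Fintype.card V) D b (Finset V) F c e f m i s t mS mT m0 m1 hb hDn hD hbo

end H467Aug
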