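import Pool.Agent.H467R2.Aug.DefsC

set_option autoImplicit false

namespace H467Aug

theorem val_sup_even (s : Finset ℕ) (f : ℕ → ℕ) (h : ∀ x ∈ s, f x % 2 = 0) :
    (s.sup f) % 2 = 0 := by
  refine Finset.sup_induction (p := fun m => m % 2 = 0) rfl ?_ h
  intro a ha b hb
  rcases le_total a b with h | h
  · rwa [sup_eq_right.mpr h]
  · rwa [sup_eq_left.mpr h]

theorem val_pP (n D s : ℕ) : pP n D s = 0 ∨ pP n D s % 2 = s % 2 := by
  unfold pP
  generalize (n - s) / (D + 2) - n % 2 = X
  omega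

theorem val_qQ (n D t : ℕ) : qQ n D t = 0 ∨ qQ n D t % 2 = (n + t) % 2 := by
  unfold qQ
  generalize min ((n - t) / (D + 2)) (D * t) = X
  omega

theorem t_VAL : S_VAL := by
  classical
  intro n D b hb hD
  refine ⟨fun h1 h2 => ?_, fun h1 h2 => ?_, fun h1 h2 => ?_, fun h1 h2 => ?_⟩
  · obtain ⟨a, rfl⟩ := h1
    obtain ⟨c, rfl⟩ := h2
    have hg : gg n (a + a) (c + c) = 0 := by
      unfold gg
      rw [if_pos ⟨a, rfl⟩, if_pos ⟨c, rfl⟩]
    unfold val fl
    rw [hg]
    have e1 : n * (a + a) = 2 * (n * a) := by ring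
    have e2 : n * (c + c) = 2 * (n * c) := by ring
    have e3 : n * (a + a - (c + c)) = 2 * (n * a) - 2 * (n * c) := by
      rw [Nat.mul_sub, e1, e2]
    have e4 : n * c ≤ n * a := Nat.mul_le_mul_left _ (by omega)
    rw [e1, e2, e3]
    omega
  · obtain ⟨a, rfl⟩ := h1
    obtain ⟨c, rfl⟩ := h2
    have hnb : ¬ Even (2 * c + 1) := by
      rw [Nat.not_even_iff_odd]
      exact ⟨c, rfl⟩
    have hg : gg n (a + a) (2 * c + 1) = gEO n (a + a) := by
      unfold gg
      rw [if_pos ⟨a, rfl⟩, if_neg hnb]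
    unfold val fl
    rw [hg]
    unfold gEO
    have hq : 1 ≤ n / (a + a + 1) := (Nat.one_le_div_iff (by omega)).mpr (by omega)
    generalize n / (a + a + 1) = X at *
    have e1 : n * (a + a) = 2 * (n * a) := by ring
    have e2 : n * (2 * c + 1) = 2 * (n * c) + n := by ring
    have e3 : n * (a + a - (2 * c + 1)) = 2 * (n * a) - (2 * (n * c) + n) := by
      rw [Nat.mul_sub, e1, e2]
    have e4 : n * (c + 1) ≤ n * a := Nat.mul_le_mul_left _ (by omega)
    rw [mul_add, mul_one] at e4
    rw [e1, e2, e3]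
    omega
  · have hne : ¬ Even D := by rwa [Nat.not_even_iff_odd]
    have hg : gg n D b = gOO n D b := by
      unfold gg
      rw [if_neg hne, if_pos h2]
    have hev : gOO n D b % 2 = 0 := by
      unfold gOO
      refine val_sup_even _ _ (fun s _ => ?_)
      have := val_pP n D s
      obtain ⟨a, rfl⟩ := h1
      obtain ⟨c, rfl⟩ := h2
      have e1 : (2 * a + 1) * s = 2 * (a * s) + s := by ring
      have e2 : (2 * c + 1) * s = 2 * (c * s) + s := by ring
      rw [e1, e2]
      generalize pP n (2 * a + 1) s = X at *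
      omega
    unfold val fl
    rw [hg]
    generalize gOO n D b = G at *
    obtain ⟨a, rfl⟩ := h1
    obtain ⟨c, rfl⟩ := h2
    have e1 : n * (2 * a + 1) = 2 * (n * a) + n := by ring
    have e2 : n * (2 * c + 1) = 2 * (n * c) + n := by ring
    have e3 : n * (2 * a + 1 - (2 * c + 1)) = (2 * (n * a) + n) - (2 * (n * c) + n) := by
      rw [Nat.mul_sub, e1, e2]
    have e4 : n * c ≤ n * a := Nat.mul_le_mul_left _ (by omega)
    rw [e1, e2, e3]
    omega
  · have hne : ¬ Even D := by rwa [Nat.not_even_iff_odd]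
    have hno : ¬ Odd b := by rwa [Nat.not_odd_iff_even]
    have hg : gg n D b = gOE n D b := by
      unfold gg
      rw [if_neg hne, if_neg hno]
    have hev : gOE n D b % 2 = 0 := by
      unfold gOE
      refine val_sup_even _ _ (fun t _ => ?_)
      have := val_qQ n D (t + 1)
      obtain ⟨a, rfl⟩ := h1
      obtain ⟨c, rfl⟩ := h2
      have e0 : 2 * a + 1 - (c + c) = 2 * (a - c) + 1 := by omega
      have e1 : (2 * a + 1 - (c + c)) * (t + 1) = 2 * ((a - c) * (t + 1)) + (t + 1) := by
        rw [e0]; ring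
      rw [e1]
      generalize qQ n (2 * a + 1) (t + 1) = X at *
      generalize (a - c) * (t + 1) = Y at *
      omega
    unfold val fl
    rw [hg]
    generalize gOE n D b = G at *
    obtain ⟨a, rfl⟩ := h1
    obtain ⟨c, rfl⟩ := h2
    have e1 : n * (2 * a + 1) = 2 * (n * a) + n := by ring
    have e2 : n * (c + c) = 2 * (n * c) := by ring
    have e3 : n * (2 * a + 1 - (c + c)) = (2 * (n * a) + n) - 2 * (n * c) := by
      rw [Nat.mul_sub, e1, e2]
    have e4 : n * c ≤ n * a := Nat.mul_le_mul_left _ (by omega)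
    rw [e1, e2, e3]
    omega

end H467Aug
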