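import Pool.Agent.H467R2.Aug.DefsC

/-!
# MP_30a809_co, task VIO: Tutte's theorem with parity
-/

set_option autoImplicit false

namespace H467Aug

open SimpleGraph

theorem t_VIO : S_VIO := by
  classical
  intro W _ Γ hev hno
  haveI : Fintype W := Fintype.ofFinite W
  have hT : ∃ T : Set W, Γ.IsTutteViolator T := by
    by_contra hcon
    push Not at hcon
    obtain ⟨M, hM⟩ := SimpleGraph.tutte.2 hcon
    apply hno
    refine ⟨{ Adj := fun u v => M.Adj u v
              symm := ⟨fun u v h => h.symm⟩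
              loopless := ⟨fun u h => Γ.loopless.irrefl u (M.adj_sub h)⟩ }, ?_, ?_, ?_⟩
    · intro u v w h1 h2
      have h3 := hM.1 (SimpleGraph.Subgraph.Adj.fst_mem h1)
      exact h3.unique h1 h2
    · intro u v h
      exact M.adj_sub h
    · intro v
      obtain ⟨w, hw, _⟩ := hM.1 (hM.2 v)
      exact ⟨w, hw⟩
  obtain ⟨T, hT⟩ := hT
  unfold SimpleGraph.IsTutteViolator at hT
  set K := ((⊤ : Γ.Subgraph).deleteVerts T) with hK
  set G' := K.coe with hG'
  have hmem : ∀ x : W, x ∈ K.verts ↔ x ∉ T := by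
    intro x
    simp [hK]
  have hadj : ∀ x y : K.verts, G'.Adj x y ↔ Γ.Adj x.1 y.1 := by
    intro x y
    have hx := (hmem x.1).1 x.2
    have hy := (hmem y.1).1 y.2
    have h1 : K.Adj x.1 y.1 ↔ Γ.Adj x.1 y.1 := by
      have h2 := SimpleGraph.Subgraph.deleteVerts_adj (G' := (⊤ : Γ.Subgraph)) (s := T)
        (u := x.1) (v := y.1)
      simp only [hx, hy, not_false_eq_true, true_and, SimpleGraph.Subgraph.verts_top,
        Set.mem_univ, SimpleGraph.Subgraph.top_adj] at h2
      exact h2
    exact h1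
  have hcard : Nat.card K.verts + T.ncard = Nat.card W := by
    have h1 : K.verts = Tᶜ := by
      ext x; rw [hmem]; rfl
    have h2 := Set.ncard_add_ncard_compl T
    rw [Nat.card_coe_set_eq, h1]
    omega
  have hpar := SimpleGraph.odd_ncard_oddComponents (G := G')
  have h2 : T.ncard + 2 ≤ G'.oddComponents.ncard := by
    by_contra hcon
    have h3 : G'.oddComponents.ncard = T.ncard + 1 := by omega
    rw [h3] at hpar
    rw [Nat.odd_iff, Nat.odd_iff] at hpar
    obtain ⟨r, hr⟩ := hev
    omega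
  let g : G'.ConnectedComponent → Set W := fun c =>
    {v | ∃ h : v ∈ K.verts, G'.connectedComponentMk ⟨v, h⟩ = c}
  have hginj : Function.Injective g := by
    intro c c' heq
    obtain ⟨x, hx⟩ := c.exists_rep
    have hv : x.1 ∈ g c := ⟨x.2, hx⟩
    have hv' : x.1 ∈ g c' := heq ▸ hv
    obtain ⟨h2, h2'⟩ := hv'
    exact hx.symm.trans h2'
  have hgcard : ∀ c, (g c).ncard = c.supp.ncard := by
    intro c
    have h1 : (fun x : K.verts => x.1) '' c.supp = g c := by
      ext x
      constructor
      · rintro ⟨z, hz, rfl⟩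
        exact ⟨z.2, hz⟩
      · rintro ⟨h, hv⟩
        exact ⟨⟨x, h⟩, hv, rfl⟩
    rw [← h1, Set.ncard_image_of_injective _ Subtype.val_injective]
  let F : Finset (Set W) := (G'.oddComponents.toFinite.toFinset).image g
  have hFcard : F.card = G'.oddComponents.ncard := by
    rw [Finset.card_image_of_injective _ hginj, Set.ncard_eq_toFinset_card _ (Set.toFinite _)]
  refine ⟨T, F, ⟨?_, ?_⟩, by omega⟩
  · intro C hC
    obtain ⟨c, hc, rfl⟩ := Finset.mem_image.1 hC
    rw [Set.Finite.mem_toFinset] at hc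
    refine ⟨?_, ?_, ?_⟩
    · rw [Set.disjoint_left]
      rintro v ⟨h, hv⟩ hvT
      exact (hmem _).1 h hvT
    · rw [hgcard c]
      exact hc
    · rintro v ⟨h, hv⟩ w hvw
      by_cases hw : w ∈ T
      · exact Or.inr hw
      · left
        refine ⟨(hmem _).2 hw, ?_⟩
        rw [← hv]
        apply SimpleGraph.ConnectedComponent.sound
        apply SimpleGraph.Adj.reachable
        rw [hadj]
        exact hvw.symm
  · intro C hC C' hC' hne
    obtain ⟨c, hc, rfl⟩ := Finset.mem_image.1 hC
    obtain ⟨c', hc', rfl⟩ := Finset.mem_image.1 hC'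
    rw [Set.disjoint_left]
    rintro v ⟨h, hv⟩ ⟨h', hv'⟩
    apply hne
    have : c = c' := hv.symm.trans hv'
    rw [this]

end H467Aug
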