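import Pool.Agent.H467R2.Aug.AllB
import Pool.Agent.H467R2.Aug.VIO
import Pool.Agent.H467R2.Aug.CLEAN
import Pool.Agent.H467R2.Aug.GPM
import Pool.Agent.H467R2.Aug.GCARD
import Pool.Agent.H467R2.Aug.GOA0
import Pool.Agent.H467R2.Aug.GOA
import Pool.Agent.H467R2.Aug.GB1
import Pool.Agent.H467R2.Aug.GK
import Pool.Agent.H467R2.Aug.GB2
import Pool.Agent.H467R2.Aug.MM
import Pool.Agent.H467R2.Aug.CK
import Pool.Agent.H467R2.Aug.CG
import Pool.Agent.H467R2.Aug.CNT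
import Pool.Agent.H467R2.Aug.AEO
import Pool.Agent.H467R2.Aug.AOO
import Pool.Agent.H467R2.Aug.AOE
import Pool.Agent.H467R2.Aug.VAL
import Pool.Agent.H467R2.Aug.GZ
import Pool.Agent.H467R2.Aug.UBD
import Pool.Agent.H467R2.Aug.REG
import Pool.Agent.H467R2.Aug.DEFc
import Pool.Agent.H467R2.Aug.BLO
import Pool.Agent.H467R2.Aug.BLEb
import Pool.Agent.H467R2.Aug.GLU
import Pool.Agent.H467R2.Aug.HEO
import Pool.Agent.H467R2.Aug.HOO
import Pool.Agent.H467R2.Aug.HOE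
import Pool.Agent.H467R2.Aug.TR
import Pool.Agent.H467R2.Aug.LEO
import Pool.Agent.H467R2.Aug.LOO
import Pool.Agent.H467R2.Aug.LOE
import Pool.Agent.H467R2.Aug.ATT
import Pool.Agent.H467R2.Aug.LBD
import Pool.Agent.H467R2.Aug.FIN

set_option autoImplicit false

namespace H467Aug

theorem all_MM : S_MM :=
  t_MM t_VIO t_CLEAN (t_GPM t_BAS) t_GCARD t_GOA0 t_GOA t_GB1 (t_GB2 t_GK)
theorem all_CNT : S_CNT := t_CNT t_CK t_CG t_BAS
theorem all_UBD : S_UBD := t_UBD all_RED2 all_MM all_CNT t_AEO t_AOO t_AOE t_VAL t_BAS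
theorem all_REG : S_REG := t_REG all_RED2 t_BAS
theorem all_DEF : S_DEF := t_DEFc all_RED2 t_BAS
theorem all_LEO : S_LEO := t_LEO (t_HEO all_REG t_GLU t_BAS) (t_BLO t_BAS) tr_TR t_BAS
theorem all_LOO : S_LOO := t_LOO (t_HOO all_DEF t_GLU t_BAS) (t_BLO t_BAS) tr_TR
theorem all_LOE : S_LOE := t_LOE (t_HOE all_DEF t_GLU t_BAS) (t_BLEb t_BAS) tr_TR
theorem all_LBD : S_LBD := t_LBD all_REG all_LEO all_LOO all_LOE t_ATT t_VAL t_BAS
theorem all_FIN : S_FIN := t_FIN all_MAIN2 t_GZ all_UBD all_LBD all_CHA t_CUT t_BAS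

end H467Aug
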