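import Pool.Agent.H467R2.Aug.Defs

/-! BAS: basic facts on cuts, degrees and numbers of edges (helper20). -/

set_option autoImplicit false

namespace H467Aug

theorem bas_cut_single {V : Type} (G : SimpleGraph V) (v : V) : cut G {v} = dg G v := by
  have h : {p : V × V | G.Adj p.1 p.2 ∧ p.1 ∈ ({v} : Set V) ∧ p.2 ∉ ({v} : Set V)} =
      (fun w => (v, w)) '' {w | G.Adj v w} := by
    ext ⟨a, b⟩
    simp only [Set.mem_setOf_eq, Set.mem_singleton_iff, Set.mem_image, Prod.mk.injEq]
    constructor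
    · rintro ⟨h1, rfl, h3⟩
      exact ⟨b, h1, rfl, rfl⟩
    · rintro ⟨w, h1, rfl, rfl⟩
      exact ⟨h1, rfl, fun h => h1.ne h.symm⟩
  unfold cut dg
  rw [h]
  exact Set.ncard_image_of_injective _ (fun a b hab => (Prod.mk.inj hab).2)

theorem bas_cut_compl {V : Type} (G : SimpleGraph V) (X : Set V) : cut G Xᶜ = cut G X := by
  have h : {p : V × V | G.Adj p.1 p.2 ∧ p.1 ∈ Xᶜ ∧ p.2 ∉ Xᶜ} =
      Prod.swap '' {p : V × V | G.Adj p.1 p.2 ∧ p.1 ∈ X ∧ p.2 ∉ X} := by
    ext ⟨a, b⟩
    simp only [Set.mem_setOf_eq, Set.mem_compl_iff, not_not, Set.mem_image, Prod.exists,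
      Prod.swap_prod_mk, Prod.mk.injEq]
    constructor
    · rintro ⟨h1, h2, h3⟩
      exact ⟨b, a, ⟨h1.symm, h3, h2⟩, rfl, rfl⟩
    · rintro ⟨x, y, ⟨h1, h2, h3⟩, rfl, rfl⟩
      exact ⟨h1.symm, h3, h2⟩
  unfold cut
  rw [h]
  exact Set.ncard_image_of_injective _ Prod.swap_injective

theorem bas_dg_compl {V : Type} [Fintype V] (G : SimpleGraph V) (v : V) :
    dg Gᶜ v + dg G v + 1 = Fintype.card V := by
  classical
  have h1 : Disjoint {w | Gᶜ.Adj v w} {w | G.Adj v w} := by
    rw [Set.disjoint_left]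
    intro w hw hw'
    exact ((SimpleGraph.compl_adj G v w).1 hw).2 hw'
  have h2 : Disjoint ({w | Gᶜ.Adj v w} ∪ {w | G.Adj v w}) {v} := by
    rw [Set.disjoint_right]
    rintro w rfl (hw | hw)
    · exact Gᶜ.loopless.irrefl w hw
    · exact G.loopless.irrefl w hw
  have h3 : ({w | Gᶜ.Adj v w} ∪ {w | G.Adj v w}) ∪ {v} = Set.univ := by
    ext w
    simp only [Set.mem_union, Set.mem_setOf_eq, SimpleGraph.compl_adj, Set.mem_singleton_iff,
      Set.mem_univ, iff_true]
    by_cases hw : w = v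
    · exact Or.inr hw
    · by_cases hG : G.Adj v w
      · exact Or.inl (Or.inr hG)
      · exact Or.inl (Or.inl ⟨fun h => hw h.symm, hG⟩)
  have h4 := Set.ncard_union_eq h2 (Set.toFinite _) (Set.toFinite _)
  rw [h3, Set.ncard_univ, Nat.card_eq_fintype_card, Set.ncard_singleton,
    Set.ncard_union_eq h1 (Set.toFinite _) (Set.toFinite _)] at h4
  exact h4.symm

theorem bas_sum_dg {V : Type} [Fintype V] (G : SimpleGraph V) : ∑ v, dg G v = 2 * ec G := by
  classical
  have h1 : ∀ v, dg G v = G.degree v := by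
    intro v
    have : dg G v = (G.neighborSet v).ncard := rfl
    rw [this, Set.ncard_eq_toFinset_card', ← SimpleGraph.card_neighborSet_eq_degree,
      Set.toFinset_card]
  have h2 : ec G = G.edgeFinset.card := by
    show G.edgeSet.ncard = _
    rw [Set.ncard_eq_toFinset_card']
    rfl
  rw [h2, ← SimpleGraph.sum_degrees_eq_twice_card_edges]
  exact Finset.sum_congr rfl fun v _ => h1 v

theorem bas_ec_compl {V : Type} [Fintype V] (G : SimpleGraph V) :
    ec Gᶜ + ec G = Fintype.card V * (Fintype.card V - 1) / 2 := by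
  have h1 : ∑ v : V, (dg Gᶜ v + dg G v + 1) = ∑ _v : V, Fintype.card V :=
    Finset.sum_congr rfl fun v _ => bas_dg_compl G v
  rw [Finset.sum_add_distrib, Finset.sum_add_distrib, bas_sum_dg, bas_sum_dg, Finset.sum_const,
    Finset.sum_const, Finset.card_univ] at h1
  simp only [smul_eq_mul, mul_one] at h1
  have h2 : Fintype.card V * (Fintype.card V - 1) = 2 * (ec Gᶜ + ec G) := by
    rw [Nat.mul_sub, mul_one]
    omega
  rw [h2]
  omega

theorem bas_dg_le_one {V : Type} [Fintype V] (G : SimpleGraph V) (h : Mat G) (v : V) :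
    dg G v ≤ 1 := by
  unfold dg
  rw [Set.ncard_le_one (Set.toFinite _)]
  intro a ha b hb
  exact h v a b ha hb

theorem t_BAS : S_BAS := by
  intro V _ G
  classical
  refine ⟨bas_cut_single G, bas_cut_compl G, bas_dg_compl G, bas_sum_dg G, bas_ec_compl G,
    ?_, ?_, ?_, ?_, ?_, ?_, ?_, ?_⟩
  · intro H hH
    have h1 : G.edgeSet ⊆ H.edgeSet := SimpleGraph.edgeSet_mono hH
    exact ⟨Set.ncard_le_ncard h1 (Set.toFinite _), Set.ncard_diff h1 (Set.toFinite _)⟩
  · intro H
    unfold ec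
    rw [SimpleGraph.edgeSet_sup]
    exact Set.ncard_union_le _ _
  · intro H hH
    unfold ec
    rw [SimpleGraph.edgeSet_sdiff]
    exact Set.ncard_diff_add_ncard_of_subset (SimpleGraph.edgeSet_mono hH) (Set.toFinite _)
  · rintro F hF X ⟨u, v, huv, hu, hv⟩
    unfold cut
    apply Set.ncard_lt_ncard _ (Set.toFinite _)
    rw [Set.ssubset_iff_of_subset]
    · exact ⟨(u, v), ⟨Or.inr huv, hu, hv⟩, fun h => hF u v huv h.1⟩
    · rintro p ⟨h1, h2, h3⟩
      exact ⟨Or.inl h1, h2, h3⟩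
  · intro H hH X
    apply Set.ncard_le_ncard _ (Set.toFinite _)
    rintro p ⟨h1, h2, h3⟩
    exact ⟨hH h1, h2, h3⟩
  · intro hM
    rw [← bas_sum_dg]
    calc ∑ v, dg G v ≤ ∑ _v : V, 1 := Finset.sum_le_sum fun v _ => bas_dg_le_one G hM v
      _ = Fintype.card V := by simp
  · intro hM u hu
    rw [← bas_sum_dg]
    have h1 : dg G u = 0 := by
      unfold dg
      rw [Set.ncard_eq_zero (Set.toFinite _)]
      ext w
      simp only [Set.mem_setOf_eq, Set.mem_empty_iff_false, iff_false]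
      exact hu w
    have h2 : ∑ v, dg G v = dg G u + ∑ v ∈ Finset.univ.erase u, dg G v :=
      (Finset.add_sum_erase _ _ (Finset.mem_univ u)).symm
    have h3 : ∑ v ∈ Finset.univ.erase u, dg G v ≤ ∑ _v ∈ Finset.univ.erase u, 1 :=
      Finset.sum_le_sum fun v _ => bas_dg_le_one G hM v
    rw [Finset.sum_const, Finset.card_erase_of_mem (Finset.mem_univ u), Finset.card_univ] at h3
    have h4 : 0 < Fintype.card V := Fintype.card_pos_iff.2 ⟨u⟩
    simp only [smul_eq_mul, mul_one] at h3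
    omega
  · intro j hK hV v
    rw [← bas_cut_single]
    apply hK _ (Set.singleton_nonempty v)
    have : Nontrivial V := Fintype.one_lt_card_iff_nontrivial.1 (by omega)
    obtain ⟨w, hw⟩ := exists_ne v
    exact ⟨w, by simpa using hw⟩

end H467Aug
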