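import Pool.Agent.H467R2.Aug.DefsC

set_option autoImplicit false

/-! Task CNT: the numerical data of an obstruction. -/

namespace H467Aug

open scoped Classical in
theorem cnt_part {V : Type} [Fintype V] (S T : Finset V) (F : Finset (Finset V))
    (hST : ∀ v ∈ S, v ∉ T) (hF : ∀ K ∈ F, ∀ v ∈ K, v ∉ S ∧ v ∉ T)
    (hdis : ∀ K ∈ F, ∀ K' ∈ F, K ≠ K' → Disjoint K K') (g : V → ℕ) :
    ∑ v, g v = ∑ v ∈ S, g v + ∑ v ∈ T, g v + ∑ K ∈ F, ∑ v ∈ K, g v +
      ∑ v ∈ Finset.univ.filter (fun v => v ∉ S ∧ v ∉ T ∧ ∀ K ∈ F, v ∉ K), g v := by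
  set R := Finset.univ.filter (fun v => v ∉ S ∧ v ∉ T ∧ ∀ K ∈ F, v ∉ K) with hR
  have hU : ∑ v ∈ F.biUnion id, g v = ∑ K ∈ F, ∑ v ∈ K, g v := by
    rw [Finset.sum_biUnion]
    · rfl
    · intro K hK K' hK' h
      exact hdis K hK K' hK' h
  rw [← hU, ← Finset.sum_union, ← Finset.sum_union, ← Finset.sum_union]
  · apply Finset.sum_congr _ (fun _ _ => rfl)
    ext v
    simp only [Finset.mem_univ, Finset.mem_union, Finset.mem_biUnion, id, hR, Finset.mem_filter,
      true_and, true_iff]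
    by_cases h1 : v ∈ S
    · exact Or.inl (Or.inl (Or.inl h1))
    · by_cases h2 : v ∈ T
      · exact Or.inl (Or.inl (Or.inr h2))
      · by_cases h3 : ∃ a ∈ F, v ∈ a
        · exact Or.inl (Or.inr h3)
        · right
          refine ⟨h1, h2, fun K hK hv => h3 ⟨K, hK, hv⟩⟩
  · rw [Finset.disjoint_left]
    intro v hv hv'
    simp only [Finset.mem_union, Finset.mem_biUnion, id, hR, Finset.mem_filter, Finset.mem_univ,
      true_and] at hv hv'
    rcases hv with (hv | hv) | ⟨K, hK, hv⟩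
    · exact hv'.1 hv
    · exact hv'.2.1 hv
    · exact hv'.2.2 K hK hv
  · rw [Finset.disjoint_left]
    intro v hv hv'
    simp only [Finset.mem_union, Finset.mem_biUnion, id] at hv hv'
    obtain ⟨K, hK, hv'⟩ := hv'
    have := hF K hK v hv'
    rcases hv with hv | hv
    · exact this.1 hv
    · exact this.2 hv
  · rw [Finset.disjoint_left]
    exact hST

theorem t_CNT (h1 : S_CK) (h2 : S_CG) (hB : S_BAS) : S_CNT := by
  classical
  intro V _ H D b z X Y hD hbD hz hO
  obtain ⟨S, T, F, hST, hSb, hK, hdis, hineq⟩ := hO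
  have hF : ∀ K ∈ F, ∀ v ∈ K, v ∉ S ∧ v ∉ T := fun K hKF v hv =>
    ⟨((hK K hKF).2.1 v hv).1, ((hK K hKF).2.1 v hv).2.1⟩
  have hTS : ∀ v ∈ T, v ∉ S := fun v hv hv' => hST v hv' hv
  set R := Finset.univ.filter (fun v => v ∉ S ∧ v ∉ T ∧ ∀ K ∈ F, v ∉ K) with hR
  have part := cnt_part S T F hST hF hdis
  rw [← hR] at part
  have ci : ∀ K : Finset V, ∃ i : ℕ, K ∈ F → eb H (K : Set V) (S : Set V) +
      eb H (K : Set V) (T : Set V) + ∑ v ∈ K, (D - dg H v) + 2 * i = D * K.card := by
    intro K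
    by_cases hKF : K ∈ F
    · obtain ⟨i, hi⟩ := (h1 V H D b S T K hD hST (hK K hKF)).1
      exact ⟨i, fun _ => hi⟩
    · exact ⟨0, fun h => absurd h hKF⟩
  choose i hi using ci
  have pn := part (fun _ => 1)
  simp only [Finset.sum_const, smul_eq_mul, mul_one, Finset.card_univ] at pn
  have pd := part (fun v => dg H v - b)
  have pD := part (fun v => D - dg H v)
  have eS : ∑ v ∈ S, (dg H v - b) + ∑ v ∈ S, (D - dg H v) = (D - b) * S.card := by
    rw [← Finset.sum_add_distrib, Nat.mul_comm, ← smul_eq_mul, ← Finset.sum_const]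
    refine Finset.sum_congr rfl fun v hv => ?_
    have := hSb v hv
    have := hD v
    omega
  have eK : ∑ K ∈ F, ∑ v ∈ K, (dg H v - b) + ∑ K ∈ F, ∑ v ∈ K, (D - dg H v) =
      (D - b) * ∑ K ∈ F, K.card := by
    rw [← Finset.sum_add_distrib, Finset.mul_sum]
    refine Finset.sum_congr rfl fun K hKF => ?_
    rw [← Finset.sum_add_distrib, Nat.mul_comm, ← smul_eq_mul, ← Finset.sum_const]
    refine Finset.sum_congr rfl fun v hv => ?_
    have := ((hK K hKF).2.1 v hv).2.2.1
    have := hD v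
    omega
  have eR : ∑ v ∈ R, (dg H v - b) + ∑ v ∈ R, ((D - b) - (dg H v - b)) = (D - b) * R.card := by
    rw [← Finset.sum_add_distrib, Nat.mul_comm, ← smul_eq_mul, ← Finset.sum_const]
    refine Finset.sum_congr rfl fun v _ => ?_
    have := hD v
    omega
  have g1 := h2 V H D S T F hD hST hF hdis
  have g2 := h2 V H D T S F hD hTS (fun K hKF v hv => (hF K hKF v hv).symm) hdis
  have hn : Fintype.card V * (D - b) = (D - b) * S.card + (D - b) * T.card +
      (D - b) * (∑ K ∈ F, K.card) + (D - b) * R.card := by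
    rw [pn]; ring
  have hDs : D * S.card = (D - b) * S.card + b * S.card := by
    rw [← Nat.add_mul]; congr 1; omega
  have hDt : D * T.card = (D - b) * T.card + b * T.card := by
    rw [← Nat.add_mul]; congr 1; omega
  refine ⟨F, fun K => K.card, fun K => eb H (K : Set V) (S : Set V),
    fun K => eb H (K : Set V) (T : Set V), fun K => ∑ v ∈ K, (D - dg H v), i, S.card, T.card,
    ∑ v ∈ S, (D - dg H v), ∑ v ∈ T, (D - dg H v), ∑ v ∈ R, ((D - b) - (dg H v - b)),
    ∑ v ∈ R, (D - dg H v), ?_, ?_, ?_, ?_, ?_, ?_⟩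
  · intro K hKF
    refine ⟨Finset.card_pos.2 (hK K hKF).1, hi K hKF, ?_, (hK K hKF).2.2⟩
    exact (h1 V H D b S T K hD hST (hK K hKF)).2
  · simp only
    omega
  · simp only
    omega
  · simp only
    omega
  · have hs := (hB V H).2.2.2.1
    have hsum : ∑ v, dg H v + ∑ v, (D - dg H v) = Fintype.card V * D := by
      rw [← Finset.sum_add_distrib, Finset.card_univ.symm, ← smul_eq_mul, ← Finset.sum_const]
      refine Finset.sum_congr rfl fun v _ => ?_
      have := hD v
      omega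
    simp only at pD ⊢
    refine ⟨ec H + ∑ v, (D - dg H v), ?_⟩
    omega
  · intro hm
    obtain ⟨v, hvR, hv⟩ : ∃ v ∈ R, 0 < D - dg H v := by
      by_contra h
      push Not at h
      have : ∑ v ∈ R, (D - dg H v) = 0 := Finset.sum_eq_zero fun v hv => by
        have := h v hv
        omega
      omega
    have h3 : (D - b) - (dg H v - b) ≤ ∑ v ∈ R, ((D - b) - (dg H v - b)) :=
      Finset.single_le_sum (f := fun v => (D - b) - (dg H v - b)) (fun _ _ => Nat.zero_le _) hvR
    omega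

end H467Aug
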