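import Pool.Agent.H467R2.Aug.DefsD

/-!
# COE1: closed form of `gOE`, upper bound
-/

set_option autoImplicit false

namespace H467Aug

theorem coe1_core (n D b t s0 r u q : ℕ) (hb : b < D) (hD : Odd D)
    (hn : n = (D * (D + 2) + 1) * s0 + r) (hu : u = (r - 1) / (D + 2))
    (hq : q = (n - t) / (D + 2)) (ht : 1 ≤ t) :
    min q (D * t) - (min q (D * t) + n + t) % 2 + n % 2 - (D - b) * t ≤
      b * s0 + ((u + n % 2) - ((u + n % 2) + 1) % 2 - (D - b)) := by
  obtain ⟨k, hk⟩ := hD
  have e1 : D * t = 2 * (k * t) + t := by rw [hk]; ring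
  have e2 : D * s0 = 2 * (k * s0) + s0 := by rw [hk]; ring
  obtain ⟨d, hd⟩ : ∃ d, D = b + d := ⟨D - b, by omega⟩
  have hd1 : 1 ≤ d := by omega
  have hdb : D - b = d := by omega
  have f1 : D * t = b * t + d * t := by rw [hd]; ring
  have f2 : D * s0 = b * s0 + d * s0 := by rw [hd]; ring
  rw [hdb]
  have hm1 : min q (D * t) ≤ q := min_le_left _ _
  have hm2 : min q (D * t) ≤ D * t := min_le_right _ _
  generalize min q (D * t) = m at hm1 hm2 ⊢
  have hdt : 1 * t ≤ d * t := Nat.mul_le_mul_right t hd1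
  by_cases hts : t ≤ s0
  · have g1 : b * t ≤ b * s0 := Nat.mul_le_mul_left b hts
    omega
  · obtain ⟨v, hv⟩ : ∃ v, t = s0 + v := ⟨t - s0, by omega⟩
    have hv1 : 1 ≤ v := by omega
    have hqu : q ≤ D * s0 + u := by
      rw [hq, hu]
      have h1 : n - t ≤ (r - 1) + (D + 2) * (D * s0) := by
        have h2 : n = (D + 2) * (D * s0) + s0 + r := by rw [hn]; ring
        omega
      calc (n - t) / (D + 2) ≤ ((r - 1) + (D + 2) * (D * s0)) / (D + 2) :=
            Nat.div_le_div_right h1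
        _ = (r - 1) / (D + 2) + D * s0 := Nat.add_mul_div_left _ _ (by omega)
        _ = D * s0 + (r - 1) / (D + 2) := by ring
    have g2 : d * t = d * s0 + d * v := by rw [hv]; ring
    rcases Nat.lt_or_ge v 2 with h | h
    · have hv' : v = 1 := by omega
      have g3 : d * v = d := by rw [hv', mul_one]
      omega
    · have g3 : d * 2 ≤ d * v := Nat.mul_le_mul_left d h
      omega

/-- **COE1** -/
theorem t_COE1 : S_COE1 := by
  intro n D b hb hD hDo hbe
  unfold gOE
  apply Finset.sup_le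
  intro t' ht'
  unfold cOE qQ oddfl
  have hE : (D + 1) ^ 2 = D * (D + 2) + 1 := by ring
  rw [hE]
  exact coe1_core n D b (t' + 1) (n / (D * (D + 2) + 1)) (n % (D * (D + 2) + 1)) _ _ hb hDo
    (Nat.div_add_mod n (D * (D + 2) + 1)).symm rfl rfl (by omega)

end H467Aug
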