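import Pool.Agent.H467R2.Aug.DefsD

/-! COE2 (helper666): closed form of `gOE`, lower bound. -/

set_option autoImplicit false

namespace H467Aug

theorem coe2_div (m x y : ℕ) : ((m + 2) * x + y) / (m + 2) = x + y / (m + 2) :=
  Nat.mul_add_div (by omega) x y

theorem t_COE2 : S_COE2 := by
  intro n D b hb hD hDo hbe
  have hE : (D + 1) ^ 2 = D * (D + 2) + 1 := by ring
  unfold cOE
  obtain ⟨s, hs⟩ : ∃ s, s = n / (D + 1) ^ 2 := ⟨_, rfl⟩
  obtain ⟨r, hr⟩ : ∃ r, r = n % (D + 1) ^ 2 := ⟨_, rfl⟩
  have hn : n = s * (D * (D + 2) + 1) + r := by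
    rw [hs, hr, ← hE]
    exact (Nat.div_add_mod' _ _).symm
  have hrE : r < D * (D + 2) + 1 := by
    rw [hr, ← hE]
    exact Nat.mod_lt _ (by positivity)
  rw [← hs, ← hr]
  have hpar : (D * s + s) % 2 = 0 := by
    obtain ⟨d, hd⟩ := hDo
    have : D * s + s = 2 * ((d + 1) * s) := by rw [hd]; ring
    rw [this]
    exact Nat.mul_mod_right 2 _
  obtain ⟨c, hc⟩ : ∃ c, D = b + c := ⟨D - b, by omega⟩
  have hDb : D - b = c := by omega
  have hc1 : 1 ≤ c := by omega
  rw [hDb]
  have hDs : D * s = b * s + c * s := by rw [hc]; ring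
  have hn1 : n = (D + 2) * (D * s) + r + s := by rw [hn]; ring
  by_cases hj : oddfl ((r - 1) / (D + 2) + n % 2) ≤ c
  · rw [Nat.sub_eq_zero_of_le hj, add_zero]
    rcases Nat.eq_zero_or_pos s with h0 | h0
    · rw [h0, mul_zero]
      exact Nat.zero_le _
    · have hsn : s ≤ n := by omega
      have hidx : s - 1 ∈ Finset.range n := by
        rw [Finset.mem_range]
        omega
      have hle := Finset.le_sup (f := fun t => qQ n D (t + 1) + n % 2 - (D - b) * (t + 1)) hidx
      refine le_trans (le_of_eq ?_) hle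
      have hs1 : s - 1 + 1 = s := by omega
      simp only [hs1]
      have hdiv : (n - s) / (D + 2) = D * s + r / (D + 2) := by
        have : n - s = (D + 2) * (D * s) + r := by omega
        rw [this, coe2_div]
      have hmin : min ((n - s) / (D + 2)) (D * s) = D * s := by
        rw [hdiv]
        exact Nat.min_eq_right (Nat.le_add_right _ _)
      have hDs1 : 1 ≤ D * s := Nat.mul_pos (by omega) h0
      unfold qQ
      rw [hmin, hDb]
      omega
  · rw [not_le] at hj
    unfold oddfl at hj ⊢
    have hu : 2 ≤ (r - 1) / (D + 2) := by omega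
    have hr1 : 1 ≤ r := by
      by_contra h
      have : r = 0 := by omega
      rw [this] at hu
      simp at hu
    obtain ⟨u, hu'⟩ : ∃ u, u = (r - 1) / (D + 2) := ⟨_, rfl⟩
    rw [← hu'] at hj hu ⊢
    have huD : u < D := by
      rw [hu', Nat.div_lt_iff_lt_mul (by omega)]
      omega
    have hidx : s ∈ Finset.range n := by
      rw [Finset.mem_range]
      omega
    have hle := Finset.le_sup (f := fun t => qQ n D (t + 1) + n % 2 - (D - b) * (t + 1)) hidx
    refine le_trans (le_of_eq ?_) hle
    have hdiv : (n - (s + 1)) / (D + 2) = D * s + u := by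
      have : n - (s + 1) = (D + 2) * (D * s) + (r - 1) := by omega
      rw [this, coe2_div, hu']
    have hDs1 : D * (s + 1) = D * s + D := by ring
    have hcs1 : c * (s + 1) = c * s + c := by ring
    have hmin : min ((n - (s + 1)) / (D + 2)) (D * (s + 1)) = D * s + u := by
      rw [hdiv, hDs1]
      exact Nat.min_eq_left (by omega)
    unfold qQ
    rw [hmin, hDb, hcs1]
    omega

end H467Aug
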