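import Pool.Agent.H467R2.Aug.DefsD

set_option autoImplicit false

namespace H467Aug

theorem t_COO1 : S_COO1 := by
  intro n D b hbD hDn hD hb
  unfold gOO
  apply Finset.sup_le
  intro s hs
  have hsn : s ≤ n := by
    have := Finset.mem_range.1 hs
    omega
  obtain ⟨a, ha⟩ := hD
  obtain ⟨c, hc⟩ := hb
  unfold cOO
  obtain ⟨s0, hs0⟩ : ∃ s0, s0 = n / (D + 1) ^ 2 := ⟨_, rfl⟩
  obtain ⟨r, hr⟩ : ∃ r, r = n % (D + 1) ^ 2 := ⟨_, rfl⟩
  obtain ⟨u, hu⟩ : ∃ u, u = (r - 1) / (D + 2) := ⟨_, rfl⟩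
  have hn : (D + 1) ^ 2 * s0 + r = n := by
    rw [hs0, hr]
    exact Nat.div_add_mod n _
  rw [← hs0, ← hr, ← hu, Nat.sub_mul]
  obtain ⟨X, hX⟩ : ∃ X, X = D * s0 := ⟨_, rfl⟩
  obtain ⟨Y, hY⟩ : ∃ Y, Y = b * s0 := ⟨_, rfl⟩
  have hn' : n = (D + 2) * X + s0 + r := by
    rw [← hn, hX]
    ring
  have hX' : X = 2 * (a * s0) + s0 := by
    rw [hX, ha]
    ring
  have hY' : Y = 2 * (c * s0) + s0 := by
    rw [hY, hc]
    ring
  have hYX : Y ≤ X := by
    rw [hX, hY]
    exact Nat.mul_le_mul_right _ hbD.le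
  rw [← hX, ← hY]
  obtain ⟨q, hq⟩ : ∃ q, q = (n - s) / (D + 2) := ⟨_, rfl⟩
  unfold pP
  rw [← hq]
  have hmin : min (q - n % 2 - (q - n % 2 + s) % 2) (D * s) ≤ q - n % 2 - (q - n % 2 + s) % 2 :=
    min_le_left _ _
  have hmin' : min (q - n % 2 - (q - n % 2 + s) % 2) (D * s) ≤ D * s := min_le_right _ _
  have hodd : oddfl (u - n % 2) = (u - n % 2) - ((u - n % 2) + 1) % 2 := rfl
  rw [hodd]
  generalize min (q - n % 2 - (q - n % 2 + s) % 2) (D * s) = m at hmin hmin' ⊢
  rcases lt_trichotomy s s0 with h | h | h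
  · -- s < s0
    have h1 : m - b * s ≤ (D - b) * s := by
      rw [Nat.sub_mul]
      omega
    have h2 : (D - b) * s ≤ (D - b) * (s0 - 1) := Nat.mul_le_mul_left _ (by omega)
    have h3 : (D - b) * s0 = (D - b) * (s0 - 1) + (D - b) := by
      obtain ⟨k, rfl⟩ : ∃ k, s0 = k + 1 := ⟨s0 - 1, by omega⟩
      rw [Nat.add_sub_cancel]
      ring
    have h4 : (D - b) * s0 = X - Y := by rw [Nat.sub_mul, ← hX, ← hY]
    split_ifs <;> omega
  · -- s = s0
    subst h
    rw [← hX] at hmin'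
    rw [← hY]
    split_ifs with hif
    · obtain ⟨h1, h2⟩ := hif
      have hq' : q = X := by
        rw [hq, hn', show (D + 2) * X + s + r - s = (D + 2) * X + r by omega,
          Nat.mul_add_div (by omega), Nat.div_eq_of_lt h2, add_zero]
      subst hq'
      omega
    · omega
  · -- s > s0
    have hq' : q ≤ X + u := by
      rw [hq, hu]
      calc (n - s) / (D + 2) ≤ ((D + 2) * X + (r - 1)) / (D + 2) :=
            Nat.div_le_div_right (by omega)
        _ = X + (r - 1) / (D + 2) := Nat.mul_add_div (by omega) _ _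
    have hZ : Y + b ≤ b * s := by
      rw [hY]
      calc b * s0 + b = b * (s0 + 1) := by ring
        _ ≤ b * s := Nat.mul_le_mul_left _ h
    have hZ2 : s0 + 2 ≤ s → Y + 2 * b ≤ b * s := by
      intro h2
      rw [hY]
      calc b * s0 + 2 * b = b * (s0 + 2) := by ring
        _ ≤ b * s := Nat.mul_le_mul_left _ h2
    have hu0 : r < D + 2 → u = 0 := by
      intro h2
      rw [hu]
      exact Nat.div_eq_of_lt (by omega)
    rcases Nat.lt_or_ge s (s0 + 2) with h2 | h2
    · have : s = s0 + 1 := by omega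
      subst this
      split_ifs with hif
      · have := hu0 hif.2
        omega
      · omega
    · have h3 := hZ2 h2
      split_ifs with hif
      · have := hu0 hif.2
        omega
      · omega

end H467Aug
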