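import Pool.Agent.H467R2.Aug.DefsD

set_option autoImplicit false

namespace H467Aug

theorem coo2_pP (n D s : ℕ) (Y : ℕ) (h : Y + n % 2 ≤ (n - s) / (D + 2)) (hp : (Y + s) % 2 = 0) :
    Y ≤ pP n D s := by
  unfold pP
  generalize (n - s) / (D + 2) = A at h ⊢
  omega

theorem coo2_pP2 (n D s : ℕ) (Y : ℕ) (h : Y ≤ (n - s) / (D + 2)) (hp : (Y + s) % 2 = 0) :
    Y - 2 ≤ pP n D s := by
  unfold pP
  generalize (n - s) / (D + 2) = A at h ⊢
  omega

theorem t_COO2 : S_COO2 := by
  intro n D b hb hn hD hbo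
  have key : ∀ s, s ≤ n → min (pP n D s) (D * s) - b * s ≤ gOO n D b := by
    intro s hs
    unfold gOO
    exact Finset.le_sup (f := fun s => min (pP n D s) (D * s) - b * s)
      (Finset.mem_range.2 (by omega))
  unfold cOO
  have hE : (D + 1) ^ 2 = D * (D + 2) + 1 := by ring
  rw [hE]
  obtain ⟨s0, hs0⟩ : ∃ s0, s0 = n / (D * (D + 2) + 1) := ⟨_, rfl⟩
  obtain ⟨r, hr0⟩ : ∃ r, r = n % (D * (D + 2) + 1) := ⟨_, rfl⟩
  have hn' : n = (D * (D + 2) + 1) * s0 + r := by
    rw [hs0, hr0]
    exact (Nat.div_add_mod _ _).symm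
  have hr : r ≤ D * (D + 2) := by
    have := Nat.mod_lt n (show 0 < D * (D + 2) + 1 by omega)
    omega
  rw [← hs0, ← hr0]
  have hpar : (D * s0 + s0) % 2 = 0 := by
    obtain ⟨d, rfl⟩ := hD
    have : (2 * d + 1) * s0 + s0 = 2 * (d * s0 + s0) := by ring
    rw [this]
    omega
  have hn2 : n % 2 = r % 2 := by
    obtain ⟨d, rfl⟩ := hD
    have : ((2 * d + 1) * ((2 * d + 1) + 2) + 1) * s0 = 2 * ((d + 1) * (2 * d + 2) * s0) := by
      ring
    rw [hn', this]
    omega
  have hsplit : n = s0 + ((D + 2) * (D * s0) + r) := by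
    rw [hn']
    ring
  have hns : n - s0 = (D + 2) * (D * s0) + r := by omega
  obtain ⟨q, hq⟩ : ∃ q, q = r / (D + 2) := ⟨_, rfl⟩
  have hA : (n - s0) / (D + 2) = D * s0 + q := by
    rw [hns, Nat.mul_add_div (by omega), hq]
  have hsub : (D - b) * s0 = D * s0 - b * s0 := Nat.sub_mul _ _ _
  by_cases hj : b < oddfl ((r - 1) / (D + 2) - n % 2)
  · -- use s0 + 1
    obtain ⟨u, hu⟩ : ∃ u, u = (r - 1) / (D + 2) := ⟨_, rfl⟩
    rw [← hu] at hj ⊢
    obtain ⟨j, hj0⟩ : ∃ j, j = oddfl (u - n % 2) := ⟨_, rfl⟩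
    have hj1 : j + n % 2 ≤ u := by
      rw [← hj0] at hj
      unfold oddfl at hj0
      omega
    have hj2 : j % 2 = 1 := by
      rw [← hj0] at hj
      unfold oddfl at hj0
      omega
    rw [← hj0] at hj ⊢
    have hu1 : 1 ≤ u := by omega
    have hr1 : D + 2 ≤ r - 1 := by
      by_contra h
      rw [Nat.div_eq_of_lt (by omega)] at hu
      omega
    have huD : u < D := by
      rw [hu]
      rw [Nat.div_lt_iff_lt_mul (by omega)]
      omega
    have hns1 : n - (s0 + 1) = (D + 2) * (D * s0) + (r - 1) := by omega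
    have hA1 : (n - (s0 + 1)) / (D + 2) = D * s0 + u := by
      rw [hns1, Nat.mul_add_div (by omega), hu]
    have h1 : D * s0 + j ≤ pP n D (s0 + 1) := by
      apply coo2_pP
      · rw [hA1]
        omega
      · omega
    have h2 := key (s0 + 1) (by omega)
    have e1 : D * (s0 + 1) = D * s0 + D := by ring
    have e2 : b * (s0 + 1) = b * s0 + b := by ring
    rw [e1, e2] at h2
    have h3 : b * s0 ≤ D * s0 := Nat.mul_le_mul_right _ hb.le
    have hif : ¬ (n % 2 = 1 ∧ r < D + 2) := by omega
    rw [if_neg hif, hsub]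
    have h4 : D * s0 + j ≤ min (pP n D (s0 + 1)) (D * s0 + D) := le_min h1 (by omega)
    omega
  · have hz : oddfl ((r - 1) / (D + 2) - n % 2) - b = 0 := by omega
    rw [hz, hsub]
    have h2 := key s0 (by omega)
    by_cases hc : n % 2 = 1 ∧ r < D + 2
    · rw [if_pos hc]
      have h1 : D * s0 - 2 ≤ pP n D s0 := by
        apply coo2_pP2
        · rw [hA]
          exact Nat.le_add_right _ _
        · exact hpar
      have h4 : D * s0 - 2 ≤ min (pP n D s0) (D * s0) := le_min h1 (Nat.sub_le _ _)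
      generalize min (pP n D s0) (D * s0) = mm at h2 h4
      generalize gOO n D b = gg at h2 ⊢
      generalize D * s0 = PP at h4 ⊢
      generalize b * s0 = QQ at h2 ⊢
      omega
    · rw [if_neg hc]
      have h1 : D * s0 ≤ pP n D s0 := by
        apply coo2_pP
        · rw [hA]
          have : n % 2 ≤ q := by
            rcases Nat.lt_or_ge r (D + 2) with h | h
            · have h0 : n % 2 = 0 := by
                by_contra h0
                exact hc ⟨by omega, h⟩
              rw [h0]
              exact Nat.zero_le _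
            · have : 1 ≤ q := by
                rw [hq]
                exact (Nat.one_le_div_iff (by omega)).2 h
              omega
          exact Nat.add_le_add_left this _
        · exact hpar
      have h4 : D * s0 ≤ min (pP n D s0) (D * s0) := le_min h1 le_rfl
      generalize min (pP n D s0) (D * s0) = mm at h2 h4
      generalize gOO n D b = gg at h2 ⊢
      generalize D * s0 = PP at h4 ⊢
      generalize b * s0 = QQ at h2 ⊢
      omega

end H467Aug
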