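import Pool.Agent.H467R2.Aug.AllC
import Pool.Agent.H467R2.Aug.COO1
import Pool.Agent.H467R2.Aug.COO2
import Pool.Agent.H467R2.Aug.COE1
import Pool.Agent.H467R2.Aug.COE2

set_option autoImplicit false

namespace H467Aug

/-- the closed form of the correction term; `a = n - k`, `c = n - l` -/
def corr (n a c : ℕ) : ℕ :=
  if a % 2 = 1 then
    (if c % 2 = 1 then 0 else n / a - (n / a + n) % 2 - n % 2)
  else if c % 2 = 0 then
    (a - c) * (n / a ^ 2) + (oddfl ((n % a ^ 2 - 1) / (a + 1) - n % 2) - (c - 1)) -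
      (if n % 2 = 1 ∧ n % a ^ 2 < a + 1 then 2 else 0)
  else
    (c - 1) * (n / a ^ 2) + (oddfl ((n % a ^ 2 - 1) / (a + 1) + n % 2) - (a - c))

theorem gg_eq_corr (n D b : ℕ) (hb : b < D) (hD : D < n) : gg n D b = corr n (D + 1) (b + 1) := by
  unfold gg corr
  have e1 : D + 1 - (b + 1) = D - b := by omega
  have e2 : b + 1 - 1 = b := by omega
  rcases Nat.even_or_odd D with hD2 | hD2
  · have h1 : (D + 1) % 2 = 1 := by obtain ⟨x, hx⟩ := hD2; omega
    rw [if_pos hD2, if_pos h1]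
    rcases Nat.even_or_odd b with hb2 | hb2
    · have h2 : (b + 1) % 2 = 1 := by obtain ⟨x, hx⟩ := hb2; omega
      rw [if_pos hb2, if_pos h2]
    · have h2 : ¬ (b + 1) % 2 = 1 := by obtain ⟨x, hx⟩ := hb2; omega
      rw [if_neg (Nat.not_even_iff_odd.2 hb2), if_neg h2]
      rfl
  · have h1 : ¬ (D + 1) % 2 = 1 := by obtain ⟨x, hx⟩ := hD2; omega
    rw [if_neg (Nat.not_even_iff_odd.2 hD2), if_neg h1]
    rcases Nat.even_or_odd b with hb2 | hb2
    · have h2 : ¬ (b + 1) % 2 = 0 := by obtain ⟨x, hx⟩ := hb2; omega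
      rw [if_neg (Nat.not_odd_iff_even.2 hb2), if_neg h2, e1, e2]
      exact le_antisymm (t_COE1 n D b hb hD hD2 hb2) (t_COE2 n D b hb hD hD2 hb2)
    · have h2 : (b + 1) % 2 = 0 := by obtain ⟨x, hx⟩ := hb2; omega
      rw [if_pos hb2, if_pos h2, e1, e2]
      exact le_antisymm (t_COO1 n D b hb hD hD2 hb2) (t_COO2 n D b hb hD hD2 hb2)

theorem closed (n k l : ℕ) (hk : 2 ≤ k) (hkl : k < l) (hln : l < n) :
    IsLeast {e | Works n k l e}
      ((n * l + 1) / 2 - (n * k + 1) / 2 + corr n (n - k) (n - l) / 2) := by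
  have h := all_FIN n k l hk hkl hln
  rw [gg_eq_corr n (n - 1 - k) (n - 1 - l) (by omega) (by omega)] at h
  have e1 : n - 1 - k + 1 = n - k := by omega
  have e2 : n - 1 - l + 1 = n - l := by omega
  rw [e1, e2] at h
  exact h

end H467Aug
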