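import Pool.Agent.H467R2.Aug.DefsC

set_option autoImplicit false

/-! Task DEF: graphs with all degrees `D`, except `j` degrees `D - 1`. -/

namespace H467Aug

open Classical in
theorem def_dg {c : ℕ} (G : SimpleGraph (Fin c)) (v : Fin c) : dg G v = G.degree v := by
  unfold dg
  rw [← SimpleGraph.card_neighborFinset_eq_degree, Set.ncard_eq_toFinset_card']
  congr 1

theorem def_cyc (n : ℕ) (v : Fin (n + 3)) : dg (SimpleGraph.cycleGraph (n + 3)) v = 2 := by
  classical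
  rw [def_dg]
  convert SimpleGraph.cycleGraph_degree_three_le (n := n) (v := v)

/-- the matching -/
def defM (c m : ℕ) : SimpleGraph (Fin c) where
  Adj u v := u ≠ v ∧ (u : ℕ) < m ∧ (v : ℕ) < m ∧ (u : ℕ) / 2 = (v : ℕ) / 2
  symm := by
    constructor
    rintro u v ⟨h1, h2, h3, h4⟩
    exact ⟨h1.symm, h3, h2, h4.symm⟩
  loopless := ⟨fun u h => h.1 rfl⟩

theorem defM_dg_one (c m : ℕ) (hm : m ≤ c) (he : Even m) (v : Fin c) (hv : (v : ℕ) < m) :
    dg (defM c m) v = 1 := by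
  unfold dg
  rw [Set.ncard_eq_one]
  obtain ⟨k, hk⟩ := he
  obtain ⟨p, hp⟩ : ∃ p : ℕ, p < m ∧ p ≠ (v : ℕ) ∧ p / 2 = (v : ℕ) / 2 := by
    rcases Nat.even_or_odd (v : ℕ) with ⟨a, ha⟩ | ⟨a, ha⟩
    · exact ⟨v + 1, by omega, by omega, by omega⟩
    · exact ⟨v - 1, by omega, by omega, by omega⟩
  refine ⟨⟨p, by omega⟩, ?_⟩
  ext w
  simp only [Set.mem_ofPred_eq, Set.mem_singleton_iff, defM]
  constructor
  · rintro ⟨h1, _, h2, h3⟩
    have h1' : (v : ℕ) ≠ (w : ℕ) := fun h => h1 (Fin.ext h)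
    apply Fin.ext
    simp only
    omega
  · rintro rfl
    refine ⟨fun h => ?_, hv, hp.1, hp.2.2.symm⟩
    exact hp.2.1 (congrArg Fin.val h).symm

theorem defM_dg_zero (c m : ℕ) (v : Fin c) (hv : m ≤ (v : ℕ)) :
    dg (defM c m) v = 0 := by
  unfold dg
  have : {w | (defM c m).Adj v w} = ∅ := by
    ext w
    simp only [Set.mem_ofPred_eq, Set.mem_empty_iff_false, iff_false]
    rintro ⟨_, h, _⟩
    omega
  rw [this, Set.ncard_empty]

theorem defM_le (n m : ℕ) : defM (n + 3) m ≤ SimpleGraph.cycleGraph (n + 3) := by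
  intro u v h
  obtain ⟨h1, _, _, h2⟩ := h
  have h1' : (u : ℕ) ≠ (v : ℕ) := fun h => h1 (Fin.ext h)
  rw [SimpleGraph.cycleGraph_adj]
  rcases Nat.lt_or_gt_of_ne h1' with h | h
  · right
    have h3 : (v : ℕ) = u + 1 := by omega
    have : v = u + 1 := by
      apply Fin.ext
      rw [Fin.val_add_one_of_lt']
      · exact h3
      · omega
    rw [this]
    simp
  · left
    have h3 : (u : ℕ) = v + 1 := by omega
    have : u = v + 1 := by
      apply Fin.ext
      rw [Fin.val_add_one_of_lt']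
      · exact h3
      · omega
    rw [this]
    simp

theorem def_dg_sup {V : Type} [Finite V] (G M : SimpleGraph V) (h : Dis G M) (v : V) :
    dg (G ⊔ M) v = dg G v + dg M v := by
  unfold dg
  rw [← Set.ncard_union_eq]
  · congr 1
  · rw [Set.disjoint_left]
    intro w h1 h2
    exact h v w h1 h2

theorem t_DEF (h1 : S_RED2) (hB : S_BAS) : S_DEF := by
  intro c D j hc hD hj hjD hDc
  obtain ⟨n, rfl⟩ : ∃ n, c = n + 3 := ⟨c - 3, by
    obtain ⟨a, ha⟩ := hD
    obtain ⟨a', ha'⟩ := hc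
    omega⟩
  obtain ⟨a, ha⟩ := hc
  obtain ⟨d, hd⟩ := hD
  obtain ⟨i, hi⟩ := hj
  set C := SimpleGraph.cycleGraph (n + 3) with hC
  have hdC : ∀ v, dg Cᶜ v = n := by
    intro v
    have e1 := (hB (Fin (n + 3)) C).2.2.1 v
    have e0 : dg C v = 2 := def_cyc n v
    rw [e0, Fintype.card_fin] at e1
    omega
  have hcard : Fintype.card (Fin (n + 3)) = n + 3 := Fintype.card_fin _
  obtain ⟨H', hH', hdeg, hec⟩ := h1 (Fin (n + 3)) Cᶜ n (D - 1) (by omega)
    (fun v => (hdC v).le) (Or.inr (Or.inl ⟨⟨a - 1, by omega⟩, ⟨d, by omega⟩⟩))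
  have s1 := (hB (Fin (n + 3)) Cᶜ).2.2.2.1
  have s2 := (hB (Fin (n + 3)) H').2.2.2.1
  simp only [hdC, Finset.sum_const, Finset.card_univ, smul_eq_mul, hcard] at s1
  rw [hcard] at hec
  unfold fl at hec
  have e3 : (n + 3) * (D - 1) / 2 * 2 = (n + 3) * (D - 1) := by
    apply Nat.div_mul_cancel
    have : D - 1 = 2 * d := by omega
    rw [this]
    exact Dvd.intro ((n + 3) * d) (by ring)
  have e4 : (n + 3) * n / 2 ≤ (n + 3) * n / 2 := le_refl _
  have e5 : (n + 3) * (D - 1) ≤ ∑ v, dg H' v := by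
    omega
  have hreg : ∀ v, dg H' v = D - 1 := by
    by_contra hne
    push Not at hne
    obtain ⟨v, hv⟩ := hne
    have hlt : ∑ v, dg H' v < ∑ _v : Fin (n + 3), (D - 1) :=
      Finset.sum_lt_sum (fun w _ => hdeg w) ⟨v, Finset.mem_univ v, lt_of_le_of_ne (hdeg v) hv⟩
    simp only [Finset.sum_const, Finset.card_univ, smul_eq_mul, hcard] at hlt
    omega
  have hdis : Dis H' (defM (n + 3) (n + 3 - j)) := by
    intro u v h h'
    have h2 := hH' h
    rw [SimpleGraph.compl_adj] at h2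
    exact h2.2 (defM_le n _ h')
  refine ⟨H' ⊔ defM (n + 3) (n + 3 - j), Finset.univ.filter fun v : Fin (n + 3) =>
    n + 3 - j ≤ (v : ℕ), ?_, ?_, ?_⟩
  · have : (Finset.univ.filter fun v : Fin (n + 3) => n + 3 - j ≤ (v : ℕ)) =
      Finset.Ici (⟨n + 3 - j, by omega⟩ : Fin (n + 3)) := by
      ext v
      simp [Fin.le_def]
    rw [this, Fin.card_Ici]
    simp only
    omega
  · intro v hv
    rw [Finset.mem_filter] at hv
    rw [def_dg_sup _ _ hdis, hreg, defM_dg_zero _ _ _ hv.2]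
    omega
  · intro v hv
    rw [Finset.mem_filter] at hv
    have hv' : (v : ℕ) < n + 3 - j := by
      by_contra h
      exact hv ⟨Finset.mem_univ _, not_lt.1 h⟩
    rw [def_dg_sup _ _ hdis, hreg, defM_dg_one _ _ (by omega) ⟨a - i, by omega⟩ _ hv']
    omega

end H467Aug
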