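import Pool.Agent.H467R2.Aug.Defs

/-!
# MP_30a809_co: second wave (maximum degree slightly below `n/2`, by Tutte's theorem)
-/

set_option autoImplicit false

namespace H467Aug

/-- the range in which the vertices of maximum degree `D` can be covered economically -/
def Good (n D : ℕ) : Prop := n ≤ 2 * D + 1 ∨ (Odd D ∧ n ≤ 2 * D + 4)

/-- PA: Tutte's theorem for matchings covering a given set `U`. -/
def S_PA : Prop := ∀ (V : Type) [Fintype V] (H : SimpleGraph V) (U : Set V),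
  (¬ ∃ M : SimpleGraph V, Mat M ∧ M ≤ H ∧ ∀ v ∈ U, ∃ w, M.Adj v w) →
  ∃ (S : Set V) (F : Finset (Set V)), S.ncard + 1 ≤ F.card ∧
    (∀ C ∈ F, C ⊆ U ∧ Disjoint C S ∧ Odd C.ncard ∧ ∀ v ∈ C, ∀ w, H.Adj v w → w ∈ C ∨ w ∈ S) ∧
    (∀ C ∈ F, ∀ C' ∈ F, C ≠ C' → Disjoint C C')

/-- PB: the obstructions in the good range. -/
def S_PB : Prop := ∀ (V : Type) [Fintype V] (H : SimpleGraph V) (D : ℕ) (S : Set V)
  (F : Finset (Set V)), (∀ v, dg H v ≤ D) → Good (Fintype.card V) D → S.ncard + 1 ≤ F.card →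
  (∀ C ∈ F, C ⊆ {v | dg H v = D} ∧ Disjoint C S ∧ Odd C.ncard ∧
    ∀ v ∈ C, ∀ w, H.Adj v w → w ∈ C ∨ w ∈ S) →
  (∀ C ∈ F, ∀ C' ∈ F, C ≠ C' → Disjoint C C') →
  Even D ∧ Odd {v | dg H v = D}.ncard ∧ Fintype.card V ≤ 2 * D + 1 ∧
    (∀ v w, dg H v = D → H.Adj v w → dg H w = D)

/-- MCA2: as MCA, with `n ≤ 2 D + 1`. -/
def S_MCA2 : Prop := ∀ (V : Type) [Fintype V] (H : SimpleGraph V) (D : ℕ) (M : SimpleGraph V)
  (u v : V), (∀ v, dg H v ≤ D) → Fintype.card V ≤ 2 * D + 1 → Opt H D M → u ≠ v → dg H u = D →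
  dg H v = D → (∀ w, ¬ M.Adj u w) → (∀ w, ¬ M.Adj v w) → False

/-- MC2: as MC, in the good range. -/
def S_MC2 : Prop := ∀ (V : Type) [Fintype V] (H : SimpleGraph V) (D : ℕ),
  (∀ v, dg H v ≤ D) → Good (Fintype.card V) D →
  (∃ M : SimpleGraph V, Mat M ∧ M ≤ H ∧ ∀ v, dg H v = D → ∃ w, M.Adj v w) ∨
  (Even D ∧ Odd {v | dg H v = D}.ncard ∧ (∀ v w, dg H v = D → H.Adj v w → dg H w = D) ∧
    ∃ u, dg H u = D ∧ ∃ M : SimpleGraph V, Mat M ∧ M ≤ H ∧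
      (∀ v, dg H v = D → v ≠ u → ∃ w, M.Adj v w) ∧ (∀ w, ¬ M.Adj u w) ∧
      (∀ v w, M.Adj v w → dg H v = D))

/-- TONE2: as TONE, in the good range. -/
def S_TONE2 : Prop := ∀ (V : Type) [Fintype V] (H : SimpleGraph V) (D : ℕ), 1 ≤ D →
  (∀ v, dg H v ≤ D) → Good (Fintype.card V) D → ∃ H' : SimpleGraph V, H' ≤ H ∧
    (∀ v, dg H' v ≤ D - 1) ∧
    ec H + fl (Fintype.card V) (D - 1) ≤ ec H' + fl (Fintype.card V) D

/-- ODD2: as ODD, in the good range. -/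
def S_ODD2 : Prop := ∀ (V : Type) [Fintype V] (H : SimpleGraph V) (a b : ℕ), b ≤ a →
  (∀ v, dg H v ≤ 2 * a + 1) → Fintype.card V ≤ 4 * a + 6 →
  ∃ H' : SimpleGraph V, H' ≤ H ∧ (∀ v, dg H' v ≤ 2 * b + 1) ∧
    ec H ≤ ec H' + Fintype.card V * (a - b)

/-- RED2: as RED, in the good range. -/
def S_RED2 : Prop := ∀ (V : Type) [Fintype V] (H : SimpleGraph V) (D b : ℕ), b ≤ D →
  (∀ v, dg H v ≤ D) →
  (Good (Fintype.card V) D ∨ (Even D ∧ Even b) ∨ b = 0) →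
  ∃ H' : SimpleGraph V, H' ≤ H ∧ (∀ v, dg H' v ≤ b) ∧
    ec H + fl (Fintype.card V) b ≤ ec H' + fl (Fintype.card V) D

/-- the parameters which are treated -/
def Par2 (n k l : ℕ) : Prop :=
  2 ≤ k ∧ k < l ∧ l < n ∧ (2 * k < n ∨ (2 * k ≤ n + 2 ∧ Even (n - k)) ∨
    (Odd (n - k) ∧ Odd (n - l)) ∨ l + 1 = n)

/-- UP2: the upper bound. -/
def S_UP2 : Prop := ∀ n k l : ℕ, Par2 n k l → ∀ G : SimpleGraph (Fin n), KC G k →
  ∃ H : SimpleGraph (Fin n), G ≤ H ∧ KC H l ∧ ec H + cl n k ≤ ec G + cl n l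

/-- MAIN2: the theorem. -/
def S_MAIN2 : Prop := ∀ n k l : ℕ, Par2 n k l →
  IsLeast {e | Works n k l e} (cl n l - cl n k)

end H467Aug
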