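import Pool.Agent.H467R2.Aug.DefsB

/-!
# MP_30a809_co: third wave (the complete answer for `2 ≤ k < l < n`)

`H` is the complement of the given graph, `D = n - 1 - k` bounds its degrees, `b = n - 1 - l`.
-/

set_option autoImplicit false

namespace H467Aug

/-! ### Numbers -/

/-- number of blocks (two odd parameters) -/
def pP (n D s : ℕ) : ℕ :=
  ((n - s) / (D + 2) - n % 2) - (((n - s) / (D + 2) - n % 2) + s) % 2

/-- the correction term for `D` even, `b` odd -/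
def gEO (n D : ℕ) : ℕ := n / (D + 1) - (n / (D + 1) + n) % 2 - n % 2

/-- the correction term for `D` odd, `b` odd -/
def gOO (n D b : ℕ) : ℕ := (Finset.range (n + 1)).sup fun s => min (pP n D s) (D * s) - b * s

/-- number of blocks (`D` odd, `b` even) -/
def qQ (n D t : ℕ) : ℕ :=
  min ((n - t) / (D + 2)) (D * t) - (min ((n - t) / (D + 2)) (D * t) + n + t) % 2

/-- the correction term for `D` odd, `b` even -/
def gOE (n D b : ℕ) : ℕ :=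
  (Finset.range n).sup fun t => qQ n D (t + 1) + n % 2 - (D - b) * (t + 1)

open scoped Classical in
/-- the correction term -/
noncomputable def gg (n D b : ℕ) : ℕ :=
  if Even D then (if Even b then 0 else gEO n D) else (if Odd b then gOO n D b else gOE n D b)

/-- the extremal number of edges which have to be deleted -/
noncomputable def val (n D b : ℕ) : ℕ := fl n D - fl n b + gg n D b / 2

/-- VAL: the value without halves. -/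
def S_VAL : Prop := ∀ n D b : ℕ, b < D → D < n →
  (Even D → Even b → 2 * val n D b = n * (D - b)) ∧
  (Even D → Odd b →
    2 * val n D b = n * (D - b) + (n / (D + 1) - (n / (D + 1) + n) % 2)) ∧
  (Odd D → Odd b → 2 * val n D b = n * (D - b) + gOO n D b) ∧
  (Odd D → Even b → 2 * val n D b + n % 2 = n * (D - b) + gOE n D b)

/-- GZ: no correction for `n ≤ 2 D + 1`. -/
def S_GZ : Prop := ∀ n D b : ℕ, b < D → D < n → n ≤ 2 * D + 1 → gg n D b = 0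

/-! ### Obstructions to perfect matchings -/

/-- perfect matchings -/
def PM {W : Type} (Γ : SimpleGraph W) : Prop :=
  ∃ M : SimpleGraph W, Mat M ∧ M ≤ Γ ∧ ∀ v, ∃ w, M.Adj v w

/-- families of disjoint odd sets which are closed modulo `X` -/
def CF {W : Type} (Γ : SimpleGraph W) (X : Set W) (F : Finset (Set W)) : Prop :=
  (∀ C ∈ F, Disjoint C X ∧ Odd C.ncard ∧ ∀ v ∈ C, ∀ w, Γ.Adj v w → w ∈ C ∨ w ∈ X) ∧
  (∀ C ∈ F, ∀ C' ∈ F, C ≠ C' → Disjoint C C')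

/-- every vertex of `X` has neighbours in three members of `F` -/
def Three {W : Type} (Γ : SimpleGraph W) (X : Set W) (F : Finset (Set W)) : Prop :=
  ∀ y ∈ X, ∃ C₁ ∈ F, ∃ C₂ ∈ F, ∃ C₃ ∈ F, C₁ ≠ C₂ ∧ C₁ ≠ C₃ ∧ C₂ ≠ C₃ ∧
    (∃ w ∈ C₁, Γ.Adj y w) ∧ (∃ w ∈ C₂, Γ.Adj y w) ∧ (∃ w ∈ C₃, Γ.Adj y w)

/-- VIO: Tutte's theorem with parity. -/
def S_VIO : Prop := ∀ (W : Type) [Finite W] (Γ : SimpleGraph W), Even (Nat.card W) → ¬ PM Γ →
  ∃ (X : Set W) (F : Finset (Set W)), CF Γ X F ∧ X.ncard + 2 ≤ F.card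

/-- CLEAN: clean obstructions. -/
def S_CLEAN : Prop := ∀ (W : Type) [Finite W] (Γ : SimpleGraph W), Even (Nat.card W) →
  (∃ (X : Set W) (F : Finset (Set W)), CF Γ X F ∧ X.ncard + 2 ≤ F.card) →
  ∃ (X : Set W) (F : Finset (Set W)), CF Γ X F ∧ X.ncard + 2 ≤ F.card ∧ Three Γ X F

/-! ### The gadget -/

/-- number of adjacent pairs in `A × B` -/
noncomputable def eb {V : Type} (H : SimpleGraph V) (A B : Set V) : ℕ :=
  {p : V × V | H.Adj p.1 p.2 ∧ p.1 ∈ A ∧ p.2 ∈ B}.ncard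

/-- the vertices of the gadget: darts, `dg v - b` blockers of `v`, `z` dummies -/
abbrev GW {V : Type} (H : SimpleGraph V) (b z : ℕ) : Type :=
  {p : V × V // H.Adj p.1 p.2} ⊕ ((Σ v : V, Fin (dg H v - b)) ⊕ Fin z)

/-- the gadget -/
def gad {V : Type} (H : SimpleGraph V) (b z : ℕ) : SimpleGraph (GW H b z) :=
  SimpleGraph.fromRel fun x y =>
    match x, y with
    | Sum.inl p, Sum.inl q => p.1.1 = q.1.2 ∧ p.1.2 = q.1.1
    | Sum.inl p, Sum.inr (Sum.inl q) => p.1.1 = q.1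
    | Sum.inl _, Sum.inr (Sum.inr _) => True
    | Sum.inr (Sum.inr _), Sum.inr (Sum.inr _) => True
    | _, _ => False

/-- GPM: a perfect matching of the gadget. -/
def S_GPM : Prop := ∀ (V : Type) [Fintype V] (H : SimpleGraph V) (b z : ℕ), PM (gad H b z) →
  ∃ H' : SimpleGraph V, H' ≤ H ∧ (∀ v, dg H' v ≤ b) ∧
    2 * ec H ≤ 2 * ec H' + ∑ v, (dg H v - b) + z

/-- GCARD: the order of the gadget. -/
def S_GCARD : Prop := ∀ (V : Type) [Fintype V] (H : SimpleGraph V) (b z : ℕ),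
  Nat.card (GW H b z) = 2 * ec H + ∑ v, (dg H v - b) + z

/-- GOA0: all dummies are in `X`. -/
def S_GOA0 : Prop := ∀ (V : Type) [Fintype V] (H : SimpleGraph V) (b z : ℕ)
  (X : Set (GW H b z)) (F : Finset (Set (GW H b z))), CF (gad H b z) X F →
  X.ncard + 2 ≤ F.card → ∀ d : Fin z, Sum.inr (Sum.inr d) ∈ X

/-- the structure of a clean obstruction -/
def Str {V : Type} (H : SimpleGraph V) (b z : ℕ) (X : Set (GW H b z)) : Prop :=
  (∀ d : Fin z, Sum.inr (Sum.inr d) ∈ X) ∧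
  (∀ p : {p : V × V // H.Adj p.1 p.2}, Sum.inl p ∈ X → b < dg H p.1.1 ∧
    (∀ q : {p : V × V // H.Adj p.1 p.2}, q.1.1 = p.1.1 → Sum.inl q ∈ X) ∧
    (∀ i : Fin (dg H p.1.1 - b), Sum.inr (Sum.inl ⟨p.1.1, i⟩) ∉ X)) ∧
  (∀ (v : V) (i j : Fin (dg H v - b)), Sum.inr (Sum.inl ⟨v, i⟩) ∈ X →
    Sum.inr (Sum.inl ⟨v, j⟩) ∈ X)

/-- GOA: the structure of a clean obstruction. -/
def S_GOA : Prop := ∀ (V : Type) [Fintype V] (H : SimpleGraph V) (b z : ℕ)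
  (X : Set (GW H b z)) (F : Finset (Set (GW H b z))), CF (gad H b z) X F →
  Three (gad H b z) X F → (∀ d : Fin z, Sum.inr (Sum.inr d) ∈ X) → Str H b z X

/-- `S`: the vertices whose darts are in `X`; `T`: the other vertices whose blockers are in `X` -/
def ST {V : Type} (H : SimpleGraph V) (b z : ℕ) (X : Set (GW H b z)) (S T : Finset V) : Prop :=
  (∀ v, v ∈ S ↔ ∃ p : {p : V × V // H.Adj p.1 p.2}, p.1.1 = v ∧ Sum.inl p ∈ X) ∧
  (∀ v, v ∈ T ↔ v ∉ S ∧ ∀ i : Fin (dg H v - b), Sum.inr (Sum.inl ⟨v, i⟩) ∈ X)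

/-- GB1: lower bound for `X`. -/
def S_GB1 : Prop := ∀ (V : Type) [Fintype V] (H : SimpleGraph V) (b z : ℕ)
  (X : Set (GW H b z)) (S T : Finset V), Str H b z X → ST H b z X S T →
  z + ∑ v ∈ S, dg H v + ∑ v ∈ T, (dg H v - b) ≤ X.ncard

/-- the members of the family in the final obstruction -/
def Kgood {V : Type} (H : SimpleGraph V) (b : ℕ) (S T K : Finset V) : Prop :=
  K.Nonempty ∧ (∀ v ∈ K, v ∉ S ∧ v ∉ T ∧ b < dg H v ∧
    ∀ w, H.Adj v w → w ∈ K ∨ w ∈ S ∨ w ∈ T) ∧ Odd (b * K.card + eb H (K : Set V) (T : Set V))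

/-- GK: a member of the third kind. -/
def S_GK : Prop := ∀ (V : Type) [Fintype V] (H : SimpleGraph V) (b z : ℕ)
  (X : Set (GW H b z)) (S T K : Finset V) (C : Set (GW H b z)), Str H b z X → ST H b z X S T →
  Disjoint C X → Odd C.ncard → (∀ x ∈ C, ∀ y, (gad H b z).Adj x y → y ∈ C ∨ y ∈ X) →
  (∀ (v : V) (i : Fin (dg H v - b)), v ∈ S → Sum.inr (Sum.inl ⟨v, i⟩) ∉ C) →
  (∀ p : {p : V × V // H.Adj p.1 p.2}, p.1.1 ∈ T → p.1.2 ∈ S → Sum.inl p ∉ C) →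
  (∀ v, v ∈ K ↔ v ∉ S ∧ v ∉ T ∧ ∃ p : {p : V × V // H.Adj p.1 p.2}, p.1.1 = v ∧
    Sum.inl p ∈ C) → Kgood H b S T K

/-- GB2: upper bound for `F`. -/
def S_GB2 : Prop := ∀ (V : Type) [Fintype V] (H : SimpleGraph V) (b z : ℕ)
  (X : Set (GW H b z)) (F : Finset (Set (GW H b z))) (S T : Finset V), CF (gad H b z) X F →
  Str H b z X → ST H b z X S T →
  ∃ F' : Finset (Finset V), (∀ K ∈ F', Kgood H b S T K) ∧
    (∀ K ∈ F', ∀ K' ∈ F', K ≠ K' → Disjoint K K') ∧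
    F.card ≤ ∑ v ∈ S, (dg H v - b) + eb H (S : Set V) (T : Set V) + F'.card

/-- the final obstruction -/
def Obs {V : Type} (H : SimpleGraph V) (b z : ℕ) : Prop :=
  ∃ (S T : Finset V) (F : Finset (Finset V)), (∀ v ∈ S, v ∉ T) ∧ (∀ v ∈ S, b < dg H v) ∧
    (∀ K ∈ F, Kgood H b S T K) ∧ (∀ K ∈ F, ∀ K' ∈ F, K ≠ K' → Disjoint K K') ∧
    z + 2 + b * S.card + ∑ v ∈ T, (dg H v - b) ≤ eb H (S : Set V) (T : Set V) + F.card

/-- MM: the min-max theorem. -/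
def S_MM : Prop := ∀ (V : Type) [Fintype V] (H : SimpleGraph V) (b z : ℕ),
  Even (∑ v, (dg H v - b) + z) →
  (∃ H' : SimpleGraph V, H' ≤ H ∧ (∀ v, dg H' v ≤ b) ∧
    2 * ec H ≤ 2 * ec H' + ∑ v, (dg H v - b) + z) ∨ Obs H b z

/-! ### Counting -/

/-- CK: counting in one member. -/
def S_CK : Prop := ∀ (V : Type) [Fintype V] (H : SimpleGraph V) (D b : ℕ) (S T K : Finset V),
  (∀ v, dg H v ≤ D) → (∀ v ∈ S, v ∉ T) → Kgood H b S T K →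
  (∃ i, eb H (K : Set V) (S : Set V) + eb H (K : Set V) (T : Set V) + ∑ v ∈ K, (D - dg H v) +
    2 * i = D * K.card) ∧
  (K.card ≤ D → D ≤ eb H (K : Set V) (S : Set V) + eb H (K : Set V) (T : Set V) +
    ∑ v ∈ K, (D - dg H v))

/-- CG: the edges at `S` (apply it also with `S` and `T` exchanged). -/
def S_CG : Prop := ∀ (V : Type) [Fintype V] (H : SimpleGraph V) (D : ℕ) (S T : Finset V)
  (F : Finset (Finset V)), (∀ v, dg H v ≤ D) → (∀ v ∈ S, v ∉ T) →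
  (∀ K ∈ F, ∀ v ∈ K, v ∉ S ∧ v ∉ T) → (∀ K ∈ F, ∀ K' ∈ F, K ≠ K' → Disjoint K K') →
  eb H (S : Set V) (T : Set V) = eb H (T : Set V) (S : Set V) ∧
  eb H (S : Set V) (T : Set V) + ∑ K ∈ F, eb H (K : Set V) (S : Set V) + ∑ v ∈ S, (D - dg H v) ≤
    D * S.card

/-- the numerical data of an obstruction -/
def Num (n D b X Y : ℕ) {ι : Type} (F : Finset ι) (c e f m i : ι → ℕ)
    (s t mS mT m0 m1 : ℕ) : Prop :=
  (∀ K ∈ F, 1 ≤ c K ∧ e K + f K + m K + 2 * i K = D * c K ∧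
    (c K ≤ D → D ≤ e K + f K + m K) ∧ Odd (b * c K + f K)) ∧
  s + t + ∑ K ∈ F, c K ≤ n ∧
  X + 2 + b * s + mS + mT + m0 + ∑ K ∈ F, m K + ∑ K ∈ F, f K ≤ b * t + F.card + Y ∧
  X + 2 + (D - b) * t + 2 * mS + m0 + ∑ K ∈ F, m K + ∑ K ∈ F, e K ≤
    (D - b) * s + F.card + Y ∧
  Even (n * D + mS + mT + m1 + ∑ K ∈ F, m K) ∧ (1 ≤ m1 → 1 ≤ m0)

/-- CNT: the numerical data of an obstruction. -/
def S_CNT : Prop := ∀ (V : Type) [Fintype V] (H : SimpleGraph V) (D b z X Y : ℕ),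
  (∀ v, dg H v ≤ D) → b < D → z + ∑ v, (dg H v - b) + Y = Fintype.card V * (D - b) + X →
  Obs H b z → ∃ (F : Finset (Finset V)) (c e f m i : Finset V → ℕ) (s t mS mT m0 m1 : ℕ),
    Num (Fintype.card V) D b X Y F c e f m i s t mS mT m0 m1

/-- AEO: `D` even, `b` odd. -/
def S_AEO : Prop := ∀ (n D b : ℕ) (ι : Type) (F : Finset ι) (c e f m i : ι → ℕ)
  (s t mS mT m0 m1 : ℕ), b < D → D < n → Even D → Odd b →
  ¬ Num n D b (n / (D + 1) - (n / (D + 1) + n) % 2) 0 F c e f m i s t mS mT m0 m1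

/-- AOO: `D` odd, `b` odd. -/
def S_AOO : Prop := ∀ (n D b : ℕ) (ι : Type) (F : Finset ι) (c e f m i : ι → ℕ)
  (s t mS mT m0 m1 : ℕ), b < D → D < n → Odd D → Odd b →
  ¬ Num n D b (gOO n D b) 0 F c e f m i s t mS mT m0 m1

/-- AOE: `D` odd, `b` even. -/
def S_AOE : Prop := ∀ (n D b : ℕ) (ι : Type) (F : Finset ι) (c e f m i : ι → ℕ)
  (s t mS mT m0 m1 : ℕ), b < D → D < n → Odd D → Even b →
  ¬ Num n D b (gOE n D b) (n % 2) F c e f m i s t mS mT m0 m1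

/-- UBD: the upper bound. -/
def S_UBD : Prop := ∀ (V : Type) [Fintype V] (H : SimpleGraph V) (D b : ℕ), b < D →
  D < Fintype.card V → (∀ v, dg H v ≤ D) →
  ∃ H' : SimpleGraph V, H' ≤ H ∧ (∀ v, dg H' v ≤ b) ∧ ec H ≤ ec H' + val (Fintype.card V) D b

/-! ### Lower bounds -/

/-- every subgraph of `H` of maximum degree at most `b` misses `(x - y) / 2` edges -/
def Lw {V : Type} (H : SimpleGraph V) (D b x y : ℕ) : Prop :=
  (∀ v, dg H v ≤ D) ∧ ∀ H' : SimpleGraph V, H' ≤ H → (∀ v, dg H' v ≤ b) →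
    2 * ec H' + x ≤ 2 * ec H + y

/-- REG: almost regular graphs. -/
def S_REG : Prop := ∀ c D : ℕ, D < c → ∃ G : SimpleGraph (Fin c), (∀ v, dg G v ≤ D) ∧
  ec G = fl c D

/-- DEF: graphs with all degrees `D`, except `j` degrees `D - 1`. -/
def S_DEF : Prop := ∀ c D j : ℕ, Odd c → Odd D → Odd j → j ≤ D → D + 2 ≤ c →
  ∃ (G : SimpleGraph (Fin c)) (J : Finset (Fin c)), J.card = j ∧ (∀ v ∈ J, dg G v + 1 = D) ∧
    (∀ v, v ∉ J → dg G v = D)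

/-- BLO: `b` odd. -/
def S_BLO : Prop := ∀ (V : Type) [Fintype V] (H' : SimpleGraph V) (b : ℕ) (S : Finset V)
  (F : Finset (Finset V)), Odd b → (∀ v, dg H' v ≤ b) →
  (∀ C ∈ F, Odd C.card ∧ ∀ v ∈ C, v ∉ S ∧ ∀ w, H'.Adj v w → w ∈ C ∨ w ∈ S) →
  (∀ C ∈ F, ∀ C' ∈ F, C ≠ C' → Disjoint C C') →
  2 * ec H' + F.card ≤ b * Fintype.card V + b * S.card

/-- BLE: `b` even. -/
def S_BLE : Prop := ∀ (V : Type) [Fintype V] (H' : SimpleGraph V) (b : ℕ) (T : Finset V)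
  (F : Finset (Finset V)), Even b → (∀ v, dg H' v ≤ b) →
  (∀ C ∈ F, ∀ v ∈ C, v ∉ T ∧ ∀ w, H'.Adj v w → w ∈ C ∨ w ∈ T) →
  (∀ C ∈ F, ∀ C' ∈ F, C ≠ C' → Disjoint C C') → (∀ v, v ∉ T → ∃ C ∈ F, v ∈ C) →
  (∀ v ∈ T, ∀ w ∈ T, ¬ H'.Adj v w) → (∀ C ∈ F, eb H' (C : Set V) (T : Set V) ≤ 1) →
  2 * ec H' + b * T.card ≤ b * Fintype.card V

/-- glueing of blocks: the block `j` has `c j` vertices, and the vertex `u` of a block is joined
to the vertex `φ u` of `Fin s` if `φ u` is defined -/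
def glu {s r : ℕ} (c : Fin r → ℕ) (G : ∀ j, SimpleGraph (Fin (c j)))
    (φ : (Σ j : Fin r, Fin (c j)) → Option (Fin s)) :
    SimpleGraph (Fin s ⊕ (Σ j : Fin r, Fin (c j))) :=
  SimpleGraph.fromRel fun x y =>
    (∃ (j : Fin r) (v w : Fin (c j)), x = Sum.inr ⟨j, v⟩ ∧ y = Sum.inr ⟨j, w⟩ ∧ (G j).Adj v w) ∨
    (∃ (a : Fin s) (u : Σ j : Fin r, Fin (c j)), x = Sum.inl a ∧ y = Sum.inr u ∧ φ u = some a)

/-- GLU: degrees and blocks. -/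
def S_GLU : Prop := ∀ (s r : ℕ) (c : Fin r → ℕ) (G : ∀ j, SimpleGraph (Fin (c j)))
  (φ : (Σ j : Fin r, Fin (c j)) → Option (Fin s)), (∀ j, 1 ≤ c j) →
  (∀ a, dg (glu c G φ) (Sum.inl a) = {u | φ u = some a}.ncard) ∧
  (∀ u, φ u = none → dg (glu c G φ) (Sum.inr u) = dg (G u.1) u.2) ∧
  (∀ u, φ u ≠ none → dg (glu c G φ) (Sum.inr u) = dg (G u.1) u.2 + 1) ∧
  (∀ a a' : Fin s, ¬ (glu c G φ).Adj (Sum.inl a) (Sum.inl a')) ∧
  ∃ (S : Finset (Fin s ⊕ (Σ j : Fin r, Fin (c j))))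
    (B : Fin r → Finset (Fin s ⊕ (Σ j : Fin r, Fin (c j)))),
    (∀ x, x ∈ S ↔ ∃ a, x = Sum.inl a) ∧ S.card = s ∧
    (∀ j x, x ∈ B j ↔ ∃ v, x = Sum.inr ⟨j, v⟩) ∧ (∀ j, (B j).card = c j) ∧
    (∀ j j', j ≠ j' → B j ≠ B j' ∧ Disjoint (B j) (B j')) ∧
    (∀ j, ∀ v ∈ B j, v ∉ S ∧ ∀ w, (glu c G φ).Adj v w → w ∈ B j ∨ w ∈ S)

/-- HEO: block graphs, `D` even. -/
def S_HEO : Prop := ∀ n D p : ℕ, Even D → D < n → 1 ≤ p → (p + n) % 2 = 0 →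
  p * (D + 1) ≤ n → ∃ (V : Type) (_ : Fintype V) (H : SimpleGraph V) (F : Finset (Finset V)),
    Fintype.card V = n ∧ (∀ v, dg H v = D) ∧ F.card = p ∧
    (∀ C ∈ F, Odd C.card ∧ ∀ v ∈ C, ∀ w, H.Adj v w → w ∈ C) ∧
    (∀ C ∈ F, ∀ C' ∈ F, C ≠ C' → Disjoint C C')

/-- HOO: block graphs, `D` odd and `b` odd. -/
def S_HOO : Prop := ∀ n D s q : ℕ, Odd D → 1 ≤ s → D * s < q + D → q ≤ D * s →
  (q + s) % 2 = 0 → (q + n % 2) * (D + 2) + s ≤ n →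
  ∃ (V : Type) (_ : Fintype V) (H : SimpleGraph V) (S : Finset V) (F : Finset (Finset V)),
    Fintype.card V = n ∧ (∀ v, dg H v ≤ D) ∧ 2 * ec H + n % 2 = n * D ∧ S.card = s ∧
    F.card = q + n % 2 ∧
    (∀ C ∈ F, Odd C.card ∧ ∀ v ∈ C, v ∉ S ∧ ∀ w, H.Adj v w → w ∈ C ∨ w ∈ S) ∧
    (∀ C ∈ F, ∀ C' ∈ F, C ≠ C' → Disjoint C C')

/-- HOE: block graphs, `D` odd and `b` even. -/
def S_HOE : Prop := ∀ n D t N : ℕ, Odd D → 1 ≤ t → 1 ≤ N → N ≤ D * t →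
  (N + n + t) % 2 = 0 → N * (D + 2) + t ≤ n →
  ∃ (V : Type) (_ : Fintype V) (H : SimpleGraph V) (T : Finset V) (F : Finset (Finset V)),
    Fintype.card V = n ∧ (∀ v, dg H v ≤ D) ∧ 2 * ec H + D * t = n * D + N ∧ T.card = t ∧
    (∀ C ∈ F, ∀ v ∈ C, v ∉ T ∧ ∀ w, H.Adj v w → w ∈ C ∨ w ∈ T) ∧
    (∀ C ∈ F, ∀ C' ∈ F, C ≠ C' → Disjoint C C') ∧ (∀ v, v ∉ T → ∃ C ∈ F, v ∈ C) ∧
    (∀ v ∈ T, ∀ w ∈ T, ¬ H.Adj v w) ∧ (∀ C ∈ F, eb H (C : Set V) (T : Set V) ≤ 1)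

/-- TR: transport to `Fin n`. -/
def S_TR : Prop := ∀ (V : Type) [Fintype V] (H : SimpleGraph V) (D b x y : ℕ), Lw H D b x y →
  ∃ G : SimpleGraph (Fin (Fintype.card V)), Lw G D b x y

/-- LEO: lower bound, `D` even and `b` odd. -/
def S_LEO : Prop := ∀ n D b p : ℕ, b < D → Even D → Odd b → D < n → 1 ≤ p →
  (p + n) % 2 = 0 → p * (D + 1) ≤ n → ∃ H : SimpleGraph (Fin n), Lw H D b (n * (D - b) + p) 0

/-- LOO: lower bound, `D` odd and `b` odd. -/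
def S_LOO : Prop := ∀ n D b s q : ℕ, b < D → Odd D → Odd b → 1 ≤ s → D * s < q + D →
  q ≤ D * s → (q + s) % 2 = 0 → (q + n % 2) * (D + 2) + s ≤ n →
  ∃ H : SimpleGraph (Fin n), Lw H D b (n * (D - b) + q) (b * s)

/-- LOE: lower bound, `D` odd and `b` even. -/
def S_LOE : Prop := ∀ n D b t N : ℕ, b < D → Odd D → Even b → 1 ≤ t → 1 ≤ N → N ≤ D * t →
  (N + n + t) % 2 = 0 → N * (D + 2) + t ≤ n →
  ∃ H : SimpleGraph (Fin n), Lw H D b (n * (D - b) + N) ((D - b) * t)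

/-- ATT: where the maximum `gOO` is attained. -/
def S_ATT : Prop := ∀ n D b : ℕ, b < D → D < n → Odd D → Odd b → 0 < gOO n D b →
  ∃ s q : ℕ, 1 ≤ s ∧ D * s < q + D ∧ q ≤ D * s ∧ (q + s) % 2 = 0 ∧
    (q + n % 2) * (D + 2) + s ≤ n ∧ gOO n D b + b * s = q

/-- LBD: the lower bound. -/
def S_LBD : Prop := ∀ n D b : ℕ, b < D → D < n → ∃ H : SimpleGraph (Fin n),
  (∀ v, dg H v ≤ D) ∧ ∀ H' : SimpleGraph (Fin n), H' ≤ H → (∀ v, dg H' v ≤ b) →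
    ec H' + val n D b ≤ ec H

/-- FIN: the complete answer for `2 ≤ k`. -/
def S_FIN : Prop := ∀ n k l : ℕ, 2 ≤ k → k < l → l < n →
  IsLeast {e | Works n k l e} (cl n l - cl n k + gg n (n - 1 - k) (n - 1 - l) / 2)

end H467Aug
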