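import Pool.Agent.H467R2.Aug.DefsC

/-!
# MP_30a809_co: closed forms of the correction terms
-/

set_option autoImplicit false

namespace H467Aug

/-- the largest odd number which is at most `x` (and `0` for `x = 0`) -/
def oddfl (x : ℕ) : ℕ := x - (x + 1) % 2

/-- closed form of `gOO` -/
def cOO (n D b : ℕ) : ℕ :=
  (D - b) * (n / (D + 1) ^ 2) + (oddfl ((n % (D + 1) ^ 2 - 1) / (D + 2) - n % 2) - b) -
    (if n % 2 = 1 ∧ n % (D + 1) ^ 2 < D + 2 then 2 else 0)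

/-- closed form of `gOE` -/
def cOE (n D b : ℕ) : ℕ :=
  b * (n / (D + 1) ^ 2) + (oddfl ((n % (D + 1) ^ 2 - 1) / (D + 2) + n % 2) - (D - b))

/-- COO1. -/
def S_COO1 : Prop := ∀ n D b : ℕ, b < D → D < n → Odd D → Odd b → gOO n D b ≤ cOO n D b

/-- COO2. -/
def S_COO2 : Prop := ∀ n D b : ℕ, b < D → D < n → Odd D → Odd b → cOO n D b ≤ gOO n D b

/-- COE1. -/
def S_COE1 : Prop := ∀ n D b : ℕ, b < D → D < n → Odd D → Even b → gOE n D b ≤ cOE n D b

/-- COE2. -/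
def S_COE2 : Prop := ∀ n D b : ℕ, b < D → D < n → Odd D → Even b → cOE n D b ≤ gOE n D b

end H467Aug
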