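import Pool.Agent.H467R2.Aug.DefsC

set_option autoImplicit false

namespace H467Aug

theorem hoe_sizes (n D s r : ℕ) (hD : Odd D) (h : (r + 1) * (D + 2) + s ≤ n)
    (hpar : (r + 1 + n + s) % 2 = 0) :
    ∃ c : Fin (r + 1) → ℕ, (∀ j, Odd (c j)) ∧ (∀ j, D + 2 ≤ c j) ∧ s + ∑ j, c j = n := by
  obtain ⟨d, rfl⟩ := hD
  have hr : (r + 1) * (2 * d + 1 + 2) = r * (2 * d + 1 + 2) + (2 * d + 1 + 2) := by ring
  obtain ⟨x, hx⟩ : ∃ x, x = r * (2 * d + 1 + 2) := ⟨_, rfl⟩
  have hx2 : x % 2 = r % 2 := by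
    rw [hx]
    have : r * (2 * d + 1 + 2) = r + 2 * (r * (d + 1)) := by ring
    omega
  rw [hr, ← hx] at h
  refine ⟨fun j => if (j : ℕ) = r then n - s - x else 2 * d + 1 + 2, ?_, ?_, ?_⟩
  · intro j
    dsimp only
    split_ifs with hj
    · rw [Nat.odd_iff]
      omega
    · exact ⟨d + 1, by ring⟩
  · intro j
    dsimp only
    split_ifs with hj
    · omega
    · exact le_rfl
  · rw [Fin.sum_univ_castSucc]
    have h1 : ∀ j : Fin r, (if ((Fin.castSucc j : Fin (r + 1)) : ℕ) = r then n - s - x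
        else 2 * d + 1 + 2) = 2 * d + 1 + 2 := by
      intro j
      have : ((Fin.castSucc j : Fin (r + 1)) : ℕ) ≠ r := by
        rw [Fin.val_castSucc]
        exact j.2.ne
      rw [if_neg this]
    have h2 : (if ((Fin.last r : Fin (r + 1)) : ℕ) = r then n - s - x
        else 2 * d + 1 + 2) = n - s - x := by
      rw [if_pos (Fin.val_last r)]
    rw [Finset.sum_congr rfl (fun j _ => h1 j), h2]
    simp only [Finset.sum_const, Finset.card_univ, Fintype.card_fin, smul_eq_mul]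
    rw [← hx]
    omega

theorem hoe_adj {s r : ℕ} (c : Fin r → ℕ) (G : ∀ j, SimpleGraph (Fin (c j)))
    (φ : (Σ j : Fin r, Fin (c j)) → Option (Fin s)) (u : Σ j : Fin r, Fin (c j)) (a : Fin s)
    (h : (glu c G φ).Adj (Sum.inr u) (Sum.inl a)) : φ u = some a := by
  unfold glu at h
  rw [SimpleGraph.fromRel_adj] at h
  obtain ⟨-, (⟨j, v, w, h1, h2, h3⟩ | ⟨a', u', h1, h2, h3⟩) |
    (⟨j, v, w, h1, h2, h3⟩ | ⟨a', u', h1, h2, h3⟩)⟩ := h
  · cases h2
  · cases h1
  · cases h1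
  · cases h1
    cases h2
    exact h3

theorem t_HOE (h1 : S_DEF) (h2 : S_GLU) (hB : S_BAS) : S_HOE := by
  intro n D t N hD ht hN hNt hpar hle
  obtain ⟨N, rfl⟩ : ∃ N', N = N' + 1 := ⟨N - 1, by omega⟩
  have hD1 : 1 ≤ D := hD.pos
  obtain ⟨c, hc1, hc2, hc3⟩ := hoe_sizes n D t N hD hle (by omega)
  have h3 : ∀ j, ∃ (G : SimpleGraph (Fin (c j))) (v : Fin (c j)), dg G v + 1 = D ∧
      ∀ w, w ≠ v → dg G w = D := by
    intro j
    obtain ⟨G, J, hJ, hJ1, hJ2⟩ := h1 (c j) D 1 (hc1 j) hD odd_one hD1 (hc2 j)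
    obtain ⟨v, rfl⟩ := Finset.card_eq_one.1 hJ
    exact ⟨G, v, hJ1 v (Finset.mem_singleton_self v), fun w hw =>
      hJ2 w (fun h => hw (Finset.mem_singleton.1 h))⟩
  choose G v hG1 hG2 using h3
  have hf : ∀ j : Fin (N + 1), (j : ℕ) / D < t := by
    intro j
    rw [Nat.div_lt_iff_lt_mul hD1, mul_comm]
    exact lt_of_lt_of_le j.2 hNt
  obtain ⟨f, hf'⟩ : ∃ f : Fin (N + 1) → Fin t, ∀ j, (f j : ℕ) = j / D :=
    ⟨fun j => ⟨j / D, hf j⟩, fun j => rfl⟩
  obtain ⟨φ, hφ⟩ : ∃ φ : (Σ j : Fin (N + 1), Fin (c j)) → Option (Fin t),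
      ∀ u, φ u = if u.2 = v u.1 then some (f u.1) else none := ⟨_, fun u => rfl⟩
  obtain ⟨g1, g2, g3, g4, S, B, g5, g6, g7, g8, g9, g10⟩ :=
    h2 t (N + 1) c G φ (fun j => by have := hc2 j; omega)
  have hset : ∀ a, {u | φ u = some a} =
      (fun j : Fin (N + 1) => (⟨j, v j⟩ : Σ j : Fin (N + 1), Fin (c j))) '' {j | f j = a} := by
    intro a
    ext ⟨j, w⟩
    simp only [Set.mem_setOf_eq, Set.mem_image]
    rw [hφ]
    dsimp only
    constructor
    · intro h
      split_ifs at h with hw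
      · subst hw
        exact ⟨j, Option.some.inj h, rfl⟩
    · rintro ⟨j', h, h'⟩
      cases h'
      rw [if_pos rfl, h]
  have hinj : Function.Injective
      (fun j : Fin (N + 1) => (⟨j, v j⟩ : Σ j : Fin (N + 1), Fin (c j))) := by
    intro j j' h
    exact congrArg Sigma.fst h
  have hdeg1 : ∀ a, dg (glu c G φ) (Sum.inl a) = (Finset.univ.filter (fun j => f j = a)).card := by
    intro a
    rw [g1 a, hset a, Set.ncard_image_of_injective _ hinj, Set.ncard_eq_toFinset_card',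
      Set.toFinset_setOf]
  have hdeg2 : ∀ u, dg (glu c G φ) (Sum.inr u) = D := by
    intro u
    by_cases hu : u.2 = v u.1
    · rw [g3 u (by rw [hφ, if_pos hu]; exact Option.some_ne_none _), hu, hG1]
    · rw [g2 u (by rw [hφ, if_neg hu]), hG2 _ _ hu]
  have hcard : Fintype.card (Fin t ⊕ (Σ j : Fin (N + 1), Fin (c j))) = n := by
    rw [Fintype.card_sum, Fintype.card_sigma]
    simp only [Fintype.card_fin]
    exact hc3
  have hsum := (hB (Fin t ⊕ (Σ j : Fin (N + 1), Fin (c j))) (glu c G φ)).2.2.2.1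
  refine ⟨_, inferInstance, glu c G φ, S, Finset.univ.image B, hcard, ?_, ?_, g6, ?_, ?_, ?_,
    ?_, ?_⟩
  · rintro (a | u)
    · rw [hdeg1]
      have h5 : (Finset.univ.filter (fun j => f j = a)).card ≤ (Finset.range D).card := by
        refine Finset.card_le_card_of_injOn (fun j => (j : ℕ) % D) ?_ ?_
        · intro j _
          simpa using Nat.mod_lt _ hD1
        · intro j hj j' hj' h
          simp only [Finset.coe_filter, Finset.mem_univ, true_and, Set.mem_setOf_eq] at hj hj'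
          have e1 : (j : ℕ) / D = j' / D := by rw [← hf' j, ← hf' j', hj, hj']
          have e2 : (j : ℕ) % D = j' % D := h
          have e3 := Nat.div_add_mod (j : ℕ) D
          have e4 := Nat.div_add_mod (j' : ℕ) D
          rw [e1, e2] at e3
          exact Fin.ext (e3.symm.trans e4)
      rwa [Finset.card_range] at h5
    · exact (hdeg2 u).le
  · rw [← hsum, Fintype.sum_sum_type, Finset.sum_congr rfl (fun a _ => hdeg1 a),
      Finset.sum_congr rfl (fun u _ => hdeg2 u)]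
    have h6 : ∑ a : Fin t, (Finset.univ.filter (fun j => f j = a)).card = N + 1 := by
      have := Finset.card_eq_sum_card_fiberwise (f := f) (s := Finset.univ) (t := Finset.univ)
        (fun _ _ => Finset.mem_univ _)
      rw [← this, Finset.card_univ, Fintype.card_fin]
    rw [h6, Finset.sum_const, Finset.card_univ, Fintype.card_sigma]
    simp only [Fintype.card_fin, smul_eq_mul]
    rw [← hc3]
    ring
  · intro C hC
    obtain ⟨j, -, rfl⟩ := Finset.mem_image.1 hC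
    exact g10 j
  · intro C hC C' hC' hne
    obtain ⟨j, -, rfl⟩ := Finset.mem_image.1 hC
    obtain ⟨j', -, rfl⟩ := Finset.mem_image.1 hC'
    exact (g9 j j' (fun h => hne (by rw [h]))).2
  · rintro (a | u) hx
    · exact absurd ((g5 _).2 ⟨a, rfl⟩) hx
    · exact ⟨B u.1, Finset.mem_image_of_mem _ (Finset.mem_univ _), (g7 _ _).2 ⟨u.2, rfl⟩⟩
  · intro x hx y hy
    obtain ⟨a, rfl⟩ := (g5 _).1 hx
    obtain ⟨a', rfl⟩ := (g5 _).1 hy
    exact g4 a a'
  · intro C hC
    obtain ⟨j, -, rfl⟩ := Finset.mem_image.1 hC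
    unfold eb
    rw [Set.ncard_le_one_iff]
    rintro ⟨x, y⟩ ⟨x', y'⟩ ⟨h1, h2, h3⟩ ⟨h1', h2', h3'⟩
    obtain ⟨w, rfl⟩ := (g7 _ _).1 (Finset.mem_coe.1 h2)
    obtain ⟨w', rfl⟩ := (g7 _ _).1 (Finset.mem_coe.1 h2')
    obtain ⟨a, rfl⟩ := (g5 _).1 (Finset.mem_coe.1 h3)
    obtain ⟨a', rfl⟩ := (g5 _).1 (Finset.mem_coe.1 h3')
    have e1 := hoe_adj c G φ _ _ h1
    have e2 := hoe_adj c G φ _ _ h1'
    rw [hφ] at e1 e2
    dsimp only at e1 e2
    split_ifs at e1 e2 with hw hw'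
    subst hw
    subst hw'
    rw [← Option.some.inj e1, ← Option.some.inj e2]

end H467Aug
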