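import Pool.Agent.H467R2.Aug.Defs

set_option autoImplicit false

namespace H467Aug

open scoped Classical in
theorem orm_two {V : Type} (E : Multiset (V × V)) (g : V × V → V) (v : V)
    (h : 2 ≤ (E.map g).count v) : ∃ p q R, E = p ::ₘ q ::ₘ R ∧ g p = v ∧ g q = v := by
  rw [Multiset.le_count_iff_replicate_le] at h
  obtain ⟨T, hT⟩ := Multiset.le_iff_exists_add.mp h
  have h2 : E.map g = v ::ₘ v ::ₘ T := by
    rw [hT]
    simp [Multiset.replicate_succ]
  have hp : v ∈ E.map g := by rw [h2]; exact Multiset.mem_cons_self _ _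
  obtain ⟨p, hpE, hpv⟩ := Multiset.mem_map.mp hp
  obtain ⟨E1, rfl⟩ := Multiset.exists_cons_of_mem hpE
  rw [Multiset.map_cons, hpv] at h2
  have h3 := (Multiset.cons_inj_right _).mp h2
  have hq : v ∈ E1.map g := by rw [h3]; exact Multiset.mem_cons_self _ _
  obtain ⟨q, hqE, hqv⟩ := Multiset.mem_map.mp hq
  obtain ⟨E2, rfl⟩ := Multiset.exists_cons_of_mem hqE
  exact ⟨p, q, E2, rfl, hpv, hqv⟩

theorem t_ORM : S_ORM := by
  classical
  intro V S
  induction hn : S.card using Nat.strong_induction_on generalizing S with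
  | _ n ih =>
    by_cases hdec : ∃ u v w R, S = s(u, v) ::ₘ s(v, w) ::ₘ R
    · obtain ⟨u, v, w, R, rfl⟩ := hdec
      obtain ⟨E', hE', hb⟩ := ih (s(u, w) ::ₘ R).card (by
        simp only [Multiset.card_cons] at hn ⊢; omega) (s(u, w) ::ₘ R) rfl
      have hmem : s(u, w) ∈ E'.map (fun p => s(p.1, p.2)) := by
        rw [hE']; exact Multiset.mem_cons_self _ _
      obtain ⟨p, hp, hpe⟩ := Multiset.mem_map.mp hmem
      obtain ⟨E'', rfl⟩ := Multiset.exists_cons_of_mem hp
      simp only [Multiset.map_cons] at hE'
      rw [hpe] at hE'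
      have hR := (Multiset.cons_inj_right _).mp hE'
      obtain ⟨a, b⟩ := p
      simp only [Multiset.map_cons] at hb
      rcases Sym2.eq_iff.mp hpe with ⟨h1, h2⟩ | ⟨h1, h2⟩
      · simp only at h1 h2
        subst h1 h2
        refine ⟨(a, v) ::ₘ (v, b) ::ₘ E'', ?_, ?_⟩
        · simp only [Multiset.map_cons, hR]
        · intro x
          have := hb x
          simp only [Multiset.map_cons, Multiset.count_cons] at this ⊢
          omega
      · simp only at h1 h2
        subst h1 h2
        refine ⟨(a, v) ::ₘ (v, b) ::ₘ E'', ?_, ?_⟩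
        · simp only [Multiset.map_cons, hR]
          rw [Multiset.cons_swap, Sym2.eq_swap (a := v) (b := b), Sym2.eq_swap (a := a) (b := v)]
        · intro x
          have := hb x
          simp only [Multiset.map_cons, Multiset.count_cons] at this ⊢
          omega
    · have hout : ∀ e : Sym2 V, s((Quot.out e).1, (Quot.out e).2) = e := fun e => Quot.out_eq e
      have hmap : (S.map Quot.out).map (fun p : V × V => s(p.1, p.2)) = S := by
        rw [Multiset.map_map]
        conv_rhs => rw [← Multiset.map_id S]
        exact Multiset.map_congr rfl (fun e _ => hout e)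
      refine ⟨S.map Quot.out, hmap, ?_⟩
      intro v
      have h1 : ((S.map Quot.out).map Prod.fst).count v ≤ 1 := by
        by_contra hc
        obtain ⟨p, q, R, hE, hp, hq⟩ := orm_two (S.map Quot.out) Prod.fst v (by omega)
        apply hdec
        refine ⟨p.2, v, q.2, R.map (fun p : V × V => s(p.1, p.2)), ?_⟩
        rw [← hmap, hE]
        simp only [Multiset.map_cons, hp, hq]
        rw [Sym2.eq_swap (a := v) (b := p.2)]
      have h2 : ((S.map Quot.out).map Prod.snd).count v ≤ 1 := by
        by_contra hc
        obtain ⟨p, q, R, hE, hp, hq⟩ := orm_two (S.map Quot.out) Prod.snd v (by omega)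
        apply hdec
        refine ⟨p.1, v, q.1, R.map (fun p : V × V => s(p.1, p.2)), ?_⟩
        rw [← hmap, hE]
        simp only [Multiset.map_cons, hp, hq]
        rw [Sym2.eq_swap (a := q.1) (b := v)]
      constructor
      · exact le_trans h1 (by omega)
      · exact le_trans h2 (by omega)

end H467Aug
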