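import Pool.Agent.H467R2.Aug.Defs

/-! # UP: the upper bound -/

set_option autoImplicit false

namespace H467Aug

theorem up_fl (n k : ℕ) (hk : k ≤ n - 1) : fl n (n - 1 - k) + cl n k = n * (n - 1) / 2 := by
  have h1 : n * (n - 1 - k) + n * k = n * (n - 1) := by
    rw [← Nat.mul_add]; congr 1; omega
  have h2 : Even (n * (n - 1)) := Nat.even_mul_pred_self n
  obtain ⟨c, hc⟩ := h2
  unfold fl cl
  omega

theorem up_step (h1 : S_STEP) (n k : ℕ) (hk : 2 ≤ k) (G : SimpleGraph (Fin n)) (hG : KC G k)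
    (d : ℕ) : 2 * (k + d) ≤ n → ∃ H : SimpleGraph (Fin n), G ≤ H ∧ KC H (k + d) ∧
      ec H + cl n k ≤ ec G + cl n (k + d) := by
  induction d with
  | zero => intro _; exact ⟨G, le_refl _, hG, le_refl _⟩
  | succ d ih =>
    intro hd
    obtain ⟨H, hGH, hKC, hec⟩ := ih (by omega)
    obtain ⟨H', hHH', hKC', hec'⟩ := h1 (Fin n) H (k + d) (by omega)
      (by rw [Fintype.card_fin]; omega) hKC
    rw [Fintype.card_fin] at hec'
    exact ⟨H', hGH.trans hHH', hKC', by rw [← Nat.add_assoc]; omega⟩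

theorem t_UP (h1 : S_STEP) (h2 : S_RED) (h3 : S_CHA) (hB : S_BAS) : S_UP := by
  intro n k l hP G hG
  obtain ⟨hk, hkl, hln, hcase⟩ := hP
  by_cases hl : 2 * l ≤ n
  · obtain ⟨H, a, b, c⟩ := up_step h1 n k hk G hG (l - k) (by omega)
    have e : k + (l - k) = l := by omega
    rw [e] at b c
    exact ⟨H, a, b, c⟩
  · obtain ⟨_, _, hdeg, _, hec, _, _, _, _, _, _, _, hKCd⟩ := hB (Fin n) G
    have hdG : ∀ v, k ≤ dg G v := hKCd k hG (by rw [Fintype.card_fin]; omega)
    obtain ⟨H', hH'le, hH'deg, hH'ec⟩ := h2 (Fin n) Gᶜ (n - 1 - k) (n - 1 - l) (by omega)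
      (by
        intro v
        have h := hdeg v
        rw [Fintype.card_fin] at h
        have := hdG v
        omega)
      (by
        rw [Fintype.card_fin]
        rcases hcase with h | h | ⟨h, h'⟩ | ⟨h, h'⟩ | h
        · left; omega
        · exact absurd h hl
        · right; right; left
          refine ⟨by omega, ?_⟩
          obtain ⟨c, hc⟩ := h'
          exact ⟨c - 1, by omega⟩
        · right; left
          obtain ⟨c, hc⟩ := h
          obtain ⟨c', hc'⟩ := h'
          exact ⟨⟨c, by omega⟩, ⟨c', by omega⟩⟩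
        · right; right; right; omega)
    obtain ⟨_, _, hdeg', _, hec', _⟩ := hB (Fin n) H'
    rw [Fintype.card_fin] at hH'ec hec hec'
    refine ⟨H'ᶜ, ?_, ?_, ?_⟩
    · rw [← compl_compl G]
      exact compl_le_compl hH'le
    · refine h3 (Fin n) H'ᶜ l ?_ (by rw [Fintype.card_fin]; omega)
      intro v
      have h := hdeg' v
      rw [Fintype.card_fin] at h
      have := hH'deg v
      omega
    · have e1 := up_fl n k (by omega)
      have e2 := up_fl n l (by omega)
      omega

end H467Aug
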